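import Mathlib
import Pool.Agent.Work.MP_a8fbd7_nt.OX.CELL.LVh
import Pool.Agent.Work.MP_a8fbd7_nt.OX.CollInt
import Pool.Agent.Work.MP_a8fbd7_nt.OX.ASM.Stmts

/-!
# MP_a8fbd7_nt, block OX, part SQ (windows shorter than Oppermann's): definitions.  Captain helper50.

GOAL.  For `(θ, ψ) = (3/4, 39/40)` and `(73/100, 99/100)` there is a set `E` of naturals with at most `N^ψ` elements up to `N`
such that, as `n → ∞` outside `E`, uniformly for `n^θ ≤ y ≤ n`, all intervals `(c, c+y]` and `(c-y, c]`,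
`c = n² - n, n², n² + n` (end points of the intervals of Oppermann), contain `~ y/(2 log n)` primes.

NOTATION.  `T` is the length of the block of `n`; the points are QUARTER SQUARES `x = (m/2)²`, `T² ≤ x ≤ 4T²` (`n² ± n` and
`(n ± 1/2)²` differ by `1/4`); the windows are `[x, x + x/V]`, `T/2 ≤ V ≤ 4 T^h`, `h = 2 - θ`; the heights of the Dirichlet
polynomials are `T' ≤ T^(h+ε)`; the resonating sets `S` have at least `T^r` points.  `(h, r) = (5/4, 973/1000)` and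
`(127/100, 988/1000)`.  The main difference with the blocks CELL and ASM: the mean value uses the structure of the quarter squares
(`StEq`), the sets `S` may be dense.
-/

set_option autoImplicit false

open MeasureTheory Set Filter Topology

noncomputable section

namespace Pool.Agent.Work.MP_a8fbd7_nt.OX.SQ

open Pool.Agent.Work.MP_56b8f5_nt.UC (IsWt Bl Dp Om psi eta Sep)
open Pool.Agent.Work.MP_a8fbd7_nt.OX
open Pool.Agent.Work.MP_a8fbd7_nt.OX.CELL (LVp GMh JTh)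

/-- the finite set `S` consists of quarter squares `(m/2)²` of `[T², 4T²]` -/
def QS (S : Finset ℝ) (T : ℝ) : Prop := ∀ x ∈ S, T ^ 2 ≤ x ∧ x ≤ 4 * T ^ 2 ∧ ∃ m : ℕ, x = ((m : ℝ) / 2) ^ 2

/-- every set of quarter squares of `[T², 4T²]` with the property `P` has at most `B` elements -/
def PQ (T : ℝ) (P : ℝ → Prop) (B : ℝ) : Prop := ∀ S : Finset ℝ, QS S T → (∀ x ∈ S, P x) → (S.card : ℝ) ≤ B

/-- discrete twelfth moment bound for the block `a` of length `N` on `[T', 2T']` -/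
def M12 (a : ℕ → ℂ) (N T' B : ℝ) : Prop := ∀ W : Finset ℝ, Sep W → (∀ t ∈ W, T' ≤ t ∧ t ≤ 2 * T') →
  ∑ t ∈ W, ‖PB a N t‖ ^ 12 ≤ B * N ^ 6

/-- all inequalities for one block `T^b` with gain `T^w` on a class of measure `T^tau` (heights up to `T^h`, `T^r` points, total gain
`T^W`, tolerance `s`) -/
structure CD (h r b w tau W s : ℝ) (Q : ℕ) : Prop where
  t0 : 0 ≤ tau
  t1 : tau ≤ h + s
  Wt : W ≤ tau + s
  triv : r + 2 * W ≤ tau + h + s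
  lv : ∀ k : ℕ, 1 ≤ k → k * b ≤ 2 → LVp h (k * b) (k * w) tau s Q
  co : ∀ j : ℕ, j * b ≤ 2 → 2 * r + 2 * W - 2 * (j * w) ≤ tau + max (h + 1 - j * b) 2 + s

/-- the data of a class -/
structure Cls (h r : ℝ) {m : ℕ} (b w : Fin m → ℝ) (tau W s : ℝ) (Q : ℕ) : Prop where
  w0 : ∀ i, 0 ≤ w i
  t0 : 0 ≤ tau
  t1 : tau ≤ h + s
  Wt : W ≤ tau + s
  triv : r + 2 * W ≤ tau + h + s
  cd : ∀ i, CD h r (b i) (w i) tau W s Q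

/-! ### The tables (`v = w/b` is the relative gain) -/

/-- table A on the rectangle `1/50 ≤ b ≤ 99/200`, `1/50 ≤ w/b ≤ 1/2` -/
def TabA0 (h r : ℝ) : Prop := ∃ s : ℝ, 0 < s ∧ ∃ Q : ℕ, ∀ b w tau W : ℝ, 1 / 50 ≤ b → b ≤ 99 / 200 → b / 50 ≤ w → w ≤ b / 2 →
  (2 * w ≤ (W + s) * b ∨ (b ≤ 41 / 100 ∧ 1999 / 1000 * w ≤ (W + s) * b)) → CD h r b w tau W s Q → False

/-- table A for all `0 < b ≤ 99/200`, `0 < v0 ≤ w/b ≤ 1/2` -/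
def TabA (h r : ℝ) : Prop := ∀ v0 : ℝ, 0 < v0 → ∃ s : ℝ, 0 < s ∧ ∃ Q : ℕ, ∀ b w tau W : ℝ, 0 < b → b ≤ 99 / 200 → v0 * b ≤ w →
  w ≤ b / 2 → (2 * w ≤ (W + s) * b ∨ (b ≤ 41 / 100 ∧ 1999 / 1000 * w ≤ (W + s) * b)) → CD h r b w tau W s Q → False

/-- table B: blocks of length `T^(1/2)` -/
def TabB (h r : ℝ) : Prop := ∃ s : ℝ, 0 < s ∧ ∃ Q : ℕ, ∀ b w tau W : ℝ, 99 / 200 ≤ b → b ≤ 101 / 200 → 7 / 100 * b ≤ w →
  w ≤ b / 2 → 2 * w ≤ (W + s) * b → CD h r b w tau W s Q → False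

/-- table J: long smooth blocks (twelfth moment) -/
def TabJ (h r : ℝ) : Prop := ∃ s : ℝ, 0 < s ∧ ∃ Q : ℕ, ∀ b w tau W : ℝ, 1 / 2 ≤ b → b ≤ h / 2 + 3 / 100 → 0 ≤ w → w ≤ b / 2 →
  2 * w ≤ (W + s) * b → tau ≤ 12 * w - 6 * b + 2 * h + s → CD h r b w tau W s Q → False

/-- table R: reflected blocks longer than `T^(1/2)` (total length at most `T^(2 - (h/2 + 1/40 - b))`) -/
def TabR (h r : ℝ) : Prop := ∃ s : ℝ, 0 < s ∧ ∃ Q : ℕ, ∀ b w tau W : ℝ, 1 / 2 ≤ b → b ≤ h / 2 - 1 / 40 → b / 50 ≤ w → w ≤ b / 2 →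
  2 * w + (b / 2 - w) * (h / 2 + 1 / 40 - b) ≤ (W + s) * b → CD h r b w tau W s Q → False

/-- admissible pairs `(h, r)` -/
structure Adm (h r : ℝ) : Prop where
  h1 : 1 ≤ h
  h2 : h ≤ 127 / 100
  r1 : 9 / 10 ≤ r
  r2 : r ≤ 1
  A : TabA h r
  B : TabB h r
  J : TabJ h r
  R : TabR h r

open Classical in
/-- **CELL THEOREM B** (general blocks, total length `T^(2±ε)`, no long blocks, losses of powers of `log T`) -/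
def StCellB (h r : ℝ) : Prop := ∀ β : ℝ, 0 < β → β ≤ 1 / 20 → ∃ κ : ℝ, 0 < κ ∧ κ ≤ β / 100 ∧ ∀ η : ℝ, 0 < η → η ≤ 1 / 20 →
  ∃ ε : ℝ, 0 < ε ∧ ε ≤ 1 / 1000 ∧ ∀ A : ℝ, 0 < A → ∃ A1 C : ℝ, 0 < A1 ∧ 1 ≤ C ∧
  ∀ (T T' : ℝ) (m : ℕ) (a : Fin m → ℕ → ℂ) (N : Fin m → ℝ) (S : Finset ℝ) (c : ℝ → ℂ),
  C ≤ T → 1 ≤ T' → T' ≤ T ^ (h + ε) →
  (∀ i, IsBlk (a i) (N i)) → (∀ i, T ^ η / 2 ≤ N i ∧ N i ≤ T ^ (1 / 2 + κ)) →
  T ^ (2 - ε) ≤ ∏ i, N i → ∏ i, N i ≤ T ^ (2 + ε) →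
  T ^ β ≤ ∏ i ∈ Finset.univ.filter (fun i => N i ≤ T ^ (41 / 100 : ℝ)), N i →
  (∀ i, ∀ t ∈ Icc T' (2 * T'), ‖PB (a i) (N i) t‖ ≤ N i / Real.log T ^ A1) →
  QS S T → (∀ x, ‖c x‖ ≤ 1) →
  S.card * (∏ i, N i) / Real.log T ^ A ≤ ∫ t in T'..(2 * T'), ‖GS S c t‖ * ∏ i, ‖PB (a i) (N i) t‖ →
  (S.card : ℝ) ≤ C * T ^ r

/-- **CELL THEOREM A** (total length `T^ν`; the blocks `i ∈ J` are long smooth blocks which have not been reflected; the other blocks are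
general, those longer than `T^(101/200)` come from reflections) -/
def StCellA (h r : ℝ) : Prop := ∃ ε : ℝ, 0 < ε ∧ ε ≤ 1 / 1000 ∧ ∀ η : ℝ, 0 < η → η ≤ 1 / 20 → ∃ C : ℝ, 1 ≤ C ∧
  ∀ (T T' ν : ℝ) (m : ℕ) (J : Finset (Fin m)) (a : Fin m → ℕ → ℂ) (N : Fin m → ℝ) (S : Finset ℝ) (c : ℝ → ℂ),
  C ≤ T → 1 ≤ T' → T' ≤ T ^ (h + ε) →
  (∀ i, IsBlk (a i) (N i)) → (∀ i, T ^ η / 2 ≤ N i) →
  (∀ i ∈ J, T ^ (1 / 2 : ℝ) ≤ N i ∧ N i ≤ T ^ (h / 2 + 3 / 100) ∧ M12 (a i) (N i) T' (T ^ (2 * h + ε))) →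
  (∀ i, i ∉ J → N i ≤ T ^ (101 / 200 : ℝ) ∨ (N i ≤ T ^ (h / 2 - 1 / 40) ∧ T ^ ν ≤ T ^ (2 - (h / 2 + 1 / 40)) * N i)) →
  ∏ i, N i = T ^ ν → ν ≤ 2 + ε → (J.Nonempty ∨ ν ≤ 2 - 1 / 20) →
  QS S T → (∀ x, ‖c x‖ ≤ 1) →
  S.card * T ^ (1 + ν / 2 - ε) ≤ ∫ t in T'..(2 * T'), ‖GS S c t‖ * ∏ i, ‖PB (a i) (N i) t‖ →
  (S.card : ℝ) ≤ C * T ^ r

/-! ### Final statement -/

/-- number of primes in `(a, b]` -/
def pc (a b : ℝ) : ℝ := (((Finset.Icc 1 ⌊b⌋₊).filter (fun p : ℕ => p.Prime ∧ a < (p : ℝ))).card : ℝ)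

/-- `n` is bad for `(θ, δ)`: some interval of length `y ∈ [n^θ, n]` with an end point at `n² - n`, `n²` or `n² + n` has a wrong number of
primes, with a relative error larger than `δ` -/
def Bad (θ δ : ℝ) (n : ℕ) : Prop := ∃ y : ℝ, (n : ℝ) ^ θ ≤ y ∧ y ≤ n ∧ ∃ c : ℝ,
  (c = (n : ℝ) ^ 2 - n ∨ c = (n : ℝ) ^ 2 ∨ c = (n : ℝ) ^ 2 + n) ∧
  (δ < |2 * Real.log n / y * pc c (c + y) - 1| ∨ δ < |2 * Real.log n / y * pc (c - y) c - 1|)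

open Classical in
/-- the number of bad `n ≤ N` -/
def Core (θ r : ℝ) : Prop := ∀ δ : ℝ, 0 < δ → ∃ C : ℝ, ∀ N : ℕ, 1 ≤ N →
  ((((Finset.Icc 1 N).filter (Bad θ δ)).card : ℕ) : ℝ) ≤ C * (N : ℝ) ^ r

end Pool.Agent.Work.MP_a8fbd7_nt.OX.SQ
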