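import Mathlib
import Pool.Agent.Work.MP_a8fbd7_nt.OX.SQ.Defs

/-!
# MP_a8fbd7_nt, block OX, part SQ: statements of the items, each with its proof in the docstring.  Captain helper50.

Every item is `theorem iNAME (h1 : StA) ... : StNAME := ...` in the file `OX/SQ/I_NAME.lean` (namespace
`Pool.Agent.Work.MP_a8fbd7_nt.OX.SQ`); it may use the statements listed in its docstring as hypotheses (items of this file, and items of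
the blocks ASM, CELL, LV, UC, which are all proved).  Many items are modifications of finished files of the blocks CELL and ASM; the model
file is named in the docstring: copy it and change it (lemmas of the model files may be imported and reused; auxiliary lemmas get a
new namespace `NAMEq`).  Constants `C` depend only on the parameters quantified before them.
-/

set_option autoImplicit false

open MeasureTheory Set Filter Topology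

noncomputable section

namespace Pool.Agent.Work.MP_a8fbd7_nt.OX.SQ

open Pool.Agent.Work.MP_56b8f5_nt.UC (IsWt Bl Dp Om psi eta Sep)
open Pool.Agent.Work.MP_a8fbd7_nt.OX
open Pool.Agent.Work.MP_a8fbd7_nt.OX.ASM
open Pool.Agent.Work.MP_a8fbd7_nt.OX.CELL (LVp GMh JTh)
open Pool.Agent.Work.MP_a8fbd7_nt.OX.ID (Rough roughOne pb rg)

/-! ### Part 1: the mean value for quarter squares -/

/-- ITEM Eq (collisions of quarter squares; elementary; tools in `OX/Coll.lean`: `Ec`, `Ec_le`, `Pc`, `mem_Pc`, `card_le_of_sep`, `log_sep`, and the proof of `Qc_triv`).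
`K = ⌊4T⌋`.  By `Ec_le`: `Ec ≤ N ∑_{(c,d) ∈ Pc N} qc S δ c d / max(c,d)`, and `qc S δ c d` counts pairs `u = 2 log(m/2)`, `v = 2 log(m'/2)`, `m, m' ≤ K`, with
`|2 log m - 2 log m' + log c - log d| ≤ δ`.  Sort the pairs `(m, m')` by their reduced form `(a, q) ∈ Pc K`, `m = g a`, `m' = g q`: at most `K/max(a,q)` values of `g` (as in `Ec_eq`).  So
`Ec ≤ N K ∑_{(c,d) ∈ Pc N} ∑_{(a,q) ∈ Pc K} 1[|2 log a - 2 log q + log c - log d| ≤ δ] / (max(a,q) max(c,d))`.  Dyadic ranges `2^i ≤ max(a,q) < 2^{i+1}`, `2^j ≤ max(c,d) < 2^{j+1}` (`i ≤ log2 K`, `j ≤ log2 N`), `Q = 2^{i+1}`, `D = 2^{j+1}`: the number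
`P(Q,D)` of quadruples is at most `Q²(1 + 2δD²)` (for given `(a,q)` the reduced fractions `c/d` of height `≤ D` have logarithms `1/D²`-separated, `card_le_of_sep`) and at most `D²(1 + 2δQ²)` (for given `(c,d)`; the numbers
`2 log a - 2 log q` are even `2/Q²`-separated), so `P ≤ min(Q²,D²) + 2δQ²D² ≤ QD + 2δQ²D²`.  Its contribution is `≤ N K (4/(QD)) (QD + 2δQ²D²) = 4NK(1 + 2δQD)`.  Sum over `i, j`: `(1 + log2 K)(1 + log2 N) 4NK + 8δNK (∑_i 2^{i+1})(∑_j 2^{j+1}) ≤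
C (log T)² T N + 8δ NK·(4K)(4N)`. -/
def StEq : Prop := ∃ C : ℝ, 1 ≤ C ∧ ∀ (T δ : ℝ) (N : ℕ) (S : Finset ℝ), 2 ≤ T → 0 < δ → (N : ℝ) ≤ T ^ 3 →
  (∀ u ∈ S, ∃ m : ℕ, 1 ≤ m ∧ (m : ℝ) ≤ 4 * T ∧ u = 2 * Real.log ((m : ℝ) / 2)) →
  (Ec S δ N : ℝ) ≤ C * (Real.log T ^ 2 * (T * N) + δ * (T ^ 2 * (N : ℝ) ^ 2))

/-- ITEM Mq (mean value inequalities on a class; uses StEq, `StPf`, `coll_int` of `OX/CollInt.lean`; model: `OX/CELL/CollE.lean`, theorems `GS_log`, `cs_set`, `coll_E1`, `coll_E`; `GS_cont`, `PB_cont`, `GS_le` need `LSep`: prove them again for sets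
of positive reals).  `U = log S` (image), `bb u = c(e^u)`: `GS S c t = ∑_U bb u e^{iut}`; `u = log (m/2)² = 2 log(m/2)`, `m ≤ 4T`.
FIRST INEQUALITY: `coll_int` with `N = 1`, `a 1 = 1`, interval `[T', 2T']`: `∫_{T'}^{2T'} |GS|² ≤ 64 T' Ec U (1/T') 1`, and for given `u` at most `1 + 8T/T'` points `v ∈ U` have `|u - v| ≤ 1/T'` (`|2 log m - 2 log m'| ≥ 2/(4T)`), so `∫ |GS|² ≤ 64 #S (T' + 8T) ≤ C #S T^{h+s/16}`.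
`(#S T^X)² ≤ (∫_E |GS|)² ≤ vol(E) ∫ |GS|²` (`cs_set`), divide by `#S`, use `T^r ≤ #S`, and `thr`/`expo` for the constants.
SECOND: `p` the coefficients of `PB a N ^ j`, length `M ≤ 2^j T^{jb} ≤ T^3`, `|p| ≤ T^{s/16}` (`pow_dpc`; `j ≤ 2/η`, `fin_thr`), `coll_int` and StEq with `δ = 1/T'`: `∫ |PB|^{2j} |GS|² ≤ 64 T^{s/8} T' Ec ≤ C T^{s/8} ((log T)² T' T M + T² M²)`.
`(T^{j(b-w)} #S T^X)² ≤ vol(E) ∫ |PB|^{2j} |GS|²`: `2j(b-w) + 2r + 2X ≤ τ + max(h + 1 + jb, 2 + 2jb) + s`.  (No condition on the size of `S`.) -/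
def StMq : Prop := ∀ s η : ℝ, 0 < s → s ≤ 1 → 0 < η → ∃ C : ℝ, 1 ≤ C ∧
  ∀ (T T' h r : ℝ) (S : Finset ℝ) (c : ℝ → ℂ) (E : Set ℝ) (X τ : ℝ), C ≤ T → 1 ≤ h → h ≤ 3 / 2 → 1 ≤ T' → T' ≤ T ^ (h + s / 16) →
    QS S T → 1 ≤ S.card → T ^ r ≤ S.card → (∀ x, ‖c x‖ ≤ 1) → IsCompact E → E ⊆ Icc T' (2 * T') → (volume E).toReal ≤ 2 * T ^ τ →
    S.card * T ^ X ≤ ∫ t in E, ‖GS S c t‖ →
    r + 2 * X ≤ τ + h + s ∧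
    ∀ (a : ℕ → ℂ) (N b w : ℝ), IsBlk a N → N = T ^ b → η ≤ b → (∀ t ∈ E, T ^ (b - w) ≤ ‖PB a N t‖) →
      ∀ j : ℕ, j * b ≤ 2 → 2 * r + 2 * X - 2 * (j * w) ≤ τ + max (h + 1 - j * b) 2 + s

/-- ITEM Cl (the data of a class; uses StMq, StPf, StMv, StHx, StG, StJ; model: `OX/CELL/Cls.lean`, theorem `cls`; `pick`, `lv_block`, `disc_vol` as there).  Differences: the interval has length `T' ≤ T^{h+s/128}`: `lv_block` with `h + s/128`, then monotonicity of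
`LVp` in `h` (a lemma like `LVx_of_LVp`: all maxima change by at most `s/128`; `jj`: for `t ≤ h`); `τ = logb T #R ≥ 0`; the collision fields come from StMq (with `s/8`, `X = W - s/4`).  For `i ∈ J`: `R` is `1`-separated in `[T', 2T']` and `|PB| ≥ T^{b-w}` on `R`, so M12 gives
`T^τ T^{12(b-w)} ≤ T^{2h+s/8} T^{6b}`. -/
def StCl : Prop := ∀ (s η : ℝ) (Q : ℕ), 0 < s → s ≤ 1 → 0 < η → ∃ C : ℝ, 1 ≤ C ∧
  ∀ (T T' h r θ : ℝ) (m : ℕ) (J : Finset (Fin m)) (a : Fin m → ℕ → ℂ) (N b : Fin m → ℝ) (S : Finset ℝ) (c : ℝ → ℂ) (E : Set ℝ),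
    C ≤ T → 1 ≤ h → h ≤ 3 / 2 → 1 ≤ T' → T' ≤ T ^ (h + s / 128) → (∀ i, IsBlk (a i) (N i)) → (∀ i, N i = T ^ b i) → (∀ i, η ≤ b i) →
    ∑ i, b i ≤ 3 → QS S T → 1 ≤ S.card → T ^ r ≤ S.card → (∀ x, ‖c x‖ ≤ 1) → (∀ i ∈ J, M12 (a i) (N i) T' (T ^ (2 * h + s / 8))) →
    0 ≤ θ → IsCompact E → E ⊆ Icc T' (2 * T') →
    S.card * T ^ θ ≤ ∫ t in E, ‖GS S c t‖ * ∏ i, ‖PB (a i) (N i) t‖ →
    ∃ (w : Fin m → ℝ) (τ W : ℝ), W = ∑ i, w i + θ - ∑ i, b i ∧ (∃ t ∈ E, ∀ i, T ^ (b i - w i) ≤ ‖PB (a i) (N i) t‖) ∧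
      Cls h r b w τ W s Q ∧ ∀ i ∈ J, τ ≤ 12 * w i - 6 * b i + 2 * h + s

/-! ### Part 2: tables and logic -/

/-- ITEM Ta (small `b` and small `w`; real arithmetic).  `s = min(s_0, v0/1000)`, `s_0, Q` from TabA0 (the fields of `CD` with a smaller `s` imply those with a larger `s`, as in `la_LVx_mono` of `OX/CELL/I_LA.lean`).
(1) `b < 1/50`: `m = ⌈1/(50 b)⌉`, `1/50 ≤ m b ≤ 1/25`: replace `(b, w)` by `(m b, m w)`: `CD h r (m b) (m w) tau W s Q` (`k (m b) = (k m) b`), the hypotheses are homogeneous.  So `1/50 ≤ b ≤ 99/200`.  (2) `w ≥ b/50`: TabA0.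
(3) `w < b/50`, `v = w/b ∈ [v0, 1/50]`: choose `k` with `k b ∈ [33/50, 99/100]` (`k = 2` if `b ≥ 33/100`, otherwise the interval is longer than `b`), `k b ≤ 2`: field `hx` of `lv`: `tau ≤ max (2kw) (h + 6kw - 2kb) + s`, `2kw = 2(kb)v ≤ 198/100 v` and
`h + 6kw - 2kb = h - kb(2 - 6v) ≤ 127/100 - (33/50)(2 - 6v) = -1/20 + (99/25) v ≤ 198/100 v - s` (`v ≤ 1/50`: `198/100 v ≤ .0396 < 1/20 - s`).  With `W ≤ tau + s` and `1999/1000 v - s ≤ W`: `19/1000 v0 ≤ 3 s`: contradiction. -/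
def StTa : Prop := ∀ h r : ℝ, 1 ≤ h → h ≤ 127 / 100 → TabA0 h r → TabA h r

/-- ITEM LA (logic of StCellA; real arithmetic; model: `OX/CELL/I_LA.lean`).  `Q` the maximum of the `Q`'s of the tables (the fields of `LVp` are monotone in `Q`), `s0` small (`≤ 10^{-6}` and all tables, with `v0 = 1/1000` in TabA).  Put `v = min w i/b i`, attained at `i`
(`m ≥ 1`, see below), `D = 2 - ∑ b ≥ -s`.  `W ≥ ∑ w + D/2 - s ≥ v(2 - D) + D/2 - s = 2v + (1/2 - v) D - s`.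
(0) `t1` and `triv`: `2W ≤ 2h - r + 2s`, so `W ≤ (2.54 - .9)/2 + s < .83`; `m = 0` gives `D = 2`, `W ≥ 1 - s`: contradiction; `v ≥ 1/2` gives `W ≥ v(2-D) + D/2 - s ≥ 1 - s`: contradiction.  So `v < 1/2` and `W ≥ 2v - 2s`.
(gain) Let `g` be such that `W ≥ 2v + g - 3s`.  If `D ≥ 1/20`: `g = (1/2 - v)/20`.  Otherwise there is `j ∈ J`: `tw_j`: `0 ≤ tau ≤ 12 w_j - 6 b_j + 2h + s`: `w_j ≥ b_j/2 - h/6 - s/12`, so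
`∑ w ≥ v (∑ b - b_j) + w_j`, and `g = b_j(1/2 - v) - h/6 ≥ 1/4 - v/2 - h/6 ≥ (1/2 - v)/2 - 127/600`.
(1) `i ∈ J`: TabJ.  (2) `i ∉ J`, `b i ≤ 99/200`: if `v ≥ 1/1000` TabA; if `v < 1/1000`: `g ≥ 1/50`; as in (3) of item Ta (there is `k` with `k b i ∈ [33/50, 99/100]`): `tau ≤ 198/100 v + s`, contradiction with `W ≤ tau + s`.
(3) `i ∉ J`, `99/200 < b i ≤ 101/200`: if `v ≥ 7/100`: TabB.  If `v < 7/100`: `hx` for `k = 2`: `tau ≤ max (4 v b) (h + 12 v b - 4 b) + s ≤ max (202/100 v) (h - 198/100 + 606/100 v) + s`; and `g ≥ 1/50` resp. `g ≥ 1/4 - v/2 - 127/600`, and `2v + g - 3s > 202/100 v + 2s`: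
`1/4 - 127/600 - 52/100·7/100 = .0019 > 5s`; the second member of the maximum is `≤ 1.27 - 1.98 + .43 < 0 < W - 2s`.
(4) otherwise `b i ≤ h/2 - 1/40`, `D ≥ h/2 + 1/40 - b i ≥ 1/20` and `b i > 101/200`: `W ≥ 2v + (1/2 - v)(h/2 + 1/40 - b i) - s`: TabR if `v ≥ 1/50`; if `v < 1/50`: `hx` for `k = 2` (`2 b i ≤ 2`): `tau ≤ max (4vb) (h + 12vb - 4b) + s`,
`4 v b ≤ 2v + 2v(2b - 1) ≤ 2v + .0088`, `g ≥ (12/25)/20 = .024`; `h + 12 v b - 4b ≤ 1.27 + .15 - 2.02 < 0`. -/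
def StLA (h r : ℝ) : Prop := ∃ s0 : ℝ, 0 < s0 ∧ ∃ Q : ℕ,
  ∀ (m : ℕ) (J : Finset (Fin m)) (b w : Fin m → ℝ) (tau W s : ℝ), 0 < s → s ≤ s0 → (∀ i, 0 < b i) →
    (∀ i ∈ J, 1 / 2 ≤ b i ∧ b i ≤ h / 2 + 3 / 100) →
    (∀ i, i ∉ J → b i ≤ 101 / 200 ∨ (b i ≤ h / 2 - 1 / 40 ∧ ∑ j, b j ≤ 2 - (h / 2 + 1 / 40) + b i)) →
    ∑ i, b i ≤ 2 + s → (J.Nonempty ∨ ∑ i, b i ≤ 2 - 1 / 20) → ∑ i, w i + 1 - (∑ i, b i) / 2 - s ≤ W →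
    Cls h r b w tau W s Q → (∀ i ∈ J, tau ≤ 12 * w i - 6 * b i + 2 * h + s) → False

open Classical in
/-- ITEM LB (logic of StCellB, far zone; real arithmetic; model: `OX/CELL/I_LB.lean`).  `v = min w i/b i ≥ 1/120`, attained at `i` (`m ≥ 1`); `W ≥ ∑ w - s ≥ (2 - κ) v - s`; as in LA (0): `v < 1/2`.  `ths = 1/4000`; `κ = ths β/20 = β/80000`, `s0` small in terms of `β` and of the
tolerances of the tables (TabA with `v0 = 1/200`).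
(1) `b i ≤ 99/200`: TabA (first alternative: `2w ≤ (W + s_T) b` as `2v ≤ (2 - κ)v - s + s_T` needs `κ/2 + s ≤ s_T`: so `κ` also has to be `≤ s_T`).  (2) `b i > 99/200` and `v ≥ 7/100`: TabB.
(3) `b i > 99/200`, `v < 7/100`, and some block with `b l ≤ 41/100` has `w l/b l ≤ (1 + ths) v`: TabA, second alternative (`w l ≥ b l/120`, `w l ≤ b l/2`): `1999/1000 (1 + 1/4000) v ≤ (1.9995) v ≤ (2 - κ) v - s + s_T`.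
(4) otherwise `∑ w ≥ v ∑ b + ths v β`: `W ≥ (2 - κ) v + ths β v - s`; `hx` for `k = 2` at `i`: `tau ≤ max (4vb) (h + 12vb - 4b) + s`, `4vb ≤ 2v + 4κv`, `h + 12 v b - 4 b ≤ 1.27 - 1.98 + .43 < 0`: `ths β v ≤ 5κ v + 3s`: contradiction for `v ≥ 1/120`, `s` small. -/
def StLB (h r : ℝ) : Prop := ∀ β : ℝ, 0 < β → β ≤ 1 / 20 → ∃ κ : ℝ, 0 < κ ∧ κ ≤ β / 8000 ∧ ∃ s0 : ℝ, 0 < s0 ∧ ∃ Q : ℕ,
  ∀ (m : ℕ) (b w : Fin m → ℝ) (tau W s : ℝ), 0 < s → s ≤ s0 → (∀ i, 0 < b i ∧ b i ≤ 1 / 2 + κ) → 2 - κ ≤ ∑ i, b i →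
    β ≤ ∑ i ∈ Finset.univ.filter (fun i => b i ≤ 41 / 100), b i → (∀ i, b i / 120 ≤ w i) → ∑ i, w i - s ≤ W →
    Cls h r b w tau W s Q → False

/-! ### Part 3: near zone and cell theorems -/

/-- ITEM Nz (one block near its maximum; uses `ZF.StHM`; model: `OX/CELL/I_Nz.lean`, only the numbers change).  `StHM`: for `1`-separated `W ⊂ E`: `∑_W |PB|^(2k) ≤ C (N^k + #W √T') N^k (log T)^K`.  `|PB| ≥ N^(99/100)` on `E`: `#W N^(99k/50) ≤ C (N^k + #W √T') N^k (log T)^K`;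
`N^k ≥ T^(33/50)`, `√T' ≤ T^(16/25)`: `√T' N^k (log T)^K ≤ N^(99k/50)/(2C)` (`.64 < .98*.66 = .6468`), so `#W ≤ 2C N^(k/50) (log T)^K` and `#W √T' ≤ N^k`.  So `∑_W (|PB|/N)^(2k) ≤ 2C (log T)^K`. -/
def StNz : Prop := ∀ k0 : ℕ, ∃ C K : ℝ, 1 ≤ C ∧ 0 ≤ K ∧ ∀ (T T' N : ℝ) (k : ℕ) (a : ℕ → ℂ) (E : Set ℝ),
  C ≤ T → 1 ≤ T' → T' ≤ T ^ (32 / 25 : ℝ) → 1 ≤ k → k ≤ k0 → IsBlk a N → 0 < N → T ^ (33 / 50 : ℝ) ≤ N ^ k → N ^ k ≤ T ^ (11 / 10 : ℝ) →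
  IsCompact E → E ⊆ Icc T' (2 * T') → (∀ t ∈ E, N ^ (99 / 100 : ℝ) ≤ ‖PB a N t‖) →
  ∫ t in E, (‖PB a N t‖ / N) ^ (2 * k) ≤ C * Real.log T ^ K

open Classical in
/-- ITEM Pw (pointwise inequality; real arithmetic; model: `OX/CELL/I_Pw.lean`, only the numbers change).  `ρ = min y i/b i`, attained at `j0`; `∑ y ≥ ρ (2 - β/4000)`.
(1) `b j0 ≤ 99/200`: `j = j0`: `((2 - β/4000) - 2 k_j b_j)/b_j ≥ .0199/b_j ≥ .04`.  (2) `b j0 > 99/200` and some `l` with `b l ≤ 41/100`, `y l/b l ≤ (201/200) ρ`: `j = l`: `∑ y ≥ (2 - β/4000)(200/201) y_l/b_l ≥ 1.99 y_l/b_l`, `(1.99 - 1.98)/b_l ≥ .02`.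
(3) `b j0 > 99/200`, all small `l` have `y l ≥ (201/200) ρ b l`: `∑ y ≥ ρ (2 - β/4000 + β/200)`, `b j0 ≤ 1/2 + β/4000`, `(2 - β/4000 + β/200)/(1/2 + β/4000) ≥ 4 + β/200`, `j = j0`. -/
def StPw : Prop := ∀ (β : ℝ) (m : ℕ) (b y : Fin m → ℝ) (kk : Fin m → ℕ) (Λ x : ℝ), 0 < β → β ≤ 1 / 20 → 0 ≤ Λ →
  (∀ i, 0 < b i ∧ b i ≤ 1 / 2 + β / 4000) → 2 - β / 4000 ≤ ∑ i, b i →
  β ≤ ∑ i ∈ Finset.univ.filter (fun i => b i ≤ 41 / 100), b i →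
  (∀ i, b i ≤ 99 / 200 → kk i * b i ≤ 99 / 100) → (∀ i, 99 / 200 < b i → kk i = 2) → (∀ i, Λ ≤ y i) → (∃ i, y i ≤ b i * x) →
  ∃ j, y j ≤ b j * x * (201 / 200) ∧ 2 * kk j * y j + β / 200 * Λ ≤ ∑ i, y i

open Classical in
/-- ITEM NB (the near zone of StCellB; uses StNz, StPw of THIS file; model: `OX/CELL/I_NB.lean`, only the numbers change).  `kk i`: some `k ≥ 1` with `k b_i ∈ [33/50, 99/100]` if `b_i ≤ 99/200` (`k = 2` if `b_i ≥ 33/100`, otherwise the interval is longer than `b_i`), `kk i = 2` otherwise;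
`kk i ≤ 4/η + 2`.  `x = (log T)/120`: StPw gives a `j` with `|f_j| ≥ N_j^(1 - 201/24000) ≥ N_j^(99/100)`. -/
def StNB : Prop := ∀ β η A : ℝ, 0 < β → β ≤ 1 / 20 → 0 < η → η ≤ 1 / 20 → 0 < A → ∃ A1 C : ℝ, 0 < A1 ∧ 1 ≤ C ∧
  ∀ (T T' J : ℝ) (m : ℕ) (a : Fin m → ℕ → ℂ) (N : Fin m → ℝ) (g : ℝ → ℝ) (E : Set ℝ),
  C ≤ T → 1 ≤ T' → T' ≤ T ^ (32 / 25 : ℝ) →
  (∀ i, IsBlk (a i) (N i)) → (∀ i, T ^ η / 2 ≤ N i ∧ N i ≤ T ^ (1 / 2 + β / 4000)) →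
  T ^ (2 - β / 4000) ≤ ∏ i, N i → ∏ i, N i ≤ T ^ (3 : ℝ) →
  T ^ β ≤ ∏ i ∈ Finset.univ.filter (fun i => N i ≤ T ^ (41 / 100 : ℝ)), N i →
  (∀ i, ∀ t ∈ Icc T' (2 * T'), ‖PB (a i) (N i) t‖ ≤ N i / Real.log T ^ A1) →
  Continuous g → (∀ t, 0 ≤ g t) → (∀ t, g t ≤ J) → 0 < J →
  IsCompact E → E ⊆ Icc T' (2 * T') → (∀ t ∈ E, ∃ i, N i ^ (119 / 120 : ℝ) ≤ ‖PB (a i) (N i) t‖) →
  ∫ t in E, g t * ∏ i, ‖PB (a i) (N i) t‖ ≤ J * (∏ i, N i) / Real.log T ^ A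

/-- ITEM CB (cell theorem B; uses StNB, StLB, StCl; model: `OX/CELL/I_CellB.lean`).  `h ≤ 127/100`, `ε ≤ 1/1000`: `T' ≤ T^(h+ε) ≤ T^(32/25)`.  Near zone `E1 = {∃ i, N_i^(119/120) ≤ |f_i|}`, far zone `E2 = {∀ i, |f_i| ≤ N_i^(119/120)}`: StCl with `J = ∅`, `w i ≥ b i/120`.  `g = |GS| ≤ #S` (points are positive). -/
def StCB : Prop := ∀ h r : ℝ, 1 ≤ h → h ≤ 127 / 100 → 9 / 10 ≤ r → StLB h r → StCellB h r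

/-- ITEM CA (cell theorem A; uses StLA, StCl; model: `OX/CELL/I_CellA.lean`).  `ε = min(s/128, 1/1000)` (`s ≤ s0, s ≤ 1`), `θ = 1 + ν/2 - ε`, `E = [T', 2T']`, `b i = logb T (N i)`, `ν = ∑ b`; M12 with `T^(2h+ε) ≤ T^(2h+s/8)`; `T^ν ≤ T^(2-(h/2+1/40)) N i` is `ν ≤ 2 - (h/2+1/40) + b i`. -/
def StCA : Prop := ∀ h r : ℝ, 1 ≤ h → h ≤ 127 / 100 → 9 / 10 ≤ r → StLA h r → StCellA h r

/-! ### Part 4: smooth blocks and the difference of windows -/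

/-- ITEM Sm (smooth blocks; uses UC.StTw, UC.StKp).  `psi` is supported in `[1/2, 2]`, `0 ≤ psi ≤ 1`, so the first two claims are clear (`⌊2N⌋`).  M12: let `W ⊂ [T', 2T']` be `1`-separated.  If `N ≤ T'`: UC.StTw with `T := T'` (`2T' ≤ 2T'+1`): `∑ ≤ C T'^(2-δ) N^6 ≤ C T^{(h+ε/4)(2-δ)} N^6 ≤ T^(2h+ε) N^6`.
If `N > T'`: UC.StKp: `|Bl|^12 ≤ C (N^12/T'^24 + T'^6)`, `#W ≤ T' + 1`: `∑ ≤ C (N^12 T'^(-23) + T'^7)`, `T'^6 ≤ N^6`, `T' ≤ T^(2h)`, `N^6 ≤ T^(21/5) ≤ T^(2h) T^(23/10) ≤ T^(2h) T'^23`. -/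
def StSm : Prop := ∀ ε : ℝ, 0 < ε → ε ≤ 1 → ∃ C : ℝ, 1 ≤ C ∧ ∀ T T' N h : ℝ, C ≤ T → 1 ≤ h → h ≤ 3 / 2 → T ^ (1 / 10 : ℝ) ≤ T' →
  T' ≤ T ^ (h + ε / 4) → T ^ (49 / 100 : ℝ) ≤ N → N ≤ T ^ (7 / 10 : ℝ) →
  IsBlk (fun n => ((psi ((n : ℝ) / N) : ℝ) : ℂ)) N ∧ (∀ t : ℝ, PB (fun n => ((psi ((n : ℝ) / N) : ℝ) : ℂ)) N t = Bl psi N t) ∧
  M12 (fun n => ((psi ((n : ℝ) / N) : ℝ) : ℂ)) N T' (T ^ (2 * h + ε))

/-- ITEM F4 (from the difference of two windows to a resonance; uses StF1, StF2 of ASM, UC.StMel; model: `OX/ASM/I_F4.lean`; the only change is the window `V` instead of `T`).  `DD w c x V T1 = (1/(2πx)) ∫ (Om(t/V) - Om(t/T1)) x^{it} F(t) dt`, `|F| ≤ M T²`, `x ≥ T²`.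
`|t| ≤ T0`: `|Om(t/V) - Om(t/T1)| ≤ 2C|t|/T1` (`T1 ≤ V`): contribution `≤ C M T0²/T1`.  `|t| ≥ V^{1+ε}`: `|Om(t/V)| ≤ C (V/|t|)^A`, the same with `T1 ≤ V`; `A ≥ 3/ε + 2`, `V ≥ T/2`: contribution `≤ C M V V^{-ε(A-1)} ≤ C M/T`.  Then dyadic intervals in `[T0, V^{1+ε}]`, at most `C log T` (`V ≤ T²`). -/
def StF4 : Prop := ∀ w : ℝ → ℝ, IsWt w → ∀ ε : ℝ, 0 < ε → ε ≤ 1 / 4 → ∃ C : ℝ, 1 ≤ C ∧
  ∀ (T V T0 T1 M δ : ℝ) (Y : ℕ) (c : ℕ → ℝ) (S : Finset ℝ) (g0 : ℝ → ℂ), 3 ≤ T → T / 2 ≤ V → V ≤ T ^ (3 / 2 : ℝ) → 1 ≤ T0 → T0 ≤ T / 2 →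
  1 ≤ T1 → T1 ≤ T / 2 → 0 ≤ M → 0 < δ →
  (∀ n, c n ≠ 0 → 1 ≤ n ∧ n ≤ Y) → ∑ n ∈ Finset.Icc 1 Y, |c n| ≤ M * T ^ 2 → C * M * (T0 ^ 2 / T1 + 1 / T) ≤ δ →
  (∀ x ∈ S, T ^ 2 ≤ x) → (∀ x, ‖g0 x‖ ≤ 1) → S.card * δ ≤ ‖∑ x ∈ S, g0 x * ((DD w c x V T1 : ℝ) : ℂ)‖ →
  ∃ (T' : ℝ) (g : ℝ → ℂ), T0 ≤ T' ∧ T' ≤ V ^ (1 + ε) ∧ (∀ x, ‖g x‖ ≤ 1) ∧
    S.card * (δ * T ^ 2) ≤ C * Real.log T * ∫ t in T'..(2 * T'), ‖GS S g t‖ * ‖Dp Y (fun n => (c n : ℂ)) t‖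

/-! ### Part 5: boxes -/

/-- ITEM BB (boxes without long slots; uses StCellB of SQ, StF4 of THIS file, StPd, StRg, StSa of ASM; model: `OX/ASM/BBred.lean` (theorem `BB_red`) and `OX/ASM/I_BB.lean`).  Changes: window `V`, heights `T' ≤ V^{1+ε'} ≤ (4T^h)^{1+ε'} ≤ T^{h+ε}` (`ε' = ε/4`, `T` large); a bad set `S` is now any set of quarter squares (no
passage to a subset, no separation); `StRg` with `T' := V` resp. `T1`. -/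
def StBB (h r : ℝ) : Prop := ∀ β : ℝ, 0 < β → β ≤ 1 / 20 → ∃ κ : ℝ, 0 < κ ∧ κ ≤ β / 100 ∧ ∀ w : ℝ → ℝ, IsWt w → ∀ η κ1 A : ℝ, 0 < η → η ≤ 1 / 20 →
  0 < κ1 → κ1 ≤ 1 / 20 → 0 < A → ∃ B0 : ℝ, 1 ≤ B0 ∧ ∀ B : ℝ, B0 ≤ B → ∃ C : ℝ, 1 ≤ C ∧
  ∀ (T V : ℝ) (u : Fin 3 → Option ℕ) (v : Fin (SS η) → Option ℕ), C ≤ T → T / 2 ≤ V → V ≤ 4 * T ^ h → (∀ i, ¬ Lg T κ (u i)) → Sh T β u v →
  PQ T (fun x => 1 / Real.log T ^ A ≤ |DD w (BF (zz η T) (zz (1 / 2 - κ1) T) u v) x V (Real.log T ^ B)|) (C * T ^ r)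

/-- from a resonance of blocks (all used slots; the long ones, `i ∈ Ls`, are smooth blocks `Bl psi (N i)`) to the hypotheses of StCellA; this is the combinatorial heart of item AA, stated separately as item RL.
ITEM RL (reflection; uses StRp of ASM in the form `rp_fin` of `OX/ASM/I_AA.lean`, StSm; model: theorems `length`, `core_ii` of `OX/ASM/I_AA.lean`).  `Th = T^h`, `κ'' = κ'`: apply `rp_fin` with its `T := Th` and its `η := κ'` to the Finset `R` of the `i ∈ Ls` with `N i ≥ T^(h/2+3/100)` (`Th^(1/2+2κ') ≤ T^(h/2+3/100)`,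
`N i ≤ Th^3`; `Th^(1/10) ≤ T^(13/100) ≤ T'`, `T' ≤ T^(h+κ') ≤ Th^(1+κ')`), `H = |GS| ∏_{others} |PB| ∏_{i ∈ Ls \ R} |Bl psi (N i)|`: get `I ⊂ R`, blocks `b i, L i` (`i ∈ I`), `Th^κ'/2 ≤ L i`, `L i * N i ≤ C T'`, so `L i ≤ C T^(h+κ'-h/2-3/100) ≤ T^(h/2-1/40)`.  The new family: the short blocks, the smooth
blocks `i ∈ J := Ls \ R` (StSm: `PB (psi(·/N i)) (N i) = Bl psi (N i)`), and `i ∈ I`.  `T^ν` its total length.  Multiply by `∏_I √L i`.  Total gain: `∏ √(N i)` over `R` times `T^{2hκ'}`: the integral of the new product is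
`≥ X T^{-3κ'} ∏_{I} √L i/∏_{R} √(N i)` with `X` the left side, i.e. `≥ #S T^{2-κ'} T^{-3κ'} T^{ν/2}/√(∏ all old lengths) ≥ #S T^{1+ν/2-5κ'}` as `∏ old ≤ T^{2+κ'}`.  Length: `T^ν = (∏ old) ∏_{I} (L i/N i) ∏_{R \ I} 1/N i`.  If `R = ∅` then `ν ≤ 2 + κ'` and `J = Ls ≠ ∅`.  If `R ≠ ∅`: each factor
`L i/N i ≤ C T'/N i² ≤ T^{-3/50+3κ'} ≤ T^{-11/200}` or `1/N i`, so `ν ≤ 2 + κ' - 11/200 ≤ 2 - 1/20`, and for `i ∈ I`: `T^ν ≤ T^{2+κ'} L i/N i ≤ T^{2+κ'-h/2-3/100} L i ≤ T^{2-(h/2+1/40)} L i`. -/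
def StRL (h : ℝ) : Prop := ∀ ε : ℝ, 0 < ε → ε ≤ 1 / 1000 → ∃ κ' : ℝ, 0 < κ' ∧ κ' ≤ ε / 10 ∧ ∃ C : ℝ, 1 ≤ C ∧
  ∀ (T T' η : ℝ) (m l : ℕ) (a : Fin m → ℕ → ℂ) (N : Fin m → ℝ) (N' : Fin l → ℝ) (S : Finset ℝ) (g : ℝ → ℂ), C ≤ T → 0 < η → η ≤ κ' →
  T ^ (13 / 100 : ℝ) ≤ T' → T' ≤ T ^ (h + κ') → 1 ≤ l → l ≤ 3 →
  (∀ i, IsBlk (a i) (N i)) → (∀ i, T ^ η / 2 ≤ N i ∧ N i ≤ T ^ (101 / 200 : ℝ)) →
  (∀ i, T ^ (1 / 2 : ℝ) ≤ N' i ∧ N' i ≤ T ^ (3 : ℝ)) → (∏ i, N i) * ∏ i, N' i ≤ T ^ (2 + κ') → (∀ x ∈ S, 0 < x) →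
  S.card * T ^ (2 - κ') ≤ ∫ t in T'..(2 * T'), ‖GS S g t‖ * ((∏ i, ‖PB (a i) (N i) t‖) * ∏ i, ‖Bl psi (N' i) t‖) →
  ∃ (ν : ℝ) (m' : ℕ) (J : Finset (Fin m')) (a' : Fin m' → ℕ → ℂ) (M : Fin m' → ℝ), (∀ i, IsBlk (a' i) (M i)) ∧ (∀ i, T ^ η / 2 ≤ M i) ∧
    (∀ i ∈ J, T ^ (1 / 2 : ℝ) ≤ M i ∧ M i ≤ T ^ (h / 2 + 3 / 100) ∧ M12 (a' i) (M i) T' (T ^ (2 * h + ε))) ∧
    (∀ i, i ∉ J → M i ≤ T ^ (101 / 200 : ℝ) ∨ (M i ≤ T ^ (h / 2 - 1 / 40) ∧ T ^ ν ≤ T ^ (2 - (h / 2 + 1 / 40)) * M i)) ∧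
    ∏ i, M i = T ^ ν ∧ ν ≤ 2 + ε ∧ (J.Nonempty ∨ ν ≤ 2 - 1 / 20) ∧
    S.card * T ^ (1 + ν / 2 - ε) ≤ ∫ t in T'..(2 * T'), ‖GS S g t‖ * ∏ i, ‖PB (a' i) (M i) t‖

/-- ITEM RL proper: `StRL h` for `1 ≤ h ≤ 127/100`. -/
def StRLq : Prop := ∀ h : ℝ, 1 ≤ h → h ≤ 127 / 100 → StRL h

/-- ITEM AA (boxes with a long slot; uses StCellA of SQ, StRL h, StF4 of THIS file, StPd, StRg, StTb of ASM, UC.StKp; model: `OX/ASM/I_AA.lean`: `Dat`, `dat`, `mass`, `core_i`, `pick`, `sum_long`, `core_ii`, `red`).  `ε` of StCellA, `κ0` (called `κ'` there) of StRL for this `ε`; `κ3 = κ2/10 ≤ 1/200`,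
`κ' = min(κ0/20, κ3/10)`.  StF4 with its `ε := κ0/8`, `M = C (log T)^3`, `T0 = (log T)^{A+10}`: `T0 ≤ T' ≤ V^{1+κ0/8} ≤ T^{h+κ0}`.  (i) `T' ≤ T^(13/100)`: as `core_i` (there `1/10`; the proof only needs `T'^{5/2} ≤ T^{1/2-κ'}` up to logarithms): contradiction.  (ii) `T' ≥ T^(13/100)`: the long slots are those longer than
`T^(1/2+κ3)`, their number is `1 ≤ l ≤ 3`; StTb (`norm_long_le`, `sum_long`, `pick`): one tuple `(d_i)`, `d_i ≤ T^κ'`, loses a factor `C T^{3κ'}` only; `N' i = 2^{l_i}/d_i ≥ T^{1/2+κ3-κ'} ≥ T^{1/2}`; the short slots are blocks with `T^η/2 ≤ N ≤ T^{1/2+κ3} ≤ T^{101/200}`; the total length is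
`≤ PS u v ≤ C T² ≤ T^{2+κ0}`, and `#S T^{2-κ0} ≤ ∫ |GS| ∏|PB| ∏|Bl psi (N' i)|`.  StRL and StCellA. -/
def StAA (h r : ℝ) : Prop := ∀ κ2 : ℝ, 0 < κ2 → κ2 ≤ 1 / 20 → ∃ κ3 κ' : ℝ, 0 < κ3 ∧ κ3 ≤ κ2 / 10 ∧ 0 < κ' ∧ κ' ≤ κ3 / 10 ∧ ∀ w : ℝ → ℝ, IsWt w →
  ∀ η κ1 A : ℝ, 0 < η → η ≤ κ' → 0 < κ1 → κ1 ≤ 1 / 20 → 0 < A → ∃ B0 : ℝ, 1 ≤ B0 ∧ ∀ B : ℝ, B0 ≤ B → ∃ C : ℝ, 1 ≤ C ∧
  ∀ (T V : ℝ) (u : Fin 3 → Option ℕ) (v : Fin (SS η) → Option ℕ) (lw : Fin 3 → ℕ → ℝ), C ≤ T → T / 2 ≤ V → V ≤ 4 * T ^ h →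
  (∃ i, Lg T κ2 (u i)) → (∀ i d, |lw i d| ≤ 2) → (∀ i d, lw i d ≠ 0 → 1 ≤ d ∧ (d : ℝ) ≤ T ^ κ') →
  PQ T (fun x => 1 / Real.log T ^ A ≤
    |DD w (BFA (zz η T) (zz (1 / 2 - κ1) T) T κ3 lw u v) x V (Real.log T ^ B)|) (C * T ^ r)

/-! ### Part 6: the identity in short windows -/

/-- ITEM Dr (the dropped term; model: `OX/ASM/I_Dr.lean`; only the numbers change).  `drop_tuples` at level `⌊T^{1/100}⌋` with `k = 4`, `K = 249` (`T^{250/100} ≥ C T^{2.1}`), `Y1 = T^{1/2-κ1}/2`, `Y2 = C T^{1/2+3κ1} ≤ C T^{13/20}`, `h = C x/T' ≥ C T^{18/25}` (`3/100 + 13/20 < 18/25`). -/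
def StDr : Prop := ∀ w : ℝ → ℝ, IsWt w → (∀ u, 0 ≤ w u) → ∃ C1 : ℝ, 1 ≤ C1 ∧ ∀ κ1 : ℝ, 0 < κ1 → κ1 ≤ 1 / 20 → ∃ C : ℝ, 1 ≤ C ∧
  ∀ T T' x : ℝ, C ≤ T → 1 ≤ T' → T' ≤ T ^ (32 / 25 : ℝ) → T ^ 2 ≤ x → x ≤ 4 * T ^ 2 →
  T' / x * SW w (fun n => (roughOne (zz (1 / 2 - κ1) T) ^ 4) n) x T' ≤ C1 * κ1 / Real.log T

open Classical in
/-- ITEM Sq (square factors and prime powers; model: `OX/ASM/I_Sq.lean`; only the range of `T'` changes).  Number of `n` in an interval of length `h ≍ x/T' ≥ T^{18/25}/C` divisible by `p²` for some prime `y < p ≤ z`: `≤ h/y + z`, `z ≤ T^{1/2}`.  Proper prime powers: `≤ C log T (√x/T' + 1)`. -/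
def StSq : Prop := ∀ w : ℝ → ℝ, IsWt w → (∀ u, 0 ≤ w u) → ∀ η κ1 : ℝ, 0 < η → η ≤ 1 / 20 → 0 < κ1 → κ1 ≤ 1 / 20 → ∃ C : ℝ, 1 ≤ C ∧
  ∀ T T' x : ℝ, C ≤ T → 1 ≤ T' → T' ≤ T ^ (32 / 25 : ℝ) → T ^ 2 ≤ x → x ≤ 4 * T ^ 2 →
  T' / x * SW w (fun n => if ∃ p : ℕ, p.Prime ∧ zz η T < p ∧ p ≤ zz (1 / 2 - κ1) T ∧ p ^ 2 ∣ n then 1 else 0) x T' ≤ C / Real.log T ^ 2 ∧
  |T' / x * SW w pr x T' - T' / x * SW w (fun n => if Rough (zz (1 / 2 - κ1) T) n then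
    ArithmeticFunction.vonMangoldt n / Real.log n else 0) x T'| ≤ C / Real.log T ^ 2

/-- ITEM Li (primes in windows as sums over boxes; uses StEx of ASM, StDr, StSq of THIS file; model: `OX/ASM/I_Li.lean`; only the range of `T'` changes). -/
def StLi : Prop := ∀ w : ℝ → ℝ, IsWt w → (∀ u, 0 ≤ w u) → ∃ C1 : ℝ, 1 ≤ C1 ∧ ∀ η κ1 : ℝ, 0 < η → η ≤ 1 / 20 → 0 < κ1 → κ1 ≤ 1 / 20 → ∃ C : ℝ, 1 ≤ C ∧
  ∀ T T' x : ℝ, C ≤ T → 1 ≤ T' → T' ≤ T ^ (32 / 25 : ℝ) → T ^ 2 ≤ x → x ≤ 4 * T ^ 2 →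
  |T' / x * SW w pr x T' - ∑ u ∈ Bx 3 T, ∑ v ∈ Bx (SS η) T, cc u v * (T' / x * SW w (BF (zz η T) (zz (1 / 2 - κ1) T) u v) x T')| ≤
    C1 * κ1 / Real.log T + C / Real.log T ^ 2

/-! ### Part 7: the theorem -/

/-- ITEM Mn (main theorem for smooth windows; uses StBB, StAA, StLi of THIS file, StSh, StRg, StV1, StSv, StSE, StPN of ASM; model: `OX/ASM/I_Mn.lean`).  Changes: window `V` instead of `T` (`4T^h ≤ T^(32/25)`), StSE and StPN only concern the window `T1 = (log T)^B`; `PQ` instead of `PackLe` (every finite set of quarter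
squares with a property that is a union of properties is the union of its parts); `C T^r` times the number of boxes `(4 log T)^{SS η+3}` times `7` is `≤ C' T^(r + 1/2000)`. -/
def StMn (h r : ℝ) : Prop := ∀ w : ℝ → ℝ, IsWt w → (∀ u, 0 ≤ w u) → ∀ δ : ℝ, 0 < δ → ∃ C : ℝ, 1 ≤ C ∧ ∀ T V : ℝ, C ≤ T → T / 2 ≤ V →
  V ≤ 4 * T ^ h → PQ T (fun x => δ < |Real.log x * (V / x * SW w pr x V) - Iw w|) (C * T ^ (r + 1 / 2000))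

/-- ITEM Mnq: `StMn` from `StBB` and `StAA` (for given `h ≤ 127/100`, `0 < r`). -/
def StMnq : Prop := ∀ h r : ℝ, 1 ≤ h → h ≤ 127 / 100 → 0 ≤ r → StBB h r → StAA h r → StMn h r

/-- ITEM Co (the core statement; uses StMn, StWt of ASM; model: `OX/ASM/I_Co.lean`).  `θ = 2 - h`.  Given `δ`, let `τ` be small (`τ ≤ δ/100`, `τ ≤ 1/100`), `ρ = 1 + τ`.  Block `T = 2^j` large, `T + 1 ≤ n ≤ 2T - 1`; `x = (m/2)²`, `m ∈ {2n-1, 2n, 2n+1}`, is a quarter square of `[T², 4T²]`, and `|x - c| ≤ 1/4` for the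
corresponding `c ∈ {n²-n, n², n²+n}`.  Scales `V_k = ρ^k T/2`, `V_k ≤ 4 T^h`: `≤ C log T` of them.  For `n^θ ≤ y ≤ n`: `x/y ∈ [T/2·ρ, 4T^h]` (`x/y ≥ (n²-n)/n ≥ n - 1 ≥ T`; `x/y ≤ 4T²/T^θ`): choose `k` with `V_k ≤ x/y < ρ V_k`, so `z := V_k y/x ∈ (1/ρ, 1]`.
`p ∈ (c, c+y]` implies `V_k log(p/x) ∈ [-τ, 1 + τ]` and is implied by `V_k log (p/x) ∈ [τ/2, 1 - 3τ]` (`log(1+u) = u + O(u²)`, `u ≤ 1/n`, `V_k/x·(1/4)` and `V_k/n²·…` tiny): with `w₊` of StWt(-τ, 1+τ, τ) and `w₋` of StWt(2τ, 1-4τ, τ): `∑_p w₋((p/x)^V) ≤ pc c (c+y) ≤ ∑_p w₊((p/x)^V)`, `Iw w₊ ≤ 1 + 4τ`,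
`Iw w₋ ≥ 1 - 6τ`.  In the same way for `(c - y, c]` with the intervals `[-1-τ, τ]` and `[-1+4τ, -2τ]`.  If `x` is not in the exceptional set of StMn (with `τ`, the four weights) for `V_k`: `(x/V)(1-7τ)/log x ≤ pc ≤ (x/V)(1+5τ)/log x`; `x/V ∈ [y, ρ y]`, `log x = 2 log n + O(1/n)`.
So a bad `n` (large) has for some `k`, some weight and some `m` an exceptional point `(m/2)²`; each point belongs to `≤ 3` values of `n`: the number of bad `n` in the block is `≤ 12·(C log T)·C T^(r+1/2000)`.  Sum over the blocks `2^j ≤ N`: `≤ C N^(r+1/1000)`. -/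
def StCo : Prop := ∀ h r : ℝ, 1 ≤ h → h ≤ 127 / 100 → 0 ≤ r → StMn h r → Core (2 - h) (r + 1 / 1000)

end Pool.Agent.Work.MP_a8fbd7_nt.OX.SQ
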