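import Mathlib
import Pool.Agent.Work.MP_a8fbd7_nt.OX.SQ.Stmts

/-!
# MP_a8fbd7_nt, block OX, part SQ: from the core statement to the final theorem.  Captain helper50.
-/

set_option autoImplicit false

open Filter Topology

namespace Pool.Agent.Work.MP_a8fbd7_nt.OX.SQ

/-- number of primes `q` with `a < q ≤ b` -/
noncomputable def prm (a b : ℝ) : ℕ := Set.ncard {q : ℕ | q.Prime ∧ a < (q : ℝ) ∧ (q : ℝ) ≤ b}

theorem pc_eq (a b : ℝ) : pc a b = (prm a b : ℝ) := by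
  unfold pc prm
  congr 1
  have h : {q : ℕ | q.Prime ∧ a < (q : ℝ) ∧ (q : ℝ) ≤ b} =
      ((Finset.Icc 1 ⌊b⌋₊).filter (fun p : ℕ => p.Prime ∧ a < (p : ℝ)) : Finset ℕ) := by
    ext q
    simp only [Set.mem_ofPred_eq, Finset.coe_filter, Finset.mem_Icc]
    constructor
    · rintro ⟨h1, h2, h3⟩
      exact ⟨⟨h1.one_lt.le, Nat.le_floor h3⟩, h1, h2⟩
    · rintro ⟨⟨h1, h2⟩, h3, h4⟩
      have hb : 0 ≤ b := by
        by_contra hb
        have : ⌊b⌋₊ = 0 := Nat.floor_of_nonpos (by linarith)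
        omega
      refine ⟨h3, h4, ?_⟩
      have := Nat.floor_le hb
      have h5 : (q : ℝ) ≤ ⌊b⌋₊ := by exact_mod_cast h2
      linarith
  rw [h, Set.ncard_coe_finset]

/-- the statement of the final theorem for one pair of exponents -/
def Fin1 (θ ψ : ℝ) : Prop := ∃ E : Set ℕ, (∀ N : ℕ, ((E ∩ Set.Icc 1 N).ncard : ℝ) ≤ (N : ℝ) ^ ψ) ∧
  ∀ ε : ℝ, 0 < ε → ∃ n₀ : ℕ, ∀ n : ℕ, n₀ ≤ n → n ∉ E → ∀ y : ℝ, (n : ℝ) ^ θ ≤ y → y ≤ n →
    ∀ c : ℕ, (c = n ^ 2 - n ∨ c = n ^ 2 ∨ c = n ^ 2 + n) →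
      |(prm c (c + y) : ℝ) / (y / (2 * Real.log n)) - 1| < ε ∧
      |(prm (c - y) c : ℝ) / (y / (2 * Real.log n)) - 1| < ε

theorem fin1 (θ r ψ : ℝ) (hr : r < ψ) (h : Core θ r) : Fin1 θ ψ := by
  classical
  obtain ⟨E, hE1, hE2⟩ := FIN.diag (fun δ n => Bad θ δ n) r ψ hr
    (fun δ δ' hδ n hP => by
      obtain ⟨y, h1, h2, c, h3, h4⟩ := hP
      exact ⟨y, h1, h2, c, h3, h4.imp (fun h' => lt_of_le_of_lt hδ h') (fun h' => lt_of_le_of_lt hδ h')⟩)
    (by
      intro δ hδ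
      obtain ⟨C, hC⟩ := h δ hδ
      refine ⟨C, fun N hN => le_trans (le_of_eq ?_) (hC N hN)⟩
      congr 2)
  refine ⟨E, ?_, ?_⟩
  · intro N
    have h2 : E ∩ Set.Icc 1 N = ((Finset.Icc 1 N).filter (fun n => n ∈ E) : Finset ℕ) := by
      ext n
      simp only [Set.mem_inter_iff, Set.mem_Icc, Finset.coe_filter, Finset.mem_Icc, Set.mem_ofPred_eq]
      tauto
    rw [h2, Set.ncard_coe_finset]
    refine le_trans (le_of_eq ?_) (hE1 N)
    congr 2
  · intro ε hε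
    obtain ⟨n0, hn0⟩ := hE2 (ε / 2) (by linarith)
    refine ⟨max n0 2, ?_⟩
    intro n hn hnE y hy1 hy2 c hc
    have hb := hn0 n ((le_max_left _ _).trans hn) hnE
    have hn2 : 2 ≤ n := (le_max_right _ _).trans hn
    have hnn : n ≤ n ^ 2 := by nlinarith
    have hc' : (c : ℝ) = (n : ℝ) ^ 2 - n ∨ (c : ℝ) = (n : ℝ) ^ 2 ∨ (c : ℝ) = (n : ℝ) ^ 2 + n := by
      rcases hc with rfl | rfl | rfl
      · left
        push_cast [Nat.cast_sub hnn]
        ring
      · right; left; push_cast; ring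
      · right; right; push_cast; ring
    have hn0' : (2 : ℝ) ≤ n := by exact_mod_cast hn2
    have hy0 : 0 < y := lt_of_lt_of_le (Real.rpow_pos_of_pos (by linarith) _) hy1
    have hlog : 0 < Real.log n := Real.log_pos (by linarith)
    have hE : ∀ x : ℝ, x / (y / (2 * Real.log n)) = 2 * Real.log n / y * x := by
      intro x
      field_simp
    have key : ∀ z : ℝ, ¬ (ε / 2 < |z|) → |z| < ε := fun z hz => by
      push Not at hz
      linarith
    constructor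
    · rw [hE, ← pc_eq]
      apply key
      intro h'
      exact hb ⟨y, hy1, hy2, c, hc', Or.inl h'⟩
    · rw [hE, ← pc_eq]
      apply key
      intro h'
      exact hb ⟨y, hy1, hy2, c, hc', Or.inr h'⟩

theorem final (h1 : Core (2 - 5 / 4) (973 / 1000 + 1 / 1000)) (h2 : Core (2 - 127 / 100) (988 / 1000 + 1 / 1000)) :
    Fin1 (3 / 4) (39 / 40) ∧ Fin1 (73 / 100) (99 / 100) := by
  constructor
  · have := fin1 (2 - 5 / 4) (973 / 1000 + 1 / 1000) (39 / 40) (by norm_num) h1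
    norm_num at this
    exact this
  · have := fin1 (2 - 127 / 100) (988 / 1000 + 1 / 1000) (99 / 100) (by norm_num) h2
    norm_num at this
    exact this

end Pool.Agent.Work.MP_a8fbd7_nt.OX.SQ
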