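import Mathlib
import Pool.Agent.Work.MP_a8fbd7_nt.OX.SQ.Stmts
import Pool.Agent.Work.MP_a8fbd7_nt.OX.ASM.I_AA

/-!
MP_a8fbd7_nt, block OX, part SQ, item AA (boxes with a long slot, windows `V`).  Author: helper2 (after OX/ASM/I_AA.lean of helper1).
-/

set_option autoImplicit false

open MeasureTheory Set Filter Topology

noncomputable section

namespace Pool.Agent.Work.MP_a8fbd7_nt.OX.SQ

open Pool.Agent.Work.MP_56b8f5_nt.UC (IsWt Bl Dp Om psi eta Sep)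
open Pool.Agent.Work.MP_a8fbd7_nt.OX
open Pool.Agent.Work.MP_a8fbd7_nt.OX.ASM
open Pool.Agent.Work.MP_a8fbd7_nt.OX.ASM.AAx (Dat)
open Pool.Agent.Work.MP_a8fbd7_nt.OX.ID (Rough roughOne pb rg)

namespace AAq

theorem long_small (hTb : StTb) (C : ℝ) (hC : 1 ≤ C)
    (hKp : ∀ N t : ℝ, 0 < N → ‖Bl psi N t‖ ≤ C * (N / (1 + t ^ 2) + Real.sqrt (1 + |t|)))
    (T T' t κ' : ℝ) (l : ℕ → ℝ) (j : ℕ) (hT : 1 ≤ T) (hlog : 1 ≤ Real.log T) (hκ : 0 < κ') (hκ1 : κ' ≤ 1 / 20)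
    (hT1 : 1 ≤ T') (hT2 : T' ≤ T ^ (13 / 100 : ℝ)) (ht : T' ≤ t) (ht2 : t ≤ 2 * T')
    (hj : T ^ (1 / 2 : ℝ) ≤ 2 ^ j) (hl : ∀ d, |l d| ≤ 2) (hs : ∀ d, l d ≠ 0 → 1 ≤ d ∧ (d : ℝ) ≤ T ^ κ') :
    ‖Dp (Rg_aux.Yn (some j)) (fun n => ((tb l j n : ℝ) : ℂ)) t‖ ≤ 8 * C * 2 ^ j * Real.log T / T' ^ 2 := by
  have hT0 : 0 < T := by linarith
  have hD1 : 1 ≤ T ^ κ' := Real.one_le_rpow hT hκ.le
  have hT'2 : 0 < T' ^ 2 := by positivity
  have h2j : (0 : ℝ) < 2 ^ j := by positivity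
  refine (AAx.norm_long_le hTb l j (T ^ κ') t hl hs).trans ?_
  have h1 : ∀ d ∈ Finset.Icc 1 ⌊T ^ κ'⌋₊, 2 * ‖Bl psi (2 ^ j / d) t‖ ≤
      2 * C * 2 ^ j / (1 + t ^ 2) * (1 / d) + 2 * C * Real.sqrt (1 + |t|) := by
    intro d hd
    have hd0 : (0 : ℝ) < d := by exact_mod_cast (Finset.mem_Icc.1 hd).1
    have h := hKp (2 ^ j / d) t (by positivity)
    have e : 2 * C * 2 ^ j / (1 + t ^ 2) * (1 / d) + 2 * C * Real.sqrt (1 + |t|) =
        2 * (C * (2 ^ j / d / (1 + t ^ 2) + Real.sqrt (1 + |t|))) := by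
      field_simp
    rw [e]
    linarith
  refine (Finset.sum_le_sum h1).trans ?_
  rw [Finset.sum_add_distrib, ← Finset.mul_sum, Finset.sum_const, nsmul_eq_mul, Nat.card_Icc, Nat.add_sub_cancel]
  have h3 := AAx.harm (T ^ κ') hD1
  rw [Real.log_rpow hT0] at h3
  have h3' : ∑ d ∈ Finset.Icc 1 ⌊T ^ κ'⌋₊, (1 : ℝ) / d ≤ 2 * Real.log T := by nlinarith
  have h4 : ((⌊T ^ κ'⌋₊ : ℕ) : ℝ) ≤ T ^ κ' := Nat.floor_le (by positivity)
  have h5 : T' ^ 2 ≤ 1 + t ^ 2 := by nlinarith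
  have hA : 2 * C * 2 ^ j / (1 + t ^ 2) * ∑ d ∈ Finset.Icc 1 ⌊T ^ κ'⌋₊, (1 : ℝ) / d ≤
      4 * C * 2 ^ j * Real.log T / T' ^ 2 := by
    calc 2 * C * 2 ^ j / (1 + t ^ 2) * ∑ d ∈ Finset.Icc 1 ⌊T ^ κ'⌋₊, (1 : ℝ) / d
        ≤ 2 * C * 2 ^ j / T' ^ 2 * (2 * Real.log T) := by
          apply mul_le_mul _ h3' (Finset.sum_nonneg fun d _ => by positivity) (by positivity)
          exact div_le_div_of_nonneg_left (by positivity) hT'2 h5
      _ = 4 * C * 2 ^ j * Real.log T / T' ^ 2 := by ring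
  have hsq : Real.sqrt (1 + |t|) ≤ 2 * T ^ (13 / 200 : ℝ) := by
    rw [Real.sqrt_le_left (by positivity)]
    have e : (2 * T ^ (13 / 200 : ℝ)) ^ 2 = 4 * T ^ (13 / 100 : ℝ) := by
      rw [mul_pow, ← Real.rpow_natCast (T ^ (13 / 200 : ℝ)) 2, ← Real.rpow_mul hT0.le]
      norm_num
    rw [e, abs_of_nonneg (by linarith)]
    linarith
  have hB : (⌊T ^ κ'⌋₊ : ℝ) * (2 * C * Real.sqrt (1 + |t|)) ≤ 4 * C * 2 ^ j / T' ^ 2 := by
    rw [le_div_iff₀ hT'2]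
    have h6 : T' ^ 2 ≤ T ^ (13 / 50 : ℝ) := by
      have e : T ^ (13 / 50 : ℝ) = (T ^ (13 / 100 : ℝ)) ^ 2 := by
        rw [← Real.rpow_natCast (T ^ (13 / 100 : ℝ)) 2, ← Real.rpow_mul hT0.le]
        norm_num
      rw [e]
      exact pow_le_pow_left₀ (by linarith) hT2 2
    calc (⌊T ^ κ'⌋₊ : ℝ) * (2 * C * Real.sqrt (1 + |t|)) * T' ^ 2
        ≤ T ^ κ' * (2 * C * (2 * T ^ (13 / 200 : ℝ))) * T ^ (13 / 50 : ℝ) := by
          apply mul_le_mul _ h6 hT'2.le (by positivity)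
          apply mul_le_mul h4 _ (by positivity) (by positivity)
          exact mul_le_mul_of_nonneg_left hsq (by positivity)
      _ = 4 * C * (T ^ κ' * T ^ (13 / 200 : ℝ) * T ^ (13 / 50 : ℝ)) := by ring
      _ = 4 * C * T ^ (κ' + 13 / 200 + 13 / 50) := by rw [← Real.rpow_add hT0, ← Real.rpow_add hT0]
      _ ≤ 4 * C * T ^ (1 / 2 : ℝ) := by
          apply mul_le_mul_of_nonneg_left _ (by positivity)
          exact Real.rpow_le_rpow_of_exponent_le hT (by linarith)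
      _ ≤ 4 * C * 2 ^ j := mul_le_mul_of_nonneg_left hj (by positivity)
  have hB' : 4 * C * 2 ^ j / T' ^ 2 ≤ 4 * C * 2 ^ j * Real.log T / T' ^ 2 := by
    apply div_le_div_of_nonneg_right _ hT'2.le
    have : 0 ≤ 4 * C * 2 ^ j := by positivity
    nlinarith
  calc _ ≤ 4 * C * 2 ^ j * Real.log T / T' ^ 2 + 4 * C * 2 ^ j * Real.log T / T' ^ 2 :=
        add_le_add hA (hB.trans hB')
    _ = 8 * C * 2 ^ j * Real.log T / T' ^ 2 := by ring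

section core

variable {ι : Type} [Fintype ι] [DecidableEq ι] {η κ3 κ' T : ℝ} {o : ι → Option ℕ}
  {f : ι → ArithmeticFunction ℝ} {lt : ι → ℕ → ℝ} {Ls Ss : Finset ι}

theorem core_i (hTb : StTb) (hD : Dat η κ3 κ' T o f lt Ls Ss) (CT CK CF CR : ℝ) (hCT : 1 ≤ CT) (hCK : 1 ≤ CK)
    (hCF : 1 ≤ CF) (hCR : 1 ≤ CR)
    (hTb2 : ∀ (l : ℕ → ℝ) (j : ℕ) (D : ℝ) (Y : ℕ), 2 ≤ D → D ≤ 2 ^ j → (∀ d, |l d| ≤ 2) →
      (∀ d, l d ≠ 0 → 1 ≤ d ∧ (d : ℝ) ≤ D) → ∑ n ∈ Finset.Icc 1 Y, |tb l j n| ≤ CT * 2 ^ j * Real.log D)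
    (hKp : ∀ N t : ℝ, 0 < N → ‖Bl psi N t‖ ≤ CK * (N / (1 + t ^ 2) + Real.sqrt (1 + |t|)))
    (hT : 1 ≤ T) (hlog : 1 ≤ Real.log T) (hκ : 0 < κ') (hκ1 : κ' ≤ 1 / 20) (hκ3 : 0 < κ3) (h2 : 2 ≤ T ^ κ')
    (S : Finset ℝ) (hS : S.Nonempty) (hSpos : ∀ x ∈ S, 0 < x) (g : ℝ → ℂ) (hg : ∀ x, ‖g x‖ ≤ 1) (T' δ : ℝ)
    (hT1 : 1 ≤ T') (hT2 : T' ≤ T ^ (13 / 100 : ℝ)) (i0 : ι) (hi0 : i0 ∈ Ls) (hP : ∏ i, sc (o i) ≤ CR * T ^ 2)
    (hmain : S.card * (δ * T ^ 2) ≤ CF * Real.log T * ∫ t in T'..(2 * T'), ‖GS S g t‖ *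
      ∏ i, ‖Dp (Rg_aux.Yn (o i)) (fun n => ((f i n : ℝ) : ℂ)) t‖) :
    T' * δ ≤ (8 * CF * CK * CT ^ 3 * 2 ^ Fintype.card ι * CR) * Real.log T ^ 5 := by
  have hT0 : 0 < T := by linarith
  have hT'0 : 0 < T' := by linarith
  have hlog0 : 0 < Real.log T := by linarith
  set K : ℝ := 8 * CK * Real.log T / T' ^ 2 * ((CT * Real.log T) ^ 3 * 2 ^ Fintype.card ι) * (CR * T ^ 2) with hK
  have hK0 : 0 ≤ K := by positivity
  have hpt : ∀ t ∈ Icc T' (2 * T'), ‖GS S g t‖ *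
      ∏ i, ‖Dp (Rg_aux.Yn (o i)) (fun n => ((f i n : ℝ) : ℂ)) t‖ ≤ S.card * K := by
    intro t ht
    apply mul_le_mul (F4_aux.norm_GS_le S g hSpos (fun x _ => hg x) t) _
      (Finset.prod_nonneg fun i _ => norm_nonneg _) (by positivity)
    have h1 : ∀ i : ι, ‖Dp (Rg_aux.Yn (o i)) (fun n => ((f i n : ℝ) : ℂ)) t‖ ≤
        ((if i ∈ Ls then CT * Real.log T else 1) * 2) * sc (o i) := fun i =>
      (F4_aux.norm_Dp_le _ _ t).trans (AAx.mass hD CT hCT hTb2 hT hlog hκ hκ1 hκ3 h2 i)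
    obtain ⟨l, hl, hf, hlt⟩ := hD.long i0 hi0
    have h3 : ‖Dp (Rg_aux.Yn (o i0)) (fun n => ((f i0 n : ℝ) : ℂ)) t‖ ≤
        8 * CK * Real.log T / T' ^ 2 * (((if i0 ∈ Ls then CT * Real.log T else 1) * 2) * sc (o i0)) := by
      rw [hl, hf, if_pos hi0]
      refine (long_small hTb CK hCK hKp T T' t κ' (lt i0) l hT hlog hκ hκ1 hT1 hT2 ht.1 ht.2 ?_
        (hD.wt i0 hi0) (hD.ws i0 hi0)).trans ?_
      · exact le_trans (Real.rpow_le_rpow_of_exponent_le hT (by linarith)) hlt.le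
      · simp only [sc]
        have h4 : 1 ≤ CT * Real.log T * 2 := by
          have := one_le_mul_of_one_le_of_one_le hCT hlog
          linarith
        calc 8 * CK * 2 ^ l * Real.log T / T' ^ 2 = 8 * CK * Real.log T / T' ^ 2 * (1 * 2 ^ l) := by ring
          _ ≤ 8 * CK * Real.log T / T' ^ 2 * (CT * Real.log T * 2 * 2 ^ l) := by
            apply mul_le_mul_of_nonneg_left _ (by positivity)
            exact mul_le_mul_of_nonneg_right h4 (by positivity)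
    rw [← Finset.mul_prod_erase Finset.univ _ (Finset.mem_univ i0)]
    have h5 : ∏ i ∈ Finset.univ.erase i0, ‖Dp (Rg_aux.Yn (o i)) (fun n => ((f i n : ℝ) : ℂ)) t‖ ≤
        ∏ i ∈ Finset.univ.erase i0, (((if i ∈ Ls then CT * Real.log T else 1) * 2) * sc (o i)) :=
      Finset.prod_le_prod (fun i _ => norm_nonneg _) fun i _ => h1 i
    have hW0 : ∀ i : ι, 0 ≤ ((if i ∈ Ls then CT * Real.log T else 1) * 2) * sc (o i) := fun i =>
      le_trans (norm_nonneg _) (h1 i)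
    refine (mul_le_mul h3 h5 (Finset.prod_nonneg fun i _ => norm_nonneg _)
      (mul_nonneg (by positivity) (hW0 i0))).trans ?_
    rw [mul_assoc, Finset.mul_prod_erase Finset.univ
      (fun i => ((if i ∈ Ls then CT * Real.log T else 1) * 2) * sc (o i)) (Finset.mem_univ i0),
      Finset.prod_mul_distrib (g := fun i => sc (o i)), hK, mul_assoc (8 * CK * Real.log T / T' ^ 2)]
    apply mul_le_mul_of_nonneg_left _ (by positivity)
    apply mul_le_mul (AAx.prod_mass Ls hD.card CT (Real.log T) hCT hlog) hP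
      (Finset.prod_nonneg fun i _ => (Rg_aux.sc_pos _).le) (by positivity)
  have hint : ∫ t in T'..(2 * T'), ‖GS S g t‖ *
      ∏ i, ‖Dp (Rg_aux.Yn (o i)) (fun n => ((f i n : ℝ) : ℂ)) t‖ ≤ T' * (S.card * K) := by
    have h1 : ∫ t in T'..(2 * T'), ‖GS S g t‖ *
        ∏ i, ‖Dp (Rg_aux.Yn (o i)) (fun n => ((f i n : ℝ) : ℂ)) t‖ ≤ ∫ t in T'..(2 * T'), (S.card * K : ℝ) := by
      apply intervalIntegral.integral_mono_on (by linarith)
      · exact ((F4_aux.cont_GS S g hSpos).norm.mul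
          (continuous_finsetProd _ fun i _ => (F4_aux.cont_Dp _ _).norm)).intervalIntegrable _ _
      · exact continuous_const.intervalIntegrable _ _
      · exact hpt
    rw [intervalIntegral.integral_const] at h1
    refine h1.trans (le_of_eq ?_)
    rw [smul_eq_mul]
    ring
  have h6 : S.card * (δ * T ^ 2) ≤ CF * Real.log T * (T' * (S.card * K)) :=
    hmain.trans (mul_le_mul_of_nonneg_left hint (by positivity))
  have hc : (0 : ℝ) < S.card := by exact_mod_cast hS.card_pos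
  have h7 : δ * T ^ 2 ≤ CF * Real.log T * (T' * K) := by
    have h8 : S.card * (δ * T ^ 2) ≤ S.card * (CF * Real.log T * (T' * K)) := by
      refine h6.trans (le_of_eq ?_)
      ring
    exact le_of_mul_le_mul_left h8 hc
  have h9 : CF * Real.log T * (T' * K) =
      ((8 * CF * CK * CT ^ 3 * 2 ^ Fintype.card ι * CR) * Real.log T ^ 5) / T' * T ^ 2 := by
    rw [hK]
    field_simp
  rw [h9] at h7
  have h10 : δ ≤ ((8 * CF * CK * CT ^ 3 * 2 ^ Fintype.card ι * CR) * Real.log T ^ 5) / T' :=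
    le_of_mul_le_mul_right h7 (by positivity)
  rw [le_div_iff₀ hT'0] at h10
  linarith

/-- choice of one tuple in the long slots -/
theorem core_ii (hTb : StTb) (hD : Dat η κ3 κ' T o f lt Ls Ss) (κ0 δ CF CR : ℝ) (hCF : 1 ≤ CF)
    (hT : 1 < T) (hδ : 0 < δ) (hκ : 0 < κ') (hκ3 : κ3 ≤ 1 / 200) (hκ'3 : κ' ≤ κ3 / 10) (hκ0 : 20 * κ' ≤ κ0)
    (hκ01 : κ0 ≤ 1 / 1000) (hCR : CR ≤ T ^ κ0) (hbig : 8 * CF * Real.log T / δ ≤ T ^ κ')
    (S : Finset ℝ) (hSpos : ∀ x ∈ S, 0 < x) (g : ℝ → ℂ) (T' : ℝ) (hT'0 : 0 < T')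
    (i0 : ι) (hi0 : i0 ∈ Ls) (hP : ∏ i, sc (o i) ≤ CR * T ^ 2)
    (hmain : S.card * (δ * T ^ 2) ≤ CF * Real.log T * ∫ t in T'..(2 * T'), ‖GS S g t‖ *
      ∏ i, ‖Dp (Rg_aux.Yn (o i)) (fun n => ((f i n : ℝ) : ℂ)) t‖) :
    ∃ (m l : ℕ) (a : Fin m → ℕ → ℂ) (N : Fin m → ℝ) (N' : Fin l → ℝ), 1 ≤ l ∧ l ≤ 3 ∧ (∀ i, IsBlk (a i) (N i)) ∧
      (∀ i, T ^ η / 2 ≤ N i ∧ N i ≤ T ^ (101 / 200 : ℝ)) ∧ (∀ i, T ^ (1 / 2 : ℝ) ≤ N' i ∧ N' i ≤ T ^ (3 : ℝ)) ∧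
      (∏ i, N i) * ∏ i, N' i ≤ T ^ (2 + κ0) ∧
      S.card * T ^ (2 - κ0) ≤
        ∫ t in T'..(2 * T'), ‖GS S g t‖ * ((∏ i, ‖PB (a i) (N i) t‖) * ∏ i, ‖Bl psi (N' i) t‖) := by
  have hT0 : 0 < T := by linarith
  have hT1 : 1 ≤ T := hT.le
  have hlog0 : 0 < Real.log T := Real.log_pos hT
  have hle : T' ≤ 2 * T' := by linarith
  set cf : ι → ℕ → ℂ := fun i n => ((f i n : ℝ) : ℂ) with hcf
  set H : ℝ → ℝ := fun t => ‖GS S g t‖ * ∏ i ∈ Ss, ‖PB (cf i) (sc (o i)) t‖ with hH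
  have hHc : Continuous H := (F4_aux.cont_GS S g hSpos).norm.mul
    (continuous_finsetProd _ fun i _ => (F4_aux.cont_Dp _ _).norm)
  have hH0 : ∀ t, 0 ≤ H t := fun t => mul_nonneg (norm_nonneg _) (Finset.prod_nonneg fun i _ => norm_nonneg _)
  have hBlc : ∀ N : ℝ, 0 < N → Continuous (Bl psi N) :=
    (Pool.Agent.Work.MP_56b8f5_nt.UC.iBc psi Rp_aux.isWt_psi).2.1
  set Ds : Finset ℕ := Finset.Icc 1 ⌊T ^ κ'⌋₊ with hDs
  have hDne : Ds.Nonempty := by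
    rw [hDs, Finset.nonempty_Icc]
    exact Nat.le_floor (by simpa using Real.one_le_rpow hT1 hκ.le)
  have hDcard : (Ds.card : ℝ) ≤ T ^ κ' := by
    rw [hDs, Nat.card_Icc, Nat.add_sub_cancel]
    exact Nat.floor_le (by positivity)
  set B : ι → ℕ → ℝ → ℝ := fun i k t => 2 * ‖Bl psi (sc (o i) / k) t‖ with hB
  have hBc : ∀ i ∈ Ls, ∀ k ∈ Ds, Continuous (B i k) := by
    intro i _ k hk
    have hk0 : (0 : ℝ) < k := by exact_mod_cast (Finset.mem_Icc.1 hk).1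
    exact continuous_const.mul (hBlc _ (div_pos (Rg_aux.sc_pos _) hk0)).norm
  have hB0 : ∀ i k t, 0 ≤ B i k t := fun i k t => by positivity
  obtain ⟨d, hd, hpick⟩ := AAx.pick Ds hDne B T' (2 * T') Ls hBc hB0 H hHc hH0
  have hd' : ∀ i, (0 : ℝ) < d i ∧ (d i : ℝ) ≤ T ^ κ' := by
    intro i
    obtain ⟨h1, h2⟩ := Finset.mem_Icc.1 (hd i)
    refine ⟨by exact_mod_cast h1, ?_⟩
    calc (d i : ℝ) ≤ ((⌊T ^ κ'⌋₊ : ℕ) : ℝ) := by exact_mod_cast h2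
      _ ≤ T ^ κ' := Nat.floor_le (by positivity)
  have hd1 : ∀ i, (1 : ℝ) ≤ d i := fun i => by exact_mod_cast (Finset.mem_Icc.1 (hd i)).1
  -- step 1
  have hs1 : ∫ t in T'..(2 * T'), ‖GS S g t‖ *
      ∏ i, ‖Dp (Rg_aux.Yn (o i)) (fun n => ((f i n : ℝ) : ℂ)) t‖ ≤
      ∫ t in T'..(2 * T'), H t * ∏ i ∈ Ls, ∑ k ∈ Ds, B i k t := by
    apply intervalIntegral.integral_mono_on hle
    · exact ((F4_aux.cont_GS S g hSpos).norm.mul
        (continuous_finsetProd _ fun i _ => (F4_aux.cont_Dp _ _).norm)).intervalIntegrable _ _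
    · exact (hHc.mul (continuous_finsetProd _ fun i hi => continuous_finsetSum _ fun k hk =>
        hBc i hi k hk)).intervalIntegrable _ _
    · intro t _
      rw [AAx.prod_split hD (fun i => ‖Dp (Rg_aux.Yn (o i)) (fun n => ((f i n : ℝ) : ℂ)) t‖)]
      · rw [← mul_assoc]
        have e : ∏ i ∈ Ss, ‖Dp (Rg_aux.Yn (o i)) (fun n => ((f i n : ℝ) : ℂ)) t‖ =
            ∏ i ∈ Ss, ‖PB (cf i) (sc (o i)) t‖ := by
          refine Finset.prod_congr rfl fun i hi => ?_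
          obtain ⟨l, hl, -⟩ := hD.short i hi
          rw [hl, AAx.Dp_eq_PB]
          rfl
        rw [e]
        apply mul_le_mul_of_nonneg_left _ (hH0 t)
        exact Finset.prod_le_prod (fun i _ => norm_nonneg _) fun i hi => AAx.sum_long hTb hD t i hi
      · intro i h1 h2
        obtain ⟨h3, h4⟩ := hD.rest i h1 h2
        rw [h3, h4, AAx.Dp_one, norm_one]
  -- step 2
  set X : ℝ := ∫ t in T'..(2 * T'), H t * ∏ i ∈ Ls, ‖Bl psi (sc (o i) / d i) t‖ with hX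
  have hs2 : ∫ t in T'..(2 * T'), H t * ∏ i ∈ Ls, B i (d i) t = 2 ^ Ls.card * X := by
    rw [hX, ← intervalIntegral.integral_const_mul]
    congr 1
    funext t
    simp only [hB]
    rw [Finset.prod_mul_distrib, Finset.prod_const]
    ring
  have hX0 : 0 ≤ X := by
    apply intervalIntegral.integral_nonneg hle
    intro t _
    exact mul_nonneg (hH0 t) (Finset.prod_nonneg fun i _ => norm_nonneg _)
  have hs5 : (Ds.card : ℝ) ^ Ls.card * 2 ^ Ls.card ≤ 8 * T ^ (3 * κ') := by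
    rw [← mul_pow]
    have h1 : (Ds.card : ℝ) * 2 ≤ 2 * T ^ κ' := by linarith
    have h2 : 1 ≤ 2 * T ^ κ' := by
      have := Real.one_le_rpow hT1 hκ.le
      linarith
    calc ((Ds.card : ℝ) * 2) ^ Ls.card ≤ (2 * T ^ κ') ^ Ls.card := pow_le_pow_left₀ (by positivity) h1 _
      _ ≤ (2 * T ^ κ') ^ 3 := pow_le_pow_right₀ h2 hD.card
      _ = 8 * T ^ (3 * κ') := by
        rw [mul_pow, ← Real.rpow_natCast (T ^ κ') 3, ← Real.rpow_mul hT0.le]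
        norm_num
        congr 1
        ring
  have hs6 : S.card * (δ * T ^ 2) ≤ CF * Real.log T * (8 * T ^ (3 * κ') * X) := by
    refine hmain.trans (mul_le_mul_of_nonneg_left ?_ (by positivity))
    refine hs1.trans (hpick.trans ?_)
    rw [hs2, ← mul_assoc]
    exact mul_le_mul_of_nonneg_right hs5 hX0
  have hs7 : (S.card : ℝ) * T ^ 2 ≤ T ^ (4 * κ') * X := by
    have h1 : (S.card : ℝ) * T ^ 2 ≤ 8 * CF * Real.log T / δ * (T ^ (3 * κ') * X) := by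
      have h2 : (S.card : ℝ) * T ^ 2 * δ ≤ 8 * CF * Real.log T / δ * (T ^ (3 * κ') * X) * δ := by
        have e : 8 * CF * Real.log T / δ * (T ^ (3 * κ') * X) * δ = CF * Real.log T * (8 * T ^ (3 * κ') * X) := by
          field_simp
        rw [e]
        linarith
      exact le_of_mul_le_mul_right h2 hδ
    refine h1.trans ?_
    have e4 : T ^ (4 * κ') = T ^ κ' * T ^ (3 * κ') := by
      rw [← Real.rpow_add hT0]
      congr 1
      ring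
    rw [e4, mul_assoc (T ^ κ')]
    exact mul_le_mul_of_nonneg_right hbig (by positivity)
  have hs8 : (S.card : ℝ) * T ^ (2 - κ0) ≤ X := by
    have e : T ^ (2 - κ0) = T ^ 2 * T ^ (-κ0) := by
      rw [← Real.rpow_natCast T 2, ← Real.rpow_add hT0]
      congr 1
    rw [e, ← mul_assoc]
    calc (S.card : ℝ) * T ^ 2 * T ^ (-κ0) ≤ T ^ (4 * κ') * X * T ^ (-κ0) :=
          mul_le_mul_of_nonneg_right hs7 (by positivity)
      _ = T ^ (4 * κ' + -κ0) * X := by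
        rw [Real.rpow_add hT0]
        ring
      _ ≤ 1 * X := mul_le_mul_of_nonneg_right
          (Real.rpow_le_one_of_one_le_of_nonpos hT1 (by linarith)) hX0
      _ = X := one_mul X
  have hP' : ∏ i, sc (o i) ≤ T ^ (2 + κ0) := by
    refine hP.trans ?_
    rw [Real.rpow_add hT0, Real.rpow_two, mul_comm]
    exact mul_le_mul_of_nonneg_left hCR (by positivity)
  refine ⟨Ss.card, Ls.card, fun i => cf (Ss.equivFin.symm i), fun i => sc (o (Ss.equivFin.symm i)),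
    fun i => sc (o (Ls.equivFin.symm i)) / d (Ls.equivFin.symm i), Finset.card_pos.2 ⟨i0, hi0⟩, hD.card,
    ?_, ?_, ?_, ?_, ?_⟩
  · intro i
    obtain ⟨l, hl, hf1, -⟩ := hD.short _ (Ss.equivFin.symm i).2
    have h3 := AAx.isBlk_of (f (Ss.equivFin.symm i)) l hf1 (by
      have h4 := hD.supp (Ss.equivFin.symm i)
      rw [hl] at h4
      exact h4)
    simp only [hl]
    exact h3
  · intro i
    obtain ⟨l, hl, -, h1, h2⟩ := hD.short _ (Ss.equivFin.symm i).2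
    simp only [hl]
    exact ⟨h1, h2.trans (Real.rpow_le_rpow_of_exponent_le hT1 (by linarith))⟩
  · intro i
    obtain ⟨l, hl, -, hlt⟩ := hD.long _ (Ls.equivFin.symm i).2
    obtain ⟨hd0, hdk⟩ := hd' (Ls.equivFin.symm i)
    have h1 : T ^ (1 / 2 + κ3) < sc (o (Ls.equivFin.symm i)) := by
      rw [hl]
      exact hlt
    constructor
    · rw [le_div_iff₀ hd0]
      calc T ^ (1 / 2 : ℝ) * d (Ls.equivFin.symm i) ≤ T ^ (1 / 2 : ℝ) * T ^ κ' :=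
            mul_le_mul_of_nonneg_left hdk (by positivity)
        _ = T ^ (1 / 2 + κ') := (Real.rpow_add hT0 _ _).symm
        _ ≤ T ^ (1 / 2 + κ3) := Real.rpow_le_rpow_of_exponent_le hT1 (by linarith)
        _ ≤ sc (o (Ls.equivFin.symm i)) := h1.le
    · calc sc (o (Ls.equivFin.symm i)) / d (Ls.equivFin.symm i) ≤ sc (o (Ls.equivFin.symm i)) :=
            div_le_self (Rg_aux.sc_pos _).le (hd1 _)
        _ ≤ ∏ i, sc (o i) := AAx.sc_le_prod o _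
        _ ≤ T ^ (2 + κ0) := hP'
        _ ≤ T ^ (3 : ℝ) := Real.rpow_le_rpow_of_exponent_le hT1 (by linarith)
  · rw [AAx.prod_fin Ss fun i => sc (o i), AAx.prod_fin Ls fun i => sc (o i) / d i]
    have hPsplit : ∏ i, sc (o i) = (∏ i ∈ Ss, sc (o i)) * ∏ i ∈ Ls, sc (o i) :=
      AAx.prod_split hD (fun i => sc (o i)) fun i h1 h2 => by
        rw [(hD.rest i h1 h2).1]
        simp [sc]
    refine le_trans ?_ hP'
    rw [hPsplit]
    apply mul_le_mul_of_nonneg_left _ (Finset.prod_nonneg fun i _ => (Rg_aux.sc_pos _).le)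
    exact Finset.prod_le_prod (fun i _ => div_nonneg (Rg_aux.sc_pos _).le (hd' i).1.le)
      fun i _ => div_le_self (Rg_aux.sc_pos _).le (hd1 i)
  · refine hs8.trans (le_of_eq ?_)
    rw [hX]
    congr 1
    funext t
    have e1 := AAx.prod_fin Ss fun i => ‖PB (cf i) (sc (o i)) t‖
    have e2 := AAx.prod_fin Ls fun i => ‖Bl psi (sc (o i) / d i) t‖
    simp only [hH]
    rw [mul_assoc]
    exact congrArg₂ (fun x y => ‖GS S g t‖ * (x * y)) e1.symm e2.symm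

end core

/-- **Reduction** of a box with a long slot to the hypothesis of `StRL`, for arbitrary finite sets `S` of points of
`[T², 4T²]` and arbitrary coefficients `g0` of modulus `≤ 1` -/
theorem red (hF4 : StF4) (hPd : StPd) (hRg : StRg) (hTb : StTb)
    (hKp : Pool.Agent.Work.MP_56b8f5_nt.UC.StKp) (h κ2 κ3 κ' κ0 : ℝ) (h1 : 1 ≤ h) (h2 : h ≤ 127 / 100)
    (hκ21 : κ2 ≤ 1 / 20) (hκ3 : 0 < κ3) (hκ32 : κ3 ≤ κ2 / 10) (hκ : 0 < κ') (hκ'3 : κ' ≤ κ3 / 10)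
    (hκ0 : 20 * κ' ≤ κ0) (hκ01 : κ0 ≤ 1 / 1000) (w : ℝ → ℝ) (hw : IsWt w)
    (η κ1 A : ℝ) (hκ1 : 0 < κ1) (hA : 0 < A) :
    ∀ B : ℝ, 3 * A + 25 ≤ B → ∃ C : ℝ, 1 ≤ C ∧
    ∀ (T V : ℝ) (u : Fin 3 → Option ℕ) (v : Fin (SS η) → Option ℕ) (lw : Fin 3 → ℕ → ℝ) (S : Finset ℝ) (g0 : ℝ → ℂ),
    C ≤ T → T / 2 ≤ V → V ≤ 4 * T ^ h → (∃ i, Lg T κ2 (u i)) → (∀ i d, |lw i d| ≤ 2) →
    (∀ i d, lw i d ≠ 0 → 1 ≤ d ∧ (d : ℝ) ≤ T ^ κ') →
    (∀ x ∈ S, T ^ 2 ≤ x ∧ x ≤ 4 * T ^ 2) → S.Nonempty → (∀ x, ‖g0 x‖ ≤ 1) →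
    S.card * (1 / Real.log T ^ A) ≤ ‖∑ x ∈ S, g0 x *
      ((DD w (BFA (zz η T) (zz (1 / 2 - κ1) T) T κ3 lw u v) x V (Real.log T ^ B) : ℝ) : ℂ)‖ →
    ∃ (T' : ℝ) (g : ℝ → ℂ) (m l : ℕ) (a : Fin m → ℕ → ℂ) (N : Fin m → ℝ) (N' : Fin l → ℝ),
      T ^ (13 / 100 : ℝ) ≤ T' ∧ T' ≤ T ^ (h + κ0) ∧ (∀ x, ‖g x‖ ≤ 1) ∧ 1 ≤ l ∧ l ≤ 3 ∧
      (∀ i, IsBlk (a i) (N i)) ∧ (∀ i, T ^ η / 2 ≤ N i ∧ N i ≤ T ^ (101 / 200 : ℝ)) ∧
      (∀ i, T ^ (1 / 2 : ℝ) ≤ N' i ∧ N' i ≤ T ^ (3 : ℝ)) ∧ (∏ i, N i) * ∏ i, N' i ≤ T ^ (2 + κ0) ∧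
      S.card * T ^ (2 - κ0) ≤
        ∫ t in T'..(2 * T'), ‖GS S g t‖ * ((∏ i, ‖PB (a i) (N i) t‖) * ∏ i, ‖Bl psi (N' i) t‖) := by
  classical
  obtain ⟨CR, hCR, hR⟩ := hRg w hw (SS η)
  have hκ0' : 0 < κ0 := by linarith
  obtain ⟨CF, hCF, hF⟩ := hF4 w hw (κ0 / 8) (by linarith) (by linarith)
  obtain ⟨CT, hCT, hTb2⟩ := hTb.2
  obtain ⟨CK, hCK, hK⟩ := hKp psi Rp_aux.isWt_psi
  intro B hB
  set n : ℕ := Fintype.card (Fin 3 ⊕ Fin (SS η)) with hn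
  set MM : ℝ := CT ^ 3 * 2 ^ n * CR with hMM
  have hMM0 : 0 < MM := by positivity
  set K0 : ℝ := 8 * CF * CK * CT ^ 3 * 2 ^ n * CR with hK0
  have hev : ∀ᶠ T : ℝ in atTop, (3 ≤ T ∧ 1 ≤ Real.log T ^ (1 : ℝ) ∧ 2 ≤ T ^ κ' ∧ 2 ≤ T ^ κ1) ∧
      (2 * Real.log T ^ (A + 10) ≤ T ^ (1 : ℝ) ∧ 2 * Real.log T ^ B ≤ T ^ (1 : ℝ) ∧
        2 * (CF * MM) ≤ Real.log T ^ (2 : ℝ) ∧ 2 * (CF * MM) * Real.log T ^ (3 + A) ≤ T ^ (1 : ℝ)) ∧
      (K0 + 1 ≤ Real.log T ^ (5 : ℝ) ∧ CR ≤ T ^ κ0 ∧ 4 ≤ T ^ (23 / 100 : ℝ) ∧ 4 ≤ T ^ (κ0 / 4)) ∧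
      (8 * CF) * Real.log T ^ (A + 1) ≤ T ^ κ' := by
    refine ((eventually_ge_atTop 3).and ((AAx.ev_low 1 1 one_pos).and ((AAx.ev_pow 2 κ' hκ).and
      (AAx.ev_pow 2 κ1 hκ1)))).and
      (((AAx.ev_log _ _ 1 one_pos).and ((AAx.ev_log _ _ 1 one_pos).and ((AAx.ev_low _ 2 (by norm_num)).and
        (AAx.ev_log _ _ 1 one_pos)))).and
      (((AAx.ev_low _ 5 (by norm_num)).and ((AAx.ev_pow _ κ0 hκ0').and
        ((AAx.ev_pow _ _ (by norm_num)).and (AAx.ev_pow _ _ (by linarith))))).and (AAx.ev_log _ _ κ' hκ)))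
  obtain ⟨C, hC⟩ := eventually_atTop.1 hev
  refine ⟨max C 1, le_max_right _ _, ?_⟩
  intro T V u v lw S g0 hCT' hV1 hV2 hlg hw1 hw2 hSx hSne hg0 hmain
  obtain ⟨⟨hT3, hlog1, hTκ, hTκ1⟩, ⟨hl1, hl2, hl3, hl4⟩, ⟨hl5, hC1, hl7, hl8⟩, hl6⟩ :=
    hC T ((le_max_left _ _).trans hCT')
  have hT1 : 1 < T := by linarith
  have hT0 : 0 < T := by linarith
  have hV0 : 0 < V := by linarith
  have hVone : 1 ≤ V := by linarith
  set L : ℝ := Real.log T with hL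
  rw [Real.rpow_one] at hlog1 hl1 hl2
  have hL0 : 0 < L := by linarith
  set y := zz η T with hy
  set z := zz (1 / 2 - κ1) T with hz
  set δ : ℝ := 1 / L ^ A with hδ
  have hδ0 : 0 < δ := by positivity
  have hcard : (0 : ℝ) < S.card := by exact_mod_cast hSne.card_pos
  set F : ArithmeticFunction ℝ := BFA y z T κ3 lw u v with hFdef
  -- the window
  have hV3 : V ≤ T ^ (3 / 2 : ℝ) := by
    calc V ≤ 4 * T ^ h := hV2
      _ ≤ T ^ (23 / 100 : ℝ) * T ^ (127 / 100 : ℝ) := by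
        apply mul_le_mul hl7 (Real.rpow_le_rpow_of_exponent_le hT1.le h2) (by positivity) (by positivity)
      _ = T ^ (3 / 2 : ℝ) := by
        rw [← Real.rpow_add hT0]
        norm_num
  have hV4 : V ^ (1 + κ0 / 8) ≤ T ^ (h + κ0) := by
    have e1 : V ≤ T ^ (h + κ0 / 4) := by
      rw [Real.rpow_add hT0, mul_comm]
      exact hV2.trans (mul_le_mul_of_nonneg_right hl8 (by positivity))
    calc V ^ (1 + κ0 / 8) ≤ (T ^ (h + κ0 / 4)) ^ (1 + κ0 / 8) :=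
          Real.rpow_le_rpow hV0.le e1 (by linarith)
      _ = T ^ ((h + κ0 / 4) * (1 + κ0 / 8)) := by rw [← Real.rpow_mul hT0.le]
      _ ≤ T ^ (h + κ0) := Real.rpow_le_rpow_of_exponent_le hT1.le (by nlinarith)
  -- a point with nonzero difference
  obtain ⟨x, hxS, hDD⟩ : ∃ x ∈ S, DD w F x V (L ^ B) ≠ 0 := by
    by_contra h
    push Not at h
    have h1 : ∑ x ∈ S, g0 x * ((DD w F x V (L ^ B) : ℝ) : ℂ) = 0 := by
      apply Finset.sum_eq_zero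
      intro x hx
      rw [h x hx]
      simp
    rw [h1, norm_zero] at hmain
    have := mul_pos hcard hδ0
    linarith
  have hTB1 : 1 ≤ L ^ B := Real.one_le_rpow hlog1 (by linarith)
  obtain ⟨T2, hT21, hSW⟩ : ∃ T2, 1 ≤ T2 ∧ SW w F x T2 ≠ 0 := by
    by_contra h
    push Not at h
    apply hDD
    unfold DD
    rw [h V hVone, h (L ^ B) hTB1]
    ring
  obtain ⟨-, hP2⟩ := hR T κ3 x T2 y z lw u v hT1.le hT21 (hSx x hxS).1 (hSx x hxS).2 (Or.inr hSW)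
  obtain ⟨k, hk, -⟩ := Rg_aux.sw_ne w _ x T2 hSW
  obtain ⟨hne1, hne2⟩ := AAx.prod_ne (fun i => msA y T κ3 (lw i) (u i)) (fun r => ps y z (v r)) k hk
  -- the data
  have hD := AAx.dat η κ1 κ3 κ' T lw u v hT1.le hTκ1 hκ3 hw1 hw2 hne1 hne2
  set o : Fin 3 ⊕ Fin (SS η) → Option ℕ := Sum.elim u v with ho
  set f : Fin 3 ⊕ Fin (SS η) → ArithmeticFunction ℝ := Sum.elim (fun i => msA (zz η T) T κ3 (lw i) (u i))
      (fun r => ps (zz η T) (zz (1 / 2 - κ1) T) (v r)) with hf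
  have hFf : F = ∏ i, f i := by
    rw [hFdef, Fintype.prod_sum_type]
    rfl
  have hPo : ∏ i, sc (o i) ≤ CR * T ^ 2 := by
    rw [ho, AAx.PS_eq]
    exact hP2
  obtain ⟨i0, l0, hl0, hlt0⟩ := hlg
  have hi0 : (Sum.inl i0 : Fin 3 ⊕ Fin (SS η)) ∈ (Finset.univ.filter fun i => Lg T κ3 (o i)) := by
    rw [Finset.mem_filter]
    refine ⟨Finset.mem_univ _, l0, hl0, lt_of_le_of_lt ?_ hlt0⟩
    exact Real.rpow_le_rpow_of_exponent_le hT1.le (by linarith)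
  -- StPd
  obtain ⟨hp1, hp2, hp3⟩ := hPd (Fin 3 ⊕ Fin (SS η)) Finset.univ f (fun i => sc (o i) / 2)
    (fun i => Rg_aux.Yn (o i)) (fun i _ => (div_pos (Rg_aux.sc_pos _) (by norm_num)).le)
    (fun i _ n hn => hD.supp i n hn)
  rw [← hFf] at hp1 hp2 hp3
  set Y : ℕ := ∏ i, Rg_aux.Yn (o i) with hY
  have hmass : ∑ n ∈ Finset.Icc 1 Y, |F n| ≤ MM * L ^ 3 * T ^ 2 := by
    refine (hp2 Y).trans ?_
    have h1 : ∏ i, ∑ n ∈ Finset.Icc 1 (Rg_aux.Yn (o i)), |f i n| ≤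
        ∏ i, (((if i ∈ (Finset.univ.filter fun i => Lg T κ3 (o i)) then CT * Real.log T else 1) * 2) * sc (o i)) :=
      Finset.prod_le_prod (fun i _ => Finset.sum_nonneg fun n _ => abs_nonneg _)
        fun i _ => AAx.mass hD CT hCT hTb2 hT1.le hlog1 hκ (by linarith) hκ3 hTκ i
    refine h1.trans ?_
    rw [Finset.prod_mul_distrib]
    refine (mul_le_mul (AAx.prod_mass _ hD.card CT (Real.log T) hCT hlog1) hPo
      (Finset.prod_nonneg fun i _ => (Rg_aux.sc_pos _).le) (by positivity)).trans (le_of_eq ?_)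
    rw [hMM, ← hn]
    ring
  have hcond : CF * (MM * L ^ 3) * ((L ^ (A + 10)) ^ 2 / L ^ B + 1 / T) ≤ δ := by
    have := AAx.cond (CF * MM) A B L T hlog1 hT0 hB (by positivity) hl3 hl4
    rw [← mul_assoc]
    exact this
  obtain ⟨T', g, hT'1, hT'2, hgn, hint⟩ := hF T V (L ^ (A + 10)) (L ^ B) (MM * L ^ 3) δ Y F S g0 hT3 hV1 hV3
    (Real.one_le_rpow hlog1 (by linarith)) (by linarith) hTB1 (by linarith) (by positivity) hδ0
    (fun n hn => ⟨(hp1 n hn).1, (hp1 n hn).2.2⟩) hmass hcond (fun x hx => (hSx x hx).1) hg0 hmain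
  have hSpos : ∀ x ∈ S, 0 < x := fun x hx => lt_of_lt_of_le (by positivity) (hSx x hx).1
  have hint' : S.card * (δ * T ^ 2) ≤ CF * Real.log T * ∫ t in T'..(2 * T'), ‖GS S g t‖ *
      ∏ i, ‖Dp (Rg_aux.Yn (o i)) (fun n => ((f i n : ℝ) : ℂ)) t‖ := by
    refine hint.trans (le_of_eq ?_)
    congr 2
    funext t
    rw [hp3 Y t (le_refl _), norm_prod]
  have hT'11 : 1 ≤ T' := (Real.one_le_rpow hlog1 (by linarith)).trans hT'1
  rcases le_total T' (T ^ (13 / 100 : ℝ)) with hle | hge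
  · exfalso
    have h := core_i hTb hD CT CK CF CR hCT hCK hCF hCR hTb2 hK hT1.le hlog1 hκ (by linarith) hκ3 hTκ S hSne
      hSpos g hgn T' δ hT'11 hle (Sum.inl i0) hi0 hPo hint'
    rw [← hn, ← hK0, ← hL] at h
    have h1 : L ^ (A + 10) * δ ≤ T' * δ := mul_le_mul_of_nonneg_right hT'1 hδ0.le
    have h2 : L ^ (A + 10) * δ = L ^ 10 := by
      rw [hδ, Real.rpow_add hL0]
      have : L ^ A ≠ 0 := by positivity
      field_simp
      rw [← Real.rpow_natCast L 10]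
      norm_num
    have h3 : L ^ 10 ≤ K0 * L ^ 5 := by linarith
    have h4 : L ^ (5 : ℝ) = L ^ 5 := by
      rw [← Real.rpow_natCast L 5]
      norm_num
    rw [h4] at hl5
    have h5 : 0 < L ^ 5 := by positivity
    have h6 : L ^ 10 = L ^ 5 * L ^ 5 := by ring
    rw [h6] at h3
    have h7 := le_of_mul_le_mul_right h3 h5
    linarith
  · have hbig : 8 * CF * Real.log T / δ ≤ T ^ κ' := by
      refine le_trans (le_of_eq ?_) hl6
      rw [hδ, Real.rpow_add hL0, Real.rpow_one]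
      have : L ^ A ≠ 0 := by positivity
      rw [← hL]
      field_simp
    obtain ⟨m, l, a, N, N', e1, e2, e3, e4, e5, e6, e7⟩ := core_ii hTb hD κ0 δ CF CR hCF hT1 hδ0 hκ
      (by linarith) hκ'3 hκ0 hκ01 hC1 hbig S hSpos g T' (by linarith) (Sum.inl i0) hi0 hPo hint'
    exact ⟨T', g, m, l, a, N, N', hge, hT'2.trans hV4, hgn, e1, e2, e3, e4, e5, e6, e7⟩

end AAq

theorem iAA (h r : ℝ) (h1 : 1 ≤ h) (h2 : h ≤ 127 / 100) (hC : StCellA h r) (hRL : StRL h) (hF4 : StF4)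
    (hPd : ASM.StPd) (hRg : ASM.StRg) (hTb : ASM.StTb) (hKp : Pool.Agent.Work.MP_56b8f5_nt.UC.StKp) : StAA h r := by
  classical
  intro κ2 hκ2 hκ21
  obtain ⟨ε, hε, hε1, hcell⟩ := hC
  obtain ⟨κ0, hκ0, hκ0ε, CL, hCL, hrl⟩ := hRL ε hε hε1
  have hκ3 : 0 < κ2 / 10 := by positivity
  have hκ' : 0 < min (κ0 / 20) (κ2 / 10 / 10) := lt_min (by positivity) (by positivity)
  refine ⟨κ2 / 10, min (κ0 / 20) (κ2 / 10 / 10), hκ3, le_rfl, hκ', min_le_right _ _, ?_⟩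
  set κ' : ℝ := min (κ0 / 20) (κ2 / 10 / 10) with hκ'def
  have hκ'0 : 20 * κ' ≤ κ0 := by
    have : κ' ≤ κ0 / 20 := min_le_left _ _
    linarith
  intro w hw η κ1 A hη hηκ hκ1 hκ11 hA
  obtain ⟨C2, hC2, hcell2⟩ := hcell η hη (by linarith)
  have hred := AAq.red hF4 hPd hRg hTb hKp h κ2 (κ2 / 10) κ' κ0 h1 h2 hκ21 hκ3 le_rfl hκ'
    (min_le_right _ _) hκ'0 (by linarith) w hw η κ1 A hκ1 hA
  refine ⟨3 * A + 25, by linarith, ?_⟩
  intro B hB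
  obtain ⟨C1, hC1, hred1⟩ := hred B hB
  refine ⟨max (max C1 C2) (max CL 3), le_trans (by norm_num) (le_max_of_le_right (le_max_right _ _)), ?_⟩
  intro T V u v lw hT hV1 hV2 hlg hw1 hw2 S hSQ hS
  have hT1 : C1 ≤ T := (le_max_left _ _).trans ((le_max_left _ _).trans hT)
  have hT2 : C2 ≤ T := (le_max_right _ _).trans ((le_max_left _ _).trans hT)
  have hT3 : CL ≤ T := (le_max_left _ _).trans ((le_max_right _ _).trans hT)
  have hT4 : 3 ≤ T := (le_max_right _ _).trans ((le_max_right _ _).trans hT)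
  have hT0 : 0 < T := by linarith
  have hTr0 : 0 < T ^ r := Real.rpow_pos_of_pos hT0 _
  rcases S.eq_empty_or_nonempty with hemp | hSne
  · rw [hemp, Finset.card_empty, Nat.cast_zero]
    have : 0 ≤ max (max C1 C2) (max CL 3) := by
      have := le_max_right (max C1 C2) (max CL 3)
      have := le_max_right CL 3
      linarith
    exact mul_nonneg this hTr0.le
  have hSx : ∀ x ∈ S, T ^ 2 ≤ x ∧ x ≤ 4 * T ^ 2 := fun x hx => ⟨(hSQ x hx).1, (hSQ x hx).2.1⟩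
  set DF : ℝ → ℝ := fun x => DD w (BFA (zz η T) (zz (1 / 2 - κ1) T) T (κ2 / 10) lw u v) x V (Real.log T ^ B) with hDF
  set g0 : ℝ → ℂ := fun x => if 0 ≤ DF x then 1 else -1 with hg0
  have hg0n : ∀ x, ‖g0 x‖ ≤ 1 := by
    intro x
    simp only [hg0]
    split_ifs <;> simp
  have hgD : ∀ x, g0 x * ((DF x : ℝ) : ℂ) = ((|DF x| : ℝ) : ℂ) := by
    intro x
    simp only [hg0]
    split_ifs with h
    · rw [abs_of_nonneg h, one_mul]
    · rw [abs_of_neg (not_le.1 h)]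
      push_cast
      ring
  have hmain : S.card * (1 / Real.log T ^ A) ≤ ‖∑ x ∈ S, g0 x * ((DF x : ℝ) : ℂ)‖ := by
    have e : ∑ x ∈ S, g0 x * ((DF x : ℝ) : ℂ) = ((∑ x ∈ S, |DF x| : ℝ) : ℂ) := by
      push_cast
      exact Finset.sum_congr rfl fun x _ => hgD x
    rw [e, Complex.norm_real, Real.norm_of_nonneg (Finset.sum_nonneg fun x _ => abs_nonneg _),
      ← nsmul_eq_mul]
    exact Finset.card_nsmul_le_sum _ _ _ fun x hx => hS x hx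
  obtain ⟨T', g, m, l, a, N, N', e1, e2, e3, e4, e5, e6, e7, e8, e9, e10⟩ := hred1 T V u v lw S g0 hT1 hV1 hV2 hlg
    hw1 hw2 hSx hSne hg0n hmain
  have hSpos : ∀ x ∈ S, 0 < x := fun x hx => lt_of_lt_of_le (by positivity) (hSx x hx).1
  obtain ⟨ν, m', J, a', M, f1, f2, f3, f4, f5, f6, f7, f8⟩ := hrl T T' η m l a N N' S g hT3 hη (by linarith) e1 e2
    e4 e5 e6 e7 e8 e9 hSpos e10
  have hT'1 : 1 ≤ T' := (Real.one_le_rpow (by linarith) (by norm_num)).trans e1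
  have hT'2 : T' ≤ T ^ (h + ε) := e2.trans (Real.rpow_le_rpow_of_exponent_le (by linarith) (by linarith))
  have hfin := hcell2 T T' ν m' J a' M S g hT2 hT'1 hT'2 f1 f2 f3 f4 f5 f6 f7 hSQ e3 f8
  refine hfin.trans (mul_le_mul_of_nonneg_right ?_ hTr0.le)
  exact le_max_of_le_left (le_max_right _ _)

end Pool.Agent.Work.MP_a8fbd7_nt.OX.SQ
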