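/-
MP_a8fbd7_nt, block OX, part SQ, item BB: boxes of type B (reduction to the cell theorem B), windows `V`.  Author: helper70
(modification of `OX/ASM/I_BB.lean` of helper62).
-/
import Mathlib
import Pool.Agent.Work.MP_a8fbd7_nt.OX.SQ.Stmts
import Pool.Agent.Work.MP_a8fbd7_nt.OX.ASM.I_BB

set_option autoImplicit false

open MeasureTheory Set Filter Topology

noncomputable section

namespace Pool.Agent.Work.MP_a8fbd7_nt.OX.SQ

open Pool.Agent.Work.MP_56b8f5_nt.UC (IsWt Bl Dp Om psi eta Sep)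
open Pool.Agent.Work.MP_a8fbd7_nt.OX
open Pool.Agent.Work.MP_a8fbd7_nt.OX.ASM hiding StF4 StBB
open Pool.Agent.Work.MP_a8fbd7_nt.OX.ID (Rough roughOne pb rg)

namespace BBq

open Pool.Agent.Work.MP_a8fbd7_nt.OX.ASM.Rg_aux
open Pool.Agent.Work.MP_a8fbd7_nt.OX.ASM.BB_aux hiding red

/-- facts on the window for large `T` -/
theorem ev_win (h ε B B' : ℝ) (_h1 : 1 ≤ h) (h2 : h ≤ 127 / 100) (hε : 0 < ε) (hε2 : ε ≤ 1 / 1000) :
    ∃ C : ℝ, 1 ≤ C ∧ ∀ T V : ℝ, C ≤ T → T / 2 ≤ V → V ≤ 4 * T ^ h → Real.log T ^ B' ≤ T / 2 ∧ Real.log T ^ B ≤ T / 2 ∧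
      V ≤ T ^ (3 / 2 : ℝ) ∧ V ^ (1 + ε / 4) ≤ T ^ (h + ε) := by
  have e1 : ∀ r : ℝ, ∀ᶠ T : ℝ in atTop, Real.log T ^ r ≤ T / 2 := by
    intro r
    have := (isLittleO_log_rpow_rpow_atTop r one_pos).bound (c := 1 / 2) (by norm_num)
    filter_upwards [this, eventually_ge_atTop 3] with T h h3
    rw [Real.rpow_one, Real.norm_eq_abs, Real.norm_eq_abs, abs_of_pos (by linarith : (0 : ℝ) < T)] at h
    have := (le_abs_self (Real.log T ^ r)).trans h
    linarith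
  have e2 : ∀ᶠ T : ℝ in atTop, (4 : ℝ) ≤ T ^ (ε / 4) := (tendsto_rpow_atTop (by linarith)).eventually_ge_atTop _
  obtain ⟨C, hC⟩ := Filter.eventually_atTop.1 (((e1 B').and (e1 B)).and (e2.and (eventually_ge_atTop (3 : ℝ))))
  refine ⟨max C 1, le_max_right _ _, ?_⟩
  intro T V hT hTV hVT
  obtain ⟨⟨h3, h4⟩, h5, h6⟩ := hC T ((le_max_left _ _).trans hT)
  have hT0 : 0 < T := by linarith
  have hT1 : 1 ≤ T := by linarith
  have hV0 : 0 < V := by linarith
  have h7 : V ≤ T ^ (h + ε / 4) := by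
    refine hVT.trans ?_
    rw [Real.rpow_add hT0, mul_comm]
    exact mul_le_mul_of_nonneg_left h5 (by positivity)
  refine ⟨h3, h4, h7.trans (Real.rpow_le_rpow_of_exponent_le hT1 (by linarith)), ?_⟩
  calc V ^ (1 + ε / 4) ≤ (T ^ (h + ε / 4)) ^ (1 + ε / 4) := Real.rpow_le_rpow hV0.le h7 (by linarith)
    _ = T ^ ((h + ε / 4) * (1 + ε / 4)) := by rw [← Real.rpow_mul hT0.le]
    _ ≤ T ^ (h + ε) := Real.rpow_le_rpow_of_exponent_le hT1 (by nlinarith)

open Classical in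
/-- **Reduction of a large sum over any finite set to the hypothesis of the cell theorem B** -/
theorem red (h : ℝ) (h1h : 1 ≤ h) (h2h : h ≤ 127 / 100) (hF4 : SQ.StF4) (hPd : ASM.StPd) (hRg : ASM.StRg) (hSa : ASM.StSa) (β κ : ℝ) (hκ : 0 < κ) (hκ2 : κ ≤ 1) (w : ℝ → ℝ) (hw : IsWt w)
    (η κ1 A ε A1 : ℝ) (hη : 0 < η) (hη2 : η ≤ 1 / 20) (hκ1 : 0 < κ1) (hA : 0 < A) (hε : 0 < ε)
    (hε2 : ε ≤ 1 / 1000) (hA1 : 0 < A1) :
    ∃ B0 : ℝ, 1 ≤ B0 ∧ ∀ B : ℝ, B0 ≤ B → ∃ C : ℝ, 1 ≤ C ∧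
      ∀ (T V : ℝ) (u : Fin 3 → Option ℕ) (v : Fin (SS η) → Option ℕ) (S : Finset ℝ) (g0 : ℝ → ℂ), C ≤ T →
      T / 2 ≤ V → V ≤ 4 * T ^ h → (∀ i, ¬ Lg T κ (u i)) → Sh T β u v → S.Nonempty → (∀ x ∈ S, T ^ 2 ≤ x ∧ x ≤ 4 * T ^ 2) → (∀ x, ‖g0 x‖ ≤ 1) →
      S.card * (1 / Real.log T ^ A) ≤
        ‖∑ x ∈ S, g0 x * ((DD w (BF (zz η T) (zz (1 / 2 - κ1) T) u v) x V (Real.log T ^ B) : ℝ) : ℂ)‖ →
      ∃ (T' : ℝ) (g : ℝ → ℂ) (m : ℕ) (a : Fin m → ℕ → ℂ) (N : Fin m → ℝ), 1 ≤ T' ∧ T' ≤ T ^ (h + ε) ∧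
        (∀ x, ‖g x‖ ≤ 1) ∧
        (∀ i, IsBlk (a i) (N i)) ∧ (∀ i, T ^ η / 2 ≤ N i ∧ N i ≤ T ^ (1 / 2 + κ)) ∧
        T ^ (2 - ε) ≤ ∏ i, N i ∧ ∏ i, N i ≤ T ^ (2 + ε) ∧
        T ^ β ≤ ∏ i ∈ Finset.univ.filter (fun i => N i ≤ T ^ (41 / 100 : ℝ)), N i ∧
        (∀ i, ∀ t ∈ Icc T' (2 * T'), ‖PB (a i) (N i) t‖ ≤ N i / Real.log T ^ A1) ∧
        S.card * (∏ i, N i) / Real.log T ^ (A + 2) ≤ ∫ t in T'..(2 * T'), ‖GS S g t‖ * ∏ i, ‖PB (a i) (N i) t‖ := by
  obtain ⟨B', CS, hB', hCS, hSa'⟩ := hSa A1 η hA1 hη hη2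
  obtain ⟨CF, hCF, hF⟩ := hF4 w hw (ε / 4) (by linarith) (by linarith)
  obtain ⟨CR, hCR, hR⟩ := hRg w hw (SS η)
  have h2S : (1 : ℝ) ≤ 2 ^ (3 + SS η) := one_le_pow₀ (by norm_num)
  set M : ℝ := 2 ^ (3 + SS η) * CR with hM
  have hM1 : 1 ≤ M := one_le_mul_of_one_le_of_one_le h2S hCR
  have hMR : CR ≤ M := le_mul_of_one_le_left (by linarith) h2S
  have hK1 : 1 ≤ CF * M := one_le_mul_of_one_le_of_one_le hCF hM1
  have hKM : CF * CR ≤ CF * M := mul_le_mul_of_nonneg_left hMR (by linarith)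
  have hKR : CR ≤ CF * M := hMR.trans (le_mul_of_one_le_left (by linarith) hCF)
  refine ⟨2 * B' + A + 1, by linarith, ?_⟩
  intro B hB
  obtain ⟨C0, hC0, hE⟩ := ev_facts κ1 ε A B B' (CF * M) hκ1 hε hB hK1
  obtain ⟨C5, hC5, hE5⟩ := ev_win h ε B B' h1h h2h hε hε2
  refine ⟨max (max C0 CS) C5, hC0.trans ((le_max_left _ _).trans (le_max_left _ _)), ?_⟩
  intro T V u v S g0 hT hTV hVT hLg hSh hne hx hg0 hbig
  obtain ⟨hT3, hlogK, -, -, hδ', hKε, h2κ⟩ := hE T (((le_max_left _ _).trans (le_max_left _ _)).trans hT)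
  obtain ⟨hTB', hTB, hV32, hVε⟩ := hE5 T V ((le_max_right _ _).trans hT) hTV hVT
  have hTS : CS ≤ T := ((le_max_right _ _).trans (le_max_left _ _)).trans hT
  have hV1 : 1 ≤ V := by linarith
  have hT0 : 0 < T := by linarith
  have hL : 0 < Real.log T := by linarith
  have hL1 : 1 ≤ Real.log T := by linarith
  have hLA : 0 < Real.log T ^ A := Real.rpow_pos_of_pos hL A
  have hcard : 0 < (S.card : ℝ) := by exact_mod_cast Finset.card_pos.2 hne
  set y : ℕ := zz η T with hy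
  set z : ℕ := zz (1 / 2 - κ1) T with hz
  have hTB1 : 1 ≤ Real.log T ^ B := Real.one_le_rpow hL1 (by linarith)
  have hTB'1 : 1 ≤ Real.log T ^ B' := Real.one_le_rpow hL1 (by linarith)
  -- some difference is not zero
  obtain ⟨x0, hx0, hDD⟩ : ∃ x ∈ S, DD w (BF y z u v) x V (Real.log T ^ B) ≠ 0 := by
    by_contra hc
    push Not at hc
    have h1 : ∑ x ∈ S, g0 x * ((DD w (BF y z u v) x V (Real.log T ^ B) : ℝ) : ℂ) = 0 := by
      refine Finset.sum_eq_zero ?_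
      intro x hxS
      rw [hc x hxS]
      simp
    rw [h1, norm_zero] at hbig
    have h2 : 0 < (S.card : ℝ) * (1 / Real.log T ^ A) := by positivity
    linarith
  -- total scale
  have hPS : T ^ 2 / CR ≤ PS u v ∧ PS u v ≤ CR * T ^ 2 := by
    have h1 : SW w (BF y z u v) x0 V ≠ 0 ∨ SW w (BF y z u v) x0 (Real.log T ^ B) ≠ 0 := by
      by_contra hc
      push Not at hc
      apply hDD
      unfold DD
      rw [hc.1, hc.2]
      simp
    rcases h1 with h | h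
    · exact hR T 0 x0 V y z (fun _ _ => 0) u v (by linarith) hV1 (hx x0 hx0).1 (hx x0 hx0).2 (Or.inl h)
    · exact hR T 0 x0 (Real.log T ^ B) y z (fun _ _ => 0) u v (by linarith) hTB1 (hx x0 hx0).1 (hx x0 hx0).2 (Or.inl h)
  -- every slot function is not zero
  have hsl : ∀ j, sl y z u v j ≠ 0 := by
    intro j hj
    apply hDD
    have hBF : BF y z u v = 0 := by
      rw [BF_eq]
      exact Finset.prod_eq_zero (Finset.mem_univ j) hj
    rw [hBF]
    exact DD_zero w x0 V _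
  obtain ⟨m, e, l, hel, hprod⟩ := exists_index (ol u v)
  have hsc : ∀ i, sc (ol u v (e i)) = 2 ^ l i := by
    intro i
    rw [hel]
    rfl
  have hprodN : ∏ i, (2 : ℝ) ^ l i = PS u v := by
    rw [PS_eq, ← hprod ℝ (fun j => sc (ol u v j)) (by
      intro j hj
      simp only [hj]
      rfl)]
    exact Finset.prod_congr rfl (fun i _ => (hsc i).symm)
  -- products of arithmetic functions
  have hPd' := hPd (Fin 3 ⊕ Fin (SS η)) Finset.univ (sl y z u v) (fun j => sc (ol u v j) / 2) (fun j => Yn (ol u v j))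
    (by
      intro j _
      have := sc_pos (ol u v j)
      positivity)
    (by
      intro j _ n hn
      exact sl_supp y z u v j n hn)
  obtain ⟨hPd1, hPd2, hPd3⟩ := hPd'
  rw [← BF_eq] at hPd1 hPd2 hPd3
  have hmass : ∑ n ∈ Finset.Icc 1 (∏ j, Yn (ol u v j)), |BF y z u v n| ≤ M * T ^ 2 := by
    refine (hPd2 _).trans ?_
    have h1 : ∀ j : Fin 3 ⊕ Fin (SS η), ∑ n ∈ Finset.Icc 1 (Yn (ol u v j)), |sl y z u v j n| ≤ 2 * sc (ol u v j) := by
      intro j
      calc ∑ n ∈ Finset.Icc 1 (Yn (ol u v j)), |sl y z u v j n| ≤ ∑ n ∈ Finset.Icc 1 (Yn (ol u v j)), (1 : ℝ) :=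
            Finset.sum_le_sum fun n _ => sl_le y z u v j n
        _ = ((Yn (ol u v j) : ℕ) : ℝ) := by simp
        _ = 2 * sc (ol u v j) := Yn_cast _
    refine (Finset.prod_le_prod (fun j _ => Finset.sum_nonneg fun n _ => abs_nonneg _) (fun j _ => h1 j)).trans ?_
    rw [Finset.prod_mul_distrib, ← PS_eq]
    simp only [Finset.prod_const, Finset.card_univ, Fintype.card_sum, Fintype.card_fin]
    rw [hM, mul_assoc]
    exact mul_le_mul_of_nonneg_left hPS.2 (by positivity)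
  obtain ⟨T', g, hT'1, hT'2, hg, hint⟩ := hF T V (Real.log T ^ B') (Real.log T ^ B) M (1 / Real.log T ^ A)
    (∏ j, Yn (ol u v j)) (fun n => BF y z u v n) S g0 hT3 hTV hV32 hTB'1 hTB' hTB1 hTB (by linarith) (by positivity)
    (fun n hn => ⟨(hPd1 n hn).1, (hPd1 n hn).2.2⟩) hmass hδ' (fun x hxS => (hx x hxS).1) hg0 hbig
  have hscale : ∀ i, T ^ η / 2 ≤ (2 : ℝ) ^ l i ∧ (2 : ℝ) ^ l i ≤ T ^ (1 / 2 + κ) := by
    intro i
    have h1 := sl_scale η κ1 T (by linarith) u v (e i) (l i) (hel i) (hsl (e i))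
    refine ⟨h1.1, ?_⟩
    rcases he : e i with k | r
    · have h2 : u k = some (l i) := by
        have := hel i
        rw [he] at this
        exact this
      by_contra hc
      push Not at hc
      exact hLg k ⟨l i, h2, hc⟩
    · refine (h1.2 r he).trans ?_
      have h3 : 2 * T ^ (1 / 2 - κ1) ≤ T ^ κ1 * T ^ (1 / 2 - κ1) :=
        mul_le_mul_of_nonneg_right h2κ (by positivity)
      refine h3.trans ?_
      rw [← Real.rpow_add hT0]
      exact Real.rpow_le_rpow_of_exponent_le (by linarith) (by linarith)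
  have hDp : ∀ t : ℝ, ‖Dp (∏ j, Yn (ol u v j)) (fun n => ((BF y z u v n : ℝ) : ℂ)) t‖ =
      ∏ i, ‖PB (fun n => ((sl y z u v (e i) n : ℝ) : ℂ)) (2 ^ l i) t‖ := by
    intro t
    rw [hPd3 _ t le_rfl, norm_prod, ← hprod ℝ (fun j => ‖Dp (Yn (ol u v j)) (fun n => ((sl y z u v j n : ℝ) : ℂ)) t‖) (by
      intro j hj
      simp only [hj]
      rw [sl_none y z u v j hj, Dp_none, norm_one])]
    refine Finset.prod_congr rfl ?_
    intro i _
    rw [hel, Dp_some]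
  refine ⟨T', g, m, fun i n => ((sl y z u v (e i) n : ℝ) : ℂ), fun i => 2 ^ l i, hTB'1.trans hT'1, hT'2.trans hVε, hg, ?_, hscale,
    ?_, ?_, ?_, ?_, ?_⟩
  · intro i
    constructor
    · intro n
      rw [Complex.norm_real]
      exact sl_le y z u v (e i) n
    · intro n hn
      have h1 : sl y z u v (e i) n ≠ 0 := by
        intro h
        apply hn
        simp only [h]
        simp
      obtain ⟨h2, h3⟩ := sl_supp y z u v (e i) n h1
      rw [hsc] at h2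
      refine ⟨h2, ?_⟩
      have h4 : (n : ℝ) ≤ ((Yn (ol u v (e i)) : ℕ) : ℝ) := by exact_mod_cast h3
      rwa [Yn_cast, hsc] at h4
  · rw [hprodN]
    refine le_trans ?_ hPS.1
    rw [Real.rpow_sub hT0, Real.rpow_two]
    refine div_le_div_of_nonneg_left (by positivity) (by linarith) (hKR.trans hKε)
  · rw [hprodN]
    refine hPS.2.trans ?_
    rw [Real.rpow_add hT0, Real.rpow_two, mul_comm]
    exact mul_le_mul_of_nonneg_left (hKR.trans hKε) (by positivity)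
  · refine le_trans hSh (le_of_eq ?_)
    rw [Finset.prod_filter, Finset.prod_filter, Finset.prod_filter]
    have h1 := hprod ℝ (fun j => if sc (ol u v j) ≤ T ^ (41 / 100 : ℝ) then sc (ol u v j) else 1) (by
      intro j hj
      simp only [hj]
      split_ifs
      · rfl
      · rfl)
    rw [Fintype.prod_sum_type] at h1
    simp only [hsc] at h1
    rw [h1]
    rfl
  · intro i t ht
    have h1 : (2 : ℝ) ^ l i ≤ T ^ (5 / 2 : ℝ) := (hscale i).2.trans
      (Real.rpow_le_rpow_of_exponent_le (by linarith) (by linarith))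
    have h2 : t ≤ T ^ 3 := by
      have h3 : T ^ (h + ε) ≤ T ^ (2 : ℝ) := Real.rpow_le_rpow_of_exponent_le (by linarith) (by linarith)
      have h6 : T' ≤ T ^ (h + ε) := hT'2.trans hVε
      rw [Real.rpow_two] at h3
      have h4 : 3 * T ^ 2 ≤ T ^ 3 := by
        have : T ^ 3 = T * T ^ 2 := by ring
        rw [this]
        exact mul_le_mul_of_nonneg_right hT3 (by positivity)
      have h5 : 0 ≤ T ^ 2 := by positivity
      linarith [ht.2]
    obtain ⟨h3, h4⟩ := hSa' T t (l i) z hTS (hscale i).1 h1 (hT'1.trans ht.1) h2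
    rcases he : e i with k | r
    · have h5 : u k = some (l i) := by
        have := hel i
        rw [he] at this
        exact this
      have h6 : sl y z u v (Sum.inl k) = rb y (l i) := by
        change ms y (u k) = rb y (l i)
        rw [h5]
        rfl
      simp only [he, h6]
      exact h3
    · have h5 : v r = some (l i) := by
        have := hel i
        rw [he] at this
        exact this
      have h6 : sl y z u v (Sum.inr r) = pbl y z (l i) := by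
        change ps y z (v r) = pbl y z (l i)
        rw [h5]
        rfl
      simp only [he, h6]
      exact h4
  · have h1 : (∫ t in T'..(2 * T'), ‖GS S g t‖ * ‖Dp (∏ j, Yn (ol u v j)) (fun n => ((BF y z u v n : ℝ) : ℂ)) t‖) =
        ∫ t in T'..(2 * T'), ‖GS S g t‖ * ∏ i, ‖PB (fun n => ((sl y z u v (e i) n : ℝ) : ℂ)) (2 ^ l i) t‖ := by
      refine intervalIntegral.integral_congr ?_
      intro t _
      simp only [hDp]
    rw [h1] at hint
    rw [hprodN]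
    set I : ℝ := ∫ t in T'..(2 * T'), ‖GS S g t‖ * ∏ i, ‖PB (fun n => ((sl y z u v (e i) n : ℝ) : ℂ)) (2 ^ l i) t‖ with hI
    have h2 : Real.log T ^ (A + 2) = Real.log T ^ A * Real.log T ^ 2 := by
      rw [Real.rpow_add hL, Real.rpow_two]
    rw [h2, div_le_iff₀ (by positivity)]
    have h3 : (S.card : ℝ) * PS u v ≤ S.card * (CR * T ^ 2) := mul_le_mul_of_nonneg_left hPS.2 hcard.le
    have h4 : S.card * T ^ 2 ≤ CF * Real.log T * I * Real.log T ^ A := by
      have h5 : (S.card : ℝ) * (1 / Real.log T ^ A * T ^ 2) = S.card * T ^ 2 / Real.log T ^ A := by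
        field_simp
      rw [h5, div_le_iff₀ hLA] at hint
      exact hint
    have hI0 : 0 ≤ I := by
      have h5 : 0 < (S.card : ℝ) * T ^ 2 := by positivity
      by_contra hc
      push Not at hc
      have h6 : CF * Real.log T * I * Real.log T ^ A ≤ 0 := by
        have : CF * Real.log T * I ≤ 0 := mul_nonpos_of_nonneg_of_nonpos (by positivity) hc.le
        exact mul_nonpos_of_nonpos_of_nonneg this hLA.le
      linarith
    calc (S.card : ℝ) * PS u v ≤ S.card * (CR * T ^ 2) := h3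
      _ = CR * (S.card * T ^ 2) := by ring
      _ ≤ CR * (CF * Real.log T * I * Real.log T ^ A) := mul_le_mul_of_nonneg_left h4 (by linarith)
      _ = (CF * CR) * (I * (Real.log T ^ A * Real.log T)) := by ring
      _ ≤ Real.log T * (I * (Real.log T ^ A * Real.log T)) :=
          mul_le_mul_of_nonneg_right (by linarith) (by positivity)
      _ = I * (Real.log T ^ A * Real.log T ^ 2) := by ring

end BBq

theorem iBB (h r : ℝ) (h1 : 1 ≤ h) (h2 : h ≤ 127 / 100) (hC : StCellB h r) (hF4 : StF4) (hPd : ASM.StPd) (hRg : ASM.StRg)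
    (hSa : ASM.StSa) : StBB h r := by
  intro β hβ hβ2
  obtain ⟨κ, hκ, hκβ, hC1⟩ := hC β hβ hβ2
  refine ⟨κ, hκ, hκβ, ?_⟩
  intro w hw η κ1 A hη hη2 hκ1 hκ12 hA
  obtain ⟨ε, hε, hε2, hC2⟩ := hC1 η hη hη2
  obtain ⟨A1, C1, hA1, hC11, hC3⟩ := hC2 (A + 2) (by linarith)
  obtain ⟨B0, hB0, hR⟩ := BBq.red h h1 h2 hF4 hPd hRg hSa β κ hκ (by linarith) w hw η κ1 A ε A1 hη hη2 hκ1 hA hε hε2 hA1
  refine ⟨B0, hB0, ?_⟩
  intro B hB
  obtain ⟨C2, hC21, hR2⟩ := hR B hB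
  refine ⟨max C1 C2, hC11.trans (le_max_left _ _), ?_⟩
  intro T V u v hT hTV hVT hLg hSh S hS hP
  have hTC1 : C1 ≤ T := (le_max_left _ _).trans hT
  have hTC2 : C2 ≤ T := (le_max_right _ _).trans hT
  have hT1 : 1 ≤ T := hC11.trans hTC1
  have hT0 : 0 < T := by linarith
  have hr : 0 < T ^ r := Real.rpow_pos_of_pos hT0 _
  rcases S.eq_empty_or_nonempty with hSe | hne
  · rw [hSe]
    have h3 : 0 ≤ max C1 C2 := by
      have := le_max_left C1 C2
      linarith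
    simpa using mul_nonneg h3 hr.le
  have hg0 : ∀ x : ℝ, ‖(if 0 ≤ DD w (BF (zz η T) (zz (1 / 2 - κ1) T) u v) x V (Real.log T ^ B) then (1 : ℂ) else -1)‖ ≤ 1 := by
    intro x
    split_ifs <;> simp
  obtain ⟨T', g, m, a, N, hT'1, hT'2, hg, hblk, hN, hp1, hp2, hp3, hsav, hint⟩ := hR2 T V u v S
    (fun x => if 0 ≤ DD w (BF (zz η T) (zz (1 / 2 - κ1) T) u v) x V (Real.log T ^ B) then (1 : ℂ) else -1)
    hTC2 hTV hVT hLg hSh hne (fun x hx => ⟨(hS x hx).1, (hS x hx).2.1⟩) hg0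
    (ASM.BB_aux.signs S _ _ (fun x hx => hP x hx))
  have h3 := hC3 T T' m a N S g hTC1 hT'1 hT'2 hblk hN hp1 hp2 hp3 hsav hS hg hint
  exact h3.trans (mul_le_mul_of_nonneg_right (le_max_left _ _) hr.le)

end Pool.Agent.Work.MP_a8fbd7_nt.OX.SQ
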