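import Mathlib
import Pool.Agent.Work.MP_a8fbd7_nt.OX.SQ.Stmts
import Pool.Agent.Work.MP_a8fbd7_nt.OX.CELL.I_CellA

/-!
MP_a8fbd7_nt, block OX, part SQ: cell theorem A from the logic LA and the data of a class.
Author: helper92.
-/

set_option autoImplicit false

open MeasureTheory Set Filter Topology

noncomputable section

namespace Pool.Agent.Work.MP_a8fbd7_nt.OX.SQ

open Pool.Agent.Work.MP_56b8f5_nt.UC (Sep Dp)
open Pool.Agent.Work.MP_a8fbd7_nt.OX
open Pool.Agent.Work.MP_a8fbd7_nt.OX.CELL (blk_exp thr)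

namespace CAq

/-- the twelfth moment bound is monotone in the constant -/
theorem m12_mono {a : ℕ → ℂ} {N T' B B' : ℝ} (hB : B ≤ B') (hN : 0 ≤ N) (h : M12 a N T' B) : M12 a N T' B' := by
  intro W hW hWt
  exact (h W hW hWt).trans (mul_le_mul_of_nonneg_right hB (by positivity))

end CAq

open CAq in
theorem iCA (hCl : StCl) : StCA := by
  intro h r hh1 hh2 hr9 hLA
  obtain ⟨s0, hs0, Q, hmain⟩ := hLA
  set s : ℝ := min s0 1 with hs
  have hsp : 0 < s := lt_min hs0 one_pos
  have hs1 : s ≤ 1 := min_le_right _ _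
  have hss : s ≤ s0 := min_le_left _ _
  set ε : ℝ := min (s / 128) (1 / 1000) with hε
  have hε0 : 0 < ε := lt_min (by positivity) (by norm_num)
  have hε1 : ε ≤ s / 128 := min_le_left _ _
  have hε2 : ε ≤ 1 / 1000 := min_le_right _ _
  refine ⟨ε, hε0, hε2, ?_⟩
  intro η hη hη'
  obtain ⟨C1, hC1, hcls⟩ := hCl s (η / 2) Q hsp hs1 (by positivity)
  obtain ⟨C2, hC2, hthr⟩ := thr 2 (η / 2) (by positivity)
  refine ⟨max C1 C2, le_max_of_le_left hC1, ?_⟩
  intro T T' ν m J a N S c hT hT'1 hT' ha hN hJ hnJ hprod hν hJν hS hc hint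
  have t1 : C1 ≤ T := (le_max_left _ _).trans hT
  have t2 : C2 ≤ T := (le_max_right _ _).trans hT
  have hT2 : 2 ≤ T := hC2.trans t2
  have hT0 : 0 < T := by linarith
  have hT1 : 1 ≤ T := by linarith
  have hT1' : 1 < T := by linarith
  by_contra hcon
  push Not at hcon
  have hNpos : ∀ i, 0 < N i := fun i => lt_of_lt_of_le (by positivity) (hN i)
  have hb : ∀ i, ∃ b : ℝ, N i = T ^ b ∧ η / 2 ≤ b := by
    intro i
    obtain ⟨b, h1, h2, -⟩ := blk_exp (x := Real.logb T (N i)) (by linarith) (hthr T t2) (hN i)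
      (Real.rpow_logb hT0 (by linarith) (hNpos i)).ge
    exact ⟨b, h1, h2⟩
  choose b hb1 hb2 using hb
  have hsum : ∑ i, b i = ν := by
    have h1 : T ^ (∑ i, b i) = T ^ ν := by
      rw [Real.rpow_sum_of_pos hT0, ← hprod]
      exact Finset.prod_congr rfl fun i _ => (hb1 i).symm
    exact (Real.rpow_right_inj hT0 (by linarith)).mp h1
  have hsum0 : 0 ≤ ν := by
    rw [← hsum]
    apply Finset.sum_nonneg
    intro i _
    have := hb2 i
    linarith
  have hr : T ^ r ≤ S.card := by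
    have h1 : 1 * T ^ r ≤ max C1 C2 * T ^ r := by
      apply mul_le_mul_of_nonneg_right (le_max_of_le_left hC1) (by positivity)
    linarith
  have hcard : 1 ≤ S.card := by
    have h1 : 0 < T ^ r := by positivity
    have h2 : (0 : ℝ) < S.card := by linarith
    exact_mod_cast h2
  have hint' : S.card * T ^ (1 + ν / 2 - ε) ≤ ∫ t in Icc T' (2 * T'), ‖GS S c t‖ * ∏ i, ‖PB (a i) (N i) t‖ := by
    rw [integral_Icc_eq_integral_Ioc, ← intervalIntegral.integral_of_le (by linarith)]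
    exact hint
  have hM : ∀ i ∈ J, M12 (a i) (N i) T' (T ^ (2 * h + s / 8)) := fun i hi =>
    m12_mono (Real.rpow_le_rpow_of_exponent_le hT1 (by linarith)) (hNpos i).le (hJ i hi).2.2
  obtain ⟨w, τ, W, hW, _, hCls, hJt⟩ := hcls T T' h r (1 + ν / 2 - ε) m J a N b S c (Icc T' (2 * T')) t1 hh1 (by linarith)
    hT'1 (hT'.trans (Real.rpow_le_rpow_of_exponent_le hT1 (by linarith))) ha hb1 hb2 (by linarith) hS hcard hr hc hM
    (by linarith) isCompact_Icc le_rfl hint'
  refine hmain m J b w τ W s hsp hss (fun i => by have := hb2 i; linarith) ?_ ?_ (by linarith) ?_ ?_ hCls hJt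
  · intro i hi
    obtain ⟨h1, h2, -⟩ := hJ i hi
    rw [hb1 i] at h1 h2
    exact ⟨(Real.rpow_le_rpow_left_iff hT1').mp h1, (Real.rpow_le_rpow_left_iff hT1').mp h2⟩
  · intro i hi
    rcases hnJ i hi with h1 | ⟨h1, h2⟩
    · left
      rw [hb1 i] at h1
      exact (Real.rpow_le_rpow_left_iff hT1').mp h1
    · right
      rw [hb1 i] at h1 h2
      rw [← Real.rpow_add hT0] at h2
      refine ⟨(Real.rpow_le_rpow_left_iff hT1').mp h1, ?_⟩
      rw [hsum]
      exact (Real.rpow_le_rpow_left_iff hT1').mp h2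
  · rw [hsum]
    exact hJν
  · rw [hW, hsum]
    linarith

end Pool.Agent.Work.MP_a8fbd7_nt.OX.SQ
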