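import Mathlib
import Pool.Agent.Work.MP_a8fbd7_nt.OX.CELL.I_CellB
import Pool.Agent.Work.MP_a8fbd7_nt.OX.SQ.Stmts

/-!
MP_a8fbd7_nt, block OX, part SQ, item CB: cell theorem B from the near zone and the logic LB.
Copy of `OX/CELL/I_CellB.lean` (helper63) for quarter squares and longer intervals.
-/

set_option autoImplicit false

open MeasureTheory Set Filter Topology

noncomputable section

namespace Pool.Agent.Work.MP_a8fbd7_nt.OX.SQ

open Pool.Agent.Work.MP_56b8f5_nt.UC (Sep Dp)
open Pool.Agent.Work.MP_a8fbd7_nt.OX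
open Pool.Agent.Work.MP_a8fbd7_nt.OX.CELL (PB_cont log_thr pigeon_two blk_exp)

namespace CBq

/-- `GS` is continuous for positive points -/
theorem GS_cont {S : Finset ℝ} (hS : ∀ x ∈ S, 0 < x) (c : ℝ → ℂ) : Continuous (fun t => GS S c t) := by
  unfold GS
  apply continuous_finsetSum
  intro x hx
  have hx0 : (x : ℂ) ≠ 0 := by exact_mod_cast (hS x hx).ne'
  apply Continuous.mul continuous_const
  apply Continuous.const_cpow _ (Or.inl hx0)
  fun_prop

/-- trivial bound of `GS` -/
theorem GS_le {S : Finset ℝ} (hS : ∀ x ∈ S, 0 < x) {c : ℝ → ℂ} (hc : ∀ x, ‖c x‖ ≤ 1) (t : ℝ) :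
    ‖GS S c t‖ ≤ S.card := by
  unfold GS
  refine (norm_sum_le _ _).trans ?_
  rw [← nsmul_one, ← Finset.sum_const]
  apply Finset.sum_le_sum
  intro x hx
  rw [norm_mul, Complex.norm_cpow_eq_rpow_re_of_pos (hS x hx)]
  simp
  exact hc x

end CBq

theorem iCB (hCl : StCl) (hNB : StNB) : StCB := by
  intro h r hh1 hh2 hr1 hLB
  intro β hβ hβ'
  obtain ⟨κ, hκ, hκ', s0, hs0, Q, hmain⟩ := hLB β hβ hβ'
  set s : ℝ := min s0 1 with hs
  have hsp : 0 < s := lt_min hs0 one_pos
  have hs1 : s ≤ 1 := min_le_right _ _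
  have hss : s ≤ s0 := min_le_left _ _
  refine ⟨κ, hκ, by linarith, ?_⟩
  intro η hη hη'
  set ε : ℝ := min κ (min (s / 128) (1 / 1000)) with hε
  have hε0 : 0 < ε := lt_min hκ (lt_min (by positivity) (by norm_num))
  have hε1 : ε ≤ κ := min_le_left _ _
  have hε2 : ε ≤ s / 128 := (min_le_right _ _).trans (min_le_left _ _)
  have hε3 : ε ≤ 1 / 1000 := (min_le_right _ _).trans (min_le_right _ _)
  refine ⟨ε, hε0, hε3, ?_⟩
  intro A hA
  obtain ⟨A1, C0, hA1, hC0, hnear⟩ := hNB β η (A + 1) hβ hβ' hη hη' (by linarith)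
  obtain ⟨C1, hC1, hcls⟩ := hCl s (η / 2) Q hsp hs1 (by positivity)
  obtain ⟨C2, hC2, hthr⟩ := Pool.Agent.Work.MP_a8fbd7_nt.OX.CELL.thr 2 (η / 2) (by positivity)
  obtain ⟨C3, hC3, hlogthr⟩ := log_thr A (s / 8) 2 hA (by positivity)
  refine ⟨A1, max (max C0 C1) (max (max C2 C3) (Real.exp 3)), hA1, le_max_of_le_left (le_max_of_le_left hC0), ?_⟩
  intro T T' m a N S c hT hT'1 hT' ha hN hprod1 hprod2 hsmall hsave hS hc hint
  have t0 : C0 ≤ T := (le_max_left _ _).trans ((le_max_left _ _).trans hT)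
  have t1 : C1 ≤ T := (le_max_right _ _).trans ((le_max_left _ _).trans hT)
  have t2 : C2 ≤ T := (le_max_left _ _).trans ((le_max_left _ _).trans ((le_max_right _ _).trans hT))
  have t3 : C3 ≤ T := (le_max_right _ _).trans ((le_max_left _ _).trans ((le_max_right _ _).trans hT))
  have t4 : Real.exp 3 ≤ T := (le_max_right _ _).trans ((le_max_right _ _).trans hT)
  have hT2 : 2 ≤ T := hC2.trans t2
  have hT0 : 0 < T := by linarith
  have hT1 : 1 ≤ T := by linarith
  have hTg : 1 < T := by linarith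
  have hSpos : ∀ x ∈ S, 0 < x := fun x hx => lt_of_lt_of_le (by positivity) (hS x hx).1
  have hlog3 : 3 ≤ Real.log T := by
    rw [Real.le_log_iff_exp_le hT0]
    exact t4
  have hlog0 : 0 < Real.log T := by linarith
  by_contra hcon
  push Not at hcon
  have hb : ∀ i, ∃ b : ℝ, N i = T ^ b ∧ η / 2 ≤ b ∧ b ≤ 1 / 2 + κ :=
    fun i => blk_exp hTg (hthr T t2) (hN i).1 (hN i).2
  choose b hb1 hb2 hb3 using hb
  have hprodT : ∏ i, N i = T ^ (∑ i, b i) := by
    rw [Real.rpow_sum_of_pos hT0]
    exact Finset.prod_congr rfl fun i _ => hb1 i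
  have hsum1 : 2 - ε ≤ ∑ i, b i := by
    rw [hprodT] at hprod1
    exact (Real.rpow_le_rpow_left_iff hTg).mp hprod1
  have hsum2 : ∑ i, b i ≤ 2 + ε := by
    rw [hprodT] at hprod2
    exact (Real.rpow_le_rpow_left_iff hTg).mp hprod2
  have hr : T ^ r ≤ S.card := by
    have h1 : 1 * T ^ r ≤ max (max C0 C1) (max (max C2 C3) (Real.exp 3)) * T ^ r := by
      apply mul_le_mul_of_nonneg_right (le_max_of_le_left (le_max_of_le_left hC0)) (by positivity)
    linarith
  have hcard : 1 ≤ S.card := by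
    have h1 : 0 < T ^ r := by positivity
    have h2 : (0 : ℝ) < S.card := by linarith
    exact_mod_cast h2
  have hJ0 : (0 : ℝ) < S.card := by exact_mod_cast hcard
  set E : Set ℝ := Icc T' (2 * T') with hE
  set F : Fin m → ℝ → ℝ := fun i t => ‖PB (a i) (N i) t‖ with hF
  have hFc : ∀ i, Continuous (F i) := fun i => (PB_cont (a i) (N i)).norm
  have hGc : Continuous (fun t => ‖GS S c t‖) := (CBq.GS_cont hSpos c).norm
  have hHc : Continuous (fun t => ‖GS S c t‖ * ∏ i, F i t) := hGc.mul (continuous_finsetProd _ fun i _ => hFc i)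
  have hH0 : ∀ t, 0 ≤ ‖GS S c t‖ * ∏ i, F i t :=
    fun t => mul_nonneg (norm_nonneg _) (Finset.prod_nonneg fun i _ => norm_nonneg _)
  have hNpos : ∀ i, 0 < N i := fun i => by rw [hb1 i]; positivity
  have hPpos : 0 < ∏ i, N i := Finset.prod_pos fun i _ => hNpos i
  set X : ℝ := S.card * (∏ i, N i) / Real.log T ^ A with hX
  have hXpos : 0 < X := by positivity
  have hint' : X ≤ ∫ t in E, ‖GS S c t‖ * ∏ i, F i t := by
    rw [hE, integral_Icc_eq_integral_Ioc, ← intervalIntegral.integral_of_le (by linarith)]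
    exact hint
  set E1 : Set ℝ := E ∩ {t | ∃ i, N i ^ (119 / 120 : ℝ) ≤ F i t} with hE1
  set E2 : Set ℝ := E ∩ {t | ∀ i, F i t ≤ N i ^ (119 / 120 : ℝ)} with hE2
  have hE1c : IsCompact E1 := by
    apply isCompact_Icc.inter_right
    simp only [Set.ofPred_exists]
    apply isClosed_iUnion_of_finite
    intro i
    exact isClosed_le continuous_const (hFc i)
  have hE2c : IsCompact E2 := by
    apply isCompact_Icc.inter_right
    simp only [Set.ofPred_forall]
    apply isClosed_iInter
    intro i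
    exact isClosed_le (hFc i) continuous_const
  have hcases := pigeon_two E E1 E2 isCompact_Icc hE1c hE2c inter_subset_left inter_subset_left (by
    intro t ht
    by_cases h : ∃ i, N i ^ (119 / 120 : ℝ) ≤ F i t
    · exact Or.inl ⟨ht, h⟩
    · right
      push Not at h
      exact ⟨ht, fun i => (h i).le⟩) (fun t => ‖GS S c t‖ * ∏ i, F i t) hHc hH0 X hXpos hint'
  rcases hcases with hcase | hcase
  · -- near zone
    have h1 := hnear T T' S.card m a N (fun t => ‖GS S c t‖) E1 t0 hT'1
      (hT'.trans (Real.rpow_le_rpow_of_exponent_le hT1 (by linarith))) ha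
      (fun i => ⟨(hN i).1, (hN i).2.trans (Real.rpow_le_rpow_of_exponent_le hT1 (by linarith))⟩)
      ((Real.rpow_le_rpow_of_exponent_le hT1 (by linarith)).trans hprod1)
      (hprod2.trans (Real.rpow_le_rpow_of_exponent_le hT1 (by linarith))) hsmall hsave hGc
      (fun t => norm_nonneg _) (fun t => CBq.GS_le hSpos hc t) hJ0 hE1c (by rw [hE1]; exact inter_subset_left)
      (fun t ht => ht.2)
    have h2 : X ≤ 2 * (S.card * (∏ i, N i) / Real.log T ^ (A + 1)) := hcase.trans (by linarith)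
    have h3 : S.card * (∏ i, N i) / Real.log T ^ (A + 1) = X / Real.log T := by
      rw [hX, Real.rpow_add hlog0, Real.rpow_one]
      field_simp
    rw [h3] at h2
    have h4 : X / Real.log T ≤ X / 3 := by gcongr
    linarith
  · -- far zone
    set θ : ℝ := ∑ i, b i - s / 8 with hθ
    have h1 : S.card * T ^ θ ≤ ∫ t in E2, ‖GS S c t‖ * ∏ i, F i t := by
      have h2 : S.card * T ^ θ ≤ X / 2 := by
        rw [hX, hprodT, hθ, Real.rpow_sub hT0]
        have h3 := hlogthr T t3
        have h5 : 0 < Real.log T ^ A := by positivity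
        have h6 : 0 < T ^ (s / 8) := by positivity
        rw [div_div, mul_div_assoc' , div_le_div_iff₀ h6 (by positivity)]
        have h7 : 0 < S.card * T ^ (∑ i, b i) := by positivity
        have h8 := mul_le_mul_of_nonneg_left h3 h7.le
        linarith
      linarith
    obtain ⟨w, τ, W, hW, ⟨t, ht, hlow⟩, hCls, -⟩ := hcls T T' h r θ m ∅ a N b S c E2 t1 hh1 (by linarith) hT'1
      (hT'.trans (Real.rpow_le_rpow_of_exponent_le hT1 (by linarith))) ha hb1 hb2 (by linarith) hS hcard hr hc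
      (by simp) (by rw [hθ]; linarith) hE2c inter_subset_left h1
    refine hmain m b w τ W s hsp hss (fun i => ⟨by have := hb2 i; linarith, hb3 i⟩) (by linarith) ?_ ?_ ?_ hCls
    · have h2 : T ^ β ≤ T ^ (∑ i ∈ Finset.univ.filter (fun i => N i ≤ T ^ (41 / 100 : ℝ)), b i) := by
        rw [Real.rpow_sum_of_pos hT0]
        refine hsmall.trans (le_of_eq ?_)
        refine Finset.prod_congr ?_ (fun i _ => hb1 i)
        ext i
        simp only [Finset.mem_filter]
      have h3 := (Real.rpow_le_rpow_left_iff hTg).mp h2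
      refine h3.trans (le_of_eq ?_)
      apply Finset.sum_congr _ (fun _ _ => rfl)
      ext i
      rw [Finset.mem_filter, Finset.mem_filter]
      constructor
      · rintro ⟨_, h4⟩
        rw [hb1 i] at h4
        exact ⟨Finset.mem_univ _, (Real.rpow_le_rpow_left_iff hTg).mp h4⟩
      · rintro ⟨_, h4⟩
        refine ⟨Finset.mem_univ _, ?_⟩
        rw [hb1 i]
        exact Real.rpow_le_rpow_of_exponent_le hT1 h4
    · intro i
      have h2 : T ^ (b i - w i) ≤ T ^ (b i * (119 / 120)) := by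
        refine (hlow i).trans ((ht.2 i).trans (le_of_eq ?_))
        rw [hb1 i, ← Real.rpow_mul hT0.le]
      have h3 := (Real.rpow_le_rpow_left_iff hTg).mp h2
      linarith
    · rw [hW, hθ]
      linarith

end Pool.Agent.Work.MP_a8fbd7_nt.OX.SQ
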