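import Mathlib
import Pool.Agent.Work.MP_a8fbd7_nt.OX.SQ.Stmts
import Pool.Agent.Work.MP_a8fbd7_nt.OX.ASM.I_Co

/-!
MP_a8fbd7_nt, block OX, part SQ, item Co: from smooth windows to the intervals with an end point at `n² - n`, `n²`, `n² + n`.
-/

set_option autoImplicit false

open MeasureTheory Set Filter Topology

noncomputable section

namespace Pool.Agent.Work.MP_a8fbd7_nt.OX.SQ

open Pool.Agent.Work.MP_56b8f5_nt.UC (IsWt Bl Dp Om psi eta Sep)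
open Pool.Agent.Work.MP_a8fbd7_nt.OX
open Pool.Agent.Work.MP_a8fbd7_nt.OX.ASM (SW pr Iw StWt)

namespace Coq

lemma mem_pc {a b : ℝ} {p : ℕ} (hp : p.Prime) (h1 : a < p) (h2 : (p : ℝ) ≤ b) :
    p ∈ (Finset.Icc 1 ⌊b⌋₊).filter (fun p : ℕ => p.Prime ∧ a < (p : ℝ)) := by
  rw [Finset.mem_filter, Finset.mem_Icc]
  exact ⟨⟨hp.one_lt.le, Nat.le_floor h2⟩, hp, h1⟩

lemma pc_mem {a b : ℝ} {p : ℕ}
    (h : p ∈ (Finset.Icc 1 ⌊b⌋₊).filter (fun p : ℕ => p.Prime ∧ a < (p : ℝ))) :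
    p.Prime ∧ a < p ∧ (p : ℝ) ≤ b := by
  rw [Finset.mem_filter, Finset.mem_Icc] at h
  refine ⟨h.2.1, h.2.2, ?_⟩
  have h0 := h.2.1.pos
  exact (Nat.le_floor_iff' (by omega)).1 h.1.2

/-- the situation: `x = s²` the quarter square near `c`, `V y ≤ x ≤ (1 + τ) V y` -/
structure Hy (n : ℕ) (s c y V τ : ℝ) : Prop where
  τ0 : 0 < τ
  τ1 : τ ≤ 1 / 100
  s1 : (n : ℝ) - 1 / 2 ≤ s
  s2 : s ≤ n + 1 / 2
  c1 : c ≤ s ^ 2
  c2 : s ^ 2 ≤ c + 1 / 4
  V1 : V * y ≤ s ^ 2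
  V2 : s ^ 2 ≤ (1 + τ) * (V * y)
  y1 : 2 ≤ τ * y
  y2 : y ≤ n
  V0 : 1 ≤ τ * V

namespace Hy

variable {n : ℕ} {s c y V τ : ℝ}

lemma ypos (H : Hy n s c y V τ) : 200 ≤ y := by
  have h1 := H.y1
  have h2 := H.τ0
  have h3 := H.τ1
  by_contra h
  push Not at h
  nlinarith

lemma Vpos (H : Hy n s c y V τ) : 100 ≤ V := by
  have h1 := H.V0
  have h2 := H.τ0
  have h3 := H.τ1
  by_contra h
  push Not at h
  nlinarith

lemma npos (H : Hy n s c y V τ) : (200 : ℝ) ≤ n := H.ypos.trans H.y2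

lemma spos (H : Hy n s c y V τ) : 199 ≤ s := by
  have h1 := H.npos
  have h2 := H.s1
  linarith

/-- `x ≥ .99 n²` -/
lemma x1 (H : Hy n s c y V τ) : 99 / 100 * (n : ℝ) ^ 2 ≤ s ^ 2 := by
  have h1 := H.npos
  have h2 := H.s1
  have h3 : ((n : ℝ) - 1 / 2) ^ 2 ≤ s ^ 2 := pow_le_pow_left₀ (by linarith) h2 2
  nlinarith

/-- the loss at the left end point -/
lemma x2 (H : Hy n s c y V τ) : V * (y + 1 / 4) ≤ (1 + τ) * (s ^ 2 - y - 1 / 4) := by
  have h1 := H.npos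
  have h2 := H.x1
  have h3 := H.V1
  have h4 := H.ypos
  have h5 := H.Vpos
  have h6 := H.y1
  have h7 := H.y2
  have h8 := H.τ0
  have h9 := H.τ1
  -- V/4 ≤ τ V y/8 ≤ τ x/8
  have a1 : V * (1 / 4) ≤ τ / 8 * (s ^ 2) := by
    have : V * 2 ≤ V * (τ * y) := mul_le_mul_of_nonneg_left h6 (by linarith)
    nlinarith
  have a2 : 2 * (n : ℝ) ≤ τ * (n : ℝ) ^ 2 := by
    have : 2 ≤ τ * n := h6.trans (mul_le_mul_of_nonneg_left h7 h8.le)
    nlinarith
  have a3 : (1 + τ) * (y + 1 / 4) ≤ 102 / 100 * n := by nlinarith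
  have a4 : 102 / 100 * (n : ℝ) ≤ 7 / 8 * τ * s ^ 2 := by nlinarith
  nlinarith

end Hy

/-- upper bound for the interval `(c, c + y]` -/
lemma R_up (w : ℝ → ℝ) (U : ℝ) {n : ℕ} {s c y V τ : ℝ} (H : Hy n s c y V τ)
    (hU : ∀ u, w u ≠ 0 → u ≤ U) (h0 : ∀ u, 0 ≤ w u)
    (hw : ∀ u, Real.exp (-τ) ≤ u → u ≤ Real.exp 1 → w u = 1) :
    pc c (c + y) ≤ SW w pr (s ^ 2) V := by
  have hs := H.spos
  have hV := H.Vpos
  have hy := H.ypos
  have hx0 : 0 < s ^ 2 := by positivity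
  unfold pc
  apply ASM.Co_aux.up w U _ V hU hx0 (by linarith) h0
  intro p hp
  obtain ⟨hpp, hp1, hp2⟩ := pc_mem hp
  have hp0 : (0 : ℝ) < p := by exact_mod_cast hpp.pos
  refine ⟨hpp, ?_⟩
  have hq : 0 < (p : ℝ) / s ^ 2 := by positivity
  rw [ASM.Co_aux.rp _ _ hq]
  have hc1 := H.c1
  have hc2 := H.c2
  have hV1 := H.V1
  have hV2 := H.V2
  have hy1 := H.y1
  have hτ := H.τ0
  have hτ1 := H.τ1
  apply hw
  · rw [Real.exp_le_exp]
    have h5 := Real.one_sub_inv_le_log_of_pos hq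
    have h6 : -(1 / (2 * y)) ≤ V * (1 - ((p : ℝ) / s ^ 2)⁻¹) := by
      rw [inv_div]
      have h7 : V * (1 - s ^ 2 / p) = V * (p - s ^ 2) / p := by field_simp
      rw [h7, ← neg_div, div_le_div_iff₀ (by positivity) hp0]
      -- -1 * p ≤ V (p - s²) 2 y
      have h8 : -(1 / 4) ≤ (p : ℝ) - s ^ 2 := by linarith
      have h9 : -(1 / 4) * (V * y) ≤ ((p : ℝ) - s ^ 2) * (V * y) :=
        mul_le_mul_of_nonneg_right h8 (by positivity)
      have h10 : s ^ 2 - 1 / 4 ≤ p := by linarith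
      have h11 : (1 : ℝ) ≤ s ^ 2 := by nlinarith
      nlinarith
    have h7 : V * (1 - ((p : ℝ) / s ^ 2)⁻¹) ≤ V * Real.log ((p : ℝ) / s ^ 2) :=
      mul_le_mul_of_nonneg_left h5 (by linarith)
    have h8 : 1 / (2 * y) ≤ τ := by
      rw [div_le_iff₀ (by positivity)]; linarith
    linarith
  · rw [Real.exp_le_exp]
    have h5 := Real.log_le_sub_one_of_pos hq
    have h6 : V * Real.log ((p : ℝ) / s ^ 2) ≤ V * ((p : ℝ) / s ^ 2 - 1) :=
      mul_le_mul_of_nonneg_left h5 (by linarith)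
    have h7 : V * ((p : ℝ) / s ^ 2 - 1) ≤ 1 := by
      have h8 : V * ((p : ℝ) / s ^ 2 - 1) = V * (p - s ^ 2) / s ^ 2 := by field_simp
      rw [h8, div_le_iff₀ hx0]
      have h9 : (p : ℝ) - s ^ 2 ≤ y := by linarith
      have h10 : V * ((p : ℝ) - s ^ 2) ≤ V * y := mul_le_mul_of_nonneg_left h9 (by linarith)
      linarith
    linarith

/-- lower bound for the interval `(c, c + y]` -/
lemma R_lo (w : ℝ → ℝ) {n : ℕ} {s c y V τ : ℝ} (H : Hy n s c y V τ)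
    (h1 : ∀ u, w u ≤ 1) (hw : ∀ u, w u ≠ 0 → Real.exp τ ≤ u ∧ u ≤ Real.exp (1 - 3 * τ)) :
    SW w pr (s ^ 2) V ≤ pc c (c + y) := by
  have hs := H.spos
  have hV := H.Vpos
  have hy := H.ypos
  have hx0 : 0 < s ^ 2 := by positivity
  have hc1 := H.c1
  have hc2 := H.c2
  have hV1 := H.V1
  have hV2 := H.V2
  have hy1 := H.y1
  have hτ := H.τ0
  have hτ1 := H.τ1
  have hV0 := H.V0
  unfold pc
  apply ASM.Co_aux.lo w _ V h1
  intro p hpp hne
  have hp0 : (0 : ℝ) < p := by exact_mod_cast hpp.pos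
  have hq : 0 < (p : ℝ) / s ^ 2 := by positivity
  obtain ⟨g1, g2⟩ := hw _ hne
  rw [ASM.Co_aux.rp _ _ hq, Real.exp_le_exp] at g1 g2
  apply mem_pc hpp
  · -- p > x ≥ c
    have h2 : 0 < Real.log ((p : ℝ) / s ^ 2) := by
      by_contra h
      push Not at h
      nlinarith
    have h3 : 1 < (p : ℝ) / s ^ 2 := by
      by_contra h
      push Not at h
      have := Real.log_nonpos hq.le h
      linarith
    rw [lt_div_iff₀ hx0] at h3
    linarith
  · have h2 : Real.log ((p : ℝ) / s ^ 2) ≤ (1 - 3 * τ) / V := by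
      rw [le_div_iff₀ (by linarith)]; linarith
    have hv0 : 0 ≤ (1 - 3 * τ) / V := div_nonneg (by linarith) (by linarith)
    have hv1 : (1 - 3 * τ) / V ≤ 1 := by
      rw [div_le_one (by linarith)]; linarith
    have h3 : (p : ℝ) / s ^ 2 ≤ 1 + (1 - 3 * τ) / V + ((1 - 3 * τ) / V) ^ 2 := by
      rw [← Real.exp_log hq]
      refine (Real.exp_le_exp.2 h2).trans ?_
      have := Real.abs_exp_sub_one_sub_id_le (x := (1 - 3 * τ) / V) (by rw [abs_of_nonneg hv0]; exact hv1)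
      have := (abs_le.1 this).2
      linarith
    have h4 : ((1 - 3 * τ) / V) ^ 2 ≤ τ * ((1 - 3 * τ) / V) := by
      rw [sq]
      apply mul_le_mul_of_nonneg_right _ hv0
      rw [div_le_iff₀ (by linarith)]
      linarith
    have h5 : (p : ℝ) / s ^ 2 ≤ 1 + (1 + τ) * ((1 - 3 * τ) / V) := by linarith
    have h6 : (p : ℝ) ≤ s ^ 2 + (1 + τ) * (1 - 3 * τ) * (s ^ 2 / V) := by
      rw [div_le_iff₀ hx0] at h5
      refine h5.trans (le_of_eq ?_)
      field_simp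
    have h7 : s ^ 2 / V ≤ (1 + τ) * y := by
      rw [div_le_iff₀ (by linarith)]; nlinarith
    have h8 : (1 + τ) * (1 - 3 * τ) * (s ^ 2 / V) ≤ (1 + τ) * (1 - 3 * τ) * ((1 + τ) * y) :=
      mul_le_mul_of_nonneg_left h7 (mul_nonneg (by linarith) (by linarith))
    have h9 : (1 + τ) * (1 - 3 * τ) * (1 + τ) ≤ 1 - τ / 2 := by nlinarith [mul_pos hτ hτ]
    have h10 : (1 + τ) * (1 - 3 * τ) * ((1 + τ) * y) ≤ (1 - τ / 2) * y := by
      have := mul_le_mul_of_nonneg_right h9 (show (0 : ℝ) ≤ y by linarith)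
      linarith
    nlinarith

/-- upper bound for the interval `(c - y, c]` -/
lemma L_up (w : ℝ → ℝ) (U : ℝ) {n : ℕ} {s c y V τ : ℝ} (H : Hy n s c y V τ)
    (hU : ∀ u, w u ≠ 0 → u ≤ U) (h0 : ∀ u, 0 ≤ w u)
    (hw : ∀ u, Real.exp (-1 - τ) ≤ u → u ≤ Real.exp 0 → w u = 1) :
    pc (c - y) c ≤ SW w pr (s ^ 2) V := by
  have hs := H.spos
  have hV := H.Vpos
  have hy := H.ypos
  have hx0 : 0 < s ^ 2 := by positivity
  unfold pc
  apply ASM.Co_aux.up w U _ V hU hx0 (by linarith) h0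
  intro p hp
  obtain ⟨hpp, hp1, hp2⟩ := pc_mem hp
  have hp0 : (0 : ℝ) < p := by exact_mod_cast hpp.pos
  refine ⟨hpp, ?_⟩
  have hq : 0 < (p : ℝ) / s ^ 2 := by positivity
  rw [ASM.Co_aux.rp _ _ hq]
  have hc1 := H.c1
  have hc2 := H.c2
  have hτ := H.τ0
  have hτ1 := H.τ1
  have hx2 := H.x2
  apply hw
  · rw [Real.exp_le_exp]
    have h5 := Real.one_sub_inv_le_log_of_pos hq
    have h6 : -1 - τ ≤ V * (1 - ((p : ℝ) / s ^ 2)⁻¹) := by
      rw [inv_div]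
      have h7 : V * (1 - s ^ 2 / p) = V * (p - s ^ 2) / p := by field_simp
      rw [h7, le_div_iff₀ hp0]
      have h8 : s ^ 2 - y - 1 / 4 ≤ p := by linarith
      have h9 : (s ^ 2 - p) ≤ y + 1 / 4 := by linarith
      have h10 : V * (s ^ 2 - p) ≤ V * (y + 1 / 4) := mul_le_mul_of_nonneg_left h9 (by linarith)
      have h11 : (1 + τ) * (s ^ 2 - y - 1 / 4) ≤ (1 + τ) * p := mul_le_mul_of_nonneg_left h8 (by linarith)
      linarith
    have h7 : V * (1 - ((p : ℝ) / s ^ 2)⁻¹) ≤ V * Real.log ((p : ℝ) / s ^ 2) :=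
      mul_le_mul_of_nonneg_left h5 (by linarith)
    linarith
  · rw [Real.exp_le_exp]
    have h6 : (p : ℝ) / s ^ 2 ≤ 1 := by rw [div_le_one hx0]; linarith
    exact mul_nonpos_of_nonneg_of_nonpos (by linarith) (Real.log_nonpos hq.le h6)

/-- lower bound for the interval `(c - y, c]` -/
lemma L_lo (w : ℝ → ℝ) {n : ℕ} {s c y V τ : ℝ} (H : Hy n s c y V τ)
    (h1 : ∀ u, w u ≤ 1) (hw : ∀ u, w u ≠ 0 → Real.exp (-1 + 3 * τ) ≤ u ∧ u ≤ Real.exp (-τ)) :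
    SW w pr (s ^ 2) V ≤ pc (c - y) c := by
  have hs := H.spos
  have hV := H.Vpos
  have hy := H.ypos
  have hx0 : 0 < s ^ 2 := by positivity
  have hc1 := H.c1
  have hc2 := H.c2
  have hV1 := H.V1
  have hV2 := H.V2
  have hy1 := H.y1
  have hτ := H.τ0
  have hτ1 := H.τ1
  have hV0 := H.V0
  unfold pc
  apply ASM.Co_aux.lo w _ V h1
  intro p hpp hne
  have hp0 : (0 : ℝ) < p := by exact_mod_cast hpp.pos
  have hq : 0 < (p : ℝ) / s ^ 2 := by positivity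
  obtain ⟨g1, g2⟩ := hw _ hne
  rw [ASM.Co_aux.rp _ _ hq, Real.exp_le_exp] at g1 g2
  have hV' : 0 < V := by linarith
  have h7 : s ^ 2 / V ≤ (1 + τ) * y := by
    rw [div_le_iff₀ hV']; nlinarith
  have h7' : y ≤ s ^ 2 / V := by
    rw [le_div_iff₀ hV']; linarith
  apply mem_pc hpp
  · -- p ≥ x (1 - (1 - 3 τ)/V) > c - y
    have h2 : (-1 + 3 * τ) / V ≤ Real.log ((p : ℝ) / s ^ 2) := by
      rw [div_le_iff₀ hV']; linarith
    have h3 := Real.log_le_sub_one_of_pos hq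
    have h4 : 1 + (-1 + 3 * τ) / V ≤ (p : ℝ) / s ^ 2 := by linarith
    rw [le_div_iff₀ hx0] at h4
    have h5 : (1 + (-1 + 3 * τ) / V) * s ^ 2 = s ^ 2 - (1 - 3 * τ) * (s ^ 2 / V) := by
      field_simp
      ring
    rw [h5] at h4
    have h6 : (1 - 3 * τ) * (s ^ 2 / V) ≤ (1 - 3 * τ) * ((1 + τ) * y) :=
      mul_le_mul_of_nonneg_left h7 (by linarith)
    have h9 : (1 - 3 * τ) * (1 + τ) ≤ 1 - τ := by nlinarith [mul_pos hτ hτ]
    have h10 : (1 - 3 * τ) * ((1 + τ) * y) ≤ (1 - τ) * y := by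
      have := mul_le_mul_of_nonneg_right h9 (show (0 : ℝ) ≤ y by linarith)
      linarith
    nlinarith
  · have h2 : Real.log ((p : ℝ) / s ^ 2) ≤ -(τ / V) := by
      rw [← neg_div, le_div_iff₀ hV']; linarith
    have hv0 : 0 ≤ τ / V := by positivity
    have hv1 : τ / V ≤ 1 / 2 := by
      rw [div_le_iff₀ hV']; linarith
    have h3 : (p : ℝ) / s ^ 2 ≤ 1 - τ / V + (τ / V) ^ 2 := by
      rw [← Real.exp_log hq]
      refine (Real.exp_le_exp.2 h2).trans ?_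
      have := Real.abs_exp_sub_one_sub_id_le (x := -(τ / V)) (by rw [abs_neg, abs_of_nonneg hv0]; linarith)
      have := (abs_le.1 this).2
      have e : (-(τ / V)) ^ 2 = (τ / V) ^ 2 := by ring
      rw [e] at this
      linarith
    have h4 : (τ / V) ^ 2 ≤ 1 / 2 * (τ / V) := by
      rw [sq]
      exact mul_le_mul_of_nonneg_right hv1 hv0
    have h5 : (p : ℝ) / s ^ 2 ≤ 1 - 1 / 2 * (τ / V) := by linarith
    rw [div_le_iff₀ hx0] at h5
    have h6 : (1 - 1 / 2 * (τ / V)) * s ^ 2 = s ^ 2 - τ / 2 * (s ^ 2 / V) := by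
      field_simp
    rw [h6] at h5
    have h8 : τ / 2 * y ≤ τ / 2 * (s ^ 2 / V) := mul_le_mul_of_nonneg_left h7' (by linarith)
    linarith

lemma numF (τ Z R X : ℝ) (hτ : 0 < τ) (hτ1 : τ ≤ 1 / 100) (c1 : Z ≤ 1 + 4 * τ) (c2 : 1 - 7 * τ ≤ Z) (r1 : R ≤ 1 + τ)
    (r2 : 1 - τ ≤ R) (x1 : 1 ≤ X) (x2 : X ≤ 1 + τ) : |Z * (R * X) - 1| ≤ 10 * τ := by
  have u1 : R * X ≤ (1 + τ) * (1 + τ) := mul_le_mul r1 x2 (by linarith) (by linarith)
  have u2 : (1 - τ) * 1 ≤ R * X := mul_le_mul r2 x1 (by norm_num) (by linarith)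
  have v1 : Z * (R * X) ≤ (1 + 4 * τ) * ((1 + τ) * (1 + τ)) := mul_le_mul c1 u1 (by linarith) (by linarith)
  have v2 : (1 - 7 * τ) * ((1 - τ) * 1) ≤ Z * (R * X) := mul_le_mul c2 u2 (by linarith) (by linarith)
  have t2 : τ * τ ≤ 1 / 100 * τ := mul_le_mul_of_nonneg_right hτ1 hτ.le
  have t3 : 0 ≤ τ * τ := mul_nonneg hτ.le hτ.le
  have t4 : τ * τ * τ ≤ 1 / 100 * (τ * τ) := by
    have := mul_le_mul_of_nonneg_right hτ1 t3
    linarith
  rw [abs_le]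
  constructor
  · have e : (1 - 7 * τ) * ((1 - τ) * 1) = 1 - 8 * τ + 7 * (τ * τ) := by ring
    linarith
  · have e : (1 + 4 * τ) * ((1 + τ) * (1 + τ)) = 1 + 6 * τ + 9 * (τ * τ) + 4 * (τ * τ * τ) := by ring
    linarith

/-- one count -/
lemma fin {n : ℕ} {s c y V τ : ℝ} (H : Hy n s c y V τ) (I1 I2 S1 S2 P : ℝ)
    (hI1 : I1 ≤ 1 + 3 * τ) (hI2 : 1 - 6 * τ ≤ I2) (h1 : P ≤ S1) (h2 : S2 ≤ P)
    (hS1 : |Real.log (s ^ 2) * (V / s ^ 2 * S1) - I1| ≤ τ)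
    (hS2 : |Real.log (s ^ 2) * (V / s ^ 2 * S2) - I2| ≤ τ) :
    |2 * Real.log n / y * P - 1| ≤ 10 * τ := by
  have hs := H.spos
  have hV := H.Vpos
  have hy := H.ypos
  have hn := H.npos
  have hx0 : 0 < s ^ 2 := by positivity
  have hV1 := H.V1
  have hV2 := H.V2
  have hy1 := H.y1
  have hy2 := H.y2
  have hτ := H.τ0
  have hτ1 := H.τ1
  have hs1 := H.s1
  have hs2 := H.s2
  have hV' : 0 < V := by linarith
  have hy' : 0 < y := by linarith
  have hn' : (0 : ℝ) < n := by linarith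
  have hs' : 0 < s := by linarith
  have hls : 1 ≤ Real.log s := by
    rw [Real.le_log_iff_exp_le hs']
    have := Real.exp_one_lt_d9
    linarith
  have hlog : Real.log (s ^ 2) = 2 * Real.log s := by rw [Real.log_pow]; push_cast; ring
  set q : ℝ := Real.log (s ^ 2) * (V / s ^ 2) with hq
  have hq0 : 0 ≤ q := by rw [hq, hlog]; positivity
  have e1 : Real.log (s ^ 2) * (V / s ^ 2 * S1) = q * S1 := by rw [hq]; ring
  have e2 : Real.log (s ^ 2) * (V / s ^ 2 * S2) = q * S2 := by rw [hq]; ring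
  rw [e1] at hS1
  rw [e2] at hS2
  have a1 := (abs_le.1 hS1).2
  have a2 := (abs_le.1 hS2).1
  have b1 : q * P ≤ q * S1 := mul_le_mul_of_nonneg_left h1 hq0
  have b2 : q * S2 ≤ q * P := mul_le_mul_of_nonneg_left h2 hq0
  have c1 : q * P ≤ 1 + 4 * τ := by linarith
  have c2 : 1 - 7 * τ ≤ q * P := by linarith
  -- log n / log s
  have t1 : Real.log n - Real.log s ≤ τ := by
    rw [← Real.log_div hn'.ne' hs'.ne']
    have h3 := Real.log_le_sub_one_of_pos (x := (n : ℝ) / s) (by positivity)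
    have h4 : (n : ℝ) / s - 1 ≤ τ := by
      have h5 : (n : ℝ) / s ≤ 1 + τ := by
        rw [div_le_iff₀ hs']; nlinarith
      linarith
    linarith
  have t2 : Real.log s - Real.log n ≤ τ := by
    rw [← Real.log_div hs'.ne' hn'.ne']
    have h3 := Real.log_le_sub_one_of_pos (x := s / (n : ℝ)) (by positivity)
    have h4 : s / (n : ℝ) - 1 ≤ τ := by
      have h5 : s / (n : ℝ) ≤ 1 + τ := by
        rw [div_le_iff₀ hn']; nlinarith
      linarith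
    linarith
  set R : ℝ := Real.log n / Real.log s with hR
  have r1 : R ≤ 1 + τ := by
    rw [hR, div_le_iff₀ (by linarith)]; nlinarith
  have r2 : 1 - τ ≤ R := by
    rw [hR, le_div_iff₀ (by linarith)]; nlinarith
  set X : ℝ := s ^ 2 / (V * y) with hX
  have x1 : 1 ≤ X := by
    rw [hX, le_div_iff₀ (by positivity)]; linarith
  have x2 : X ≤ 1 + τ := by
    rw [hX, div_le_iff₀ (by positivity)]; exact hV2
  have key : 2 * Real.log n / y * P = q * P * (R * X) := by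
    rw [hq, hR, hX, hlog]
    have : Real.log s ≠ 0 := by linarith
    field_simp
  rw [key]
  exact numF τ (q * P) R X hτ hτ1 c1 c2 r1 r2 x1 x2

/-- quarter squares of a block -/
lemma blkq (T B : ℝ) (P : ℝ → Prop) (hP : PQ T P B) (hT : 1 ≤ T) (e : ℝ) (he1 : -(1 / 2) ≤ e) (he2 : e ≤ 1 / 2)
    (hm : ∀ n : ℕ, 1 ≤ n → ∃ m : ℕ, (m : ℝ) / 2 = n + e) (E : Finset ℕ)
    (hE : ∀ n ∈ E, T + 1 ≤ n ∧ (n : ℝ) ≤ 2 * T - 1 ∧ P (((n : ℝ) + e) ^ 2)) : (E.card : ℝ) ≤ B := by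
  classical
  have hinj : Set.InjOn (fun n : ℕ => ((n : ℝ) + e) ^ 2) (E : Set ℕ) := by
    intro a ha b hb hab
    have h1 := (hE a ha).1
    have h2 := (hE b hb).1
    have h3 : (a : ℝ) + e = b + e := (sq_eq_sq₀ (by linarith) (by linarith)).1 hab
    have h4 : (a : ℝ) = b := by linarith
    exact_mod_cast h4
  have h := hP (E.image fun n : ℕ => ((n : ℝ) + e) ^ 2) ?_ ?_
  · rwa [Finset.card_image_of_injOn hinj] at h
  · intro x hx
    obtain ⟨n, hn, rfl⟩ := Finset.mem_image.1 hx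
    obtain ⟨h1, h2, -⟩ := hE n hn
    have hn1 : (1 : ℝ) ≤ n := by linarith
    refine ⟨pow_le_pow_left₀ (by linarith) (by linarith) 2, ?_, ?_⟩
    · have := pow_le_pow_left₀ (show (0 : ℝ) ≤ n + e by linarith) (show (n : ℝ) + e ≤ 2 * T by linarith) 2
      linarith
    · obtain ⟨m, hm'⟩ := hm n (by exact_mod_cast hn1)
      exact ⟨m, by rw [hm']⟩
  · intro x hx
    obtain ⟨n, hn, rfl⟩ := Finset.mem_image.1 hx
    exact (hE n hn).2.2

lemma em1 (n : ℕ) (hn : 1 ≤ n) : ∃ m : ℕ, (m : ℝ) / 2 = n + (-(1 / 2)) := by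
  refine ⟨2 * n - 1, ?_⟩
  rw [Nat.cast_sub (by omega)]
  push_cast
  ring

lemma em2 (n : ℕ) (_hn : 1 ≤ n) : ∃ m : ℕ, (m : ℝ) / 2 = n + 0 := by
  refine ⟨2 * n, ?_⟩
  push_cast
  ring

lemma em3 (n : ℕ) (_hn : 1 ≤ n) : ∃ m : ℕ, (m : ℝ) / 2 = n + (1 / 2) := by
  refine ⟨2 * n + 1, ?_⟩
  push_cast
  ring

/-- the number of scales -/
lemma scales (τ T : ℝ) (hτ : 0 < τ) (hT : 1 ≤ T) :
    ((⌊Real.log (8 * T) / Real.log (1 + τ)⌋₊ + 1 : ℕ) : ℝ) ≤ (16000 / Real.log (1 + τ) + 1) * T ^ (1 / 2000 : ℝ) := by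
  have hl : 0 < Real.log (1 + τ) := Real.log_pos (by linarith)
  have h1 : Real.log (8 * T) ≤ 16000 * T ^ (1 / 2000 : ℝ) := by
    have h2 := Real.log_le_rpow_div (x := 8 * T) (ε := 1 / 2000) (by linarith) (by norm_num)
    have h3 : (8 * T) ^ (1 / 2000 : ℝ) = 8 ^ (1 / 2000 : ℝ) * T ^ (1 / 2000 : ℝ) :=
      Real.mul_rpow (by norm_num) (by linarith)
    have h4 : (8 : ℝ) ^ (1 / 2000 : ℝ) ≤ 8 ^ (1 : ℝ) := Real.rpow_le_rpow_of_exponent_le (by norm_num) (by norm_num)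
    rw [Real.rpow_one] at h4
    have h5 : 0 ≤ T ^ (1 / 2000 : ℝ) := by positivity
    rw [h3] at h2
    have h6 : (8 : ℝ) ^ (1 / 2000 : ℝ) * T ^ (1 / 2000 : ℝ) ≤ 8 * T ^ (1 / 2000 : ℝ) :=
      mul_le_mul_of_nonneg_right h4 h5
    have h7 : (8 : ℝ) ^ (1 / 2000 : ℝ) * T ^ (1 / 2000 : ℝ) / (1 / 2000) =
        2000 * ((8 : ℝ) ^ (1 / 2000 : ℝ) * T ^ (1 / 2000 : ℝ)) := by ring
    rw [h7] at h2
    linarith
  have h8 : 1 ≤ T ^ (1 / 2000 : ℝ) := Real.one_le_rpow hT (by norm_num)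
  have h9 : 0 ≤ Real.log (8 * T) / Real.log (1 + τ) := div_nonneg (Real.log_nonneg (by linarith)) hl.le
  have h10 := Nat.floor_le h9
  have h11 : Real.log (8 * T) / Real.log (1 + τ) ≤ 16000 * T ^ (1 / 2000 : ℝ) / Real.log (1 + τ) :=
    div_le_div_of_nonneg_right h1 hl.le
  push_cast
  calc ((⌊Real.log (8 * T) / Real.log (1 + τ)⌋₊ : ℕ) : ℝ) + 1 ≤ 16000 * T ^ (1 / 2000 : ℝ) / Real.log (1 + τ) + T ^ (1 / 2000 : ℝ) := by
        linarith
    _ = _ := by ring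

/-- the choice of the scale -/
lemma scale (τ T h θ x y : ℝ) (n : ℕ) (hτ : 0 < τ) (hτ1 : τ ≤ 1 / 100) (hT : 10 ≤ T) (hh2 : h ≤ 127 / 100)
    (hθ : θ = 2 - h) (hn : T + 1 ≤ n) (hx1 : ((n : ℝ) - 1 / 2) ^ 2 ≤ x) (hx2 : x ≤ 4 * T ^ 2) (hy1 : (n : ℝ) ^ θ ≤ y)
    (hy2 : y ≤ n) :
    ∃ k : ℕ, k < ⌊Real.log (8 * T) / Real.log (1 + τ)⌋₊ + 1 ∧ T / 2 ≤ (1 + τ) ^ k * (T / 2) ∧
      (1 + τ) ^ k * (T / 2) ≤ 4 * T ^ h ∧ ((1 + τ) ^ k * (T / 2)) * y ≤ x ∧ x ≤ (1 + τ) * (((1 + τ) ^ k * (T / 2)) * y) := by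
  have hT0 : 0 < T := by linarith
  have hn0 : (0 : ℝ) < n := by linarith
  have hnθ : 0 < (n : ℝ) ^ θ := by positivity
  have hy0 : 0 < y := lt_of_lt_of_le hnθ hy1
  have hz : 1 ≤ x / y / (T / 2) := by
    rw [le_div_iff₀ (by positivity), le_div_iff₀ hy0]
    have : 1 * (T / 2) * y ≤ T / 2 * n := by nlinarith
    nlinarith
  obtain ⟨k, hk1, hk2⟩ := exists_nat_pow_near hz (show 1 < 1 + τ by linarith)
  have hk1' : (1 + τ) ^ k * (T / 2) ≤ x / y := by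
    rwa [le_div_iff₀ (by positivity)] at hk1
  have hxy : x / y ≤ 4 * T ^ h := by
    rw [div_le_iff₀ hy0]
    have h1 : T ^ θ ≤ y := by
      refine le_trans ?_ hy1
      apply Real.rpow_le_rpow hT0.le (by linarith)
      rw [hθ]; linarith
    have h2 : T ^ h * T ^ θ = T ^ 2 := by
      rw [← Real.rpow_add hT0, hθ, ← Real.rpow_natCast T 2]
      congr 1
      push_cast
      ring
    have h3 : 0 < T ^ h := by positivity
    nlinarith
  refine ⟨k, ?_, ?_, hk1'.trans hxy, ?_, ?_⟩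
  · rw [Nat.lt_add_one_iff]
    apply Nat.le_floor
    have hl : 0 < Real.log (1 + τ) := Real.log_pos (by linarith)
    rw [le_div_iff₀ hl, ← Real.log_pow]
    apply Real.log_le_log (by positivity)
    have h1 : (1 + τ) ^ k * (T / 2) ≤ 4 * T ^ h := hk1'.trans hxy
    have h2 : T ^ h ≤ T ^ (2 : ℝ) := Real.rpow_le_rpow_of_exponent_le (by linarith) (by linarith)
    rw [Real.rpow_two] at h2
    have h3 : ((1 + τ) ^ k) * T ≤ (8 * T) * T := by nlinarith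
    exact le_of_mul_le_mul_right h3 hT0
  · have : 1 ≤ (1 + τ) ^ k := one_le_pow₀ (by linarith)
    nlinarith
  · rwa [le_div_iff₀ hy0] at hk1'
  · rw [div_lt_iff₀ (by positivity), div_lt_iff₀ hy0] at hk2
    rw [pow_succ] at hk2
    nlinarith

end Coq

open Coq in
open Classical in
/-- **ITEM Co.** -/
theorem iCo (hWt : ASM.StWt) : StCo := by
  intro h r hh1 hh2 hr hMn δ hδ
  set τ : ℝ := min (1 / 100) (δ / 10) with hτdef
  have hτ : 0 < τ := by rw [hτdef]; positivity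
  have hτ1 : τ ≤ 1 / 100 := min_le_left _ _
  have hτ2 : 10 * τ ≤ δ := by
    have : τ ≤ δ / 10 := min_le_right _ _
    linarith
  obtain ⟨w1, w1a, w1b, w1c, w1d, w1e, w1f⟩ := hWt (-τ) 1 τ (by linarith) hτ
  obtain ⟨w2, w2a, w2b, w2c, w2d, w2e, w2f⟩ := hWt (2 * τ) (1 - 4 * τ) τ (by linarith) hτ
  obtain ⟨w3, w3a, w3b, w3c, w3d, w3e, w3f⟩ := hWt (-1 - τ) 0 τ (by linarith) hτ
  obtain ⟨w4, w4a, w4b, w4c, w4d, w4e, w4f⟩ := hWt (-1 + 4 * τ) (-2 * τ) τ (by linarith) hτ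
  obtain ⟨C1, C1a, C1b⟩ := hMn w1 w1a (fun u => (w1b u).1) τ hτ
  obtain ⟨C2, C2a, C2b⟩ := hMn w2 w2a (fun u => (w2b u).1) τ hτ
  obtain ⟨C3, C3a, C3b⟩ := hMn w3 w3a (fun u => (w3b u).1) τ hτ
  obtain ⟨C4, C4a, C4b⟩ := hMn w4 w4a (fun u => (w4b u).1) τ hτ
  set CC : ℝ := C1 + C2 + C3 + C4 with hCC
  set P : (ℝ → ℝ) → ℝ → ℝ → Prop := fun w V x => τ < |Real.log x * (V / x * SW w pr x V) - Iw w| with hPdef
  set ws : Finset (ℝ → ℝ) := {w1, w2, w3, w4} with hws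
  set es : Finset ℝ := {-(1 / 2), 0, 1 / 2} with hes
  have hPQ : ∀ w ∈ ws, ∀ T V : ℝ, CC ≤ T → T / 2 ≤ V → V ≤ 4 * T ^ h → PQ T (P w V) (CC * T ^ (r + 1 / 2000)) := by
    intro w hw T V hT hV1 hV2
    have hT0 : 0 < T := by linarith
    have hTr : 0 ≤ T ^ (r + 1 / 2000) := by positivity
    have mono : ∀ C : ℝ, C ≤ CC → PQ T (P w V) (C * T ^ (r + 1 / 2000)) → PQ T (P w V) (CC * T ^ (r + 1 / 2000)) := by
      intro C hC hP S hS hS'
      exact (hP S hS hS').trans (mul_le_mul_of_nonneg_right hC hTr)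
    rw [hws] at hw
    simp only [Finset.mem_insert, Finset.mem_singleton] at hw
    rcases hw with rfl | rfl | rfl | rfl
    · exact mono C1 (by linarith) (C1b T V (by linarith) hV1 hV2)
    · exact mono C2 (by linarith) (C2b T V (by linarith) hV1 hV2)
    · exact mono C3 (by linarith) (C3b T V (by linarith) hV1 hV2)
    · exact mono C4 (by linarith) (C4b T V (by linarith) hV1 hV2)
  have hem : ∀ e ∈ es, (-(1 / 2) ≤ e ∧ e ≤ 1 / 2) ∧ ∀ n : ℕ, 1 ≤ n → ∃ m : ℕ, (m : ℝ) / 2 = n + e := by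
    intro e he
    rw [hes] at he
    simp only [Finset.mem_insert, Finset.mem_singleton] at he
    rcases he with rfl | rfl | rfl
    · exact ⟨⟨by norm_num, by norm_num⟩, em1⟩
    · exact ⟨⟨by norm_num, by norm_num⟩, em2⟩
    · exact ⟨⟨by norm_num, by norm_num⟩, em3⟩
  set D : ℝ := 16000 / Real.log (1 + τ) + 1 with hD
  have hlτ : 0 < Real.log (1 + τ) := Real.log_pos (by linarith)
  have hD0 : 0 < D := by rw [hD]; positivity
  have hCC0 : 4 ≤ CC := by rw [hCC]; linarith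
  -- `y` is large
  set K1 : ℝ := (2 / τ) ^ (2 : ℝ) with hK1
  have hK10 : 0 < K1 := by rw [hK1]; positivity
  set K0 : ℝ := 2 * (CC + 100 + 2 / τ + K1) with hK0
  have h2τ : 0 < 2 / τ := by positivity
  refine ASM.Co_aux.count (Bad (2 - h) δ) (r + 1 / 1000) (3 / 2) K0 (12 * D * CC) (by linarith) (by norm_num) (by linarith) ?_
  intro T0 hT0 E hE
  set T : ℝ := 4 / 5 * T0 with hTdef
  have hT1 : CC + 100 + 2 / τ + K1 ≤ T := by rw [hTdef]; linarith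
  have hT : 100 ≤ T := by linarith
  have hTT : T ≤ T0 := by rw [hTdef]; linarith
  have hTpos : 0 < T := by linarith
  have hTτ : 2 ≤ τ * T := by
    have h1 : 2 / τ ≤ T := by linarith
    rw [div_le_iff₀ hτ] at h1
    linarith
  have hEn : ∀ n ∈ E, T + 1 ≤ n ∧ (n : ℝ) ≤ 2 * T - 1 := by
    intro n hn
    obtain ⟨h1, h2, -⟩ := hE n hn
    constructor
    · rw [hTdef] at hT ⊢; linarith
    · rw [hTdef] at hT ⊢; linarith
  set KK : ℕ := ⌊Real.log (8 * T) / Real.log (1 + τ)⌋₊ + 1 with hKK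
  set V : ℕ → ℝ := fun k => (1 + τ) ^ k * (T / 2) with hVdef
  set F : (ℝ → ℝ) × ℝ × ℕ → Finset ℕ := fun i =>
    E.filter (fun n : ℕ => V i.2.2 ≤ 4 * T ^ h ∧ P i.1 (V i.2.2) (((n : ℝ) + i.2.1) ^ 2)) with hF
  have hcov : E ⊆ (ws ×ˢ (es ×ˢ Finset.range KK)).biUnion F := by
    intro n hn
    obtain ⟨-, -, y, hy1, hy2, c, hc, hbad⟩ := hE n hn
    obtain ⟨hn1, hn2⟩ := hEn n hn
    have hn0 : (0 : ℝ) < n := by linarith
    -- the shift
    obtain ⟨e, he, hce1, hce2⟩ : ∃ e ∈ es, c ≤ ((n : ℝ) + e) ^ 2 ∧ ((n : ℝ) + e) ^ 2 ≤ c + 1 / 4 := by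
      rcases hc with rfl | rfl | rfl
      · have e0 : ((n : ℝ) + (-(1 / 2))) ^ 2 = (n : ℝ) ^ 2 - n + 1 / 4 := by ring
        refine ⟨-(1 / 2), by rw [hes]; simp, ?_, ?_⟩
        · rw [e0]; linarith
        · rw [e0]
      · refine ⟨0, by rw [hes]; simp, ?_, ?_⟩
        · simp
        · simp
      · have e0 : ((n : ℝ) + 1 / 2) ^ 2 = (n : ℝ) ^ 2 + n + 1 / 4 := by ring
        refine ⟨1 / 2, by rw [hes]; simp, ?_, ?_⟩
        · rw [e0]; linarith
        · rw [e0]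
    obtain ⟨⟨he1, he2⟩, -⟩ := hem e he
    set s : ℝ := (n : ℝ) + e with hs
    have hs1 : (n : ℝ) - 1 / 2 ≤ s := by rw [hs]; linarith
    have hs2 : s ≤ n + 1 / 2 := by rw [hs]; linarith
    have hx1 : ((n : ℝ) - 1 / 2) ^ 2 ≤ s ^ 2 := pow_le_pow_left₀ (by linarith) hs1 2
    have hx2 : s ^ 2 ≤ 4 * T ^ 2 := by
      have := pow_le_pow_left₀ (show (0 : ℝ) ≤ s by linarith) (show s ≤ 2 * T by linarith) 2
      linarith
    obtain ⟨k, hk, hV1, hV2, hV3, hV4⟩ := scale τ T h (2 - h) (s ^ 2) y n hτ hτ1 (by linarith) hh2 rfl hn1 hx1 hx2 hy1 hy2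
    -- `y` is large
    have hyl : 2 ≤ τ * y := by
      have h1 : 2 / τ ≤ y := by
        refine le_trans ?_ hy1
        have h3 : K1 ≤ n := by linarith
        have h4 : K1 ^ (1 / 2 : ℝ) = 2 / τ := by
          rw [hK1, ← Real.rpow_mul (by positivity)]
          norm_num
        rw [← h4]
        have hn1' : (1 : ℝ) ≤ n := by linarith
        calc K1 ^ (1 / 2 : ℝ) ≤ (n : ℝ) ^ (1 / 2 : ℝ) := Real.rpow_le_rpow hK10.le h3 (by norm_num)
          _ ≤ (n : ℝ) ^ (2 - h) := Real.rpow_le_rpow_of_exponent_le hn1' (by linarith)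
      rw [div_le_iff₀ hτ] at h1
      linarith
    have hVl : 1 ≤ τ * ((1 + τ) ^ k * (T / 2)) := by nlinarith
    have H : Hy n s c y ((1 + τ) ^ k * (T / 2)) τ := ⟨hτ, hτ1, hs1, hs2, hce1, hce2, hV3, hV4, hyl, hy2, hVl⟩
    by_contra hcon
    have hno : ∀ w ∈ ws, ¬ P w ((1 + τ) ^ k * (T / 2)) (s ^ 2) := by
      intro w hw hPw
      apply hcon
      rw [Finset.mem_biUnion]
      refine ⟨(w, e, k), ?_, ?_⟩
      · rw [Finset.mem_product, Finset.mem_product]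
        exact ⟨hw, he, Finset.mem_range.2 hk⟩
      · rw [hF, Finset.mem_filter]
        exact ⟨hn, hV2, hPw⟩
    have g1 := hno w1 (by rw [hws]; simp)
    have g2 := hno w2 (by rw [hws]; simp)
    have g3 := hno w3 (by rw [hws]; simp)
    have g4 := hno w4 (by rw [hws]; simp)
    simp only [hPdef, not_lt] at g1 g2 g3 g4
    rcases hbad with hb | hb
    · refine absurd hb (not_lt.2 ?_)
      refine le_trans (fin H (Iw w1) (Iw w2) _ _ (pc c (c + y)) (by linarith) (by linarith) ?_ ?_ g1 g2) hτ2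
      · exact R_up w1 (Real.exp (1 + τ)) H (fun u hu => (w1d u hu).2) (fun u => (w1b u).1) w1c
      · refine R_lo w2 H (fun u => (w2b u).2) (fun u hu => ?_)
        have := w2d u hu
        rw [show 2 * τ - τ = τ by ring, show 1 - 4 * τ + τ = 1 - 3 * τ by ring] at this
        exact this
    · refine absurd hb (not_lt.2 ?_)
      refine le_trans (fin H (Iw w3) (Iw w4) _ _ (pc (c - y) c) (by linarith) (by linarith) ?_ ?_ g3 g4) hτ2
      · exact L_up w3 (Real.exp (0 + τ)) H (fun u hu => (w3d u hu).2) (fun u => (w3b u).1) w3c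
      · refine L_lo w4 H (fun u => (w4b u).2) (fun u hu => ?_)
        have := w4d u hu
        rw [show -1 + 4 * τ - τ = -1 + 3 * τ by ring, show -2 * τ + τ = -τ by ring] at this
        exact this
  have hTr : 0 ≤ T ^ (r + 1 / 2000) := by positivity
  have hFi : ∀ i ∈ ws ×ˢ (es ×ˢ Finset.range KK), ((F i).card : ℝ) ≤ CC * T ^ (r + 1 / 2000) := by
    rintro ⟨w, e, k⟩ hi
    rw [Finset.mem_product, Finset.mem_product] at hi
    obtain ⟨hw, he, hk⟩ := hi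
    simp only at hw he hk
    obtain ⟨⟨he1, he2⟩, hm⟩ := hem e he
    by_cases hV : V k ≤ 4 * T ^ h
    · have hV0 : T / 2 ≤ V k := by
        have h1 : 1 ≤ (1 + τ) ^ k := one_le_pow₀ (by linarith)
        have h2 : 1 * (T / 2) ≤ (1 + τ) ^ k * (T / 2) := mul_le_mul_of_nonneg_right h1 (by linarith)
        rw [one_mul] at h2
        exact h2
      refine blkq T _ (P w (V k)) (hPQ w hw T (V k) (by linarith) hV0 hV) (by linarith) e he1 he2 hm _ ?_
      intro n hn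
      rw [hF] at hn
      simp only [Finset.mem_filter] at hn
      exact ⟨(hEn n hn.1).1, (hEn n hn.1).2, hn.2.2⟩
    · have : F (w, e, k) = ∅ := by
        rw [hF]
        simp only
        apply Finset.filter_false_of_mem
        intro n _ hn
        exact hV hn.1
      rw [this, Finset.card_empty, Nat.cast_zero]
      positivity
  have hcard : (E.card : ℝ) ≤ ((ws ×ˢ (es ×ˢ Finset.range KK)).card : ℝ) * (CC * T ^ (r + 1 / 2000)) := by
    calc (E.card : ℝ) ≤ (((ws ×ˢ (es ×ˢ Finset.range KK)).biUnion F).card : ℝ) := by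
          exact_mod_cast Finset.card_le_card hcov
      _ ≤ ∑ i ∈ ws ×ˢ (es ×ˢ Finset.range KK), ((F i).card : ℝ) := by
          exact_mod_cast Finset.card_biUnion_le
      _ ≤ ∑ _i ∈ ws ×ˢ (es ×ˢ Finset.range KK), CC * T ^ (r + 1 / 2000) := Finset.sum_le_sum hFi
      _ = _ := by rw [Finset.sum_const, nsmul_eq_mul]
  have hnum : ((ws ×ˢ (es ×ˢ Finset.range KK)).card : ℝ) ≤ 12 * (D * T ^ (1 / 2000 : ℝ)) := by
    rw [Finset.card_product, Finset.card_product, Finset.card_range]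
    have h1 : ws.card ≤ 4 := Finset.card_le_four
    have h2 : es.card ≤ 3 := Finset.card_le_three
    have h3 := scales τ T hτ (by linarith)
    have h4 : (KK : ℝ) ≤ D * T ^ (1 / 2000 : ℝ) := h3
    have h5 : ws.card * (es.card * KK) ≤ 4 * (3 * KK) := Nat.mul_le_mul h1 (Nat.mul_le_mul h2 le_rfl)
    have h6 : ((ws.card * (es.card * KK) : ℕ) : ℝ) ≤ ((4 * (3 * KK) : ℕ) : ℝ) := by exact_mod_cast h5
    refine h6.trans ?_
    push_cast
    linarith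
  have hfin : T ^ (1 / 2000 : ℝ) * T ^ (r + 1 / 2000) = T ^ (r + 1 / 1000) := by
    rw [← Real.rpow_add hTpos]
    congr 1
    ring
  calc (E.card : ℝ) ≤ ((ws ×ˢ (es ×ˢ Finset.range KK)).card : ℝ) * (CC * T ^ (r + 1 / 2000)) := hcard
    _ ≤ 12 * (D * T ^ (1 / 2000 : ℝ)) * (CC * T ^ (r + 1 / 2000)) := mul_le_mul_of_nonneg_right hnum (by positivity)
    _ = 12 * D * CC * (T ^ (1 / 2000 : ℝ) * T ^ (r + 1 / 2000)) := by ring
    _ = 12 * D * CC * T ^ (r + 1 / 1000) := by rw [hfin]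
    _ ≤ 12 * D * CC * T0 ^ (r + 1 / 1000) := by
        apply mul_le_mul_of_nonneg_left _ (by positivity)
        exact Real.rpow_le_rpow hTpos.le hTT (by linarith)

end Pool.Agent.Work.MP_a8fbd7_nt.OX.SQ
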