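import Mathlib
import Pool.Agent.Work.MP_a8fbd7_nt.OX.SQ.Stmts

/-!
# MP_a8fbd7_nt, block OX, part SQ, item Eq: collisions of quarter squares
-/

set_option autoImplicit false

open Finset

noncomputable section

namespace Pool.Agent.Work.MP_a8fbd7_nt.OX.SQ

open Pool.Agent.Work.MP_a8fbd7_nt.OX

namespace Eqq

/-- reduction of a sum over all pairs to the coprime pairs -/
theorem gcd_sum (w : ℕ → ℕ → ℝ)
    (hw : ∀ g a b : ℕ, 1 ≤ g → 1 ≤ a → 1 ≤ b → w (g * a) (g * b) = w a b) (N : ℕ) :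
    ∑ p ∈ Icc 1 N ×ˢ Icc 1 N, w p.1 p.2 =
      ∑ p ∈ Pc N, w p.1 p.2 * ((N / max p.1 p.2 : ℕ) : ℝ) := by
  have hmap : ∀ p ∈ Icc 1 N ×ˢ Icc 1 N,
      ((p.1 / Nat.gcd p.1 p.2, p.2 / Nat.gcd p.1 p.2) : ℕ × ℕ) ∈ Pc N := by
    intro p hp
    rw [mem_product, mem_Icc, mem_Icc] at hp
    obtain ⟨⟨h1, h2⟩, h3, h4⟩ := hp
    have hg : 0 < Nat.gcd p.1 p.2 := Nat.gcd_pos_of_pos_left _ (by omega)
    rw [mem_Pc]
    refine ⟨?_, ?_, ?_, ?_, ?_⟩
    · exact Nat.div_pos (Nat.gcd_le_left _ (by omega)) hg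
    · exact (Nat.div_le_self _ _).trans h2
    · exact Nat.div_pos (Nat.gcd_le_right _ (by omega)) hg
    · exact (Nat.div_le_self _ _).trans h4
    · exact Nat.coprime_div_gcd_div_gcd hg
  rw [← sum_fiberwise_of_maps_to hmap]
  apply sum_congr rfl
  intro ab hab
  obtain ⟨h1, h2, h3, h4, h5⟩ := mem_Pc.mp hab
  obtain ⟨a, b⟩ := ab
  simp only at h1 h2 h3 h4 h5 ⊢
  have hset : (Icc 1 N ×ˢ Icc 1 N).filter (fun p : ℕ × ℕ =>
      ((p.1 / Nat.gcd p.1 p.2, p.2 / Nat.gcd p.1 p.2) : ℕ × ℕ) = (a, b)) =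
      (Icc 1 (N / max a b)).image (fun g => (g * a, g * b)) := by
    ext ⟨m, n⟩
    simp only [mem_filter, mem_product, mem_Icc, Prod.mk.injEq, mem_image]
    constructor
    · rintro ⟨⟨⟨m1, m2⟩, n1, n2⟩, ha, hb⟩
      have hg : 0 < Nat.gcd m n := Nat.gcd_pos_of_pos_left _ (by omega)
      have e1 : Nat.gcd m n * a = m := by rw [← ha]; exact Nat.mul_div_cancel' (Nat.gcd_dvd_left _ _)
      have e2 : Nat.gcd m n * b = n := by rw [← hb]; exact Nat.mul_div_cancel' (Nat.gcd_dvd_right _ _)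
      refine ⟨Nat.gcd m n, ⟨hg, ?_⟩, e1, e2⟩
      rw [Nat.le_div_iff_mul_le (by omega)]
      rcases le_total a b with h | h
      · rw [max_eq_right h, e2]; exact n2
      · rw [max_eq_left h, e1]; exact m2
    · rintro ⟨g, ⟨g1, g2⟩, rfl, rfl⟩
      rw [Nat.le_div_iff_mul_le (by omega)] at g2
      have e : Nat.gcd (g * a) (g * b) = g := by rw [Nat.gcd_mul_left, h5.gcd_eq_one, mul_one]
      have ga : g * a ≤ N := (Nat.mul_le_mul_left g (le_max_left a b)).trans g2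
      have gb : g * b ≤ N := (Nat.mul_le_mul_left g (le_max_right a b)).trans g2
      refine ⟨⟨⟨Nat.mul_pos g1 h1, ga⟩, Nat.mul_pos g1 h3, gb⟩, ?_, ?_⟩
      · rw [e]; exact Nat.mul_div_cancel_left _ g1
      · rw [e]; exact Nat.mul_div_cancel_left _ g1
  rw [hset, sum_image]
  · rw [sum_congr rfl (fun g hg => hw g a b (mem_Icc.mp hg).1 h1 h3), sum_const,
      Nat.card_Icc, nsmul_eq_mul, Nat.add_sub_cancel, mul_comm]
  · intro g _ g' _ h
    simp only [Prod.mk.injEq] at h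
    exact Nat.eq_of_mul_eq_mul_right h1 h.1

/-- reduced fractions of height at most `K` with a logarithm in an interval -/
theorem cnt (x δ : ℝ) (hδ : 0 ≤ δ) (K : ℕ) :
    (((Pc K).filter (fun p => |x + Real.log p.1 - Real.log p.2| ≤ δ)).card : ℝ) ≤
      1 + 2 * δ * (K : ℝ) ^ 2 := by
  rcases Nat.eq_zero_or_pos K with h0 | hK
  · subst h0
    have : Pc 0 = ∅ := by
      ext p; rw [mem_Pc]; simp; omega
    rw [this]
    simp
  have hK' : (0 : ℝ) < K := by positivity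
  have h1 := card_le_of_sep
    ((Pc K).filter (fun p => |x + Real.log p.1 - Real.log p.2| ≤ δ))
    (fun p => Real.log p.1 - Real.log p.2) (1 / (K : ℝ) ^ 2) (-x) δ (by positivity) hδ ?_ ?_
  · refine h1.trans (le_of_eq ?_)
    field_simp
  · intro p hp q hq hne
    rw [mem_filter, mem_Pc] at hp hq
    obtain ⟨⟨p1, p2, p3, p4, p5⟩, -⟩ := hp
    obtain ⟨⟨q1, q2, q3, q4, q5⟩, -⟩ := hq
    have hne' : p.1 * q.2 ≠ q.1 * p.2 := by
      intro h
      apply hne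
      have d1 : p.1 ∣ q.1 := by
        apply Nat.Coprime.dvd_of_dvd_mul_right p5
        exact ⟨q.2, h.symm⟩
      have d2 : q.1 ∣ p.1 := by
        apply Nat.Coprime.dvd_of_dvd_mul_right q5
        exact ⟨p.2, h⟩
      have e1 : p.1 = q.1 := Nat.dvd_antisymm d1 d2
      have e2 : p.2 = q.2 := by
        rw [e1] at h
        exact (Nat.eq_of_mul_eq_mul_left (by omega) h).symm
      exact Prod.ext e1 e2
    have h2 := log_sep (p.1 * q.2) (q.1 * p.2) (K ^ 2) (Nat.mul_pos p1 q3) (Nat.mul_pos q1 p3)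
      (by rw [pow_two]; exact Nat.mul_le_mul p2 q4) (by rw [pow_two]; exact Nat.mul_le_mul q2 p4) hne'
    have e : Real.log ((p.1 * q.2 : ℕ) : ℝ) - Real.log ((q.1 * p.2 : ℕ) : ℝ) =
        (Real.log p.1 - Real.log p.2) - (Real.log q.1 - Real.log q.2) := by
      rw [Nat.cast_mul, Nat.cast_mul, Real.log_mul (by positivity) (by positivity),
        Real.log_mul (by positivity) (by positivity)]
      ring
    rw [e] at h2
    rw [Nat.cast_pow] at h2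
    exact h2
  · intro p hp
    rw [mem_filter] at hp
    have e : Real.log p.1 - Real.log p.2 - (-x) = x + Real.log p.1 - Real.log p.2 := by
      ring
    rw [e]
    exact hp.2

theorem card_Pc (K : ℕ) : ((Pc K).card : ℝ) ≤ (K : ℝ) ^ 2 := by
  have h : (Pc K).card ≤ K * K := by
    refine (card_filter_le _ _).trans ?_
    rw [card_product, Nat.card_Icc, Nat.add_sub_cancel]
  have h2 : ((Pc K).card : ℝ) ≤ (K * K : ℕ) := by exact_mod_cast h
  rw [Nat.cast_mul] at h2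
  rw [pow_two]
  exact h2

open Classical in
/-- the indicator -/
def ind (δ : ℝ) (t p : ℕ × ℕ) : ℝ :=
  if |2 * Real.log t.1 - 2 * Real.log t.2 + Real.log p.1 - Real.log p.2| ≤ δ then 1 else 0

theorem ind_nonneg (δ : ℝ) (t p : ℕ × ℕ) : 0 ≤ ind δ t p := by
  unfold ind
  split_ifs <;> norm_num

/-- for given `t` -/
theorem sum_ind_p (δ : ℝ) (hδ : 0 ≤ δ) (t : ℕ × ℕ) (D : ℕ) :
    ∑ p ∈ Pc D, ind δ t p ≤ 1 + 2 * δ * (D : ℝ) ^ 2 := by
  have h := cnt (2 * Real.log t.1 - 2 * Real.log t.2) δ hδ D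
  refine le_trans (le_of_eq ?_) h
  unfold ind
  rw [card_filter]
  push_cast
  rfl

/-- for given `p` -/
theorem sum_ind_t (δ : ℝ) (hδ : 0 ≤ δ) (p : ℕ × ℕ) (Q : ℕ) :
    ∑ t ∈ Pc Q, ind δ t p ≤ 1 + 2 * δ * (Q : ℝ) ^ 2 := by
  have h := cnt ((Real.log p.1 - Real.log p.2) / 2) δ hδ Q
  refine le_trans ?_ h
  rw [card_filter]
  push_cast
  apply sum_le_sum
  intro t _
  unfold ind
  split_ifs with h1 h2
  · exact le_rfl
  · exfalso
    apply h2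
    rw [abs_le] at h1 ⊢
    constructor <;> linarith [h1.1, h1.2]
  · norm_num
  · exact le_rfl

theorem P_le (δ : ℝ) (hδ : 0 ≤ δ) (Q D : ℕ) :
    ∑ t ∈ Pc Q, ∑ p ∈ Pc D, ind δ t p ≤ (Q : ℝ) * D + 2 * δ * ((Q : ℝ) ^ 2 * (D : ℝ) ^ 2) := by
  have h1 : ∑ t ∈ Pc Q, ∑ p ∈ Pc D, ind δ t p ≤ (Q : ℝ) ^ 2 * (1 + 2 * δ * (D : ℝ) ^ 2) := by
    calc ∑ t ∈ Pc Q, ∑ p ∈ Pc D, ind δ t p ≤ ∑ _t ∈ Pc Q, (1 + 2 * δ * (D : ℝ) ^ 2) :=
          sum_le_sum fun t _ => sum_ind_p δ hδ t D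
      _ = ((Pc Q).card : ℝ) * (1 + 2 * δ * (D : ℝ) ^ 2) := by rw [sum_const, nsmul_eq_mul]
      _ ≤ _ := by
          have := card_Pc Q
          have h0 : 0 ≤ 1 + 2 * δ * (D : ℝ) ^ 2 := by positivity
          exact mul_le_mul_of_nonneg_right this h0
  have h2 : ∑ t ∈ Pc Q, ∑ p ∈ Pc D, ind δ t p ≤ (D : ℝ) ^ 2 * (1 + 2 * δ * (Q : ℝ) ^ 2) := by
    rw [sum_comm]
    calc ∑ p ∈ Pc D, ∑ t ∈ Pc Q, ind δ t p ≤ ∑ _p ∈ Pc D, (1 + 2 * δ * (Q : ℝ) ^ 2) :=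
          sum_le_sum fun p _ => sum_ind_t δ hδ p Q
      _ = ((Pc D).card : ℝ) * (1 + 2 * δ * (Q : ℝ) ^ 2) := by rw [sum_const, nsmul_eq_mul]
      _ ≤ _ := by
          have := card_Pc D
          have h0 : 0 ≤ 1 + 2 * δ * (Q : ℝ) ^ 2 := by positivity
          exact mul_le_mul_of_nonneg_right this h0
  have hQ : (0 : ℝ) ≤ Q := Nat.cast_nonneg _
  have hD : (0 : ℝ) ≤ D := Nat.cast_nonneg _
  rcases le_total (Q : ℝ) D with h | h
  · refine h1.trans ?_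
    have : (Q : ℝ) ^ 2 ≤ Q * D := by nlinarith
    calc (Q : ℝ) ^ 2 * (1 + 2 * δ * (D : ℝ) ^ 2) = (Q : ℝ) ^ 2 + 2 * δ * ((Q : ℝ) ^ 2 * (D : ℝ) ^ 2) := by ring
      _ ≤ _ := by linarith
  · refine h2.trans ?_
    have : (D : ℝ) ^ 2 ≤ Q * D := by nlinarith
    calc (D : ℝ) ^ 2 * (1 + 2 * δ * (Q : ℝ) ^ 2) = (D : ℝ) ^ 2 + 2 * δ * ((Q : ℝ) ^ 2 * (D : ℝ) ^ 2) := by ring
      _ ≤ _ := by linarith

/-- dyadic decomposition -/
theorem dy (f : ℕ × ℕ → ℝ) (hf : ∀ p, 0 ≤ f p) (N : ℕ) :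
    ∑ p ∈ Pc N, f p / ((max p.1 p.2 : ℕ) : ℝ) ≤
      ∑ j ∈ range (Nat.clog 2 N + 1), 2 / (2 : ℝ) ^ j * ∑ p ∈ Pc (2 ^ j), f p := by
  classical
  have hmap : ∀ p ∈ Pc N, Nat.clog 2 (max p.1 p.2) ∈ range (Nat.clog 2 N + 1) := by
    intro p hp
    rw [mem_Pc] at hp
    obtain ⟨a1, a2, a3, a4, a5⟩ := hp
    rw [mem_range, Nat.lt_add_one_iff]
    exact Nat.clog_mono_right 2 (max_le a2 a4)
  rw [← sum_fiberwise_of_maps_to hmap]
  apply sum_le_sum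
  intro j _
  rw [mul_sum]
  have hterm : ∀ p ∈ (Pc N).filter (fun p => Nat.clog 2 (max p.1 p.2) = j),
      f p / ((max p.1 p.2 : ℕ) : ℝ) ≤ 2 / (2 : ℝ) ^ j * f p := by
    intro p hp
    rw [mem_filter, mem_Pc] at hp
    obtain ⟨⟨a1, a2, a3, a4, a5⟩, hj⟩ := hp
    have hm : 1 ≤ max p.1 p.2 := a1.trans (le_max_left _ _)
    have h2 := two_pow_clog_lt _ hm
    rw [hj] at h2
    have h3 : (2 : ℝ) ^ j ≤ 2 * ((max p.1 p.2 : ℕ) : ℝ) := by
      exact_mod_cast h2.le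
    have hm' : (0 : ℝ) < ((max p.1 p.2 : ℕ) : ℝ) := by
      exact_mod_cast hm
    have h4 : 1 / ((max p.1 p.2 : ℕ) : ℝ) ≤ 2 / (2 : ℝ) ^ j := by
      rw [div_le_div_iff₀ hm' (by positivity)]
      linarith
    calc f p / ((max p.1 p.2 : ℕ) : ℝ)
        = 1 / ((max p.1 p.2 : ℕ) : ℝ) * f p := by ring
      _ ≤ _ := mul_le_mul_of_nonneg_right h4 (hf p)
  refine (sum_le_sum hterm).trans ?_
  apply sum_le_sum_of_subset_of_nonneg
  · intro p hp
    rw [mem_filter, mem_Pc] at hp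
    obtain ⟨⟨a1, a2, a3, a4, a5⟩, hj⟩ := hp
    rw [mem_Pc]
    have h2 := Nat.le_pow_clog (b := 2) (by norm_num) (max p.1 p.2)
    rw [hj] at h2
    exact ⟨a1, (le_max_left _ _).trans h2, a3, (le_max_right _ _).trans h2, a5⟩
  · intro p _ _
    exact mul_nonneg (by positivity) (hf p)

/-- the double weighted sum -/
theorem W_le (δ : ℝ) (hδ : 0 ≤ δ) (K N : ℕ) (hK : 1 ≤ K) (hN : 1 ≤ N) :
    ∑ p ∈ Pc N, (∑ t ∈ Pc K, ind δ t p / ((max t.1 t.2 : ℕ) : ℝ)) / ((max p.1 p.2 : ℕ) : ℝ) ≤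
      4 * (((Nat.clog 2 N : ℕ) : ℝ) + 1) * (((Nat.clog 2 K : ℕ) : ℝ) + 1) + 128 * δ * (K * N) := by
  have h1 := dy (fun p => ∑ t ∈ Pc K, ind δ t p / ((max t.1 t.2 : ℕ) : ℝ))
    (fun p => sum_nonneg fun t _ => div_nonneg (ind_nonneg _ _ _) (Nat.cast_nonneg _)) N
  refine h1.trans ?_
  have h2 : ∀ j ∈ range (Nat.clog 2 N + 1),
      2 / (2 : ℝ) ^ j * ∑ p ∈ Pc (2 ^ j), ∑ t ∈ Pc K, ind δ t p / ((max t.1 t.2 : ℕ) : ℝ) ≤
        4 * (((Nat.clog 2 K : ℕ) : ℝ) + 1) + 32 * δ * K * 2 ^ j := by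
    intro j _
    have e : ∑ p ∈ Pc (2 ^ j), ∑ t ∈ Pc K, ind δ t p / ((max t.1 t.2 : ℕ) : ℝ) =
        ∑ t ∈ Pc K, (∑ p ∈ Pc (2 ^ j), ind δ t p) / ((max t.1 t.2 : ℕ) : ℝ) := by
      rw [sum_comm]
      apply sum_congr rfl
      intro t _
      rw [sum_div]
    rw [e]
    have h3 := dy (fun t => ∑ p ∈ Pc (2 ^ j), ind δ t p)
      (fun t => sum_nonneg fun p _ => ind_nonneg _ _ _) K
    have h4 : ∀ i ∈ range (Nat.clog 2 K + 1),
        2 / (2 : ℝ) ^ i * ∑ t ∈ Pc (2 ^ i), ∑ p ∈ Pc (2 ^ j), ind δ t p ≤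
          2 * 2 ^ j + 4 * δ * (2 ^ j) ^ 2 * 2 ^ i := by
      intro i _
      have h5 := P_le δ hδ (2 ^ i) (2 ^ j)
      push_cast at h5
      calc 2 / (2 : ℝ) ^ i * ∑ t ∈ Pc (2 ^ i), ∑ p ∈ Pc (2 ^ j), ind δ t p
          ≤ 2 / (2 : ℝ) ^ i * ((2 : ℝ) ^ i * 2 ^ j + 2 * δ * (((2 : ℝ) ^ i) ^ 2 * ((2 : ℝ) ^ j) ^ 2)) :=
            mul_le_mul_of_nonneg_left h5 (by positivity)
        _ = 2 * 2 ^ j + 4 * δ * (2 ^ j) ^ 2 * 2 ^ i := by field_simp; ring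
    have h6 : ∑ t ∈ Pc K, (∑ p ∈ Pc (2 ^ j), ind δ t p) / ((max t.1 t.2 : ℕ) : ℝ) ≤
        2 * 2 ^ j * (((Nat.clog 2 K : ℕ) : ℝ) + 1) + 16 * δ * (2 ^ j) ^ 2 * K := by
      refine h3.trans ((sum_le_sum h4).trans ?_)
      rw [sum_add_distrib, sum_const, card_range, nsmul_eq_mul, ← mul_sum]
      push_cast
      have h7 := sum_two_pow (Nat.clog 2 K)
      have h8 : (2 : ℝ) ^ Nat.clog 2 K ≤ 2 * K := by exact_mod_cast (two_pow_clog_lt K hK).le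
      have h9 : 4 * δ * ((2 : ℝ) ^ j) ^ 2 * ∑ i ∈ range (Nat.clog 2 K + 1), (2 : ℝ) ^ i ≤
          4 * δ * ((2 : ℝ) ^ j) ^ 2 * (4 * K) := by
        apply mul_le_mul_of_nonneg_left _ (by positivity)
        linarith
      linarith
    calc 2 / (2 : ℝ) ^ j * ∑ t ∈ Pc K, (∑ p ∈ Pc (2 ^ j), ind δ t p) / ((max t.1 t.2 : ℕ) : ℝ)
        ≤ 2 / (2 : ℝ) ^ j * (2 * 2 ^ j * (((Nat.clog 2 K : ℕ) : ℝ) + 1) + 16 * δ * (2 ^ j) ^ 2 * K) :=
          mul_le_mul_of_nonneg_left h6 (by positivity)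
      _ = 4 * (((Nat.clog 2 K : ℕ) : ℝ) + 1) + 32 * δ * K * 2 ^ j := by field_simp; ring
  refine (sum_le_sum h2).trans ?_
  rw [sum_add_distrib, sum_const, card_range, nsmul_eq_mul, ← mul_sum]
  push_cast
  have h7 := sum_two_pow (Nat.clog 2 N)
  have h8 : (2 : ℝ) ^ Nat.clog 2 N ≤ 2 * N := by exact_mod_cast (two_pow_clog_lt N hN).le
  have h9 : 32 * δ * K * ∑ i ∈ range (Nat.clog 2 N + 1), (2 : ℝ) ^ i ≤ 32 * δ * K * (4 * N) := by
    apply mul_le_mul_of_nonneg_left _ (by positivity)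
    linarith
  linarith

/-- the count of pairs of `S` -/
theorem qc_le (S : Finset ℝ) (δ : ℝ) (K : ℕ)
    (hS : ∀ u ∈ S, ∃ m : ℕ, 1 ≤ m ∧ m ≤ K ∧ u = 2 * Real.log ((m : ℝ) / 2)) (p : ℕ × ℕ) :
    (qc S δ p.1 p.2 : ℝ) ≤ K * ∑ t ∈ Pc K, ind δ t p / ((max t.1 t.2 : ℕ) : ℝ) := by
  classical
  choose! f hf using hS
  have h1 : qc S δ p.1 p.2 ≤ ((Icc 1 K ×ˢ Icc 1 K).filter (fun t : ℕ × ℕ =>
      |2 * Real.log t.1 - 2 * Real.log t.2 + Real.log p.1 - Real.log p.2| ≤ δ)).card := by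
    unfold qc
    apply card_le_card_of_injOn (fun w : ℝ × ℝ => ((f w.1, f w.2) : ℕ × ℕ))
    · intro w hw
      have hw' := mem_filter.mp (mem_coe.mp hw)
      rw [mem_product] at hw'
      obtain ⟨⟨w1, w2⟩, w3⟩ := hw'
      obtain ⟨a1, a2, a3⟩ := hf w.1 w1
      obtain ⟨b1, b2, b3⟩ := hf w.2 w2
      rw [mem_coe, mem_filter, mem_product, mem_Icc, mem_Icc]
      refine ⟨⟨⟨a1, a2⟩, b1, b2⟩, ?_⟩
      have ea : w.1 = 2 * Real.log (f w.1) - 2 * Real.log 2 := by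
        have : (f w.1 : ℝ) ≠ 0 := by positivity
        nth_rewrite 1 [a3]
        rw [Real.log_div this (by norm_num)]
        ring
      have eb : w.2 = 2 * Real.log (f w.2) - 2 * Real.log 2 := by
        have : (f w.2 : ℝ) ≠ 0 := by positivity
        nth_rewrite 1 [b3]
        rw [Real.log_div this (by norm_num)]
        ring
      have e : 2 * Real.log (f w.1) - 2 * Real.log (f w.2) + Real.log p.1 - Real.log p.2 =
          w.1 - w.2 + Real.log p.1 - Real.log p.2 := by linarith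
      show |2 * Real.log (f w.1) - 2 * Real.log (f w.2) + Real.log p.1 - Real.log p.2| ≤ δ
      rw [e]
      exact w3
    · intro w hw w' hw' h
      have hw1 := (mem_product.mp (mem_filter.mp (mem_coe.mp hw)).1)
      have hw2 := (mem_product.mp (mem_filter.mp (mem_coe.mp hw')).1)
      simp only [Prod.mk.injEq] at h
      have e1 : w.1 = w'.1 := by
        rw [(hf w.1 hw1.1).2.2, (hf w'.1 hw2.1).2.2, h.1]
      have e2 : w.2 = w'.2 := by
        rw [(hf w.2 hw1.2).2.2, (hf w'.2 hw2.2).2.2, h.2]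
      exact Prod.ext e1 e2
  have h2 : (qc S δ p.1 p.2 : ℝ) ≤ ∑ t ∈ Icc 1 K ×ˢ Icc 1 K, ind δ (t.1, t.2) p := by
    have h3 : (qc S δ p.1 p.2 : ℝ) ≤ (((Icc 1 K ×ˢ Icc 1 K).filter (fun t : ℕ × ℕ =>
      |2 * Real.log t.1 - 2 * Real.log t.2 + Real.log p.1 - Real.log p.2| ≤ δ)).card : ℝ) := by
      exact_mod_cast h1
    refine h3.trans (le_of_eq ?_)
    rw [card_filter]
    push_cast
    unfold ind
    apply sum_congr rfl
    intro t _
    split_ifs <;> rfl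
  have h4 := gcd_sum (fun a b => ind δ (a, b) p) ?_ K
  · rw [h4] at h2
    refine h2.trans ?_
    rw [mul_sum]
    apply sum_le_sum
    intro t _
    have h5 : ((K / max t.1 t.2 : ℕ) : ℝ) ≤ (K : ℝ) / ((max t.1 t.2 : ℕ) : ℝ) := Nat.cast_div_le
    calc ind δ (t.1, t.2) p * ((K / max t.1 t.2 : ℕ) : ℝ)
        ≤ ind δ (t.1, t.2) p * ((K : ℝ) / ((max t.1 t.2 : ℕ) : ℝ)) :=
          mul_le_mul_of_nonneg_left h5 (ind_nonneg _ _ _)
      _ = K * (ind δ t p / ((max t.1 t.2 : ℕ) : ℝ)) := by ring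
  · intro g a b hg ha hb
    have hg' : (g : ℝ) ≠ 0 := by positivity
    have ha' : (a : ℝ) ≠ 0 := by positivity
    have hb' : (b : ℝ) ≠ 0 := by positivity
    simp only [ind]
    rw [Nat.cast_mul, Nat.cast_mul, Real.log_mul hg' ha', Real.log_mul hg' hb']
    have : 2 * (Real.log g + Real.log a) - 2 * (Real.log g + Real.log b) + Real.log p.1 - Real.log p.2 =
        2 * Real.log a - 2 * Real.log b + Real.log p.1 - Real.log p.2 := by ring
    rw [this]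

theorem clog_le1 (m : ℕ) (hm : 1 ≤ m) : ((Nat.clog 2 m : ℕ) : ℝ) * Real.log 2 ≤ Real.log 2 + Real.log m := by
  have h1 : (2 : ℝ) ^ Nat.clog 2 m ≤ 2 * m := by exact_mod_cast (two_pow_clog_lt m hm).le
  have h2 : Real.log ((2 : ℝ) ^ Nat.clog 2 m) ≤ Real.log (2 * m) := Real.log_le_log (by positivity) h1
  rw [Real.log_pow, Real.log_mul (by norm_num) (by positivity)] at h2
  exact h2

end Eqq

open Eqq in
theorem iEq : StEq := by
  refine ⟨2048, by norm_num, ?_⟩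
  intro T δ N S hT hδ hN hS
  have hT0 : 0 < T := by linarith
  have hl2 : 0 < Real.log 2 := Real.log_pos (by norm_num)
  have hl2' : 0.6931471803 < Real.log 2 := Real.log_two_gt_d9
  have hlT : Real.log 2 ≤ Real.log T := Real.log_le_log (by norm_num) hT
  rcases Nat.eq_zero_or_pos N with h0 | hN1
  · subst h0
    have : Ec S δ 0 = 0 := by
      unfold Ec
      simp
    rw [this]
    simp
  set K : ℕ := ⌊4 * T⌋₊ with hK
  have hK4 : (K : ℝ) ≤ 4 * T := Nat.floor_le (by linarith)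
  have hK1 : 1 ≤ K := by
    rw [hK]
    apply Nat.le_floor
    norm_num
    linarith
  have hS' : ∀ u ∈ S, ∃ m : ℕ, 1 ≤ m ∧ m ≤ K ∧ u = 2 * Real.log ((m : ℝ) / 2) := by
    intro u hu
    obtain ⟨m, h1, h2, h3⟩ := hS u hu
    exact ⟨m, h1, Nat.le_floor h2, h3⟩
  have hK0 : (0 : ℝ) < K := by positivity
  have hN0 : (0 : ℝ) < N := by positivity
  have hZ : Zc S δ N ≤ K * (4 * (((Nat.clog 2 N : ℕ) : ℝ) + 1) * (((Nat.clog 2 K : ℕ) : ℝ) + 1) +
      128 * δ * (K * N)) := by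
    have hW := W_le δ hδ.le K N hK1 hN1
    calc Zc S δ N ≤ ∑ p ∈ Pc N, (K * ∑ t ∈ Pc K, ind δ t p / ((max t.1 t.2 : ℕ) : ℝ)) /
          ((max p.1 p.2 : ℕ) : ℝ) := by
          unfold Zc
          apply sum_le_sum
          intro p _
          exact div_le_div_of_nonneg_right (qc_le S δ K hS' p) (Nat.cast_nonneg _)
      _ = K * ∑ p ∈ Pc N, (∑ t ∈ Pc K, ind δ t p / ((max t.1 t.2 : ℕ) : ℝ)) /
          ((max p.1 p.2 : ℕ) : ℝ) := by
          rw [mul_sum]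
          apply sum_congr rfl
          intro p _
          rw [mul_div_assoc]
      _ ≤ _ := mul_le_mul_of_nonneg_left hW hK0.le
  have hE := Ec_le S δ N
  have hcN : ((Nat.clog 2 N : ℕ) : ℝ) + 1 ≤ 8 * Real.log T := by
    have h1 := clog_le1 N hN1
    have h2 : Real.log N ≤ 3 * Real.log T := by
      have := Real.log_le_log hN0 hN
      rw [Real.log_pow] at this
      push_cast at this
      exact this
    have h3 : (((Nat.clog 2 N : ℕ) : ℝ) + 1) * Real.log 2 ≤ 8 * Real.log T * Real.log 2 := by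
      nlinarith
    exact le_of_mul_le_mul_right h3 hl2
  have hcK : ((Nat.clog 2 K : ℕ) : ℝ) + 1 ≤ 8 * Real.log T := by
    have h1 := clog_le1 K hK1
    have h2 : Real.log K ≤ 2 * Real.log 2 + Real.log T := by
      have := Real.log_le_log hK0 hK4
      rw [Real.log_mul (by norm_num) hT0.ne', show (4 : ℝ) = 2 ^ 2 by norm_num, Real.log_pow] at this
      push_cast at this
      exact this
    have h3 : (((Nat.clog 2 K : ℕ) : ℝ) + 1) * Real.log 2 ≤ 8 * Real.log T * Real.log 2 := by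
      nlinarith
    exact le_of_mul_le_mul_right h3 hl2
  have hprod : 4 * (((Nat.clog 2 N : ℕ) : ℝ) + 1) * (((Nat.clog 2 K : ℕ) : ℝ) + 1) ≤
      256 * Real.log T ^ 2 := by
    have : (((Nat.clog 2 N : ℕ) : ℝ) + 1) * (((Nat.clog 2 K : ℕ) : ℝ) + 1) ≤
        (8 * Real.log T) * (8 * Real.log T) :=
      mul_le_mul hcN hcK (by positivity) (by linarith)
    nlinarith
  have h5 : Zc S δ N ≤ 4 * T * (256 * Real.log T ^ 2 + 128 * δ * (4 * T * N)) := by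
    refine hZ.trans ?_
    apply mul_le_mul hK4 _ (by positivity) (by positivity)
    have : 128 * δ * (K * N) ≤ 128 * δ * (4 * T * N) := by gcongr
    linarith
  calc (Ec S δ N : ℝ) ≤ N * Zc S δ N := hE
    _ ≤ N * (4 * T * (256 * Real.log T ^ 2 + 128 * δ * (4 * T * N))) := by gcongr
    _ = 1024 * (Real.log T ^ 2 * (T * N)) + 2048 * (δ * (T ^ 2 * (N : ℝ) ^ 2)) := by ring
    _ ≤ 2048 * (Real.log T ^ 2 * (T * N) + δ * (T ^ 2 * (N : ℝ) ^ 2)) := by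
        have : 0 ≤ Real.log T ^ 2 * (T * N) := by positivity
        linarith

end Pool.Agent.Work.MP_a8fbd7_nt.OX.SQ
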