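import Mathlib
import Pool.Agent.Work.MP_a8fbd7_nt.OX.SQ.Stmts

/-!
MP_a8fbd7_nt, block OX, part SQ: item LA (logic of cell theorem A).  Author helper62.
-/

set_option autoImplicit false

open MeasureTheory Set Filter Topology

noncomputable section

namespace Pool.Agent.Work.MP_a8fbd7_nt.OX.SQ

open Pool.Agent.Work.MP_a8fbd7_nt.OX
open Pool.Agent.Work.MP_a8fbd7_nt.OX.CELL (LVp GMh JTh)

namespace LAq

/-- the large value inequalities are monotone in the tolerance and in `Q` -/
theorem LVp_mono {h l g tau s s' : ℝ} {Q Q' : ℕ} (H : LVp h l g tau s Q) (hs : s ≤ s') (hQ : Q' ≤ Q) :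
    LVp h l g tau s' Q' where
  mv := by have := H.mv; linarith
  hx := by have := H.hx; linarith
  gm := by
    intro q t h1 h2 h3 h4
    have := H.gm q t h1 (h2.trans hQ) h3 (by linarith)
    linarith
  jj := by
    intro t h1 h2 h3
    have := H.jj t h1 h2 (by linarith)
    linarith

theorem CD_mono {h r b w tau W s s' : ℝ} {Q Q' : ℕ} (H : CD h r b w tau W s Q) (hs : s ≤ s') (hQ : Q' ≤ Q) :
    CD h r b w tau W s' Q' where
  t0 := H.t0
  t1 := by have := H.t1; linarith
  Wt := by have := H.Wt; linarith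
  triv := by have := H.triv; linarith
  lv := fun k h1 h2 => LVp_mono (H.lv k h1 h2) hs hQ
  co := by
    intro j hj
    have := H.co j hj
    linarith

/-- minimal relative gain -/
theorem exists_min {m : ℕ} (hm : 0 < m) (b w : Fin m → ℝ) (hb : ∀ i, 0 < b i) :
    ∃ i, ∀ j, w i / b i * b j ≤ w j := by
  have : Nonempty (Fin m) := ⟨⟨0, hm⟩⟩
  obtain ⟨i, hi⟩ := Finite.exists_min (fun i => w i / b i)
  refine ⟨i, fun j => ?_⟩
  have h1 := hi j
  have h2 := hb j
  calc w i / b i * b j ≤ w j / b j * b j := mul_le_mul_of_nonneg_right h1 h2.le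
    _ = w j := by field_simp

/-- a multiple of `b` in `[33/50, 99/100]` -/
theorem exists_mult {b : ℝ} (hb : 0 < b) (hb' : b ≤ 99 / 200) :
    ∃ k : ℕ, 1 ≤ k ∧ 33 / 50 ≤ k * b ∧ k * b ≤ 99 / 100 := by
  by_cases h : 33 / 100 ≤ b
  · exact ⟨2, by norm_num, by push_cast; linarith, by push_cast; linarith⟩
  push Not at h
  refine ⟨⌈33 / (50 * b)⌉₊, ?_, ?_, ?_⟩
  · exact Nat.one_le_iff_ne_zero.mpr (Nat.ceil_pos.mpr (by positivity)).ne'
  · have h1 := Nat.le_ceil (33 / (50 * b))
    have h2 := mul_le_mul_of_nonneg_right h1 hb.le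
    have h3 : 33 / (50 * b) * b = 33 / 50 := by field_simp
    linarith
  · have h1 := (Nat.ceil_lt_add_one (show (0:ℝ) ≤ 33 / (50 * b) by positivity)).le
    have h2 := mul_le_mul_of_nonneg_right h1 hb.le
    have h3 : 33 / (50 * b) * b = 33 / 50 := by field_simp
    nlinarith

/-- the bound of Huxley type with a multiple of `b` between `33/50` and `99/100` -/
theorem tau_small {h r b v w tau W s : ℝ} {Q : ℕ} (hh : h ≤ 127 / 100) (hb : 0 < b) (hb' : b ≤ 99 / 200) (hwv : w = v * b)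
    (hv0 : 0 ≤ v) (hv : v < 1 / 1000) (hs : s ≤ 1 / 100000) (H : CD h r b w tau W s Q) : tau ≤ 198 / 100 * v + s := by
  obtain ⟨k, hk1, hk2, hk3⟩ := exists_mult hb hb'
  have hx := (H.lv k hk1 (by linarith)).hx
  have ht := H.t0
  rw [hwv] at hx
  have e0 : (k : ℝ) * (v * b) = k * b * v := by ring
  have e1 : (k : ℝ) * (v * b) ≤ 99 / 100 * v := by
    rw [e0]; exact mul_le_mul_of_nonneg_right hk3 hv0
  have e2 : h + 6 * ((k : ℝ) * (v * b)) - 2 * (k * b) ≤ -1 / 100 := by linarith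
  rcases max_cases (2 * ((k : ℝ) * (v * b))) (h + 6 * ((k : ℝ) * (v * b)) - 2 * (k * b)) with ⟨h1, _⟩ | ⟨h1, _⟩
  · rw [h1] at hx
    linarith
  · rw [h1] at hx
    linarith

/-- the bound of Huxley type for the square of a block -/
theorem tau_two {h r b v w tau W s : ℝ} {Q : ℕ} (hh : h ≤ 127 / 100) (hb : 99 / 200 ≤ b) (hb' : b ≤ 61 / 100) (hwv : w = v * b)
    (hv : v ≤ 7 / 100) (hs : s ≤ 1 / 100000) (H : CD h r b w tau W s Q) : tau ≤ 4 * (v * b) + s := by
  have hx := (H.lv 2 (by norm_num) (by push_cast; linarith)).hx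
  have ht := H.t0
  rw [hwv] at hx
  push_cast at hx
  have e1 : v * b ≤ 7 / 100 * b := mul_le_mul_of_nonneg_right hv (by linarith)
  have e2 : h + 6 * (2 * (v * b)) - 2 * (2 * b) ≤ -1 / 100 := by linarith
  rcases max_cases (2 * (2 * (v * b))) (h + 6 * (2 * (v * b)) - 2 * (2 * b)) with ⟨h1, _⟩ | ⟨h1, _⟩
  · rw [h1] at hx
    linarith
  · rw [h1] at hx
    linarith

end LAq

open LAq

theorem iLA (h r : ℝ) (hA : Adm h r) : StLA h r := by
  obtain ⟨hh1, hh2, hr1, hr2, hTA, hTB, hTJ, hTR⟩ := hA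
  obtain ⟨sA, hsA, QA, hA⟩ := hTA (1 / 1000) (by norm_num)
  obtain ⟨sB, hsB, QB, hB⟩ := hTB
  obtain ⟨sJ, hsJ, QJ, hJ⟩ := hTJ
  obtain ⟨sR, hsR, QR, hR⟩ := hTR
  refine ⟨min (min (sA / 2) (sB / 2)) (min (min (sJ / 2) (sR / 2)) (1 / 100000)),
    lt_min (lt_min (by linarith) (by linarith)) (lt_min (lt_min (by linarith) (by linarith)) (by norm_num)),
    max (max QA QB) (max QJ QR), ?_⟩
  intro m J b w tau W s hs hs0 hb hbJ hbI hν hJν hW hC htJ
  have hs1 : s ≤ sA / 2 := le_trans hs0 ((min_le_left _ _).trans (min_le_left _ _))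
  have hs2 : s ≤ sB / 2 := le_trans hs0 ((min_le_left _ _).trans (min_le_right _ _))
  have hs3 : s ≤ sJ / 2 := le_trans hs0 ((min_le_right _ _).trans ((min_le_left _ _).trans (min_le_left _ _)))
  have hs4 : s ≤ sR / 2 := le_trans hs0 ((min_le_right _ _).trans ((min_le_left _ _).trans (min_le_right _ _)))
  have hs5 : s ≤ 1 / 100000 := le_trans hs0 ((min_le_right _ _).trans (min_le_right _ _))
  have hQ1 : QA ≤ max (max QA QB) (max QJ QR) := (le_max_left _ _).trans (le_max_left _ _)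
  have hQ2 : QB ≤ max (max QA QB) (max QJ QR) := (le_max_right _ _).trans (le_max_left _ _)
  have hQ3 : QJ ≤ max (max QA QB) (max QJ QR) := (le_max_left _ _).trans (le_max_right _ _)
  have hQ4 : QR ≤ max (max QA QB) (max QJ QR) := (le_max_right _ _).trans (le_max_right _ _)
  have ht0 := hC.t0
  have ht1 := hC.t1
  have hWt := hC.Wt
  have htr := hC.triv
  have hW1 : W ≤ 83 / 100 := by linarith
  rcases Nat.eq_zero_or_pos m with hm | hm
  · subst hm
    simp at hW
    linarith
  obtain ⟨i, hi⟩ := exists_min hm b w hb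
  have hbi := hb i
  set v := w i / b i with hv
  have hwv : w i = v * b i := by rw [hv]; field_simp
  have hv0 : 0 ≤ v := div_nonneg (hC.w0 i) hbi.le
  have hsum : v * ∑ j, b j ≤ ∑ j, w j := by
    rw [Finset.mul_sum]
    exact Finset.sum_le_sum (fun j _ => hi j)
  have hν0 : 0 ≤ ∑ j, b j := Finset.sum_nonneg (fun j _ => (hb j).le)
  have hv1 : v < 1 / 2 := by
    by_contra hcon
    push Not at hcon
    have := mul_le_mul_of_nonneg_right hcon hν0
    linarith
  -- the general lower bound of the gain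
  have hWD : 2 * v + (1 / 2 - v) * (2 - ∑ j, b j) - s ≤ W := by
    have : (1 / 2 - v) * (2 - ∑ j, b j) = 1 - (∑ j, b j) / 2 - 2 * v + v * ∑ j, b j := by ring
    linarith
  have hsv : -s * (1 / 2 - v) ≤ (2 - ∑ l, b l) * (1 / 2 - v) :=
    mul_le_mul_of_nonneg_right (by linarith) (by linarith)
  have hsv' : s * v ≤ s * (1 / 2) := mul_le_mul_of_nonneg_left hv1.le hs.le
  have hsv0 : 0 ≤ s * v := mul_nonneg hs.le hv0
  have hW2 : 2 * v - 2 * s ≤ W := by
    have e : (2 - ∑ l, b l) * (1 / 2 - v) = (1 / 2 - v) * (2 - ∑ j, b j) := mul_comm _ _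
    linarith
  -- the extra gain
  have hg : 2 * v + (1 / 2 - v) / 20 - 3 * s ≤ W ∨ 2 * v + (1 / 4 - v / 2 - 127 / 600) - 3 * s ≤ W := by
    by_cases hD : ∑ j, b j ≤ 2 - 1 / 20
    · left
      have e : (1 / 2 - v) * (1 / 20) ≤ (1 / 2 - v) * (2 - ∑ j, b j) :=
        mul_le_mul_of_nonneg_left (by linarith) (by linarith)
      linarith
    · right
      have hne : J.Nonempty := by
        rcases hJν with h1 | h1
        · exact h1
        · exact absurd h1 hD
      obtain ⟨j, hj⟩ := hne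
      have h1 := htJ j hj
      have h2 := hbJ j hj
      have h3 : v * (∑ l, b l - b j) + w j ≤ ∑ l, w l := by
        have e1 : ∑ l, b l = b j + ∑ l ∈ Finset.univ.erase j, b l :=
          (Finset.add_sum_erase _ _ (Finset.mem_univ j)).symm
        have e2 : ∑ l, w l = w j + ∑ l ∈ Finset.univ.erase j, w l :=
          (Finset.add_sum_erase _ _ (Finset.mem_univ j)).symm
        have e3 : v * ∑ l ∈ Finset.univ.erase j, b l ≤ ∑ l ∈ Finset.univ.erase j, w l := by
          rw [Finset.mul_sum]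
          exact Finset.sum_le_sum (fun l _ => hi l)
        rw [e2, e1]
        linarith
      have h4 : b j / 2 - h / 6 - s / 12 ≤ w j := by linarith
      have h5 : (1 / 2 : ℝ) * (1 / 2 - v) ≤ b j * (1 / 2 - v) :=
        mul_le_mul_of_nonneg_right h2.1 (by linarith)
      have h7 : (2 - ∑ l, b l) * (1 / 2 - v) = 1 - (∑ l, b l) / 2 - 2 * v + v * ∑ l, b l := by ring
      have h8 : v * (∑ l, b l - b j) = v * ∑ l, b l - v * b j := by ring
      have h9 : b j * (1 / 2 - v) = b j / 2 - v * b j := by ring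
      linarith
  have hcd := hC.cd i
  have hwb : w i ≤ b i / 2 := by
    rw [hwv]
    have := mul_le_mul_of_nonneg_right hv1.le hbi.le
    linarith
  have hgain : ∀ sT : ℝ, 2 * s ≤ sT → 2 * w i ≤ (W + sT) * b i := by
    intro sT hsT
    rw [hwv]
    have h3 : 2 * v ≤ W + sT := by linarith
    have h4 := mul_le_mul_of_nonneg_right h3 hbi.le
    linarith
  by_cases hiJ : i ∈ J
  · -- case 1
    exact hJ (b i) (w i) tau W (hbJ i hiJ).1 (hbJ i hiJ).2 (hC.w0 i) hwb (hgain sJ (by linarith))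
      (by have := htJ i hiJ; linarith) (CD_mono hcd (by linarith) hQ3)
  by_cases hb1 : b i ≤ 99 / 200
  · -- case 2
    by_cases hvs : v < 1 / 1000
    · have h1 := tau_small hh2 hbi hb1 hwv hv0 hvs hs5 hcd
      rcases hg with h2 | h2 <;> linarith
    · push Not at hvs
      refine hA (b i) (w i) tau W hbi hb1 ?_ hwb (Or.inl (hgain sA (by linarith))) (CD_mono hcd (by linarith) hQ1)
      rw [hwv]
      exact mul_le_mul_of_nonneg_right hvs hbi.le
  push Not at hb1
  by_cases hb2 : b i ≤ 101 / 200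
  · -- case 3
    by_cases hvs : v < 7 / 100
    · have h1 := tau_two hh2 hb1.le (by linarith) hwv hvs.le hs5 hcd
      have h3 : v * b i ≤ v * (101 / 200) := mul_le_mul_of_nonneg_left hb2 hv0
      rcases hg with h2 | h2 <;> linarith
    · push Not at hvs
      refine hB (b i) (w i) tau W hb1.le hb2 ?_ hwb (hgain sB (by linarith)) (CD_mono hcd (by linarith) hQ2)
      rw [hwv]
      exact mul_le_mul_of_nonneg_right hvs hbi.le
  push Not at hb2
  -- case 4
  rcases hbI i hiJ with h1 | ⟨h1, h2⟩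
  · linarith
  have hD : h / 2 + 1 / 40 - b i ≤ 2 - ∑ j, b j := by linarith
  by_cases hvs : v < 1 / 50
  · have h3 := tau_two hh2 hb1.le (by linarith) hwv (by linarith) hs5 hcd
    have h4 : v * b i ≤ v * (61 / 100) := mul_le_mul_of_nonneg_left (by linarith) hv0
    have h5 : (1 / 2 - v) * (1 / 20) ≤ (1 / 2 - v) * (2 - ∑ j, b j) :=
      mul_le_mul_of_nonneg_left (by linarith) (by linarith)
    linarith
  · push Not at hvs
    refine hR (b i) (w i) tau W (by linarith) h1 ?_ hwb ?_ (CD_mono hcd (by linarith) hQ4)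
    · rw [hwv]
      have := mul_le_mul_of_nonneg_right hvs hbi.le
      linarith
    · rw [hwv]
      have h5 : (1 / 2 - v) * (h / 2 + 1 / 40 - b i) ≤ (1 / 2 - v) * (2 - ∑ j, b j) :=
        mul_le_mul_of_nonneg_left hD (by linarith)
      have h6 : 2 * v + (1 / 2 - v) * (h / 2 + 1 / 40 - b i) ≤ W + sR := by linarith
      have h7 := mul_le_mul_of_nonneg_right h6 hbi.le
      have h8 : (2 * v + (1 / 2 - v) * (h / 2 + 1 / 40 - b i)) * b i =
        2 * (v * b i) + (b i / 2 - v * b i) * (h / 2 + 1 / 40 - b i) := by ring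
      linarith

end Pool.Agent.Work.MP_a8fbd7_nt.OX.SQ
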