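import Pool.Agent.Work.MP_a8fbd7_nt.OX.SQ.Stmts
import Pool.Agent.Work.MP_a8fbd7_nt.OX.CELL.I_LB

/-!
MP_a8fbd7_nt, block OX, part SQ: item LB (logic of cell theorem B, far zone).
-/

set_option autoImplicit false

open MeasureTheory Set Filter Topology

noncomputable section

namespace Pool.Agent.Work.MP_a8fbd7_nt.OX.SQ

open Pool.Agent.Work.MP_a8fbd7_nt.OX
open Pool.Agent.Work.MP_a8fbd7_nt.OX.CELL (LVp GMh JTh)

namespace LBq

/-- monotone in the tolerance and in the number of parameters -/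
theorem lv_mono {h l g tau s s' : ℝ} {Q Q' : ℕ} (H : LVp h l g tau s Q') (hs : s ≤ s') (hQ : Q ≤ Q') :
    LVp h l g tau s' Q := by
  refine ⟨?_, ?_, ?_, ?_⟩
  · have := H.mv
    linarith
  · have := H.hx
    linarith
  · intro q t h1 h2 h3 h4
    have := H.gm q t h1 (h2.trans hQ) h3 (by linarith)
    linarith
  · intro t h1 h2 h3
    have := H.jj t h1 h2 (by linarith)
    linarith

/-- monotone in both -/
theorem cd_mono {h r b w tau W s s' : ℝ} {Q Q' : ℕ} (H : CD h r b w tau W s Q') (hs : s ≤ s') (hQ : Q ≤ Q') :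
    CD h r b w tau W s' Q := by
  refine ⟨H.t0, ?_, ?_, ?_, ?_, ?_⟩
  · have := H.t1
    linarith
  · have := H.Wt
    linarith
  · have := H.triv
    linarith
  · intro k h1 h2
    exact lv_mono (H.lv k h1 h2) hs hQ
  · intro j hj
    have := H.co j hj
    linarith

/-- the end of case 4 -/
theorem fin4 {h κ v s W tau β bi wi S B : ℝ} (hh : h ≤ 127 / 100) (hβ : 0 < β) (hκ : 0 < κ) (hκ1 : κ ≤ β / 80000)
    (hs : s ≤ β / 10000000) (hv0 : 1 / 120 ≤ v) (hv1 : v < 7 / 100) (hbi0 : 99 / 200 < bi) (hbi : bi ≤ 1 / 2 + κ)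
    (hwi : wi = v * bi) (hB : 2 - κ ≤ B) (hS : v * B + 1 / 4000 * v * β ≤ S) (hW : S - s ≤ W) (hWt : W ≤ tau + s)
    (hx : tau ≤ max (2 * (2 * wi)) (h + 6 * (2 * wi) - 2 * (2 * bi)) + s) : False := by
  have hv00 : 0 ≤ v := by linarith
  have h1 : v * bi ≤ v * (1 / 2 + κ) := mul_le_mul_of_nonneg_left hbi hv00
  have h2 : v * (2 - κ) ≤ v * B := mul_le_mul_of_nonneg_left hB hv00
  have h3 : v * bi ≤ 7 / 100 * bi := mul_le_mul_of_nonneg_right hv1.le (by linarith)
  have h4 : v * κ ≤ v * (β / 80000) := mul_le_mul_of_nonneg_left hκ1 hv00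
  have h5 : 1 / 120 * β ≤ v * β := mul_le_mul_of_nonneg_right hv0 hβ.le
  have h6 : 0 ≤ v * κ := mul_nonneg hv00 hκ.le
  have h7 : max (2 * (2 * wi)) (h + 6 * (2 * wi) - 2 * (2 * bi)) ≤ 2 * v + 4 * (v * κ) := by
    rw [hwi]
    refine max_le ?_ ?_
    · linarith
    · linarith
  have h8 : v * (2 - κ) = 2 * v - v * κ := by ring
  have h9 : v * (β / 80000) = v * β / 80000 := by ring
  have h10 : 1 / 4000 * v * β = v * β / 4000 := by ring
  linarith

end LBq

open Classical in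
theorem iLB (h r : ℝ) (hA : Adm h r) : StLB h r := by
  intro β hβ hβ'
  obtain ⟨sA, hsA, QA, hTA⟩ := hA.A (1 / 200) (by norm_num)
  obtain ⟨sB, hsB, QB, hTB⟩ := hA.B
  obtain ⟨κ, hκ⟩ : ∃ κ : ℝ, κ = min (min sA sB) (β / 80000) := ⟨_, rfl⟩
  have hκ0 : 0 < κ := by rw [hκ]; exact lt_min (lt_min hsA hsB) (by linarith)
  have hκA : κ ≤ sA := by rw [hκ]; exact (min_le_left _ _).trans (min_le_left _ _)
  have hκB : κ ≤ sB := by rw [hκ]; exact (min_le_left _ _).trans (min_le_right _ _)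
  have hκ1 : κ ≤ β / 80000 := by rw [hκ]; exact min_le_right _ _
  clear hκ
  refine ⟨κ, hκ0, by linarith, min (κ / 2) (β / 10000000), lt_min (by linarith) (by linarith), max QA QB, ?_⟩
  intro m b w tau W s hs hs0 hb hν hsm hwb hW hC
  have hs1 : s ≤ κ / 2 := hs0.trans (min_le_left _ _)
  have hs2 : s ≤ β / 10000000 := hs0.trans (min_le_right _ _)
  have ht1 := hC.t1
  have hWt := hC.Wt
  have htr := hC.triv
  have hh2 := hA.h2
  have hr1 := hA.r1
  have hW1 : W ≤ 83 / 100 := by linarith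
  rcases Nat.eq_zero_or_pos m with hm | hm
  · subst hm
    simp at hν
    linarith
  obtain ⟨i, hi⟩ := CELL.la_exists_min hm b w (fun i => (hb i).1)
  have hbi0 := (hb i).1
  have hbi1 := (hb i).2
  obtain ⟨v, hv⟩ : ∃ v : ℝ, v = w i / b i := ⟨_, rfl⟩
  rw [← hv] at hi
  have hwv : w i = v * b i := by
    rw [hv]; field_simp
  have hv0 : 1 / 120 ≤ v := by
    have h1 := hwb i
    rw [hv, le_div_iff₀ hbi0]
    linarith
  have hv00 : 0 ≤ v := by linarith
  have hsum : v * ∑ j, b j ≤ ∑ j, w j := by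
    rw [Finset.mul_sum]
    exact Finset.sum_le_sum (fun j _ => hi j)
  have hsum' : v * (2 - κ) ≤ v * ∑ j, b j := mul_le_mul_of_nonneg_left hν hv00
  have hW2 : (2 - κ) * v - s ≤ W := by linarith
  have hv1 : v ≤ 1 / 2 := by
    by_contra hcon
    push Not at hcon
    have : (2 - κ) * (1 / 2) ≤ (2 - κ) * v := mul_le_mul_of_nonneg_left hcon.le (by linarith)
    linarith
  have hκv : κ * v ≤ κ * (1 / 2) := mul_le_mul_of_nonneg_left hv1 hκ0.le
  have hW3 : 2 * v - κ ≤ W := by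
    have : (2 - κ) * v = 2 * v - κ * v := by ring
    linarith
  by_cases hbs : b i ≤ 99 / 200
  · refine hTA (b i) (w i) tau W hbi0 hbs ?_ ?_ (Or.inl ?_) (LBq.cd_mono (hC.cd i) (by linarith) (le_max_left _ _))
    · have := hwb i
      linarith
    · rw [hwv]
      have : v * b i ≤ 1 / 2 * b i := mul_le_mul_of_nonneg_right hv1 hbi0.le
      linarith
    · rw [hwv]
      have h3 : 2 * v * b i ≤ (W + sA) * b i := mul_le_mul_of_nonneg_right (by linarith) hbi0.le
      linarith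
  push Not at hbs
  by_cases hv7 : 7 / 100 ≤ v
  · refine hTB (b i) (w i) tau W hbs.le (by linarith) ?_ ?_ ?_ (LBq.cd_mono (hC.cd i) (by linarith) (le_max_right _ _))
    · rw [hwv]
      exact mul_le_mul_of_nonneg_right hv7 hbi0.le
    · rw [hwv]
      have : v * b i ≤ 1 / 2 * b i := mul_le_mul_of_nonneg_right hv1 hbi0.le
      linarith
    · rw [hwv]
      have h3 : 2 * v * b i ≤ (W + sB) * b i := mul_le_mul_of_nonneg_right (by linarith) hbi0.le
      linarith
  push Not at hv7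
  by_cases hex : ∃ l, b l ≤ 41 / 100 ∧ w l ≤ (1 + 1 / 4000) * v * b l
  · obtain ⟨l, hl1, hl2⟩ := hex
    have hbl := (hb l).1
    refine hTA (b l) (w l) tau W hbl (by linarith) ?_ ?_ (Or.inr ⟨hl1, ?_⟩)
      (LBq.cd_mono (hC.cd l) (by linarith) (le_max_left _ _))
    · have := hwb l
      linarith
    · refine hl2.trans ?_
      have h2 : (1 + 1 / 4000) * v * b l ≤ 1 / 2 * b l := mul_le_mul_of_nonneg_right (by linarith) hbl.le
      linarith
    · have h2 : 1999 / 1000 * ((1 + 1 / 4000) * v) * b l ≤ (W + sA) * b l :=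
        mul_le_mul_of_nonneg_right (by linarith) hbl.le
      have h3 : 1999 / 1000 * w l ≤ 1999 / 1000 * ((1 + 1 / 4000) * v * b l) :=
        mul_le_mul_of_nonneg_left hl2 (by norm_num)
      have h4 : 1999 / 1000 * ((1 + 1 / 4000) * v * b l) = 1999 / 1000 * ((1 + 1 / 4000) * v) * b l := by ring
      linarith
  · push Not at hex
    have hsum2 := CELL.lb_sum (u := 1 / 4000) (by norm_num) hv00 hsm hi hex
    have hx := ((hC.cd i).lv 2 (by norm_num) (by push_cast; linarith)).hx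
    push_cast at hx
    exact LBq.fin4 hh2 hβ hκ0 hκ1 hs2 hv0 hv7 hbs hbi1 hwv hν hsum2 hW hWt hx

end Pool.Agent.Work.MP_a8fbd7_nt.OX.SQ
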