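import Mathlib
import Pool.Agent.Work.MP_a8fbd7_nt.OX.SQ.Stmts
import Pool.Agent.Work.MP_a8fbd7_nt.OX.ASM.I_Li

/-!
MP_a8fbd7_nt, block OX, part SQ, item Li: primes in windows as sums over boxes (short windows).
Statement: helper50.  Proof: copy of OX/ASM/I_Li.lean (helper64), adapted by helper53.
-/

set_option autoImplicit false

open MeasureTheory Set Filter Topology

noncomputable section

namespace Pool.Agent.Work.MP_a8fbd7_nt.OX.SQ

open Pool.Agent.Work.MP_56b8f5_nt.UC (IsWt Bl Dp Om psi eta Sep)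
open Pool.Agent.Work.MP_a8fbd7_nt.OX
open Pool.Agent.Work.MP_a8fbd7_nt.OX.ASM
open Pool.Agent.Work.MP_a8fbd7_nt.OX.ID (Rough roughOne pb rg)

open Classical ASM.Li_aux in
theorem iLi (hEx : ASM.StEx) (hDr : StDr) (hSq : StSq) : StLi := by
  intro w hw hw0
  obtain ⟨C1, hC1, hDr'⟩ := hDr w hw hw0
  refine ⟨C1, hC1, ?_⟩
  intro η κ1 hη hη2 hκ hκ2
  obtain ⟨CE, hCE, hE⟩ := hEx η κ1 hη hη2 hκ hκ2
  obtain ⟨CD, hCD, hD⟩ := hDr' κ1 hκ hκ2
  obtain ⟨CS, hCS, hS⟩ := hSq w hw hw0 η κ1 hη hη2 hκ hκ2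
  obtain ⟨a, b, ha, hab, hs⟩ := hw.supp
  have hma : 0 < min a 1 := lt_min ha one_pos
  have hmb : 1 ≤ max b 1 := le_max_right _ _
  refine ⟨CE + CD + CS + CE * CS + 2 / min a 1 + (4 * max b 1) ^ 20, ?_, ?_⟩
  · have h1 : 0 ≤ 2 / min a 1 := by positivity
    have h2 : 0 ≤ (4 * max b 1) ^ 20 := by positivity
    have h3 : 0 ≤ CE * CS := by positivity
    linarith
  intro T T' x hT hT'1 hT'2 hx hx4
  have p1 : 0 ≤ 2 / min a 1 := by positivity
  have p2 : 0 ≤ (4 * max b 1) ^ 20 := by positivity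
  have p3 : 0 ≤ CE * CS := by positivity
  have hTE : CE ≤ T := by linarith
  have hTD : CD ≤ T := by linarith
  have hTS : CS ≤ T := by linarith
  have hTa : 2 / min a 1 ≤ T := by linarith
  have hTb : (4 * max b 1) ^ 20 ≤ T := by linarith
  have hT1 : 1 ≤ T := by linarith
  have hT0 : 0 < T := by linarith
  have hx0 : 0 < x := by nlinarith
  have hlog : 0 ≤ Real.log T := Real.log_nonneg hT1
  set y : ℕ := zz η T with hy
  set z : ℕ := zz (1 / 2 - κ1) T with hz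
  set Wt : ℕ → ℝ := fun n => w (((n : ℝ) / x) ^ T') with hWt
  have hWt0 : ∀ n, 0 ≤ Wt n := fun n => hw0 _
  -- the window
  have hwin : ∀ n : ℕ, Wt n ≠ 0 → 2 ≤ n ∧ (n : ℝ) ≤ T ^ (2 + 1 / 20 : ℝ) := by
    intro n hn
    obtain ⟨h1, h2⟩ := window ha hs hT1 hT'1 hx hx4 hn
    constructor
    · have h3 : (2 : ℝ) ≤ min a 1 * T ^ 2 := by
        rw [div_le_iff₀ hma] at hTa
        have h4 : T ≤ T ^ 2 := by nlinarith
        nlinarith
      exact_mod_cast h3.trans h1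
    · refine h2.trans ?_
      have h3 : 4 * max b 1 ≤ T ^ (1 / 20 : ℝ) := by
        have h4 : ((4 * max b 1) ^ 20 : ℝ) ^ (1 / 20 : ℝ) ≤ T ^ (1 / 20 : ℝ) :=
          Real.rpow_le_rpow (by positivity) hTb (by norm_num)
        have h5 : ((4 * max b 1) ^ 20 : ℝ) ^ (1 / 20 : ℝ) = 4 * max b 1 := by
          rw [← Real.rpow_natCast, ← Real.rpow_mul (by positivity)]
          norm_num
        rwa [h5] at h4
      have h6 : T ^ (2 + 1 / 20 : ℝ) = T ^ 2 * T ^ (1 / 20 : ℝ) := by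
        rw [Real.rpow_add hT0]
        congr 1
        exact_mod_cast Real.rpow_natCast T 2
      rw [h6]
      nlinarith [sq_nonneg T]
  set I : Finset ℕ := Finset.Icc 2 ⌊T ^ (2 + 1 / 20 : ℝ)⌋₊ with hI
  have hout : ∀ n : ℕ, n ∉ I → w (((n : ℝ) / x) ^ T') = 0 := by
    intro n hn
    by_contra h
    obtain ⟨h1, h2⟩ := hwin n h
    apply hn
    rw [hI, Finset.mem_Icc]
    exact ⟨h1, Nat.le_floor h2⟩
  have hSW : ∀ c : ℕ → ℝ, SW w c x T' = ∑ n ∈ I, c n * Wt n := fun c => SW_eq I hout c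
  -- the functions
  set vm : ℕ → ℝ := fun n => if Rough z n then ArithmeticFunction.vonMangoldt n / Real.log n else 0
    with hvm
  set sq : ℕ → ℝ := fun n => if ∃ p : ℕ, p.Prime ∧ y < p ∧ p ≤ z ∧ p ^ 2 ∣ n then 1 else 0 with hsq
  set ro : ℕ → ℝ := fun n => (roughOne z ^ 4) n with hro
  obtain ⟨hS1, hS2⟩ := hS T T' x hTS hT'1 hT'2 hx hx4
  have hD1 := hD T T' x hTD hT'1 hT'2 hx hx4
  have hR0 : 0 ≤ T' / x * SW w ro x T' := by
    apply mul_nonneg (by positivity)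
    rw [hSW]
    exact Finset.sum_nonneg fun n _ => mul_nonneg (rough_pow_nonneg z 4 n) (hWt0 n)
  -- the error
  have hEn : ∀ n ∈ I, |vm n + 1 / 4 * ro n -
      ∑ u ∈ Bx 3 T, ∑ v ∈ Bx (SS η) T, cc u v * BF y z u v n| ≤ CE * sq n := by
    intro n hn
    rw [hI, Finset.mem_Icc] at hn
    have h1 := hE T n hTE hn.1 ((Nat.le_floor_iff (by positivity)).1 hn.2)
    refine h1.trans (le_of_eq ?_)
    rw [hsq]
    by_cases hp : ∃ p : ℕ, p.Prime ∧ zz η T < p ∧ p ≤ zz (1 / 2 - κ1) T ∧ p ^ 2 ∣ n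
    · rw [if_pos hp]
      simp only [hy, hz]
      rw [if_pos hp, mul_one]
    · rw [if_neg hp]
      simp only [hy, hz]
      rw [if_neg hp, mul_zero]
  have hlin : SW w vm x T' + 1 / 4 * SW w ro x T' -
      ∑ u ∈ Bx 3 T, ∑ v ∈ Bx (SS η) T, cc u v * SW w (BF y z u v) x T' =
      ∑ n ∈ I, (vm n + 1 / 4 * ro n -
        ∑ u ∈ Bx 3 T, ∑ v ∈ Bx (SS η) T, cc u v * BF y z u v n) * Wt n := by
    have h1 : ∑ u ∈ Bx 3 T, ∑ v ∈ Bx (SS η) T, cc u v * SW w (BF y z u v) x T' =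
        ∑ n ∈ I, (∑ u ∈ Bx 3 T, ∑ v ∈ Bx (SS η) T, cc u v * BF y z u v n) * Wt n := by
      have h2 : ∀ n : ℕ, (∑ u ∈ Bx 3 T, ∑ v ∈ Bx (SS η) T, cc u v * BF y z u v n) * Wt n =
          ∑ u ∈ Bx 3 T, ∑ v ∈ Bx (SS η) T, cc u v * (BF y z u v n * Wt n) := by
        intro n
        rw [Finset.sum_mul]
        refine Finset.sum_congr rfl fun u _ => ?_
        rw [Finset.sum_mul]
        exact Finset.sum_congr rfl fun v _ => by ring
      have h3 : ∑ n ∈ I, ∑ u ∈ Bx 3 T, ∑ v ∈ Bx (SS η) T, cc u v * (BF y z u v n * Wt n) =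
          ∑ u ∈ Bx 3 T, ∑ v ∈ Bx (SS η) T, ∑ n ∈ I, cc u v * (BF y z u v n * Wt n) := by
        rw [Finset.sum_comm]
        exact Finset.sum_congr rfl fun u _ => Finset.sum_comm
      simp only [h2]
      rw [h3]
      refine Finset.sum_congr rfl fun u _ => Finset.sum_congr rfl fun v _ => ?_
      rw [hSW, Finset.mul_sum]
    rw [h1, hSW, hSW, Finset.mul_sum, ← Finset.sum_add_distrib, ← Finset.sum_sub_distrib]
    exact Finset.sum_congr rfl fun n _ => by ring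
  have hEb : |SW w vm x T' + 1 / 4 * SW w ro x T' -
      ∑ u ∈ Bx 3 T, ∑ v ∈ Bx (SS η) T, cc u v * SW w (BF y z u v) x T'| ≤
      CE * SW w sq x T' := by
    rw [hlin, hSW sq, Finset.mul_sum]
    refine (Finset.abs_sum_le_sum_abs _ _).trans (Finset.sum_le_sum fun n hn => ?_)
    rw [abs_mul, abs_of_nonneg (hWt0 n), ← mul_assoc]
    exact mul_le_mul_of_nonneg_right (hEn n hn) (hWt0 n)
  have hTx : 0 ≤ T' / x := by positivity
  have hEb2 : |T' / x * SW w vm x T' + 1 / 4 * (T' / x * SW w ro x T') -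
      ∑ u ∈ Bx 3 T, ∑ v ∈ Bx (SS η) T, cc u v * (T' / x * SW w (BF y z u v) x T')| ≤
      CE * (CS / Real.log T ^ 2) := by
    have h1 : T' / x * SW w vm x T' + 1 / 4 * (T' / x * SW w ro x T') -
        ∑ u ∈ Bx 3 T, ∑ v ∈ Bx (SS η) T, cc u v * (T' / x * SW w (BF y z u v) x T') =
        T' / x * (SW w vm x T' + 1 / 4 * SW w ro x T' -
        ∑ u ∈ Bx 3 T, ∑ v ∈ Bx (SS η) T, cc u v * SW w (BF y z u v) x T') := by
      rw [mul_sub, mul_add, Finset.mul_sum]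
      have h2 : ∑ u ∈ Bx 3 T, T' / x * ∑ v ∈ Bx (SS η) T, cc u v * SW w (BF y z u v) x T' =
          ∑ u ∈ Bx 3 T, ∑ v ∈ Bx (SS η) T, cc u v * (T' / x * SW w (BF y z u v) x T') := by
        refine Finset.sum_congr rfl fun u _ => ?_
        rw [Finset.mul_sum]
        exact Finset.sum_congr rfl fun v _ => by ring
      rw [h2]
      ring
    rw [h1, abs_mul, abs_of_nonneg hTx]
    calc T' / x * |SW w vm x T' + 1 / 4 * SW w ro x T' -
        ∑ u ∈ Bx 3 T, ∑ v ∈ Bx (SS η) T, cc u v * SW w (BF y z u v) x T'|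
        ≤ T' / x * (CE * SW w sq x T') := mul_le_mul_of_nonneg_left hEb hTx
      _ = CE * (T' / x * SW w sq x T') := by ring
      _ ≤ CE * (CS / Real.log T ^ 2) := mul_le_mul_of_nonneg_left hS1 (by linarith)
  -- conclusion
  set A := T' / x * SW w pr x T'
  set V := T' / x * SW w vm x T'
  set R := T' / x * SW w ro x T'
  set Bs := ∑ u ∈ Bx 3 T, ∑ v ∈ Bx (SS η) T, cc u v * (T' / x * SW w (BF y z u v) x T')
  have h1 : |A - V| ≤ CS / Real.log T ^ 2 := hS2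
  have h2 : R ≤ C1 * κ1 / Real.log T := hD1
  have h3 : |V + 1 / 4 * R - Bs| ≤ CE * (CS / Real.log T ^ 2) := hEb2
  have h4 : A - Bs = (A - V) + (V + 1 / 4 * R - Bs) - 1 / 4 * R := by ring
  have h5 : 0 ≤ C1 * κ1 / Real.log T := by positivity
  have h6 : (CS + CE * CS) / Real.log T ^ 2 ≤
      (CE + CD + CS + CE * CS + 2 / min a 1 + (4 * max b 1) ^ 20) / Real.log T ^ 2 := by
    apply div_le_div_of_nonneg_right _ (by positivity)
    linarith
  have h7 : (CS + CE * CS) / Real.log T ^ 2 = CS / Real.log T ^ 2 + CE * (CS / Real.log T ^ 2) := by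
    ring
  rw [h4]
  rw [abs_le] at h1 h3 ⊢
  constructor <;> linarith [h1.1, h1.2, h3.1, h3.2]

end Pool.Agent.Work.MP_a8fbd7_nt.OX.SQ
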