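import Mathlib
import Pool.Agent.Work.MP_a8fbd7_nt.OX.SQ.Stmts
import Pool.Agent.Work.MP_a8fbd7_nt.OX.ASM.I_Mn

/-!
# MP_a8fbd7_nt, block OX, part SQ, item Mn: the main theorem for smooth windows from the box statements.
-/

set_option autoImplicit false

open MeasureTheory Set Filter Topology

noncomputable section

namespace Pool.Agent.Work.MP_a8fbd7_nt.OX.SQ

open Pool.Agent.Work.MP_56b8f5_nt.UC (IsWt Bl Dp Om psi eta Sep)
open Pool.Agent.Work.MP_a8fbd7_nt.OX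
open Pool.Agent.Work.MP_a8fbd7_nt.OX.ASM hiding StF4 StBB StAA StDr StSq StLi StMn
open Pool.Agent.Work.MP_a8fbd7_nt.OX.ID (Rough roughOne pb rg)

namespace Mnq

open Pool.Agent.Work.MP_a8fbd7_nt.OX.ASM.Mn_aux (SW_nonneg SW_abs_sub_le SW_sum cw_nonneg cw_le cc_le_cw card_Bx LL_le dd_bound exists_s
  pbl_eq_zero BF_eq_zero SW_zero isSv_mono num_box num_card)

theorem QS.subset {S S' : Finset ℝ} {T : ℝ} (h : QS S T) (hs : S' ⊆ S) : QS S' T := fun x hx => h x (hs hx)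

open Classical in
/-- union of finite sets of quarter squares -/
theorem pq_union {ι : Type*} (I : Finset ι) {T B : ℝ} (P : ι → ℝ → Prop) (h : ∀ i ∈ I, PQ T (P i) B) :
    PQ T (fun x => ∃ i ∈ I, P i x) (I.card * B) := by
  intro S hS hx
  have hsub : S ⊆ I.biUnion fun i => S.filter (P i) := by
    intro x hxS
    obtain ⟨i, hi, hP⟩ := hx x hxS
    exact Finset.mem_biUnion.2 ⟨i, hi, Finset.mem_filter.2 ⟨hxS, hP⟩⟩
  calc (S.card : ℝ) ≤ ((I.biUnion fun i => S.filter (P i)).card : ℝ) := by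
        exact_mod_cast Finset.card_le_card hsub
    _ ≤ ∑ i ∈ I, ((S.filter (P i)).card : ℝ) := by exact_mod_cast Finset.card_biUnion_le
    _ ≤ ∑ _i ∈ I, B := by
        refine Finset.sum_le_sum fun i hi => ?_
        refine h i hi _ (QS.subset hS (Finset.filter_subset _ _)) ?_
        intro x hx'
        exact (Finset.mem_filter.1 hx').2
    _ = I.card * B := by rw [Finset.sum_const, nsmul_eq_mul]

theorem pq_mono {T B B' : ℝ} {P Q : ℝ → Prop} (h : PQ T P B) (hPQ : ∀ x, T ^ 2 ≤ x → x ≤ 4 * T ^ 2 → Q x → P x)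
    (hB : B ≤ B') : PQ T Q B' := fun S hS hx =>
  (h S hS fun x hxS => hPQ x (hS x hxS).1 (hS x hxS).2.1 (hx x hxS)).trans hB

theorem pq_and {T B : ℝ} {H : Prop} {Q : ℝ → Prop} (hB : 0 ≤ B) (h : H → PQ T Q B) :
    PQ T (fun x => H ∧ Q x) B := by
  intro S hS hx
  by_cases hH : H
  · exact h hH S hS fun x hxS => (hx x hxS).2
  · have : S = ∅ := by
      rw [Finset.eq_empty_iff_forall_notMem]
      intro x hxS
      exact hH (hx x hxS).1
    rw [this]
    simpa using hB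

/-- the bad points of the conditions attached to a box -/
def Pb (w : ℝ → ℝ) (T V T1 κ2 κ3 β A : ℝ) (y z S : ℕ) (lp lm : ℕ → ℝ) :
    ((Fin 3 → Option ℕ) × (Fin S → Option ℕ)) × Option (Option (Fin 3)) → ℝ → Prop
  | ((u, v), none) => fun x => ((∀ i, ¬ Lg T κ2 (u i)) ∧ Sh T β u v) ∧
      1 / Real.log T ^ A ≤ |DD w (BF y z u v) x V T1|
  | ((u, v), some none) => fun x => (∃ i, Lg T κ2 (u i)) ∧
      1 / Real.log T ^ A ≤ |DD w (BFA y z T κ3 (fun _ => lp) u v) x V T1|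
  | ((u, v), some (some i)) => fun x => (∃ i, Lg T κ2 (u i)) ∧
      1 / Real.log T ^ A ≤ |DD w (BFA y z T κ3 (Function.update (fun _ => lp) i (fun d => lp d - lm d)) u v) x V T1|

open Classical in
/-- deterministic part: sums over the boxes at a good point -/
theorem good_point {w : ℝ → ℝ} (hw : IsWt w) (hw0 : ∀ u, 0 ≤ w u) (hV1 : StV1)
    {T V T1 κ1 κ2 κ3 A D C0 E CR x : ℝ} {y z S : ℕ} {lp lm : ℕ → ℝ} (hT3 : 3 ≤ T) (hV : 1 ≤ V) (hT1 : 1 ≤ T1) (hκ3 : 0 < κ3)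
    (hsv : IsSv y D C0 E lp lm) (hx1 : T ^ 2 ≤ x) (hL : 0 < Real.log T) (hz : (z : ℝ) ≤ T ^ (1 / 2 - κ1))
    (hRg : ∀ (u : Fin 3 → Option ℕ) (v : Fin S → Option ℕ) (T' : ℝ), 1 ≤ T' → SW w (BF y z u v) x T' ≠ 0 →
      T ^ 2 / CR ≤ PS u v ∧ PS u v ≤ CR * T ^ 2)
    (hSh : ∀ (u : Fin 3 → Option ℕ) (v : Fin S → Option ℕ), (∀ i, ¬ Lg T κ2 (u i)) →
      (∀ r l, v r = some l → (2 : ℝ) ^ l ≤ 2 * T ^ (1 / 2 - κ1)) →
      T ^ 2 / CR ≤ PS u v → PS u v ≤ CR * T ^ 2 → Sh T (κ1 / 2) u v)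
    (hgood : ∀ u ∈ Bx 3 T, ∀ v ∈ Bx S T, ∀ j, ¬ Pb w T V T1 κ2 κ3 (κ1 / 2) A y z S lp lm ((u, v), j) x) :
    ∑ u ∈ Bx 3 T, ∑ v ∈ Bx S T, cw v * |DD w (BF y z u v) x V T1| ≤
      ∑ _u ∈ Bx 3 T, ∑ _v ∈ Bx S T, (5 * 3 ^ S) * (4 / Real.log T ^ A) +
      2 * ∑ u ∈ Bx 3 T, ∑ v ∈ Bx S T, cw v * ∑ i ∈ Finset.univ.filter (fun i => Lg T κ3 (u i)),
        T1 / x * SW w (BFA y z T κ3 (Function.update (fun _ => lp) i (fun d => lp d - lm d)) u v) x T1 := by
  have hx : 0 < x := lt_of_lt_of_le (by positivity) hx1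
  have hLA : 0 < Real.log T ^ A := Real.rpow_pos_of_pos hL _
  rw [Finset.mul_sum, ← Finset.sum_add_distrib]
  refine Finset.sum_le_sum fun u hu => ?_
  rw [Finset.mul_sum, ← Finset.sum_add_distrib]
  refine Finset.sum_le_sum fun v hv => ?_
  have hcw := cw_nonneg v
  have hcw2 := cw_le v
  have hv1 := fun n => hV1 T κ3 D C0 E y z S lp lm u v n hT3 hκ3 hsv
  set e : Fin 3 → ℕ → ℝ := fun i => ⇑(BFA y z T κ3 (Function.update (fun _ => lp) i (fun d => lp d - lm d)) u v) with he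
  have hsum0 : 0 ≤ ∑ i ∈ Finset.univ.filter (fun i => Lg T κ3 (u i)), T1 / x * SW w (e i) x T1 := by
    refine Finset.sum_nonneg fun i _ => mul_nonneg (by positivity) (SW_nonneg hw0 _ fun n => ?_)
    exact (hv1 n).2 i
  have h14 : 0 ≤ 4 / Real.log T ^ A := by positivity
  have key : |DD w (BF y z u v) x V T1| ≤ 4 / Real.log T ^ A +
      2 * ∑ i ∈ Finset.univ.filter (fun i => Lg T κ3 (u i)), T1 / x * SW w (e i) x T1 := by
    by_cases hB : ∀ i, ¬ Lg T κ2 (u i)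
    · have h1 : |DD w (BF y z u v) x V T1| ≤ 1 / Real.log T ^ A := by
        by_cases h0 : SW w (BF y z u v) x V = 0 ∧ SW w (BF y z u v) x T1 = 0
        · unfold DD
          rw [h0.1, h0.2, mul_zero, mul_zero, sub_zero, abs_zero]
          positivity
        · have hrel : T ^ 2 / CR ≤ PS u v ∧ PS u v ≤ CR * T ^ 2 := by
            by_cases h2 : SW w (BF y z u v) x V = 0
            · exact hRg u v T1 hT1 fun h3 => h0 ⟨h2, h3⟩
            · exact hRg u v V hV h2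
          have hpr : ∀ r l, v r = some l → (2 : ℝ) ^ l ≤ 2 * T ^ (1 / 2 - κ1) := by
            intro r l hr
            by_contra hcon
            rw [not_le] at hcon
            apply h0
            have hzero := BF_eq_zero (y := y) (z := z) u v hr (by linarith)
            rw [hzero, SW_zero, SW_zero]
            exact ⟨rfl, rfl⟩
          have hsh := hSh u v hB hpr hrel.1 hrel.2
          have := hgood u hu v hv none
          unfold Pb at this
          by_contra hcon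
          rw [not_le] at hcon
          exact this ⟨⟨hB, hsh⟩, hcon.le⟩
      have h5 : 1 / Real.log T ^ A ≤ 4 / Real.log T ^ A := by gcongr; norm_num
      linarith
    · have hA : ∃ i, Lg T κ2 (u i) := by
        push Not at hB; exact hB
      have h0 : |DD w (BFA y z T κ3 (fun _ => lp) u v) x V T1| ≤ 1 / Real.log T ^ A := by
        have := hgood u hu v hv (some none)
        unfold Pb at this
        by_contra hcon
        rw [not_le] at hcon
        exact this ⟨hA, hcon.le⟩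
      have h1 : ∀ i, |DD w (e i) x V T1| ≤ 1 / Real.log T ^ A := by
        intro i
        have := hgood u hu v hv (some (some i))
        unfold Pb at this
        by_contra hcon
        rw [not_le] at hcon
        exact this ⟨hA, hcon.le⟩
      have h2 := dd_bound hw hw0 hx hV hT1 (BF y z u v) (BFA y z T κ3 (fun _ => lp) u v)
        (Finset.univ.filter (fun i => Lg T κ3 (u i))) e (fun n => (hv1 n).1)
      have h3 : ∑ i ∈ Finset.univ.filter (fun i => Lg T κ3 (u i)), (|DD w (e i) x V T1| + 2 * (T1 / x * SW w (e i) x T1)) ≤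
          3 / Real.log T ^ A + 2 * ∑ i ∈ Finset.univ.filter (fun i => Lg T κ3 (u i)), T1 / x * SW w (e i) x T1 := by
        rw [Finset.sum_add_distrib, ← Finset.mul_sum]
        have : ∑ i ∈ Finset.univ.filter (fun i => Lg T κ3 (u i)), |DD w (e i) x V T1| ≤ 3 / Real.log T ^ A := by
          calc _ ≤ ∑ i ∈ Finset.univ.filter (fun i => Lg T κ3 (u i)), 1 / Real.log T ^ A :=
                Finset.sum_le_sum fun i _ => h1 i
            _ ≤ ∑ i : Fin 3, 1 / Real.log T ^ A :=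
                Finset.sum_le_sum_of_subset_of_nonneg (Finset.filter_subset _ _) fun _ _ _ => by positivity
            _ = 3 / Real.log T ^ A := by simp; ring
        linarith
      have h4 : 1 / Real.log T ^ A + 3 / Real.log T ^ A = 4 / Real.log T ^ A := by ring
      linarith
  calc cw v * |DD w (BF y z u v) x V T1| ≤ cw v * (4 / Real.log T ^ A +
      2 * ∑ i ∈ Finset.univ.filter (fun i => Lg T κ3 (u i)), T1 / x * SW w (e i) x T1) := by gcongr
    _ = cw v * (4 / Real.log T ^ A) + 2 * (cw v * ∑ i ∈ Finset.univ.filter (fun i => Lg T κ3 (u i)), T1 / x * SW w (e i) x T1) := by ring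
    _ ≤ _ := by gcongr


theorem pack_Pb {w : ℝ → ℝ} {T V T1 κ1 κ2 κ3 κ' A C r : ℝ} {y z S : ℕ} {lp lm : ℕ → ℝ} {C0 E D : ℝ}
    (hT0 : 0 < T) (hsv : IsSv y D C0 E lp lm) (hD : D ≤ T ^ κ') (hC : 0 ≤ C)
    (hBB : ∀ (u : Fin 3 → Option ℕ) (v : Fin S → Option ℕ), (∀ i, ¬ Lg T κ2 (u i)) → Sh T (κ1 / 2) u v →
      PQ T (fun x => 1 / Real.log T ^ A ≤ |DD w (BF y z u v) x V T1|) (C * T ^ r))
    (hAA : ∀ (u : Fin 3 → Option ℕ) (v : Fin S → Option ℕ) (lw : Fin 3 → ℕ → ℝ), (∃ i, Lg T κ2 (u i)) →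
      (∀ i d, |lw i d| ≤ 2) → (∀ i d, lw i d ≠ 0 → 1 ≤ d ∧ (d : ℝ) ≤ T ^ κ') →
      PQ T (fun x => 1 / Real.log T ^ A ≤ |DD w (BFA y z T κ3 lw u v) x V T1|) (C * T ^ r)) :
    ∀ p, PQ T (Pb w T V T1 κ2 κ3 (κ1 / 2) A y z S lp lm p) (C * T ^ r) := by
  have hB : 0 ≤ C * T ^ r := mul_nonneg hC (Real.rpow_nonneg hT0.le _)
  have hlp1 : ∀ d, |lp d| ≤ 2 := fun d => (hsv.bdp d).trans (by norm_num)
  have hdif : ∀ d, |lp d - lm d| ≤ 2 := fun d => by
    calc |lp d - lm d| ≤ |lp d| + |lm d| := abs_sub _ _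
      _ ≤ 1 + 1 := add_le_add (hsv.bdp d) (hsv.bdm d)
      _ = 2 := by norm_num
  have hsp : ∀ d, lp d ≠ 0 → 1 ≤ d ∧ (d : ℝ) ≤ T ^ κ' := fun d hd => ⟨(hsv.supp d hd).1, (hsv.supp d hd).2.trans hD⟩
  have hsd : ∀ d, lp d - lm d ≠ 0 → 1 ≤ d ∧ (d : ℝ) ≤ T ^ κ' := by
    intro d hd
    by_cases h0 : lp d = 0
    · have : lm d ≠ 0 := by
        intro h1
        apply hd
        simp [h0, h1]
      exact ⟨(hsv.supm d this).1, (hsv.supm d this).2.trans hD⟩
    · exact hsp d h0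
  rintro ⟨⟨u, v⟩, j⟩
  rcases j with _ | _ | i
  · exact pq_and hB fun h => hBB u v h.1 h.2
  · exact pq_and hB fun h => hAA u v _ h (fun _ => hlp1) (fun _ => hsp)
  · refine pq_and hB fun h => hAA u v _ h ?_ ?_
    · intro i' d
      by_cases hi : i' = i
      · subst hi; simpa using hdif d
      · simpa [Function.update_of_ne hi] using hlp1 d
    · intro i' d
      by_cases hi : i' = i
      · subst hi; simpa using hsd d
      · simpa [Function.update_of_ne hi] using hsp d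

theorem fin_ineq {w : ℝ → ℝ} {T V T1 x δ C1 κ1 C3 η E CL CE : ℝ} {y z S : ℕ} {Q1 Q2 : ℝ} (hx : 0 < x) (hx1 : T ^ 2 ≤ x) (hx2 : x ≤ 4 * T ^ 2)
    (hT3 : 3 ≤ T) (f1 : 12 ≤ Real.log T) (hδ : 0 < δ) (f2 : 4 * (6 * CL + 6 * CE + 3) / δ ≤ Real.log T)
    (hκ1δ : C1 * κ1 ≤ δ / 100) (hE10 : (C3 / η) ^ 10 * E ≤ δ / 100)
    (hli1 : |V / x * SW w pr x V - ∑ u ∈ Bx 3 T, ∑ v ∈ Bx S T, cc u v * (V / x * SW w (BF y z u v) x V)| ≤
      C1 * κ1 / Real.log T + CL / Real.log T ^ 2)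
    (hli2 : |T1 / x * SW w pr x T1 - ∑ u ∈ Bx 3 T, ∑ v ∈ Bx S T, cc u v * (T1 / x * SW w (BF y z u v) x T1)| ≤
      C1 * κ1 / Real.log T + CL / Real.log T ^ 2)
    (hgp : ∑ u ∈ Bx 3 T, ∑ v ∈ Bx S T, cw v * |DD w (BF y z u v) x V T1| ≤ Q1 + 2 * Q2)
    (hbox : Q1 ≤ 1 / Real.log T ^ 2) (hse : Q2 ≤ (C3 / η) ^ 10 * E / Real.log T + CE / Real.log T ^ 2)
    (hpn : |Real.log x * (T1 / x * SW w pr x T1) - Iw w| ≤ δ / 4) :
    |Real.log x * (V / x * SW w pr x V) - Iw w| ≤ δ := by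
  have hLpos : 0 < Real.log T := by linarith
  set L : ℝ := Real.log T with hL
  have hdiff : |V / x * SW w pr x V - T1 / x * SW w pr x T1| ≤ 2 * (C1 * κ1 / L + CL / L ^ 2) +
      (1 / L ^ 2 + 2 * ((C3 / η) ^ 10 * E / L + CE / L ^ 2)) := by
    have hsum : |∑ u ∈ Bx 3 T, ∑ v ∈ Bx S T, cc u v * (V / x * SW w (BF y z u v) x V) -
        ∑ u ∈ Bx 3 T, ∑ v ∈ Bx S T, cc u v * (T1 / x * SW w (BF y z u v) x T1)| ≤
        ∑ u ∈ Bx 3 T, ∑ v ∈ Bx S T, cw v * |DD w (BF y z u v) x V T1| := by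
      rw [← Finset.sum_sub_distrib]
      refine (Finset.abs_sum_le_sum_abs _ _).trans (Finset.sum_le_sum fun u _ => ?_)
      rw [← Finset.sum_sub_distrib]
      refine (Finset.abs_sum_le_sum_abs _ _).trans (Finset.sum_le_sum fun v _ => ?_)
      rw [← mul_sub, abs_mul]
      exact mul_le_mul_of_nonneg_right (cc_le_cw u v) (abs_nonneg _)
    have e1 := abs_le.1 hli1
    have e2 := abs_le.1 hli2
    have e3 := abs_le.1 hsum
    rw [abs_le]
    constructor <;> linarith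
  have hlx : Real.log x ≤ 3 * L := by
    have h1 : Real.log x ≤ Real.log (4 * T ^ 2) := Real.log_le_log hx hx2
    have h2 : Real.log (4 * T ^ 2) = Real.log 4 + 2 * L := by
      rw [Real.log_mul (by norm_num) (by positivity), Real.log_pow]; push_cast; ring
    have h3 : Real.log 4 ≤ 4 := by
      have := Real.log_le_sub_one_of_pos (show (0 : ℝ) < 4 by norm_num)
      linarith
    linarith
  have hlx0 : 0 ≤ Real.log x := Real.log_nonneg (by nlinarith)
  have hf2 : (6 * CL + 6 * CE + 3) / L ≤ δ / 4 := by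
    rw [div_le_iff₀ hδ] at f2
    rw [div_le_iff₀ hLpos]
    linarith
  have hmul : Real.log x * |V / x * SW w pr x V - T1 / x * SW w pr x T1| ≤
      6 * (C1 * κ1) + 6 * ((C3 / η) ^ 10 * E) + (6 * CL + 6 * CE + 3) / L := by
    calc _ ≤ (3 * L) * (2 * (C1 * κ1 / L + CL / L ^ 2) +
          (1 / L ^ 2 + 2 * ((C3 / η) ^ 10 * E / L + CE / L ^ 2))) := by gcongr
      _ = _ := by field_simp; ring
  have hfin : |Real.log x * (V / x * SW w pr x V) - Iw w| ≤
      Real.log x * |V / x * SW w pr x V - T1 / x * SW w pr x T1| + δ / 4 := by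
    have h1 : Real.log x * (V / x * SW w pr x V) - Iw w =
        Real.log x * (V / x * SW w pr x V - T1 / x * SW w pr x T1) + (Real.log x * (T1 / x * SW w pr x T1) - Iw w) := by ring
    rw [h1]
    refine (abs_add_le _ _).trans ?_
    rw [abs_mul, abs_of_nonneg hlx0]
    linarith
  linarith

end Mnq

open Mnq
open Pool.Agent.Work.MP_a8fbd7_nt.OX.ASM.Mn_aux (exists_s isSv_mono num_box num_card)

open Classical in
theorem iMn (hLi : StLi) (hSh : ASM.StSh) (hRg : ASM.StRg) (hVV : ASM.StV1) (hSv : ASM.StSv) (hSE : ASM.StSE)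
    (hPN : ASM.StPN) : StMnq := by
  intro h r hh1 hh2 hr hBB hAA w hw hw0 δ hδ
  obtain ⟨C1, hC1, hLi⟩ := hLi w hw hw0
  obtain ⟨κ1, hκ1, hκ1', hκ1δ⟩ : ∃ κ1 : ℝ, 0 < κ1 ∧ κ1 ≤ 1 / 20 ∧ C1 * κ1 ≤ δ / 100 := by
    refine ⟨min (1 / 20) (δ / (100 * C1)), by positivity, min_le_left _ _, ?_⟩
    have := min_le_right (1 / 20) (δ / (100 * C1))
    have hC1' : 0 < C1 := by linarith
    calc C1 * min (1 / 20) (δ / (100 * C1)) ≤ C1 * (δ / (100 * C1)) := by gcongr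
      _ = δ / 100 := by field_simp
  obtain ⟨κ2, hκ2, hκ2', hBB⟩ := hBB (κ1 / 2) (by positivity) (by linarith)
  obtain ⟨κ3, κ', hκ3, hκ3', hκ', hκ'', hAA⟩ := hAA κ2 hκ2 (by linarith)
  obtain ⟨C0, hC0, hSv⟩ := hSv
  obtain ⟨C3, hC3, hSE⟩ := hSE w hw hw0 C0 hC0
  obtain ⟨s, hs1, hs0, hsE⟩ := exists_s (C0 := C0) hκ' hC3 (show 0 < δ / 100 by positivity)
  set η : ℝ := κ' / s with hη
  have hs : 0 < s := by linarith
  have hη0 : 0 < η := by positivity
  have hηκ : η ≤ κ' := by rw [hη, div_le_iff₀ hs]; nlinarith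
  have hη20 : η ≤ 1 / 20 := by linarith
  set S : ℕ := SS η with hS
  set A : ℝ := ((4 * (S + 4) : ℕ) : ℝ) with hA
  have hA0 : 0 < A := by rw [hA]; positivity
  obtain ⟨B1, hB1, hBB⟩ := hBB w hw η κ1 A hη0 hη20 hκ1 hκ1' hA0
  obtain ⟨B2, hB2, hAA⟩ := hAA w hw η κ1 A hη0 hηκ hκ1 hκ1' hA0
  set B : ℝ := max B1 B2 with hB
  have hB1' : 1 ≤ B := hB1.trans (le_max_left _ _)
  obtain ⟨CB, hCB, hBB⟩ := hBB B (le_max_left _ _)
  obtain ⟨CA, hCA, hAA⟩ := hAA B (le_max_right _ _)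
  obtain ⟨CR, hCR, hRg⟩ := hRg w hw S
  obtain ⟨CS, hCS, hSh⟩ := hSh κ1 κ2 hκ1 hκ1' hκ2 (by linarith)
  set E : ℝ := Real.exp (-s) with hE
  have hE0 : 0 < E := Real.exp_pos _
  obtain ⟨CE, hCE, hSE⟩ := hSE η κ1 κ3 κ' E B hη0 hη20 hκ1 hκ1' hκ3 (by linarith) hκ' (by linarith) hE0 hB1'
  obtain ⟨CL, hCL, hLi⟩ := hLi η κ1 hη0 hη20 hκ1 hκ1'
  obtain ⟨CP, hCP, hPN⟩ := hPN w hw hw0 B (δ / 4) hB1' (by positivity)
  -- large T
  have hlog : Tendsto (fun T : ℝ => Real.log T) atTop atTop := Real.tendsto_log_atTop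
  have ev1 : ∀ᶠ T : ℝ in atTop, 12 ≤ Real.log T := hlog.eventually_ge_atTop 12
  have ev2 : ∀ᶠ T : ℝ in atTop, 4 * (6 * CL + 6 * CE + 3) / δ ≤ Real.log T := hlog.eventually_ge_atTop _
  have ev3 : ∀ᶠ T : ℝ in atTop, Real.log T ^ B ≤ T := by
    have := (isLittleO_log_rpow_rpow_atTop B (zero_lt_one)).bound (zero_lt_one)
    filter_upwards [this, eventually_ge_atTop 3] with T h h3
    have hl : 0 ≤ Real.log T := Real.log_nonneg (by linarith)
    rw [Real.rpow_one, one_mul, Real.norm_eq_abs, Real.norm_eq_abs, abs_of_nonneg (by positivity), abs_of_nonneg (by linarith)] at h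
    exact h
  have ev4 : ∀ᶠ T : ℝ in atTop, (4 * Real.log T) ^ (S + 3) ≤ T ^ (1 / 2000 : ℝ) := by
    have := (isLittleO_log_rpow_rpow_atTop ((S + 3 : ℕ) : ℝ) (show (0 : ℝ) < 1 / 2000 by norm_num)).bound
      (show (0 : ℝ) < 1 / 4 ^ (S + 3) by positivity)
    filter_upwards [this, eventually_ge_atTop 3] with T h h3
    have hl : 0 ≤ Real.log T := Real.log_nonneg (by linarith)
    have hT0 : 0 < T := by linarith
    rw [Real.norm_eq_abs, Real.norm_eq_abs, Real.rpow_natCast, abs_of_nonneg (by positivity), abs_of_nonneg (by positivity)] at h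
    rw [mul_pow]
    calc (4 : ℝ) ^ (S + 3) * Real.log T ^ (S + 3) ≤ 4 ^ (S + 3) * (1 / 4 ^ (S + 3) * T ^ (1 / 2000 : ℝ)) := by gcongr
      _ = T ^ (1 / 2000 : ℝ) := by field_simp
  have ev5 : ∀ᶠ T : ℝ in atTop, CR ≤ T ^ (κ1 / 100) := (tendsto_rpow_atTop (by positivity)).eventually_ge_atTop CR
  have ev6 : ∀ᶠ T : ℝ in atTop, CR ≤ T ^ (1 / 100 : ℝ) := (tendsto_rpow_atTop (by positivity)).eventually_ge_atTop CR
  have ev7 : ∀ᶠ T : ℝ in atTop, 2 ≤ T ^ η := (tendsto_rpow_atTop hη0).eventually_ge_atTop 2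
  have ev8 : ∀ᶠ T : ℝ in atTop, 4 ≤ T ^ (1 / 100 : ℝ) := (tendsto_rpow_atTop (by norm_num)).eventually_ge_atTop 4
  obtain ⟨T0, hT0⟩ := (ev1.and (ev2.and (ev3.and (ev4.and (ev5.and (ev6.and (ev7.and ev8))))))).exists_forall_of_atTop
  refine ⟨max (max (max T0 3) (max CB CA)) (max (max (max CS CE) (max CL CP)) (5 * (CB + CA))), ?_, ?_⟩
  · exact le_trans (by norm_num) (((le_max_right T0 3).trans (le_max_left _ _)).trans (le_max_left _ _))
  intro T V hT hV1' hV2'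
  simp only [max_le_iff] at hT
  obtain ⟨⟨⟨hTT0, hT3⟩, hTCB, hTCA⟩, ⟨⟨hTCS, hTCE⟩, hTCL, hTCP⟩, hT5⟩ := hT
  obtain ⟨f1, f2, f3, f4, f5, f6, f7, f8⟩ := hT0 T hTT0
  have hTpos : 0 < T := by linarith
  have hLpos : 0 < Real.log T := by linarith
  have hV1 : 1 ≤ V := by linarith
  have hVT : V ≤ T ^ (32 / 25 : ℝ) := by
    have h1 : T ^ h ≤ T ^ (127 / 100 : ℝ) := Real.rpow_le_rpow_of_exponent_le (by linarith) hh2
    have h0 : 0 < T ^ (127 / 100 : ℝ) := Real.rpow_pos_of_pos hTpos _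
    calc V ≤ 4 * T ^ h := hV2'
      _ ≤ T ^ (1 / 100 : ℝ) * T ^ (127 / 100 : ℝ) := by
        have := Real.rpow_nonneg hTpos.le h
        nlinarith
      _ = T ^ (32 / 25 : ℝ) := by rw [← Real.rpow_add hTpos]; norm_num
  have hTT : T ≤ T ^ (32 / 25 : ℝ) := by
    calc T = T ^ (1 : ℝ) := (Real.rpow_one T).symm
      _ ≤ T ^ (32 / 25 : ℝ) := Real.rpow_le_rpow_of_exponent_le (by linarith) (by norm_num)
  set T1 : ℝ := Real.log T ^ B with hT1
  have hT1' : 1 ≤ T1 := Real.one_le_rpow (by linarith) (by linarith)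
  set y : ℕ := zz η T with hy
  set z : ℕ := zz (1 / 2 - κ1) T with hz
  have hy2 : 2 ≤ y := by
    rw [hy]; unfold zz
    exact Nat.le_floor (by exact_mod_cast f7)
  obtain ⟨lp, lm, hsv⟩ := hSv s y hs0 hy2
  have hD : (y : ℝ) ^ s ≤ T ^ κ' := by
    have h1 : (y : ℝ) ≤ T ^ η := by
      rw [hy]; unfold zz
      exact Nat.floor_le (by positivity)
    calc (y : ℝ) ^ s ≤ (T ^ η) ^ s := Real.rpow_le_rpow (by positivity) h1 (by linarith)
      _ = T ^ κ' := by rw [← Real.rpow_mul hTpos.le, hη]; congr 1; field_simp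
  have hzT : (z : ℝ) ≤ T ^ (1 / 2 - κ1) := by
    rw [hz]; unfold zz
    exact Nat.floor_le (by positivity)
  -- packing
  have hpk := pack_Pb (r := r) (w := w) (T := T) (V := V) (T1 := T1) (κ1 := κ1) (κ2 := κ2) (κ3 := κ3) (κ' := κ') (A := A)
    (C := CB + CA) (y := y) (z := z) (S := S) hTpos hsv hD (by linarith)
    (fun u v h1 h2 => by
      intro S' hS' hx
      refine (hBB T V u v hTCB hV1' hV2' h1 h2 S' hS' hx).trans ?_
      have : 0 ≤ T ^ r := Real.rpow_nonneg hTpos.le _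
      nlinarith)
    (fun u v lw h1 h2 h3 => by
      intro S' hS' hx
      refine (hAA T V u v lw hTCA hV1' hV2' h1 h2 h3 S' hS' hx).trans ?_
      have : 0 ≤ T ^ r := Real.rpow_nonneg hTpos.le _
      nlinarith)
  set I := (Bx 3 T ×ˢ Bx S T) ×ˢ (Finset.univ : Finset (Option (Option (Fin 3)))) with hI
  have hun := pq_union I (Pb w T V T1 κ2 κ3 (κ1 / 2) A y z S lp lm) (fun p _ => hpk p)
  refine pq_mono hun ?_ ?_
  · -- good points
    intro x hx1 hx2 hbad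
    by_contra hcon
    have hgood : ∀ u ∈ Bx 3 T, ∀ v ∈ Bx S T, ∀ j, ¬ Pb w T V T1 κ2 κ3 (κ1 / 2) A y z S lp lm ((u, v), j) x := by
      intro u hu v hv j hP
      exact hcon ⟨((u, v), j), by simp [hI, hu, hv], hP⟩
    have hx : 0 < x := lt_of_lt_of_le (by positivity) hx1
    have hgp := good_point hw hw0 hVV (CR := CR) (κ1 := κ1) hT3 hV1 hT1' hκ3 hsv hx1 hLpos hzT
      (fun u v T' hT' h => hRg T κ3 x T' y z (fun _ => lp) u v (by linarith) hT' hx1 hx2 (Or.inl h))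
      (fun u v h1 h2 h3 h4 => by
        refine hSh T S u v hTCS h1 h2 ?_ ?_
        · refine le_trans ?_ h3
          have hCR0 : 0 < CR := by linarith
          rw [le_div_iff₀ hCR0]
          calc T ^ (2 - κ1 / 100) * CR ≤ T ^ (2 - κ1 / 100) * T ^ (κ1 / 100) := by gcongr
            _ = T ^ 2 := by
              rw [← Real.rpow_add hTpos, ← Real.rpow_natCast]; congr 1; push_cast; ring
        · refine h4.trans ?_
          calc CR * T ^ 2 ≤ T ^ (1 / 100 : ℝ) * T ^ 2 := by gcongr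
            _ = T ^ (2 + 1 / 100 : ℝ) := by
              rw [← Real.rpow_natCast, ← Real.rpow_add hTpos]; congr 1; push_cast; ring)
      hgood
    have hse := hSE T x lp lm hTCE hx1 hx2 (isSv_mono hsv hD)
    have hli1 := hLi T V x hTCL hV1 hVT hx1 hx2
    have hli2 := hLi T T1 x hTCL hT1' (f3.trans hTT) hx1 hx2
    have hpn := hPN T x hTCP hx1 hx2
    -- number of boxes
    have hbox := num_box (S := S) (A := A) hA f1
    exact absurd hbad (not_lt.2 (fin_ineq hx hx1 hx2 hT3 f1 hδ f2 hκ1δ hsE hli1 hli2 hgp hbox hse hpn))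
  · -- number of points
    have hcard : (I.card : ℝ) ≤ 5 * T ^ (1 / 2000 : ℝ) := num_card f1 f4
    have hre : T ^ (1 / 2000 : ℝ) * T ^ r = T ^ (r + 1 / 2000) := by
      rw [← Real.rpow_add hTpos]; congr 1; ring
    have hr1 : 0 ≤ T ^ (r + 1 / 2000) := Real.rpow_nonneg hTpos.le _
    have hr : 0 ≤ T ^ r := Real.rpow_nonneg hTpos.le _
    calc (I.card : ℝ) * ((CB + CA) * T ^ r) ≤ (5 * T ^ (1 / 2000 : ℝ)) * ((CB + CA) * T ^ r) := by gcongr
      _ = 5 * (CB + CA) * (T ^ (1 / 2000 : ℝ) * T ^ r) := by ring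
      _ = 5 * (CB + CA) * T ^ (r + 1 / 2000) := by rw [hre]
      _ ≤ _ := by
        gcongr
        exact (le_max_right _ _).trans (le_max_right _ _)

end Pool.Agent.Work.MP_a8fbd7_nt.OX.SQ
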