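import Mathlib
import Pool.Agent.Work.MP_a8fbd7_nt.OX.SQ.Stmts
import Pool.Agent.Work.MP_a8fbd7_nt.OX.CELL.CollE

/-!
# MP_a8fbd7_nt, block OX, part SQ, item Mq: mean value inequalities on a class for quarter squares
-/

set_option autoImplicit false

open MeasureTheory Set Filter Topology

noncomputable section

namespace Pool.Agent.Work.MP_a8fbd7_nt.OX.SQ

open Pool.Agent.Work.MP_56b8f5_nt.UC (Sep Dp)
open Pool.Agent.Work.MP_a8fbd7_nt.OX
open Pool.Agent.Work.MP_a8fbd7_nt.OX.CELL (cs_set PB_cont pow_dpc fin_thr thr expo pw)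

namespace Mqq

theorem GS_cont {S : Finset ℝ} (hS : ∀ x ∈ S, 0 < x) (c : ℝ → ℂ) : Continuous (fun t => GS S c t) := by
  unfold GS
  apply continuous_finsetSum
  intro x hx
  have hx0 : (x : ℂ) ≠ 0 := by exact_mod_cast (hS x hx).ne'
  apply Continuous.mul continuous_const
  apply Continuous.const_cpow _ (Or.inl hx0)
  fun_prop

theorem GS_le {S : Finset ℝ} (hS : ∀ x ∈ S, 0 < x) {c : ℝ → ℂ} (hc : ∀ x, ‖c x‖ ≤ 1) (t : ℝ) : ‖GS S c t‖ ≤ S.card := by
  unfold GS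
  refine (norm_sum_le _ _).trans ?_
  rw [← nsmul_one, ← Finset.sum_const]
  apply Finset.sum_le_sum
  intro x hx
  rw [norm_mul, Complex.norm_cpow_eq_rpow_re_of_pos (hS x hx)]
  simp
  exact hc x

theorem pos_of {S : Finset ℝ} {T : ℝ} (hT : 0 < T) (hS : QS S T) : ∀ x ∈ S, 0 < x := fun x hx =>
  lt_of_lt_of_le (by positivity) (hS x hx).1

/-- the set `log S` consists of numbers `2 log (m/2)` -/
def QL (U : Finset ℝ) (T : ℝ) : Prop := ∀ u ∈ U, ∃ m : ℕ, 1 ≤ m ∧ (m : ℝ) ≤ 4 * T ∧ u = 2 * Real.log ((m : ℝ) / 2)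

/-- `GS` as an exponential sum over the logarithms -/
theorem GS_log {S : Finset ℝ} {T : ℝ} (hT : 0 < T) (hS : QS S T) (c : ℝ → ℂ) : ∃ (U : Finset ℝ) (b : ℝ → ℂ),
    U.card = S.card ∧ QL U T ∧ ((∀ x, ‖c x‖ ≤ 1) → ∀ u ∈ U, ‖b u‖ ≤ 1) ∧
    ∀ t : ℝ, ∑ u ∈ U, b u * Complex.exp (Complex.I * u * t) = GS S c t := by
  classical
  have hpos := pos_of hT hS
  have hinj : Set.InjOn Real.log (S : Set ℝ) := by
    intro x hx y hy hxy
    exact Real.log_injOn_pos (hpos x hx) (hpos y hy) hxy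
  refine ⟨S.image Real.log, fun u => c (Real.exp u), Finset.card_image_of_injOn hinj, ?_, ?_, ?_⟩
  · intro u hu
    obtain ⟨x, hx, rfl⟩ := Finset.mem_image.mp hu
    obtain ⟨h1, h2, m, hm⟩ := hS x hx
    have hx0 := hpos x hx
    have hm0 : 0 < m := by
      rcases Nat.eq_zero_or_pos m with h0 | h0
      · rw [hm, h0] at hx0
        simp at hx0
      · exact h0
    refine ⟨m, hm0, ?_, ?_⟩
    · have h3 : ((m : ℝ) / 2) ^ 2 ≤ (2 * T) ^ 2 := by
        rw [← hm]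
        linarith [show (2 * T) ^ 2 = 4 * T ^ 2 by ring]
      have h4 : (m : ℝ) / 2 ≤ 2 * T := le_of_sq_le_sq' h3 (by linarith)
      linarith
    · rw [hm, Real.log_pow]
      norm_num
  · intro hc u _
    exact hc _
  · intro t
    rw [Finset.sum_image hinj]
    unfold GS
    apply Finset.sum_congr rfl
    intro x hx
    have hx0 : 0 < x := hpos x hx
    have hx1 : (x : ℂ) ≠ 0 := by exact_mod_cast hx0.ne'
    show c (Real.exp (Real.log x)) * Complex.exp (Complex.I * (Real.log x) * t) = _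
    rw [Real.exp_log hx0, Complex.cpow_def_of_ne_zero hx1, ← Complex.ofReal_log hx0.le]
    congr 2
    ring
where
  le_of_sq_le_sq' {a b : ℝ} (h : a ^ 2 ≤ b ^ 2) (hb : 0 ≤ b) : a ≤ b := by
    by_contra hlt
    push Not at hlt
    nlinarith

/-- the trivial collisions -/
theorem Ec_one {U : Finset ℝ} {T δ : ℝ} (hT : 1 ≤ T) (hδ : 0 ≤ δ) (hU : QL U T) :
    (Ec U δ 1 : ℝ) ≤ U.card * (1 + 4 * T * δ) := by
  classical
  have hT0 : 0 < T := by linarith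
  have h1 : Ec U δ 1 = ((U ×ˢ U).filter (fun p => |p.1 - p.2| ≤ δ)).card := by
    unfold Ec qc
    simp
  rw [h1]
  have h2 : ((U ×ˢ U).filter (fun p => |p.1 - p.2| ≤ δ)).card = ∑ u ∈ U, (U.filter (fun v => |u - v| ≤ δ)).card := by
    rw [Finset.card_filter, Finset.sum_product]
    apply Finset.sum_congr rfl
    intro u _
    rw [Finset.card_filter]
  rw [h2]
  push_cast
  have h3 : ∀ u ∈ U, ((U.filter (fun v => |u - v| ≤ δ)).card : ℝ) ≤ 1 + 4 * T * δ := by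
    intro u _
    have h4 := card_le_of_sep (U.filter (fun v => |u - v| ≤ δ)) (fun v => v) (1 / (2 * T)) u δ (by positivity) hδ ?_ ?_
    · refine h4.trans (le_of_eq ?_)
      field_simp
      ring
    · intro p hp q hq hne
      obtain ⟨m, m1, m2, hm⟩ := hU p (Finset.mem_filter.mp hp).1
      obtain ⟨n, n1, n2, hn⟩ := hU q (Finset.mem_filter.mp hq).1
      have hmn : m ≠ n := by
        intro h
        apply hne
        rw [hm, hn, h]
      have hK : ∀ k : ℕ, (k : ℝ) ≤ 4 * T → k ≤ ⌊4 * T⌋₊ := fun k hk => Nat.le_floor hk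
      have h5 := log_sep m n ⌊4 * T⌋₊ m1 n1 (hK m m2) (hK n n2) hmn
      have hfl : (⌊4 * T⌋₊ : ℝ) ≤ 4 * T := Nat.floor_le (by linarith)
      have hfl0 : (0 : ℝ) < ⌊4 * T⌋₊ := by
        have : 1 ≤ ⌊4 * T⌋₊ := m1.trans (hK m m2)
        exact_mod_cast this
      have hm0 : (m : ℝ) ≠ 0 := by positivity
      have hn0 : (n : ℝ) ≠ 0 := by positivity
      have e1 : p - q = 2 * (Real.log m - Real.log n) := by
        rw [hm, hn, Real.log_div hm0 (by norm_num), Real.log_div hn0 (by norm_num)]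
        ring
      show 1 / (2 * T) ≤ |p - q|
      rw [e1, abs_mul, abs_of_pos (show (0 : ℝ) < 2 by norm_num)]
      have h6 : 1 / (4 * T) ≤ 1 / (⌊4 * T⌋₊ : ℝ) := one_div_le_one_div_of_le hfl0 hfl
      have h7 : 1 / (2 * T) = 2 * (1 / (4 * T)) := by
        field_simp
        ring
      rw [h7]
      linarith
    · intro p hp
      rw [abs_sub_comm]
      exact (Finset.mem_filter.mp hp).2
  calc ∑ u ∈ U, ((U.filter (fun v => |u - v| ≤ δ)).card : ℝ) ≤ ∑ _u ∈ U, (1 + 4 * T * δ) := Finset.sum_le_sum h3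
    _ = U.card * (1 + 4 * T * δ) := by rw [Finset.sum_const, nsmul_eq_mul]

/-- Cauchy-Schwarz on the class with a power of a block -/
theorem cs_core {S : Finset ℝ} {c : ℝ → ℂ} {f : ℝ → ℝ} {E : Set ℝ} {T T' X τ V B : ℝ} (hT : 0 < T) (hSp : ∀ x ∈ S, 0 < x)
    (hE : IsCompact E) (hT' : 0 ≤ T') (hEs : E ⊆ Icc T' (2 * T')) (hvol : (volume E).toReal ≤ 2 * T ^ τ) (hf : Continuous f)
    (hV : 0 ≤ V) (hlow : ∀ t ∈ E, V ≤ f t) (hint : S.card * T ^ X ≤ ∫ t in E, ‖GS S c t‖)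
    (hB : ∫ t in T'..(T' + T'), f t ^ 2 * ‖GS S c t‖ ^ 2 ≤ B) :
    (V * (S.card * T ^ X)) ^ 2 ≤ 2 * T ^ τ * B := by
  have hGc : Continuous (fun t => ‖GS S c t‖) := (GS_cont hSp c).norm
  set g : ℝ → ℝ := fun t => f t * ‖GS S c t‖ with hg
  have hgc : Continuous g := hf.mul hGc
  have hcs := cs_set E hE g hgc
  have hleft : V * (S.card * T ^ X) ≤ ∫ t in E, g t := by
    calc V * (S.card * T ^ X) ≤ V * ∫ t in E, ‖GS S c t‖ := by gcongr
      _ = ∫ t in E, V * ‖GS S c t‖ := by rw [integral_const_mul]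
      _ ≤ ∫ t in E, g t := by
          apply setIntegral_mono_on ((hGc.continuousOn.integrableOn_compact hE).const_mul _)
            (hgc.continuousOn.integrableOn_compact hE) hE.measurableSet
          intro t ht
          rw [hg]
          have := hlow t ht
          show V * ‖GS S c t‖ ≤ f t * ‖GS S c t‖
          gcongr
  have hright : ∫ t in E, g t ^ 2 ≤ B := by
    refine le_trans ?_ hB
    have e1 : ∀ t, f t ^ 2 * ‖GS S c t‖ ^ 2 = g t ^ 2 := by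
      intro t
      rw [hg]
      ring
    simp only [e1]
    rw [intervalIntegral.integral_of_le (by linarith), ← integral_Icc_eq_integral_Ioc]
    apply setIntegral_mono_set
    · exact (hgc.pow 2).continuousOn.integrableOn_compact isCompact_Icc
    · exact Eventually.of_forall fun t => sq_nonneg _
    · apply LE.le.eventuallyLE
      intro t ht
      have := hEs ht
      exact ⟨this.1, by linarith [this.2]⟩
  have h0 : 0 ≤ V * (S.card * T ^ X) := by positivity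
  have h1 : 0 ≤ ∫ t in E, g t ^ 2 := integral_nonneg fun t => sq_nonneg _
  calc (V * (S.card * T ^ X)) ^ 2 ≤ (∫ t in E, g t) ^ 2 := by gcongr
    _ ≤ (volume E).toReal * ∫ t in E, g t ^ 2 := hcs
    _ ≤ (2 * T ^ τ) * B := by gcongr

/-- first inequality -/
theorem first (s : ℝ) (hs : 0 < s) (_hs1 : s ≤ 1) : ∃ C : ℝ, 1 ≤ C ∧
    ∀ T, C ≤ T → ∀ (T' h r : ℝ) (S : Finset ℝ) (c : ℝ → ℂ) (E : Set ℝ) (X τ : ℝ), 1 ≤ h → 1 ≤ T' → T' ≤ T ^ (h + s / 16) →
    QS S T → 1 ≤ S.card → T ^ r ≤ S.card → (∀ x, ‖c x‖ ≤ 1) → IsCompact E → E ⊆ Icc T' (2 * T') → (volume E).toReal ≤ 2 * T ^ τ →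
    S.card * T ^ X ≤ ∫ t in E, ‖GS S c t‖ →
    r + 2 * X ≤ τ + h + s := by
  obtain ⟨C3, hC3, h3⟩ := thr (2 * (64 * 5)) (s / 16) (by positivity)
  refine ⟨C3, by linarith, ?_⟩
  intro T hT T' h r S c E X τ h1 hT'1 hT' hS hS1 hr hc hE hEs hvol hint
  have hT2 : 2 ≤ T := hC3.trans hT
  have hT0 : 0 < T := by linarith
  have hT1 : 1 ≤ T := by linarith
  have hT'0 : 0 < T' := by linarith
  have hSp := pos_of hT0 hS
  obtain ⟨U, bb, hU1, hU2, hU3, hU4⟩ := GS_log hT0 hS c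
  have hA := coll_int U bb 1 (fun _ => 1) 1 (fun n _ => by simp) (hU3 hc) T' T' hT'0
  have hE1 := Ec_one hT1 (show 0 ≤ 1 / T' by positivity) hU2
  rw [hU1] at hE1
  set J : ℝ := (S.card : ℝ) with hJ
  have hJ1 : 1 ≤ J := by rw [hJ]; exact_mod_cast hS1
  have hD1 : ∀ t : ℝ, ‖Dp 1 (fun _ => 1) t‖ = 1 := by
    intro t
    unfold Dp
    simp
  have hB : ∫ t in T'..(T' + T'), (1 : ℝ) ^ 2 * ‖GS S c t‖ ^ 2 ≤ 64 * 5 * J * T ^ (h + s / 16) := by
    have e1 : ∀ t, ‖Dp 1 (fun _ => 1) t‖ ^ 2 * ‖∑ u ∈ U, bb u * Complex.exp (Complex.I * u * t)‖ ^ 2 =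
        (1 : ℝ) ^ 2 * ‖GS S c t‖ ^ 2 := by
      intro t
      rw [hU4 t, hD1 t]
    simp only [e1] at hA
    refine hA.trans ?_
    have hTh : T ≤ T ^ (h + s / 16) := by
      calc T = T ^ (1 : ℝ) := (Real.rpow_one T).symm
        _ ≤ _ := Real.rpow_le_rpow_of_exponent_le hT1 (by linarith)
    calc 64 * (1 : ℝ) ^ 2 * T' * Ec U (1 / T') 1 ≤ 64 * (1 : ℝ) ^ 2 * T' * (J * (1 + 4 * T * (1 / T'))) := by gcongr
      _ = 64 * J * (T' + 4 * T) := by
          field_simp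
      _ ≤ 64 * J * (T ^ (h + s / 16) + 4 * T ^ (h + s / 16)) := by gcongr
      _ = _ := by ring
  have hkey := cs_core (c := c) (f := fun _ => (1 : ℝ)) hT0 hSp hE hT'0.le hEs hvol continuous_const
    (show (0 : ℝ) ≤ 1 by norm_num) (fun t _ => le_rfl) hint hB
  rw [← hJ] at hkey
  have h5 : J * (J * T ^ (2 * X)) ≤ J * ((2 * (64 * 5)) * T ^ (τ + (h + s / 16))) := by
    calc J * (J * T ^ (2 * X)) = (1 * (J * T ^ X)) ^ 2 := by
          rw [one_mul, mul_pow, pw hT0.le]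
          push_cast
          rw [mul_comm X 2]
          ring
      _ ≤ _ := hkey
      _ = J * ((2 * (64 * 5)) * (T ^ τ * T ^ (h + s / 16))) := by ring
      _ = _ := by rw [← Real.rpow_add hT0]
  have h6 : J * T ^ (2 * X) ≤ (2 * (64 * 5)) * T ^ (τ + (h + s / 16)) := le_of_mul_le_mul_left h5 (by linarith)
  have h7 : T ^ (r + 2 * X) ≤ (2 * (64 * 5)) * T ^ (τ + (h + s / 16)) := by
    refine le_trans ?_ h6
    rw [Real.rpow_add hT0]
    gcongr
  have := expo (by linarith) h7 (h3 T hT)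
  linarith

/-- second inequality, one power -/
theorem second (hPf : StPf) (hEq : StEq) (s : ℝ) (hs : 0 < s) (hs1 : s ≤ 1) (j : ℕ) : ∃ C : ℝ, 1 ≤ C ∧
    ∀ T, C ≤ T → ∀ (T' h r : ℝ) (S : Finset ℝ) (c : ℝ → ℂ) (E : Set ℝ) (X τ : ℝ), 1 ≤ T' → T' ≤ T ^ (h + s / 16) →
    QS S T → 1 ≤ S.card → T ^ r ≤ S.card → (∀ x, ‖c x‖ ≤ 1) → IsCompact E → E ⊆ Icc T' (2 * T') → (volume E).toReal ≤ 2 * T ^ τ →
    S.card * T ^ X ≤ ∫ t in E, ‖GS S c t‖ →
    ∀ (a : ℕ → ℂ) (N b w : ℝ), IsBlk a N → N = T ^ b → 0 ≤ b → (∀ t ∈ E, T ^ (b - w) ≤ ‖PB a N t‖) →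
      j * b ≤ 2 → 2 * r + 2 * X - 2 * (j * w) ≤ τ + max (h + 1 - j * b) 2 + s := by
  obtain ⟨C1, hC1, h1⟩ := hEq
  obtain ⟨C2, hC2, h2⟩ := pow_dpc hPf j (s / 16) (by positivity)
  obtain ⟨C4, hC4, h4⟩ := thr (2 ^ j) 1 (by norm_num)
  set K : ℝ := (32 / s) ^ 2 + 1 with hK
  have hK1 : 1 ≤ K := by rw [hK]; nlinarith [sq_nonneg (32 / s)]
  obtain ⟨C3, hC3, h3⟩ := thr (256 * (C1 * 4 ^ j * K)) (s / 16) (by positivity)
  refine ⟨max (max C2 C3) C4, le_max_of_le_left (le_max_of_le_left hC2), ?_⟩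
  intro T hT T' h r S c E X τ hT'1 hT' hS hS1 hr hc hE hEs hvol hint a N b w ha hN hb hlow hjb
  have t2 : C2 ≤ T := (le_max_left _ _).trans ((le_max_left _ _).trans hT)
  have t3 : C3 ≤ T := (le_max_right _ _).trans ((le_max_left _ _).trans hT)
  have t4 : C4 ≤ T := (le_max_right _ _).trans hT
  have hT2 : 2 ≤ T := hC3.trans t3
  have hT0 : 0 < T := by linarith
  have hT1 : 1 ≤ T := by linarith
  have hT'0 : 0 < T' := by linarith
  have hSp := pos_of hT0 hS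
  obtain ⟨U, bb, hU1, hU2, hU3, hU4⟩ := GS_log hT0 hS c
  obtain ⟨p, hp1, hp2, hp3⟩ := h2 T t2 a N b hN hb hjb ha
  set M : ℕ := ⌊(2 : ℝ) ^ j * T ^ (j * b)⌋₊ with hM
  have hMle : (M : ℝ) ≤ 2 ^ j * T ^ (j * b) := Nat.floor_le (by positivity)
  have hM3 : (M : ℝ) ≤ T ^ 3 := by
    have h5 : (2 : ℝ) ^ j ≤ T := by
      have := h4 T t4
      rwa [Real.rpow_one] at this
    have h6 : T ^ (j * b) ≤ T ^ 2 := by
      calc T ^ (j * b) ≤ T ^ (2 : ℝ) := Real.rpow_le_rpow_of_exponent_le hT1 hjb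
        _ = T ^ 2 := by norm_cast
    calc (M : ℝ) ≤ 2 ^ j * T ^ (j * b) := hMle
      _ ≤ T * T ^ 2 := by gcongr
      _ = T ^ 3 := by ring
  have hA := coll_int U bb M p (T ^ (s / 16)) (fun n _ => hp1 n) (hU3 hc) T' T' hT'0
  have hEc := h1 T (1 / T') M U hT2 (by positivity) hM3 hU2
  set J : ℝ := (S.card : ℝ) with hJ
  have hJ1 : 1 ≤ J := by rw [hJ]; exact_mod_cast hS1
  have hlog : Real.log T ^ 2 ≤ K * T ^ (s / 16) := by
    have h5 := Real.log_le_rpow_div hT0.le (show 0 < s / 32 by positivity)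
    have h6 : 0 ≤ Real.log T := Real.log_nonneg hT1
    calc Real.log T ^ 2 ≤ (T ^ (s / 32) / (s / 32)) ^ 2 := by gcongr
      _ = (32 / s) ^ 2 * T ^ (s / 16) := by
          rw [div_pow, pw hT0.le, show s / 32 * (2 : ℕ) = s / 16 by push_cast; ring]
          field_simp
      _ ≤ K * T ^ (s / 16) := by
          have : 0 ≤ T ^ (s / 16) := by positivity
          rw [hK]
          nlinarith
  have hB : ∫ t in T'..(T' + T'), (‖PB a N t‖ ^ j) ^ 2 * ‖GS S c t‖ ^ 2 ≤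
      64 * C1 * T ^ (s / 8) * (K * T ^ (s / 16) * (T * (2 ^ j * T ^ (j * b))) * T ^ (h + s / 16) +
        T ^ 2 * (2 ^ j * T ^ (j * b)) ^ 2) := by
    have e1 : ∀ t, ‖Dp M p t‖ ^ 2 * ‖∑ u ∈ U, bb u * Complex.exp (Complex.I * u * t)‖ ^ 2 =
        (‖PB a N t‖ ^ j) ^ 2 * ‖GS S c t‖ ^ 2 := by
      intro t
      rw [hU4 t, ← hp3 t, norm_pow]
    simp only [e1] at hA
    refine hA.trans ?_
    calc 64 * (T ^ (s / 16)) ^ 2 * T' * Ec U (1 / T') M
        ≤ 64 * (T ^ (s / 16)) ^ 2 * T' * (C1 * (Real.log T ^ 2 * (T * M) + 1 / T' * (T ^ 2 * (M : ℝ) ^ 2))) := by gcongr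
      _ = 64 * C1 * (T ^ (s / 16)) ^ 2 * (Real.log T ^ 2 * (T * M) * T' + T ^ 2 * (M : ℝ) ^ 2) := by
          field_simp
      _ ≤ 64 * C1 * (T ^ (s / 16)) ^ 2 * (K * T ^ (s / 16) * (T * (2 ^ j * T ^ (j * b))) * T ^ (h + s / 16) +
        T ^ 2 * (2 ^ j * T ^ (j * b)) ^ 2) := by gcongr
      _ = _ := by
          rw [pw hT0.le (s / 16), show s / 16 * (2 : ℕ) = s / 8 by push_cast; ring]
  have hkey := cs_core (c := c) (f := fun t => ‖PB a N t‖ ^ j) hT0 hSp hE hT'0.le hEs hvol ((PB_cont a N).norm.pow j)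
    (V := (T ^ (b - w)) ^ j) (by positivity) (fun t ht => pow_le_pow_left₀ (by positivity) (hlow t ht) j) hint hB
  rw [← hJ] at hkey
  set Y : ℝ := max (h + 1 + j * b) (2 + 2 * (j * b)) with hY
  have hlhs : T ^ (2 * r + 2 * X + 2 * (j * (b - w))) ≤ ((T ^ (b - w)) ^ j * (J * T ^ X)) ^ 2 := by
    have e1 : T ^ (2 * r + 2 * X + 2 * (j * (b - w))) = (T ^ (j * (b - w)) * (T ^ r * T ^ X)) ^ 2 := by
      rw [mul_pow, mul_pow, pw hT0.le, pw hT0.le, pw hT0.le, ← Real.rpow_add hT0, ← Real.rpow_add hT0]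
      congr 1
      push_cast
      ring
    rw [e1]
    have e2 : (T ^ (b - w)) ^ j = T ^ (j * (b - w)) := by rw [pw hT0.le, mul_comm]
    rw [e2]
    gcongr
  have hrhs : 2 * T ^ τ * (64 * C1 * T ^ (s / 8) * (K * T ^ (s / 16) * (T * (2 ^ j * T ^ (j * b))) * T ^ (h + s / 16) +
        T ^ 2 * (2 ^ j * T ^ (j * b)) ^ 2)) ≤ 256 * (C1 * 4 ^ j * K) * T ^ (τ + s / 4 + Y) := by
    have e2 : ((2 : ℝ) ^ j) ^ 2 = 4 ^ j := by
      rw [← pow_mul, mul_comm, pow_mul]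
      norm_num
    have e4 : (2 : ℝ) ^ j ≤ 4 ^ j := by gcongr; norm_num
    have a1 : K * T ^ (s / 16) * (T * (2 ^ j * T ^ (j * b))) * T ^ (h + s / 16) ≤ 4 ^ j * K * T ^ (s / 8 + Y) := by
      calc K * T ^ (s / 16) * (T * (2 ^ j * T ^ (j * b))) * T ^ (h + s / 16)
          = 2 ^ j * K * (T ^ (s / 16) * T ^ (1 : ℝ) * T ^ (j * b) * T ^ (h + s / 16)) := by
            rw [Real.rpow_one]; ring
        _ = 2 ^ j * K * T ^ (s / 16 + 1 + j * b + (h + s / 16)) := by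
            rw [← Real.rpow_add hT0, ← Real.rpow_add hT0, ← Real.rpow_add hT0]
        _ ≤ 4 ^ j * K * T ^ (s / 8 + Y) := by
            have : s / 16 + 1 + j * b + (h + s / 16) ≤ s / 8 + Y := by
              have := le_max_left (h + 1 + j * b) (2 + 2 * (j * b))
              rw [← hY] at this
              linarith
            have := Real.rpow_le_rpow_of_exponent_le hT1 this
            gcongr
    have a2 : T ^ 2 * (2 ^ j * T ^ (j * b)) ^ 2 ≤ 4 ^ j * K * T ^ (s / 8 + Y) := by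
      calc T ^ 2 * (2 ^ j * T ^ (j * b)) ^ 2 = 4 ^ j * 1 * (T ^ (2 : ℝ) * T ^ (2 * (j * b))) := by
            rw [mul_pow, e2, pw hT0.le (j * b), show (j * b * (2 : ℕ) : ℝ) = 2 * (j * b) by push_cast; ring]
            rw [show T ^ (2 : ℝ) = T ^ 2 by norm_cast]
            ring
        _ = 4 ^ j * 1 * T ^ (2 + 2 * (j * b)) := by rw [← Real.rpow_add hT0]
        _ ≤ 4 ^ j * K * T ^ (s / 8 + Y) := by
            have : 2 + 2 * (j * b) ≤ s / 8 + Y := by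
              have := le_max_right (h + 1 + j * b) (2 + 2 * (j * b))
              rw [← hY] at this
              linarith
            have := Real.rpow_le_rpow_of_exponent_le hT1 this
            gcongr
    calc 2 * T ^ τ * (64 * C1 * T ^ (s / 8) * (K * T ^ (s / 16) * (T * (2 ^ j * T ^ (j * b))) * T ^ (h + s / 16) +
        T ^ 2 * (2 ^ j * T ^ (j * b)) ^ 2))
        ≤ 2 * T ^ τ * (64 * C1 * T ^ (s / 8) * (4 ^ j * K * T ^ (s / 8 + Y) + 4 ^ j * K * T ^ (s / 8 + Y))) := by gcongr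
      _ = 256 * (C1 * 4 ^ j * K) * (T ^ τ * T ^ (s / 8) * T ^ (s / 8 + Y)) := by ring
      _ = 256 * (C1 * 4 ^ j * K) * T ^ (τ + s / 8 + (s / 8 + Y)) := by
          rw [← Real.rpow_add hT0, ← Real.rpow_add hT0]
      _ = _ := by
          congr 2
          ring
  have := expo (by linarith) (hlhs.trans (hkey.trans hrhs)) (h3 T t3)
  have hYle : Y ≤ max (h + 1 - j * b) 2 + 2 * (j * b) := by
    rw [hY]
    apply max_le
    · have := le_max_left (h + 1 - j * b) 2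
      linarith
    · have := le_max_right (h + 1 - j * b) 2
      linarith
  linarith

end Mqq

open Mqq in
/-- **item Mq** -/
theorem iMq (hPf : StPf) (hEq : StEq) : StMq := by
  intro s η hs hs1 hη
  obtain ⟨C1, hC1, h1⟩ := first s hs hs1
  obtain ⟨C2, hC2, h2⟩ := fin_thr ⌈2 / η⌉₊ (fun j T => ∀ (T' h r : ℝ) (S : Finset ℝ) (c : ℝ → ℂ) (E : Set ℝ) (X τ : ℝ),
    1 ≤ T' → T' ≤ T ^ (h + s / 16) →
    QS S T → 1 ≤ S.card → T ^ r ≤ S.card → (∀ x, ‖c x‖ ≤ 1) → IsCompact E → E ⊆ Icc T' (2 * T') → (volume E).toReal ≤ 2 * T ^ τ →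
    S.card * T ^ X ≤ ∫ t in E, ‖GS S c t‖ →
    ∀ (a : ℕ → ℂ) (N b w : ℝ), IsBlk a N → N = T ^ b → 0 ≤ b → (∀ t ∈ E, T ^ (b - w) ≤ ‖PB a N t‖) →
      j * b ≤ 2 → 2 * r + 2 * X - 2 * (j * w) ≤ τ + max (h + 1 - j * b) 2 + s) (fun j _ => second hPf hEq s hs hs1 j)
  refine ⟨max C1 C2, le_max_of_le_left hC1, ?_⟩
  intro T T' h r S c E X τ hT hh1 _hh2 hT'1 hT' hS hS1 hr hc hE hEs hvol hint
  refine ⟨h1 T ((le_max_left _ _).trans hT) T' h r S c E X τ hh1 hT'1 hT' hS hS1 hr hc hE hEs hvol hint, ?_⟩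
  intro a N b w ha hN hb hlow j hj
  refine h2 T ((le_max_right _ _).trans hT) j ?_ T' h r S c E X τ hT'1 hT' hS hS1 hr hc hE hEs hvol hint a N b w ha hN
    (by linarith) hlow hj
  have hj0 : (0 : ℝ) ≤ j := Nat.cast_nonneg j
  have hj1 : (j : ℝ) ≤ 2 / η := by
    rw [le_div_iff₀ hη]
    nlinarith
  exact_mod_cast hj1.trans (Nat.le_ceil _)

end Pool.Agent.Work.MP_a8fbd7_nt.OX.SQ
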