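import Mathlib
import Pool.Agent.Work.MP_a8fbd7_nt.OX.CELL.Disc
import Pool.Agent.Work.MP_a8fbd7_nt.OX.CELL.CollE
import Pool.Agent.Work.MP_a8fbd7_nt.OX.SQ.Stmts

/-!
MP_a8fbd7_nt, block OX, part SQ, item NB: the near zone of the cell theorem B.
Author: helper64 (copy of `OX/CELL/I_NB.lean` by helper60 with other numbers).
-/

set_option autoImplicit false

open MeasureTheory Set Filter Topology

noncomputable section

namespace Pool.Agent.Work.MP_a8fbd7_nt.OX.SQ

open Pool.Agent.Work.MP_a8fbd7_nt.OX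
open Pool.Agent.Work.MP_a8fbd7_nt.OX.CELL (PB_cont pigeon)

namespace NBq

/-- choice of the power -/
theorem exists_k (η b : ℝ) (hη : 0 < η) (hb : η / 2 ≤ b) (hb2 : b ≤ 11 / 20) :
    ∃ k : ℕ, 1 ≤ k ∧ k ≤ ⌈4 / η⌉₊ + 2 ∧ 33 / 50 ≤ (k : ℝ) * b ∧ (k : ℝ) * b ≤ 11 / 10 ∧
      (b ≤ 99 / 200 → (k : ℝ) * b ≤ 99 / 100) ∧ (99 / 200 < b → k = 2) := by
  have hb0 : 0 < b := by linarith
  rcases le_or_gt (33 / 100) b with h | h
  · refine ⟨2, by norm_num, by omega, ?_, ?_, ?_, fun _ => rfl⟩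
    · push_cast; linarith
    · push_cast; linarith
    · intro h'; push_cast; linarith
  · refine ⟨⌈(33 / 50) / b⌉₊, ?_, ?_, ?_, ?_, ?_, ?_⟩
    · exact Nat.one_le_iff_ne_zero.2 (Nat.ceil_pos.2 (by positivity)).ne'
    · have h1 : (33 / 50) / b ≤ 4 / η := by
        rw [div_le_div_iff₀ hb0 hη]
        nlinarith
      exact (Nat.ceil_mono h1).trans (by omega)
    · have h1 := Nat.le_ceil ((33 / 50) / b)
      rwa [div_le_iff₀ hb0] at h1
    · have h1 := (Nat.ceil_lt_add_one (show (0 : ℝ) ≤ (33 / 50) / b by positivity)).le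
      have h2 : ((33 / 50) / b + 1) * b = 33 / 50 + b := by field_simp
      nlinarith
    · intro _
      have h1 := (Nat.ceil_lt_add_one (show (0 : ℝ) ≤ (33 / 50) / b by positivity)).le
      have h2 : ((33 / 50) / b + 1) * b = 33 / 50 + b := by field_simp
      nlinarith
    · intro h'
      linarith

/-- the pointwise inequality -/
theorem pointwise (hPw : StPw) (β L A1 : ℝ) (m : ℕ) (N f : Fin m → ℝ) (kk : Fin m → ℕ) (hβ : 0 < β) (hβ1 : β ≤ 1 / 20)
    (hL : 1 ≤ L) (hA1 : 0 ≤ A1) (hN : ∀ i, 1 ≤ N i) (hf : ∀ i, 0 ≤ f i)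
    (hb : ∀ i, 0 < Real.log (N i) / L ∧ Real.log (N i) / L ≤ 1 / 2 + β / 4000)
    (hsum : 2 - β / 4000 ≤ ∑ i, Real.log (N i) / L)
    (hsm : β ≤ ∑ i ∈ Finset.univ.filter (fun i => Real.log (N i) / L ≤ 41 / 100), Real.log (N i) / L)
    (hk1 : ∀ i, Real.log (N i) / L ≤ 99 / 200 → kk i * (Real.log (N i) / L) ≤ 99 / 100)
    (hk2 : ∀ i, 99 / 200 < Real.log (N i) / L → kk i = 2)
    (hsave : ∀ i, f i ≤ N i / L ^ A1) (hbig : ∃ i, N i ^ (119 / 120 : ℝ) ≤ f i) :
    ∃ j, N j ^ (99 / 100 : ℝ) ≤ f j ∧ ∏ i, f i ≤ (∏ i, N i) * (L ^ (-(β / 200 * A1)) * (f j / N j) ^ (2 * kk j)) := by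
  have hL0 : 0 < L := by linarith
  have hN0 : ∀ i, 0 < N i := fun i => lt_of_lt_of_le one_pos (hN i)
  by_cases hz : ∃ i, f i = 0
  · obtain ⟨i0, hi0⟩ := hz
    obtain ⟨j, hj⟩ := hbig
    refine ⟨j, le_trans (Real.rpow_le_rpow_of_exponent_le (hN j) (by norm_num)) hj, ?_⟩
    rw [Finset.prod_eq_zero (Finset.mem_univ i0) hi0]
    have h1 : 0 ≤ ∏ i, N i := Finset.prod_nonneg fun i _ => (hN0 i).le
    have h2 : 0 ≤ f j / N j := div_nonneg (hf j) (hN0 j).le
    positivity
  · push Not at hz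
    have hf0 : ∀ i, 0 < f i := fun i => lt_of_le_of_ne (hf i) (Ne.symm (hz i))
    have hy : ∀ i, -Real.log (f i / N i) = Real.log (N i) - Real.log (f i) := fun i => by
      rw [Real.log_div (hf0 i).ne' (hN0 i).ne']; ring
    obtain ⟨j, hj1, hj2⟩ := hPw β m (fun i => Real.log (N i) / L) (fun i => -Real.log (f i / N i)) kk (A1 * Real.log L)
      (L / 120) hβ hβ1 (mul_nonneg hA1 (Real.log_nonneg hL)) hb hsum hsm hk1 hk2
      (by
        intro i
        have h1 := Real.log_le_log (hf0 i) (hsave i)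
        rw [Real.log_div (hN0 i).ne' (Real.rpow_pos_of_pos hL0 _).ne', Real.log_rpow hL0] at h1
        show A1 * Real.log L ≤ -Real.log (f i / N i)
        rw [hy i]
        linarith)
      (by
        obtain ⟨i, hi⟩ := hbig
        refine ⟨i, ?_⟩
        have h1 := Real.log_le_log (Real.rpow_pos_of_pos (hN0 i) _) hi
        rw [Real.log_rpow (hN0 i)] at h1
        show -Real.log (f i / N i) ≤ Real.log (N i) / L * (L / 120)
        rw [hy i]
        have h2 : Real.log (N i) / L * (L / 120) = Real.log (N i) / 120 := by field_simp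
        rw [h2]
        linarith)
    refine ⟨j, ?_, ?_⟩
    · have hj1' : -Real.log (f j / N j) ≤ Real.log (N j) / L * (L / 120) * (201 / 200) := hj1
      rw [hy j] at hj1'
      have h2 : Real.log (N j) / L * (L / 120) = Real.log (N j) / 120 := by field_simp
      rw [h2] at hj1'
      have hlog : 0 ≤ Real.log (N j) := Real.log_nonneg (hN j)
      rw [← Real.log_le_log_iff (Real.rpow_pos_of_pos (hN0 j) _) (hf0 j), Real.log_rpow (hN0 j)]
      linarith
    · have hj2' : 2 * (kk j : ℝ) * -Real.log (f j / N j) + β / 200 * (A1 * Real.log L) ≤ ∑ i, -Real.log (f i / N i) := hj2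
      have hr : 0 < f j / N j := div_pos (hf0 j) (hN0 j)
      have hP : 0 < ∏ i, N i := Finset.prod_pos fun i _ => hN0 i
      have hF : 0 < ∏ i, f i := Finset.prod_pos fun i _ => hf0 i
      have hR : 0 < L ^ (-(β / 200 * A1)) * (f j / N j) ^ (2 * kk j) := by positivity
      rw [← Real.log_le_log_iff hF (by positivity), Real.log_mul hP.ne' hR.ne',
        Real.log_mul (Real.rpow_pos_of_pos hL0 _).ne' (by positivity), Real.log_rpow hL0, Real.log_pow]
      have e1 : Real.log (∏ i, f i) = ∑ i, Real.log (f i) := Real.log_prod (fun i _ => (hf0 i).ne')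
      have e2 : Real.log (∏ i, N i) = ∑ i, Real.log (N i) := Real.log_prod (fun i _ => (hN0 i).ne')
      have e3 : ∑ i, -Real.log (f i / N i) = ∑ i, Real.log (N i) - ∑ i, Real.log (f i) := by
        rw [← Finset.sum_sub_distrib]
        exact Finset.sum_congr rfl fun i _ => hy i
      rw [e1, e2]
      rw [e3] at hj2'
      push_cast
      linarith

end NBq

open NBq in
/-- ITEM NB -/
theorem iNB (hNz : StNz) (hPw : StPw) : StNB := by
  classical
  intro β η A hβ hβ1 hη hη1 hA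
  obtain ⟨C1, K, hC1, hK, hNz'⟩ := hNz (⌈4 / η⌉₊ + 2)
  refine ⟨200 / β * (K + A + 1), C1 + Real.exp (2 / η + 6 * C1 / η + 1), by positivity, ?_, ?_⟩
  · have := Real.exp_pos (2 / η + 6 * C1 / η + 1)
    linarith
  intro T T' J m a N g E hT hT'1 hT' hblk hN hPlo hPhi hSm hsave hg hg0 hgJ hJ hE hEsub hEbig
  set L : ℝ := Real.log T with hLdef
  have hexp := Real.exp_pos (2 / η + 6 * C1 / η + 1)
  have hTC1 : C1 ≤ T := by linarith
  have hT1 : 1 ≤ T := by linarith
  have hT0 : 0 < T := by linarith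
  have hL1 : 2 / η + 6 * C1 / η + 1 ≤ L := by
    rw [hLdef, Real.le_log_iff_exp_le hT0]
    linarith
  have hp1 : 0 < 2 / η := by positivity
  have hp2 : 0 < 6 * C1 / η := by positivity
  have hLone : 1 ≤ L := by linarith
  have hL0 : 0 < L := by linarith
  have hrp : ∀ e : ℝ, Real.log (T ^ e) = e * L := fun e => Real.log_rpow hT0 e
  -- the blocks
  have hNpos : ∀ i, 0 < N i := fun i => lt_of_lt_of_le (by positivity) (hN i).1
  have hbl : ∀ i, η / 2 ≤ Real.log (N i) / L := by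
    intro i
    have h1 := Real.log_le_log (by positivity) (hN i).1
    rw [Real.log_div (by positivity) (by norm_num), hrp] at h1
    rw [le_div_iff₀ hL0]
    have h2 : Real.log 2 ≤ 1 := by linarith [Real.log_two_lt_d9]
    have h3 : 2 ≤ L * η := by
      have h4 : 2 / η ≤ L := by linarith
      rwa [div_le_iff₀ hη] at h4
    nlinarith
  have hbu : ∀ i, Real.log (N i) / L ≤ 1 / 2 + β / 4000 := by
    intro i
    have h1 := Real.log_le_log (hNpos i) (hN i).2
    rw [hrp] at h1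
    rwa [div_le_iff₀ hL0]
  have hN1 : ∀ i, 1 ≤ N i := by
    intro i
    have h1 : 0 ≤ Real.log (N i) := by
      have h2 := hbl i
      rw [le_div_iff₀ hL0] at h2
      have : 0 < η / 2 * L := by positivity
      linarith
    by_contra hc
    push Not at hc
    have := Real.log_neg (hNpos i) hc
    linarith
  have hPpos : 0 < ∏ i, N i := Finset.prod_pos fun i _ => hNpos i
  have hsumlog : Real.log (∏ i, N i) = ∑ i, Real.log (N i) := Real.log_prod (fun i _ => (hNpos i).ne')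
  have hsum : 2 - β / 4000 ≤ ∑ i, Real.log (N i) / L := by
    rw [← Finset.sum_div, le_div_iff₀ hL0, ← hsumlog, ← hrp]
    exact Real.log_le_log (by positivity) hPlo
  have hsum3 : ∑ i, Real.log (N i) / L ≤ 3 := by
    rw [← Finset.sum_div, div_le_iff₀ hL0, ← hsumlog, ← hrp]
    exact Real.log_le_log hPpos hPhi
  have hm : (m : ℝ) * (η / 2) ≤ 3 := by
    calc (m : ℝ) * (η / 2) = ∑ _i : Fin m, η / 2 := by simp
      _ ≤ ∑ i, Real.log (N i) / L := Finset.sum_le_sum fun i _ => hbl i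
      _ ≤ 3 := hsum3
  have hiff : ∀ i, N i ≤ T ^ (41 / 100 : ℝ) ↔ Real.log (N i) / L ≤ 41 / 100 := by
    intro i
    rw [div_le_iff₀ hL0, ← hrp, Real.log_le_log_iff (hNpos i) (by positivity)]
  have hsm : β ≤ ∑ i ∈ Finset.univ.filter (fun i => Real.log (N i) / L ≤ 41 / 100), Real.log (N i) / L := by
    have h1 : Finset.univ.filter (fun i => N i ≤ T ^ (41 / 100 : ℝ)) =
        Finset.univ.filter (fun i => Real.log (N i) / L ≤ 41 / 100) := by
      ext i
      simp only [Finset.mem_filter, Finset.mem_univ, true_and]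
      exact hiff i
    rw [← h1, ← Finset.sum_div, le_div_iff₀ hL0, ← hrp]
    refine (Real.log_le_log (by positivity) hSm).trans ?_
    rw [Real.log_prod (fun i _ => (hNpos i).ne')]
  -- the powers
  have hkk : ∀ i, ∃ k : ℕ, 1 ≤ k ∧ k ≤ ⌈4 / η⌉₊ + 2 ∧ 33 / 50 ≤ (k : ℝ) * (Real.log (N i) / L) ∧
      (k : ℝ) * (Real.log (N i) / L) ≤ 11 / 10 ∧
      (Real.log (N i) / L ≤ 99 / 200 → (k : ℝ) * (Real.log (N i) / L) ≤ 99 / 100) ∧
      (99 / 200 < Real.log (N i) / L → k = 2) := fun i =>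
    exists_k η _ hη (hbl i) (by have := hbu i; linarith)
  choose kk hk1 hk2 hk3 _ hk5 hk6 using hkk
  have hk7 : ∀ i, (kk i : ℝ) * (Real.log (N i) / L) ≤ 11 / 10 := by
    intro i
    rcases le_or_gt (Real.log (N i) / L) (99 / 200) with h | h
    · have := hk5 i h
      linarith
    · rw [hk6 i h]
      push_cast
      have := hbu i
      linarith
  set A1 : ℝ := 200 / β * (K + A + 1) with hA1def
  have hA1 : 0 ≤ A1 := by positivity
  have hβA : β / 200 * A1 = K + A + 1 := by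
    rw [hA1def]; field_simp
  -- the cover
  set f : Fin m → ℝ → ℝ := fun i t => ‖PB (a i) (N i) t‖ with hfdef
  have hfc : ∀ i, Continuous (f i) := fun i => (PB_cont (a i) (N i)).norm
  set R : Fin m → ℝ → ℝ := fun j t => (∏ i, N i) * (L ^ (-(β / 200 * A1)) * (f j t / N j) ^ (2 * kk j)) with hRdef
  have hRc : ∀ j, Continuous (R j) := fun j => by
    have := hfc j
    fun_prop
  have hPc : Continuous (fun t => ∏ i, f i t) := continuous_finsetProd _ fun i _ => hfc i
  set F : Fin m → Set ℝ := fun j => E ∩ ({t | N j ^ (99 / 100 : ℝ) ≤ f j t} ∩ {t | ∏ i, f i t ≤ R j t}) with hFdef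
  have hFcl : ∀ j, IsClosed ({t | N j ^ (99 / 100 : ℝ) ≤ f j t} ∩ {t | ∏ i, f i t ≤ R j t}) := fun j =>
    (isClosed_le continuous_const (hfc j)).inter (isClosed_le hPc (hRc j))
  have hFcp : ∀ j, IsCompact (F j) := fun j => hE.inter_right (hFcl j)
  have hcov : ∀ t ∈ E, ∃ j ∈ (Finset.univ : Finset (Fin m)), t ∈ F j := by
    intro t ht
    obtain ⟨j, h1, h2⟩ := pointwise hPw β L A1 m N (fun i => f i t) kk hβ hβ1 hLone hA1 hN1 (fun i => norm_nonneg _)
      (fun i => ⟨lt_of_lt_of_le (by positivity) (hbl i), hbu i⟩) hsum hsm hk5 hk6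
      (fun i => hsave i t (hEsub ht)) (hEbig t ht)
    exact ⟨j, Finset.mem_univ _, ht, h1, h2⟩
  have hH : Continuous fun t => g t * ∏ i, f i t := hg.mul hPc
  by_contra hcon
  push Not at hcon
  have hX : 0 < J * (∏ i, N i) / L ^ A := by positivity
  obtain ⟨j, -, hj⟩ := pigeon Finset.univ E hE F (fun j _ => hFcp j) (fun j _ => inter_subset_left) hcov
    (fun t => g t * ∏ i, f i t) hH (fun t => mul_nonneg (hg0 t) (Finset.prod_nonneg fun i _ => norm_nonneg _))
    _ hX hcon.le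
  -- one block
  have hNk : N j ^ kk j = T ^ ((kk j : ℝ) * (Real.log (N j) / L)) := by
    rw [← Real.rpow_natCast, ← Real.log_injOn_pos.eq_iff (mem_Ioi.2 (Real.rpow_pos_of_pos (hNpos j) _))
      (mem_Ioi.2 (Real.rpow_pos_of_pos hT0 _)), Real.log_rpow (hNpos j), hrp]
    field_simp
  have hnz := hNz' T T' (N j) (kk j) (a j) (F j) hTC1 hT'1 hT' (hk1 j) (hk2 j) (hblk j) (hNpos j)
    (by rw [hNk]; exact Real.rpow_le_rpow_of_exponent_le hT1 (hk3 j))
    (by rw [hNk]; exact Real.rpow_le_rpow_of_exponent_le hT1 (hk7 j)) (hFcp j)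
    (inter_subset_left.trans hEsub) (fun t ht => ht.2.1)
  have hint : ∫ t in F j, g t * ∏ i, f i t ≤ ∫ t in F j, J * R j t := by
    refine setIntegral_mono_on (hH.continuousOn.integrableOn_compact (hFcp j))
      ((continuous_const.mul (hRc j)).continuousOn.integrableOn_compact (hFcp j)) (hFcp j).measurableSet ?_
    intro t ht
    exact mul_le_mul (hgJ t) ht.2.2 (Finset.prod_nonneg fun i _ => norm_nonneg _) hJ.le
  have hint2 : ∫ t in F j, J * R j t = J * ((∏ i, N i) * L ^ (-(β / 200 * A1))) * ∫ t in F j, (f j t / N j) ^ (2 * kk j) := by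
    rw [← integral_const_mul]
    refine integral_congr_ae (Filter.Eventually.of_forall fun t => ?_)
    simp only [hRdef]
    ring
  have hm1 : (m : ℝ) ≤ 6 / η := by
    rw [le_div_iff₀ hη]
    linarith
  have hfin : J * (∏ i, N i) / L ^ A ≤ 6 / η * (J * ((∏ i, N i) * L ^ (-(β / 200 * A1))) * (C1 * L ^ K)) := by
    refine hj.trans ?_
    rw [Finset.card_univ, Fintype.card_fin]
    have h0 : 0 ≤ J * ((∏ i, N i) * L ^ (-(β / 200 * A1))) := by positivity
    have h1 : ∫ t in F j, g t * ∏ i, f i t ≤ J * ((∏ i, N i) * L ^ (-(β / 200 * A1))) * (C1 * L ^ K) := by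
      rw [hint2] at hint
      exact hint.trans (mul_le_mul_of_nonneg_left hnz h0)
    have h2 : 0 ≤ J * ((∏ i, N i) * L ^ (-(β / 200 * A1))) * (C1 * L ^ K) := by positivity
    calc (m : ℝ) * ∫ t in F j, g t * ∏ i, f i t ≤ (m : ℝ) * (J * ((∏ i, N i) * L ^ (-(β / 200 * A1))) * (C1 * L ^ K)) := by
          gcongr
      _ ≤ _ := by gcongr
  rw [hβA] at hfin
  have e1 : L ^ (-(K + A + 1)) = (L ^ K)⁻¹ * (L ^ A)⁻¹ * L⁻¹ := by
    rw [Real.rpow_neg hL0.le, Real.rpow_add hL0, Real.rpow_add hL0, Real.rpow_one, mul_inv, mul_inv]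
  rw [e1] at hfin
  have hLK : 0 < L ^ K := by positivity
  have hLA : 0 < L ^ A := by positivity
  have hfin2 : J * (∏ i, N i) / L ^ A ≤ (6 / η * C1 / L) * (J * (∏ i, N i) / L ^ A) := by
    refine hfin.trans (le_of_eq ?_)
    field_simp
  have hlt : 6 / η * C1 / L < 1 := by
    rw [div_lt_one hL0]
    have : 6 / η * C1 = 6 * C1 / η := by ring
    rw [this]
    linarith
  nlinarith

end Pool.Agent.Work.MP_a8fbd7_nt.OX.SQ
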