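import Mathlib
import Pool.Agent.Work.MP_a8fbd7_nt.OX.SQ.Stmts
import Pool.Agent.Work.MP_a8fbd7_nt.OX.CELL.Stmts
import Pool.Agent.Work.MP_a8fbd7_nt.OX.CELL.Disc
import Pool.Agent.Work.MP_a8fbd7_nt.OX.CELL.MS
import Pool.Agent.Work.MP_a8fbd7_nt.ZF.Stmts

/-!
MP_a8fbd7_nt, block OX, part SQ: one block near its maximum (the file of part CELL by helper68 with other numbers).
Author: helper88.
-/

set_option autoImplicit false

open MeasureTheory Set Filter Topology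

noncomputable section

namespace Pool.Agent.Work.MP_a8fbd7_nt.OX.SQ

open Pool.Agent.Work.MP_56b8f5_nt.UC (Sep Dp)
open Pool.Agent.Work.MP_a8fbd7_nt.OX
open Pool.Agent.Work.MP_a8fbd7_nt.OX.CELL (disc pow_ms)

namespace Nzq

theorem thr (D : ℝ) (q : ℕ) (e : ℝ) (he : 0 < e) :
    ∃ T0 : ℝ, 1 ≤ T0 ∧ ∀ T, T0 ≤ T → D * Real.log T ^ q ≤ T ^ e := by
  have h := (isLittleO_log_rpow_rpow_atTop (q : ℝ) he).def (c := 1 / (|D| + 1)) (by positivity)
  rw [Filter.eventually_atTop] at h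
  obtain ⟨T0, h⟩ := h
  refine ⟨max T0 1, le_max_right _ _, fun T hT => ?_⟩
  have hT1 : 1 ≤ T := (le_max_right _ _).trans hT
  have h1 := h T ((le_max_left _ _).trans hT)
  have hl : 0 ≤ Real.log T := Real.log_nonneg hT1
  rw [Real.rpow_natCast, Real.norm_of_nonneg (by positivity), Real.norm_of_nonneg (by positivity)] at h1
  have h2 : (|D| + 1) * Real.log T ^ q ≤ T ^ e := by
    rw [one_div, ← div_eq_inv_mul, le_div_iff₀ (by positivity)] at h1
    linarith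
  have h3 : D ≤ |D| + 1 := by linarith [le_abs_self D]
  calc D * Real.log T ^ q ≤ (|D| + 1) * Real.log T ^ q := by gcongr
    _ ≤ _ := h2

/-- the arithmetic: `x` = number of points, `P = N^k`, `R = √T'`, `E = D (log T)^K` -/
theorem arith (T P R E x S : ℝ) (hT : 1 ≤ T) (hP : T ^ (33 / 50 : ℝ) ≤ P) (hR : R ≤ T ^ (16 / 25 : ℝ))
    (hR0 : 0 ≤ R) (hE0 : 0 ≤ E) (hE : 2 * E ≤ T ^ (17 / 2500 : ℝ)) (hx : 0 ≤ x)
    (hS1 : x * P ^ (99 / 50 : ℝ) ≤ S) (hS2 : S ≤ E * (P + x * R) * P) : S ≤ 2 * E * P ^ 2 := by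
  have hT0 : 0 < T := by linarith
  have hP0 : 0 < P := lt_of_lt_of_le (by positivity) hP
  -- `2 E R ≤ P^(49/50)`
  have h1 : 2 * E * R ≤ P ^ (49 / 50 : ℝ) := by
    calc 2 * E * R ≤ T ^ (17 / 2500 : ℝ) * T ^ (16 / 25 : ℝ) := by gcongr
      _ = T ^ (33 / 50 * (49 / 50) : ℝ) := by
          rw [← Real.rpow_add hT0]; norm_num
      _ = (T ^ (33 / 50 : ℝ)) ^ (49 / 50 : ℝ) := by rw [← Real.rpow_mul hT0.le]
      _ ≤ _ := by gcongr
  have h2 : P ^ (99 / 50 : ℝ) = P ^ (49 / 50 : ℝ) * P := by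
    nth_rw 3 [← Real.rpow_one P]
    rw [← Real.rpow_add hP0]; norm_num
  have h3 : 0 < P ^ (49 / 50 : ℝ) := by positivity
  have h4 : 0 ≤ x * R := by positivity
  -- `x P^(49/50) ≤ E (P + x R)`
  have h5 : x * P ^ (49 / 50 : ℝ) ≤ E * (P + x * R) := by
    have := hS1.trans hS2
    rw [h2] at this
    have h6 : (x * P ^ (49 / 50 : ℝ)) * P ≤ (E * (P + x * R)) * P := by linarith
    exact le_of_mul_le_mul_right h6 hP0
  -- `E x R ≤ x P^(49/50)/2`
  have h6 : E * (x * R) ≤ x * P ^ (49 / 50 : ℝ) / 2 := by nlinarith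
  have h7 : x * P ^ (49 / 50 : ℝ) ≤ 2 * E * P := by nlinarith
  -- `x R ≤ P`
  have h8 : x * R ≤ P := by
    rcases hE0.eq_or_lt with hE' | hE'
    · rw [← hE'] at h7
      have : x * P ^ (49 / 50 : ℝ) ≤ 0 := by linarith
      have hx0 : x = 0 := by
        by_contra hne
        have : 0 < x := lt_of_le_of_ne hx (Ne.symm hne)
        have : 0 < x * P ^ (49 / 50 : ℝ) := by positivity
        linarith
      rw [hx0]; linarith
    · have h9 : (2 * E) * (x * R) ≤ (2 * E) * P := by nlinarith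
      exact le_of_mul_le_mul_left h9 (by positivity)
  calc S ≤ E * (P + x * R) * P := hS2
    _ ≤ E * (P + P) * P := by gcongr
    _ = _ := by ring

end Nzq

theorem iNz (hHM : ZF.StHM) : StNz := by
  intro k0
  obtain ⟨C1, hC1, hHM⟩ := hHM ((4 : ℝ) ^ k0) (one_le_pow₀ (by norm_num))
  set D : ℝ := C1 * (2 ^ k0 * 3 ^ (k0 * k0)) with hD
  have hD1 : 1 ≤ D := by
    have h1 : (1 : ℝ) ≤ 2 ^ k0 := one_le_pow₀ (by norm_num)
    have h2 : (1 : ℝ) ≤ 3 ^ (k0 * k0) := one_le_pow₀ (by norm_num)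
    have h3 : (1 : ℝ) ≤ 2 ^ k0 * 3 ^ (k0 * k0) := one_le_mul_of_one_le_of_one_le h1 h2
    exact one_le_mul_of_one_le_of_one_le hC1 h3
  obtain ⟨T1, hT1, h1⟩ := Nzq.thr (2 * D) (k0 * k0) (17 / 2500) (by norm_num)
  obtain ⟨T2, hT2, h2⟩ := Nzq.thr (2 ^ k0) 0 (33 / 50) (by norm_num)
  refine ⟨max (max T1 T2) (max (4 * D) (Real.exp 2)), ((k0 * k0 : ℕ) : ℝ), le_max_of_le_left (le_max_of_le_left hT1), by positivity, ?_⟩
  intro T T' N k a E hT hT' hT'2 hk hkk ha hN hP1 hP2 hEc hE hV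
  have hTT1 : T1 ≤ T := (le_max_left _ _).trans ((le_max_left _ _).trans hT)
  have hTT2 : T2 ≤ T := (le_max_right _ _).trans ((le_max_left _ _).trans hT)
  have hTe : Real.exp 2 ≤ T := (le_max_right _ _).trans ((le_max_right _ _).trans hT)
  have hT1' : 1 ≤ T := hT1.trans hTT1
  have hT0 : 0 < T := by linarith
  have hlog : 2 ≤ Real.log T := (Real.le_log_iff_exp_le hT0).2 hTe
  have hN1 : 1 ≤ N := by
    by_contra hcon
    push Not at hcon
    have h3 : N ^ k < 1 := pow_lt_one₀ hN.le hcon (by omega)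
    have h4 : (1 : ℝ) ≤ T ^ (33 / 50 : ℝ) := Real.one_le_rpow hT1' (by norm_num)
    linarith
  have hNT : N ≤ T ^ (11 / 10 : ℝ) := (le_self_pow₀ hN1 (by omega)).trans hP2
  obtain ⟨k', rfl⟩ : ∃ k', k = k' + 1 := ⟨k - 1, by omega⟩
  set M : ℕ := ⌊2 * N⌋₊ with hM
  have hM2 : (M : ℝ) ≤ 2 * N := Nat.floor_le (by positivity)
  have hM1 : 1 ≤ M := Nat.le_floor (by push_cast; linarith)
  obtain ⟨c, hc1, hc2, hc3⟩ := pow_ms a ha.bd M (N / 2) (by positivity)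
    (fun n hn => ⟨(ha.supp n hn).1, Nat.le_floor (ha.supp n hn).2⟩) k'
  set P : ℝ := N ^ (k' + 1) with hP
  have hP0 : 0 < P := by positivity
  set Λ : ℝ := Real.log T ^ (k0 * k0) with hΛ
  have hΛ0 : 0 < Λ := by positivity
  -- the mean square of the coefficients
  have hms : ∑ n ∈ Finset.Icc 1 (M ^ (k' + 1)), ‖c n‖ ^ 2 ≤ 2 ^ k0 * 3 ^ (k0 * k0) * Λ * P := by
    refine hc3.trans ?_
    have hM1' : (1 : ℝ) ≤ M := by exact_mod_cast hM1
    have hM0' : (0 : ℝ) < M := by linarith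
    have hlM : 1 ≤ 1 + Real.log M := by linarith [Real.log_nonneg hM1']
    have hlM2 : 1 + Real.log M ≤ 3 * Real.log T := by
      have e1 : Real.log M ≤ Real.log (2 * T ^ (11 / 10 : ℝ)) := Real.log_le_log hM0' (by linarith)
      rw [Real.log_mul (by norm_num) (by positivity), Real.log_rpow hT0] at e1
      have e2 : Real.log 2 < 1 := by linarith [Real.log_two_lt_d9]
      linarith
    rw [mul_pow, ← pow_mul]
    have e1 : (M : ℝ) ^ (k' + 1) ≤ 2 ^ k0 * P := by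
      calc (M : ℝ) ^ (k' + 1) ≤ (2 * N) ^ (k' + 1) := by gcongr
        _ = 2 ^ (k' + 1) * P := by rw [mul_pow]
        _ ≤ 2 ^ k0 * P := by
          have : (2 : ℝ) ^ (k' + 1) ≤ 2 ^ k0 := pow_le_pow_right₀ (by norm_num) hkk
          gcongr
    have e2 : (1 + Real.log M) ^ (k' * (k' + 1)) ≤ 3 ^ (k0 * k0) * Λ := by
      have e3 : k' * (k' + 1) ≤ k0 * k0 := Nat.mul_le_mul (by omega) hkk
      calc (1 + Real.log M) ^ (k' * (k' + 1)) ≤ (1 + Real.log M) ^ (k0 * k0) := pow_le_pow_right₀ hlM e3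
        _ ≤ (3 * Real.log T) ^ (k0 * k0) := pow_le_pow_left₀ (by linarith) hlM2 _
        _ = _ := by rw [mul_pow]
    calc (M : ℝ) ^ (k' + 1) * (1 + Real.log M) ^ (k' * (k' + 1))
        ≤ (2 ^ k0 * P) * (3 ^ (k0 * k0) * Λ) := by gcongr
      _ = _ := by ring
  -- Halász-Montgomery
  have hL1 : 1 ≤ (N / 2) ^ (k' + 1) := by
    have e1 := h2 T hTT2
    rw [pow_zero, mul_one] at e1
    have e2 : (2 : ℝ) ^ (k' + 1) ≤ 2 ^ k0 := pow_le_pow_right₀ (by norm_num) hkk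
    rw [div_pow, le_div_iff₀ (by positivity), one_mul]
    exact e2.trans (e1.trans hP1)
  have hsupp : ∀ n : ℕ, c n ≠ 0 → (N / 2) ^ (k' + 1) ≤ n ∧ (n : ℝ) ≤ 4 ^ k0 * (N / 2) ^ (k' + 1) := by
    intro n hn
    obtain ⟨e1, e2⟩ := hc1 n hn
    refine ⟨e1, ?_⟩
    have e3 : (n : ℝ) ≤ (M : ℝ) ^ (k' + 1) := by exact_mod_cast e2
    calc (n : ℝ) ≤ (M : ℝ) ^ (k' + 1) := e3
      _ ≤ (2 * N) ^ (k' + 1) := by gcongr
      _ = 4 ^ (k' + 1) * (N / 2) ^ (k' + 1) := by rw [← mul_pow]; congr 1; ring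
      _ ≤ 4 ^ k0 * (N / 2) ^ (k' + 1) := by
          have : (4 : ℝ) ^ (k' + 1) ≤ 4 ^ k0 := pow_le_pow_right₀ (by norm_num) hkk
          gcongr
  have hR : Real.sqrt T' ≤ T ^ (16 / 25 : ℝ) := by
    rw [Real.sqrt_le_left (by positivity), ← Real.rpow_natCast, ← Real.rpow_mul hT0.le]
    have e0 : (16 / 25 : ℝ) * ((2 : ℕ) : ℝ) = 32 / 25 := by norm_num
    rw [e0]
    exact hT'2
  have key : ∀ W : Finset ℝ, (∀ t ∈ W, t ∈ E) → Sep W →
      ∑ t ∈ W, ‖PB a N t‖ ^ (2 * (k' + 1)) ≤ 2 * (D * Λ) * P ^ 2 := by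
    intro W hWE hW
    have e1 := hHM T' T' ((N / 2) ^ (k' + 1)) (M ^ (k' + 1)) c W hT' hL1 hsupp hW
      (fun t ht => ⟨(hE (hWE t ht)).1, by linarith [(hE (hWE t ht)).2]⟩)
    have e2 : ∀ t, ‖Dp (M ^ (k' + 1)) c t‖ ^ 2 = ‖PB a N t‖ ^ (2 * (k' + 1)) := by
      intro t
      rw [← hc2 t, norm_pow, ← pow_mul, mul_comm]
      rfl
    simp only [e2] at e1
    have e3 : (N / 2) ^ (k' + 1) ≤ P := by
      rw [hP]
      gcongr
      linarith
    refine Nzq.arith T P (Real.sqrt T') (D * Λ) W.card _ hT1' hP1 hR (by positivity) (by positivity) ?_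
      (by positivity) ?_ ?_
    · have := h1 T hTT1
      rw [← mul_assoc]
      exact this
    · calc (W.card : ℝ) * P ^ (99 / 50 : ℝ) = ∑ t ∈ W, P ^ (99 / 50 : ℝ) := by
            rw [Finset.sum_const, nsmul_eq_mul]
        _ ≤ _ := by
            apply Finset.sum_le_sum
            intro t ht
            have e4 := hV t (hWE t ht)
            calc P ^ (99 / 50 : ℝ) = (N ^ (99 / 100 : ℝ)) ^ (2 * (k' + 1)) := by
                  rw [hP, ← Real.rpow_natCast, ← Real.rpow_natCast, ← Real.rpow_mul hN.le, ← Real.rpow_mul hN.le]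
                  congr 1
                  push_cast
                  ring
              _ ≤ _ := pow_le_pow_left₀ (by positivity) e4 _
    · refine e1.trans ?_
      calc C1 * ((N / 2) ^ (k' + 1) + W.card * Real.sqrt T') * ∑ n ∈ Finset.Icc 1 (M ^ (k' + 1)), ‖c n‖ ^ 2
          ≤ C1 * (P + W.card * Real.sqrt T') * (2 ^ k0 * 3 ^ (k0 * k0) * Λ * P) := by gcongr
        _ = D * Λ * (P + W.card * Real.sqrt T') * P := by rw [hD]; ring
  -- the integral
  obtain ⟨W, hWE, hW, hint⟩ := disc E hEc (fun t => (‖PB a N t‖ / N) ^ (2 * (k' + 1))) (by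
    apply Continuous.pow
    apply Continuous.div_const
    apply Continuous.norm
    unfold PB
    unfold Dp
    refine continuous_finsetSum _ fun n hn => ?_
    rw [Finset.mem_Icc] at hn
    have hn0 : (n : ℂ) ≠ 0 := by
      have : n ≠ 0 := by omega
      exact_mod_cast this
    exact continuous_const.mul (Continuous.const_cpow (by fun_prop) (Or.inl hn0))) (fun t => by positivity)
  refine hint.trans ?_
  have e5 : ∑ t ∈ W, (‖PB a N t‖ / N) ^ (2 * (k' + 1)) = (∑ t ∈ W, ‖PB a N t‖ ^ (2 * (k' + 1))) / P ^ 2 := by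
    rw [Finset.sum_div]
    refine Finset.sum_congr rfl fun t _ => ?_
    rw [div_pow, hP, ← pow_mul, mul_comm (k' + 1) 2]
  rw [e5, Real.rpow_natCast]
  have e6 := key W hWE hW
  have e7 : (∑ t ∈ W, ‖PB a N t‖ ^ (2 * (k' + 1))) / P ^ 2 ≤ 2 * (D * Λ) := by
    rw [div_le_iff₀ (by positivity)]
    exact e6
  calc 2 * ((∑ t ∈ W, ‖PB a N t‖ ^ (2 * (k' + 1))) / P ^ 2) ≤ 4 * D * Λ := by linarith
    _ ≤ max (max T1 T2) (max (4 * D) (Real.exp 2)) * Λ := by
        have : 4 * D ≤ max (max T1 T2) (max (4 * D) (Real.exp 2)) := le_max_of_le_right (le_max_left _ _)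
        gcongr

end Pool.Agent.Work.MP_a8fbd7_nt.OX.SQ
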