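import Mathlib
import Pool.Agent.Work.MP_a8fbd7_nt.OX.SQ.Stmts

/-!
MP_a8fbd7_nt, block OX, part SQ: the pointwise inequality of the near zone
(modification of `OX/CELL/I_Pw.lean` of helper63).  Author: helper24.
-/

set_option autoImplicit false

noncomputable section

namespace Pool.Agent.Work.MP_a8fbd7_nt.OX.SQ

open Pool.Agent.Work.MP_a8fbd7_nt.OX

theorem iPw : StPw := by
  intro β m b y kk Λ x hβ hβ' hΛ hb hsum hsmall hk1 hk2 hy hx
  obtain ⟨i0, hi0⟩ := hx
  have : Nonempty (Fin m) := ⟨i0⟩
  obtain ⟨j0, hj0⟩ := Finite.exists_min (fun i => y i / b i)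
  have hb0 : ∀ i, 0 < b i := fun i => (hb i).1
  have hy0 : ∀ i, 0 ≤ y i := fun i => hΛ.trans (hy i)
  set ρ : ℝ := y j0 / b j0 with hρ
  have hρ0 : 0 ≤ ρ := div_nonneg (hy0 j0) (hb0 j0).le
  have hρy : ∀ i, ρ * b i ≤ y i := by
    intro i
    have := hj0 i
    rwa [le_div_iff₀ (hb0 i)] at this
  have hyj0 : y j0 = ρ * b j0 := by rw [hρ, div_mul_cancel₀ _ (hb0 j0).ne']
  have hρx : ρ ≤ x := by
    have h1 := hρy i0
    have h2 := hb0 i0
    nlinarith
  have hx0 : 0 ≤ x := hρ0.trans hρx
  have htot : ρ * (2 - β / 4000) ≤ ∑ i, y i := by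
    calc ρ * (2 - β / 4000) ≤ ρ * ∑ i, b i := by gcongr
      _ = ∑ i, ρ * b i := by rw [Finset.mul_sum]
      _ ≤ ∑ i, y i := Finset.sum_le_sum fun i _ => hρy i
  by_cases h1 : b j0 ≤ 99 / 200
  · refine ⟨j0, ?_, ?_⟩
    · rw [hyj0]
      have := hb0 j0
      have : ρ * b j0 ≤ x * b j0 := by gcongr
      nlinarith [mul_nonneg hx0 (hb0 j0).le]
    · have h2 := hk1 j0 h1
      have h3 := hy j0
      have h4 := hb0 j0
      -- `2 kk y = 2 (kk b) ρ`
      have h5 : 2 * (kk j0 : ℝ) * y j0 ≤ 99 / 50 * ρ := by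
        rw [hyj0]
        nlinarith
      have h6 : Λ ≤ 99 / 200 * ρ := by
        rw [hyj0] at h3
        nlinarith
      nlinarith
  · push Not at h1
    by_cases h2 : ∃ l, b l ≤ 41 / 100 ∧ y l ≤ 201 / 200 * ρ * b l
    · obtain ⟨l, hl1, hl2⟩ := h2
      refine ⟨l, ?_, ?_⟩
      · have := hb0 l
        have : ρ * b l ≤ x * b l := by gcongr
        nlinarith
      · have h3 := hk1 l (by linarith)
        have h4 := hb0 l
        have h5 : 2 * (kk l : ℝ) * y l ≤ 99 / 50 * (201 / 200 * ρ) := by
          have h6 : 2 * (kk l : ℝ) * y l ≤ 2 * kk l * (201 / 200 * ρ * b l) := by gcongr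
          have h7 : 0 ≤ 201 / 200 * ρ := by positivity
          nlinarith
        have h6 : Λ ≤ 41 / 100 * (201 / 200 * ρ) := by
          have := hy l
          nlinarith
        nlinarith
    · push Not at h2
      refine ⟨j0, ?_, ?_⟩
      · rw [hyj0]
        have : ρ * b j0 ≤ x * b j0 := by
          have := hb0 j0
          gcongr
        nlinarith [mul_nonneg hx0 (hb0 j0).le]
      · classical
        have h3 : ρ * (2 - β / 4000) + ρ * (β / 200) ≤ ∑ i, y i := by
          calc ρ * (2 - β / 4000) + ρ * (β / 200)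
              ≤ ρ * ∑ i, b i + ρ * ((∑ i ∈ Finset.univ.filter (fun i => b i ≤ 41 / 100), b i) / 200) := by
                have : ρ * (2 - β / 4000) ≤ ρ * ∑ i, b i := by gcongr
                have : ρ * (β / 200) ≤ ρ * ((∑ i ∈ Finset.univ.filter (fun i => b i ≤ 41 / 100), b i) / 200) := by
                  have h' : β ≤ ∑ i ∈ Finset.univ.filter (fun i => b i ≤ 41 / 100), b i := by
                    convert hsmall using 2
                  gcongr
                linarith
            _ = ∑ i, (ρ * b i + if b i ≤ 41 / 100 then ρ / 200 * b i else 0) := by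
                rw [Finset.sum_add_distrib, ← Finset.sum_filter, ← Finset.mul_sum, ← Finset.mul_sum]
                ring
            _ ≤ ∑ i, y i := by
                apply Finset.sum_le_sum
                intro i _
                split_ifs with h
                · have := h2 i h
                  linarith
                · have := hρy i
                  linarith
        rw [hk2 j0 h1]
        have h4 := hy j0
        have h5 := (hb j0).2
        have h6 : 2 * ((2 : ℕ) : ℝ) * y j0 ≤ ρ * (2 + β / 1000) := by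
          rw [hyj0]
          push_cast
          nlinarith
        have h7 : Λ ≤ ρ * (1 / 2 + β / 4000) := by
          rw [hyj0] at h4
          nlinarith
        have h8 : β / 200 * Λ ≤ β / 200 * (ρ * (1 / 2 + β / 4000)) := by gcongr
        nlinarith [mul_nonneg hρ0 hβ.le, mul_nonneg (mul_nonneg hρ0 hβ.le) hβ.le]

end Pool.Agent.Work.MP_a8fbd7_nt.OX.SQ
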