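import Mathlib
import Pool.Agent.Work.MP_a8fbd7_nt.OX.SQ.Stmts
import Pool.Agent.Work.MP_a8fbd7_nt.OX.ASM.I_AA

/-!
MP_a8fbd7_nt, block OX, part SQ, item RL (reflection of the very long smooth blocks).  Author: helper38.
-/

set_option autoImplicit false

open MeasureTheory Set Filter Topology

noncomputable section

namespace Pool.Agent.Work.MP_a8fbd7_nt.OX.SQ

open Pool.Agent.Work.MP_56b8f5_nt.UC (IsWt Bl Dp Om psi eta Sep)
open Pool.Agent.Work.MP_a8fbd7_nt.OX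
open Pool.Agent.Work.MP_a8fbd7_nt.OX.ASM

namespace RLq

/-- lengths: the factors `q i = L i / N i` (`i ∈ I`) and `1 / N i` (otherwise) -/
theorem prod_q {l : ℕ} (R I : Finset (Fin l)) (hIR : I ⊆ R) (N L : Fin l → ℝ) (hN : ∀ i ∈ R, 0 < N i) :
    ∏ i ∈ I, L i = (∏ i ∈ R, N i) * ∏ i ∈ R, ((if i ∈ I then L i else 1) / N i) := by
  classical
  rw [← Finset.prod_mul_distrib]
  have h1 : ∀ i ∈ R, N i * ((if i ∈ I then L i else 1) / N i) = if i ∈ I then L i else 1 := by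
    intro i hi
    have := (hN i hi).ne'
    field_simp
  rw [Finset.prod_congr rfl h1, Finset.prod_ite_mem, Finset.inter_eq_right.2 hIR]

theorem sqrt_prod {ι : Type} (K : Finset ι) (x : ι → ℝ) (hx : ∀ i ∈ K, 0 < x i) :
    ∏ i ∈ K, Real.sqrt (x i) = Real.sqrt (∏ i ∈ K, x i) := by
  classical
  induction K using Finset.induction_on with
  | empty => simp
  | insert i K hi ih =>
    rw [Finset.prod_insert hi, Finset.prod_insert hi, ih fun j hj => hx j (Finset.mem_insert_of_mem hj),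
      Real.sqrt_mul (hx i (Finset.mem_insert_self _ _)).le]

/-- the estimates of the lengths -/
theorem qbound (h κ T T' Cr N L : ℝ) (hT : 1 ≤ T) (hh : 1 ≤ h) (hκ : 0 < κ) (hκ1 : κ ≤ 1 / 10000) (hCr : 1 ≤ Cr)
    (hCrT : Cr ≤ T ^ κ) (hT' : T' ≤ T ^ (h + κ)) (hN : T ^ (h / 2 + 3 / 100) ≤ N) (hL : L * N ≤ Cr * T') :
    L ≤ T ^ (h / 2 - 1 / 40) ∧ L / N ≤ T ^ (-(11 / 200) : ℝ) := by
  have hT0 : 0 < T := by linarith
  have hp : 0 < T ^ (h / 2 + 3 / 100) := Real.rpow_pos_of_pos hT0 _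
  have hN0 : 0 < N := lt_of_lt_of_le hp hN
  have h1 : L * N ≤ T ^ (h + 2 * κ) := by
    refine hL.trans ?_
    have e : T ^ (h + 2 * κ) = T ^ κ * T ^ (h + κ) := by
      rw [← Real.rpow_add hT0]
      congr 1
      ring
    rw [e]
    calc Cr * T' ≤ Cr * T ^ (h + κ) := mul_le_mul_of_nonneg_left hT' (by linarith)
      _ ≤ T ^ κ * T ^ (h + κ) := mul_le_mul_of_nonneg_right hCrT (Real.rpow_pos_of_pos hT0 _).le
  have h2 : L ≤ T ^ (h / 2 - 3 / 100 + 2 * κ) := by
    have h3 : L * N ≤ T ^ (h / 2 - 3 / 100 + 2 * κ) * N := by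
      refine h1.trans ?_
      have e : T ^ (h + 2 * κ) = T ^ (h / 2 - 3 / 100 + 2 * κ) * T ^ (h / 2 + 3 / 100) := by
        rw [← Real.rpow_add hT0]
        congr 1
        ring
      rw [e]
      exact mul_le_mul_of_nonneg_left hN (Real.rpow_pos_of_pos hT0 _).le
    exact le_of_mul_le_mul_right h3 hN0
  constructor
  · refine h2.trans (Real.rpow_le_rpow_of_exponent_le hT (by linarith))
  · rw [div_le_iff₀ hN0]
    refine h2.trans ?_
    calc T ^ (h / 2 - 3 / 100 + 2 * κ) ≤ T ^ (-(11 / 200) + (h / 2 + 3 / 100)) :=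
          Real.rpow_le_rpow_of_exponent_le hT (by linarith)
      _ = T ^ (-(11 / 200) : ℝ) * T ^ (h / 2 + 3 / 100) := Real.rpow_add hT0 _ _
      _ ≤ T ^ (-(11 / 200) : ℝ) * N := mul_le_mul_of_nonneg_left hN (Real.rpow_pos_of_pos hT0 _).le

/-- a product of numbers in `[0, 1]` is at most each of its factors -/
theorem prod_le_of_mem {ι : Type} [DecidableEq ι] (R : Finset ι) (q : ι → ℝ) (h0 : ∀ i ∈ R, 0 ≤ q i)
    (h1 : ∀ i ∈ R, q i ≤ 1) (i : ι) (hi : i ∈ R) : ∏ j ∈ R, q j ≤ q i := by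
  rw [← Finset.mul_prod_erase R q hi]
  have h2 : ∏ j ∈ R.erase i, q j ≤ 1 :=
    Finset.prod_le_one (fun j hj => h0 j (Finset.mem_of_mem_erase hj)) fun j hj => h1 j (Finset.mem_of_mem_erase hj)
  calc q i * ∏ j ∈ R.erase i, q j ≤ q i * 1 := mul_le_mul_of_nonneg_left h2 (h0 i hi)
    _ = q i := mul_one _

/-- the gain: from `X ≤ C √PR T^{2hκ} J / √PI` to the lower bound of `J` -/
theorem gain (h κ ε T Cr c X J PR PI Po ν : ℝ) (hT : 1 ≤ T) (hh1 : 1 ≤ h) (hh : h ≤ 127 / 100) (hκ : 0 < κ) (hε : 10 * κ ≤ ε)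
    (hCr : 1 ≤ Cr) (hCrT : Cr ≤ T ^ κ) (hc : 0 ≤ c) (hJ : 0 ≤ J) (hPR : 0 < PR) (hPI : 0 < PI) (hPo0 : 0 < Po)
    (hPo : Po * PR ≤ T ^ (2 + κ)) (hν : T ^ ν = Po * PI) (hX : c * T ^ (2 - κ) ≤ X)
    (hXJ : X ≤ Cr * Real.sqrt PR * (T ^ h) ^ (2 * κ) * (J / Real.sqrt PI)) : c * T ^ (1 + ν / 2 - ε) ≤ J := by
  have hT0 : 0 < T := by linarith
  have hsR : 0 < Real.sqrt PR := Real.sqrt_pos.2 hPR
  have hsI : 0 < Real.sqrt PI := Real.sqrt_pos.2 hPI
  have hso : 0 < Real.sqrt Po := Real.sqrt_pos.2 hPo0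
  have e1 : T ^ (ν / 2) = Real.sqrt Po * Real.sqrt PI := by
    rw [← Real.sqrt_mul hPo0.le, ← hν, Real.sqrt_eq_rpow, ← Real.rpow_mul hT0.le]
    congr 1
    ring
  have e2 : Real.sqrt Po * Real.sqrt PR ≤ T ^ (1 + κ / 2) := by
    rw [← Real.sqrt_mul hPo0.le]
    refine (Real.sqrt_le_sqrt hPo).trans (le_of_eq ?_)
    rw [Real.sqrt_eq_rpow, ← Real.rpow_mul hT0.le]
    congr 1
    ring
  have e3 : (T ^ h) ^ (2 * κ) = T ^ (2 * h * κ) := by
    rw [← Real.rpow_mul hT0.le]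
    congr 1
    ring
  rw [e3] at hXJ
  have h1 : c * T ^ (2 - κ) * T ^ (ν / 2) ≤ T ^ κ * T ^ (2 * h * κ) * T ^ (1 + κ / 2) * J := by
    calc c * T ^ (2 - κ) * T ^ (ν / 2) ≤ (Cr * Real.sqrt PR * T ^ (2 * h * κ) * (J / Real.sqrt PI)) * T ^ (ν / 2) :=
          mul_le_mul_of_nonneg_right (hX.trans hXJ) (Real.rpow_pos_of_pos hT0 _).le
      _ = Cr * T ^ (2 * h * κ) * (Real.sqrt Po * Real.sqrt PR) * J := by
          rw [e1]
          field_simp
      _ ≤ T ^ κ * T ^ (2 * h * κ) * T ^ (1 + κ / 2) * J := by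
          apply mul_le_mul_of_nonneg_right _ hJ
          apply mul_le_mul _ e2 (by positivity) (by positivity)
          exact mul_le_mul_of_nonneg_right hCrT (by positivity)
  have e4 : T ^ κ * T ^ (2 * h * κ) * T ^ (1 + κ / 2) = T ^ (κ + 2 * h * κ + (1 + κ / 2)) := by
    rw [← Real.rpow_add hT0, ← Real.rpow_add hT0]
  have e5 : c * T ^ (2 - κ) * T ^ (ν / 2) = (c * T ^ (1 + ν / 2 - ε)) * T ^ (1 - κ + ε) := by
    rw [mul_assoc, mul_assoc, ← Real.rpow_add hT0, ← Real.rpow_add hT0]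
    congr 2
    ring
  rw [e4, e5] at h1
  have h2 : T ^ (κ + 2 * h * κ + (1 + κ / 2)) ≤ T ^ (1 - κ + ε) :=
    Real.rpow_le_rpow_of_exponent_le hT (by nlinarith)
  have h3 : (c * T ^ (1 + ν / 2 - ε)) * T ^ (1 - κ + ε) ≤ J * T ^ (1 - κ + ε) := by
    refine h1.trans ?_
    rw [mul_comm]
    exact mul_le_mul_of_nonneg_left h2 hJ
  exact le_of_mul_le_mul_right h3 (Real.rpow_pos_of_pos hT0 _)

end RLq

set_option maxHeartbeats 8000000 in
theorem iRL (hRp : ASM.StRp) (hSm : StSm) : StRLq := by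
  classical
  intro h hh1 hh2 ε hε hε1
  have hκ : 0 < ε / 10 := by positivity
  obtain ⟨Cr, hCr, hrp⟩ := AAx.rp_fin hRp (ε / 10) hκ (by linarith)
  obtain ⟨Cs, hCs, hsm⟩ := hSm ε hε (by linarith)
  obtain ⟨C0, hC0⟩ := eventually_atTop.1 (AAx.ev_pow Cr (ε / 10) hκ)
  refine ⟨ε / 10, hκ, le_refl _, max (max C0 Cr) (max Cs 2),
    le_max_of_le_right (le_max_of_le_right (by norm_num)), ?_⟩
  set κ : ℝ := ε / 10 with hκdef
  intro T T' η m l a N N' S g hTC hη hηκ hT'1 hT'2 hl1 hl3 hblk hN hN' hprod hSpos hmain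
  have hTC0 : C0 ≤ T := (le_max_left _ _).trans ((le_max_left _ _).trans hTC)
  have hTCr : Cr ≤ T := (le_max_right _ _).trans ((le_max_left _ _).trans hTC)
  have hTCs : Cs ≤ T := (le_max_left _ _).trans ((le_max_right _ _).trans hTC)
  have hT2 : 2 ≤ T := (le_max_right _ _).trans ((le_max_right _ _).trans hTC)
  have hT0 : 0 < T := by linarith
  have hT1 : 1 ≤ T := by linarith
  have hCrT : Cr ≤ T ^ κ := hC0 T hTC0
  have hκ1 : κ ≤ 1 / 10000 := by rw [hκdef]; linarith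
  have hTh : T ≤ T ^ h := by
    calc T = T ^ (1 : ℝ) := (Real.rpow_one T).symm
      _ ≤ T ^ h := Real.rpow_le_rpow_of_exponent_le hT1 hh1
  have hT'0 : 0 < T' := lt_of_lt_of_le (Real.rpow_pos_of_pos hT0 _) hT'1
  have hle : T' ≤ 2 * T' := by linarith
  have hN0 : ∀ i, 0 < N i := fun i => lt_of_lt_of_le (by positivity) (hN i).1
  have hN'0 : ∀ i, 0 < N' i := fun i => lt_of_lt_of_le (Real.rpow_pos_of_pos hT0 _) (hN' i).1
  -- the very long blocks
  set R : Finset (Fin l) := Finset.univ.filter (fun i => T ^ (h / 2 + 3 / 100) ≤ N' i) with hR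
  have hRmem : ∀ i, i ∈ R ↔ T ^ (h / 2 + 3 / 100) ≤ N' i := by
    intro i
    rw [hR, Finset.mem_filter]
    simp
  have hRcard : R.card ≤ 3 := by
    refine (Finset.card_le_univ R).trans ?_
    simpa using hl3
  set P : ℝ → ℝ := fun t => ∏ i, ‖PB (a i) (N i) t‖ with hP
  set Q : ℝ → ℝ := fun t => ∏ i ∈ Finset.univ \ R, ‖Bl psi (N' i) t‖ with hQ
  set H : ℝ → ℝ := fun t => ‖GS S g t‖ * (P t * Q t) with hH
  have hBlc : ∀ N : ℝ, 0 < N → Continuous (Bl psi N) :=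
    (Pool.Agent.Work.MP_56b8f5_nt.UC.iBc psi Rp_aux.isWt_psi).2.1
  have hPc : Continuous P := continuous_finsetProd _ fun i _ => (F4_aux.cont_Dp _ _).norm
  have hQc : Continuous Q := continuous_finsetProd _ fun i _ => (hBlc _ (hN'0 i)).norm
  have hHc : Continuous H := (F4_aux.cont_GS S g hSpos).norm.mul (hPc.mul hQc)
  have hP0 : ∀ t, 0 ≤ P t := fun t => Finset.prod_nonneg fun i _ => norm_nonneg _
  have hQ0 : ∀ t, 0 ≤ Q t := fun t => Finset.prod_nonneg fun i _ => norm_nonneg _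
  have hH0 : ∀ t, 0 ≤ H t := fun t => mul_nonneg (norm_nonneg _) (mul_nonneg (hP0 t) (hQ0 t))
  obtain ⟨I, b, L, hIR, hI, hint⟩ := hrp (Fin l) R (T ^ h) T' N' H hRcard (hTCr.trans hTh)
    (by
      rw [← Real.rpow_mul hT0.le]
      exact (Real.rpow_le_rpow_of_exponent_le hT1 (by linarith)).trans hT'1)
    (by
      rw [← Real.rpow_mul hT0.le]
      exact hT'2.trans (Real.rpow_le_rpow_of_exponent_le hT1 (by nlinarith)))
    (by
      intro i hi
      constructor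
      · rw [← Real.rpow_mul hT0.le]
        refine le_trans (Real.rpow_le_rpow_of_exponent_le hT1 ?_) ((hRmem i).1 hi)
        nlinarith
      · refine (hN' i).2.trans ?_
        rw [← Real.rpow_natCast (T ^ h) 3, ← Real.rpow_mul hT0.le]
        apply Real.rpow_le_rpow_of_exponent_le hT1
        push_cast
        linarith) hHc hH0
  have hL0 : ∀ i ∈ I, 0 < L i := fun i hi => lt_of_lt_of_le (by positivity) (hI i hi).2.1
  have hLb : ∀ i ∈ I, L i ≤ T ^ (h / 2 - 1 / 40) ∧ L i / N' i ≤ T ^ (-(11 / 200) : ℝ) := fun i hi =>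
    RLq.qbound h κ T T' Cr (N' i) (L i) hT1 hh1 hκ hκ1 hCr hCrT hT'2 ((hRmem i).1 (hIR hi)) (hI i hi).2.2.2
  -- lengths
  set q : Fin l → ℝ := fun i => (if i ∈ I then L i else 1) / N' i with hq
  have hq0 : ∀ i ∈ R, 0 ≤ q i := by
    intro i _
    simp only [hq]
    apply div_nonneg _ (hN'0 i).le
    split_ifs with h1
    · exact (hL0 i h1).le
    · exact zero_le_one
  have hqs : ∀ i ∈ R, q i ≤ T ^ (-(11 / 200) : ℝ) := by
    intro i hi
    simp only [hq]
    split_ifs with h1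
    · exact (hLb i h1).2
    · have h2 := (hRmem i).1 hi
      have hp : 0 < T ^ (h / 2 + 3 / 100) := Real.rpow_pos_of_pos hT0 _
      calc 1 / N' i ≤ 1 / T ^ (h / 2 + 3 / 100) := one_div_le_one_div_of_le hp h2
        _ = T ^ (-(h / 2 + 3 / 100)) := by rw [Real.rpow_neg hT0.le, one_div]
        _ ≤ T ^ (-(11 / 200) : ℝ) := Real.rpow_le_rpow_of_exponent_le hT1 (by linarith)
  have hq1 : ∀ i ∈ R, q i ≤ 1 := fun i hi =>
    (hqs i hi).trans (Real.rpow_le_one_of_one_le_of_nonpos hT1 (by norm_num))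
  set PN : ℝ := ∏ i, N i with hPN
  set PQ' : ℝ := ∏ i ∈ Finset.univ \ R, N' i with hPQ'
  set PR : ℝ := ∏ i ∈ R, N' i with hPR
  set PI : ℝ := ∏ i ∈ I, L i with hPI
  have hPN0 : 0 < PN := Finset.prod_pos fun i _ => hN0 i
  have hPQ0 : 0 < PQ' := Finset.prod_pos fun i _ => hN'0 i
  have hPR0 : 0 < PR := Finset.prod_pos fun i _ => hN'0 i
  have hPI0 : 0 < PI := Finset.prod_pos hL0
  have hPall : ∏ i, N' i = PQ' * PR := by
    rw [hPQ', hPR, Finset.prod_sdiff (Finset.subset_univ R)]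
  have hPIq : PI = PR * ∏ i ∈ R, q i := RLq.prod_q R I hIR N' L fun i _ => hN'0 i
  have hPo : (PN * PQ') * PR ≤ T ^ (2 + κ) := by
    rw [hPall, ← mul_assoc] at hprod
    exact hprod
  have hV0 : 0 < (PN * PQ') * PI := by positivity
  have hVq : (PN * PQ') * PI ≤ T ^ (2 + κ) * ∏ i ∈ R, q i := by
    rw [hPIq, ← mul_assoc]
    exact mul_le_mul_of_nonneg_right hPo (Finset.prod_nonneg hq0)
  set ν : ℝ := Real.logb T ((PN * PQ') * PI) with hν
  have hTne : T ≠ 1 := by linarith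
  have hTν : T ^ ν = (PN * PQ') * PI := Real.rpow_logb hT0 hTne hV0
  have hνle : ∀ x : ℝ, (PN * PQ') * PI ≤ T ^ x → ν ≤ x := fun x hx => by
    rw [hν, Real.logb_le_iff_le_rpow (by linarith) hV0]
    exact hx
  -- the integral
  set J : ℝ := ∫ t in T'..(2 * T'), H t * ∏ i ∈ I, ‖PB (b i) (L i) t‖ with hJ
  have hJ0 : 0 ≤ J := by
    rw [hJ]
    apply intervalIntegral.integral_nonneg hle
    intro t _
    exact mul_nonneg (hH0 t) (Finset.prod_nonneg fun i _ => norm_nonneg _)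
  have hs3 : ∫ t in T'..(2 * T'), H t * ∏ i ∈ I, (‖PB (b i) (L i) t‖ / Real.sqrt (L i)) = J / Real.sqrt PI := by
    rw [hJ, ← intervalIntegral.integral_div]
    congr 1
    funext t
    rw [Finset.prod_div_distrib, RLq.sqrt_prod I L hL0, mul_div_assoc]
  have hs2 : ∫ t in T'..(2 * T'), ‖GS S g t‖ * ((∏ i, ‖PB (a i) (N i) t‖) * ∏ i, ‖Bl psi (N' i) t‖) =
      ∫ t in T'..(2 * T'), H t * ∏ i ∈ R, ‖Bl psi (N' i) t‖ := by
    congr 1
    funext t
    rw [← Finset.prod_sdiff (Finset.subset_univ R) (f := fun i => ‖Bl psi (N' i) t‖)]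
    simp only [hH, hP, hQ]
    ring
  have hgain : S.card * T ^ (1 + ν / 2 - ε) ≤ J := by
    refine RLq.gain h κ ε T Cr S.card _ J PR PI (PN * PQ') ν hT1 hh1 hh2 hκ (by rw [hκdef]; linarith) hCr hCrT
      (Nat.cast_nonneg _) hJ0 hPR0 hPI0 (by positivity) hPo hTν hmain ?_
    rw [hs2]
    refine hint.trans (le_of_eq ?_)
    rw [hs3, RLq.sqrt_prod R N' fun i _ => hN'0 i]
  -- the new family
  set Kr : Finset (Fin l) := (Finset.univ \ R) ∪ I with hKr
  have hdisj : Disjoint (Finset.univ \ R) I := by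
    rw [Finset.disjoint_left]
    intro i h1 h2
    exact (Finset.mem_sdiff.1 h1).2 (hIR h2)
  set K : Finset (Fin m ⊕ Fin l) := (Finset.univ : Finset (Fin m)).disjSum Kr with hK
  set aa : Fin m ⊕ Fin l → ℕ → ℂ := Sum.elim a
    (fun i => if i ∈ R then b i else fun n => ((psi ((n : ℝ) / N' i) : ℝ) : ℂ)) with haa
  set NN : Fin m ⊕ Fin l → ℝ := Sum.elim N (fun i => if i ∈ R then L i else N' i) with hNN
  set JK : Finset (Fin m ⊕ Fin l) := (Finset.univ \ R).map Function.Embedding.inr with hJK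
  have hJKmem : ∀ x, x ∈ JK ↔ ∃ k, k ∉ R ∧ Sum.inr k = x := by
    intro x
    rw [hJK, Finset.mem_map]
    constructor
    · rintro ⟨k, hk, rfl⟩
      exact ⟨k, (Finset.mem_sdiff.1 hk).2, rfl⟩
    · rintro ⟨k, hk, rfl⟩
      exact ⟨k, Finset.mem_sdiff.2 ⟨Finset.mem_univ _, hk⟩, rfl⟩
  set e : Fin K.card → Fin m ⊕ Fin l := fun i => (K.equivFin.symm i : Fin m ⊕ Fin l) with he
  have heK : ∀ i, e i ∈ K := fun i => (K.equivFin.symm i).2
  -- products over the new family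
  have hprodK : ∀ F : Fin m ⊕ Fin l → ℝ, ∏ i, F (e i) = (∏ i, F (Sum.inl i)) *
      ((∏ i ∈ Finset.univ \ R, F (Sum.inr i)) * ∏ i ∈ I, F (Sum.inr i)) := by
    intro F
    rw [← Finset.prod_union hdisj, ← Finset.prod_disjSum]
    exact AAx.prod_fin K F
  have hNNprod : ∏ i, NN (e i) = T ^ ν := by
    rw [hprodK, hTν, mul_assoc]
    congr 1
    congr 1
    · refine Finset.prod_congr rfl fun i hi => ?_
      simp only [hNN, Sum.elim_inr, if_neg (Finset.mem_sdiff.1 hi).2]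
    · refine Finset.prod_congr rfl fun i hi => ?_
      simp only [hNN, Sum.elim_inr, if_pos (hIR hi)]
  have hsmk : ∀ k, k ∉ R → IsBlk (fun n => ((psi ((n : ℝ) / N' k) : ℝ) : ℂ)) (N' k) ∧
      (∀ t : ℝ, PB (fun n => ((psi ((n : ℝ) / N' k) : ℝ) : ℂ)) (N' k) t = Bl psi (N' k) t) ∧
      M12 (fun n => ((psi ((n : ℝ) / N' k) : ℝ) : ℂ)) (N' k) T' (T ^ (2 * h + ε)) := by
    intro k hk
    have h1 : N' k < T ^ (h / 2 + 3 / 100) := by
      by_contra h2
      exact hk ((hRmem k).2 (not_lt.1 h2))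
    refine hsm T T' (N' k) h hTCs hh1 (by linarith) ?_ ?_ ?_ ?_
    · exact (Real.rpow_le_rpow_of_exponent_le hT1 (by norm_num)).trans hT'1
    · exact hT'2.trans (Real.rpow_le_rpow_of_exponent_le hT1 (by rw [hκdef]; linarith))
    · exact (Real.rpow_le_rpow_of_exponent_le hT1 (by norm_num)).trans (hN' k).1
    · exact h1.le.trans (Real.rpow_le_rpow_of_exponent_le hT1 (by linarith))
  refine ⟨ν, K.card, Finset.univ.filter (fun i => e i ∈ JK), fun i => aa (e i), fun i => NN (e i),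
    ?_, ?_, ?_, ?_, hNNprod, ?_, ?_, ?_⟩
  · intro i
    show IsBlk (aa (e i)) (NN (e i))
    have h1 := heK i
    generalize e i = x at h1
    rcases x with k | k
    · exact hblk k
    · rw [hK, Finset.inr_mem_disjSum, hKr, Finset.mem_union] at h1
      simp only [haa, hNN, Sum.elim_inr]
      rcases h1 with h1 | h1
      · have h2 := (Finset.mem_sdiff.1 h1).2
        rw [if_neg h2, if_neg h2]
        exact (hsmk k h2).1
      · rw [if_pos (hIR h1), if_pos (hIR h1)]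
        exact (hI k h1).1
  · intro i
    show T ^ η / 2 ≤ NN (e i)
    have h1 := heK i
    generalize e i = x at h1
    rcases x with k | k
    · exact (hN k).1
    · rw [hK, Finset.inr_mem_disjSum, hKr, Finset.mem_union] at h1
      simp only [hNN, Sum.elim_inr]
      rcases h1 with h1 | h1
      · have h2 := (Finset.mem_sdiff.1 h1).2
        rw [if_neg h2]
        have h3 : T ^ η ≤ T ^ (1 / 2 : ℝ) := Real.rpow_le_rpow_of_exponent_le hT1 (by linarith)
        have h4 : 0 < T ^ η := Real.rpow_pos_of_pos hT0 _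
        have h5 := (hN' k).1
        linarith
      · rw [if_pos (hIR h1)]
        refine le_trans ?_ (hI k h1).2.1
        apply div_le_div_of_nonneg_right _ (by norm_num)
        rw [← Real.rpow_mul hT0.le]
        exact Real.rpow_le_rpow_of_exponent_le hT1 (by nlinarith)
  · intro i hi
    have h1 := (Finset.mem_filter.1 hi).2
    show T ^ (1 / 2 : ℝ) ≤ NN (e i) ∧ NN (e i) ≤ T ^ (h / 2 + 3 / 100) ∧ M12 (aa (e i)) (NN (e i)) T' (T ^ (2 * h + ε))
    generalize e i = x at h1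
    obtain ⟨k, hk, rfl⟩ := (hJKmem x).1 h1
    simp only [haa, hNN, Sum.elim_inr, if_neg hk]
    refine ⟨(hN' k).1, ?_, (hsmk k hk).2.2⟩
    by_contra h2
    exact hk ((hRmem k).2 (not_le.1 h2).le)
  · intro i hi
    have h0 : e i ∉ JK := fun h1 => hi (Finset.mem_filter.2 ⟨Finset.mem_univ _, h1⟩)
    show NN (e i) ≤ T ^ (101 / 200 : ℝ) ∨ (NN (e i) ≤ T ^ (h / 2 - 1 / 40) ∧
      T ^ ν ≤ T ^ (2 - (h / 2 + 1 / 40)) * NN (e i))
    have h1 := heK i
    generalize e i = x at h0 h1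
    rcases x with k | k
    · left
      exact (hN k).2
    · right
      rw [hK, Finset.inr_mem_disjSum, hKr, Finset.mem_union] at h1
      have hkI : k ∈ I := by
        rcases h1 with h1 | h1
        · exact absurd ((hJKmem _).2 ⟨k, (Finset.mem_sdiff.1 h1).2, rfl⟩) h0
        · exact h1
      simp only [hNN, Sum.elim_inr, if_pos (hIR hkI)]
      refine ⟨(hLb k hkI).1, ?_⟩
      rw [hTν]
      refine hVq.trans ?_
      have h2 : ∏ i ∈ R, q i ≤ q k := RLq.prod_le_of_mem R q hq0 hq1 k (hIR hkI)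
      have h3 : q k = L k / N' k := by simp only [hq, if_pos hkI]
      have h4 := (hRmem k).1 (hIR hkI)
      have hp : 0 < T ^ (h / 2 + 3 / 100) := Real.rpow_pos_of_pos hT0 _
      have h5 : L k / N' k ≤ L k / T ^ (h / 2 + 3 / 100) :=
        div_le_div_of_nonneg_left (hL0 k hkI).le hp h4
      calc T ^ (2 + κ) * ∏ i ∈ R, q i ≤ T ^ (2 + κ) * (L k / T ^ (h / 2 + 3 / 100)) := by
            apply mul_le_mul_of_nonneg_left _ (by positivity)
            rw [h3] at h2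
            exact h2.trans h5
        _ = T ^ (2 + κ - (h / 2 + 3 / 100)) * L k := by
            rw [Real.rpow_sub hT0 (2 + κ)]
            ring
        _ ≤ T ^ (2 - (h / 2 + 1 / 40)) * L k := by
            apply mul_le_mul_of_nonneg_right _ (hL0 k hkI).le
            exact Real.rpow_le_rpow_of_exponent_le hT1 (by linarith)
  · apply hνle
    refine hVq.trans ?_
    calc T ^ (2 + κ) * ∏ i ∈ R, q i ≤ T ^ (2 + κ) * 1 := by
          apply mul_le_mul_of_nonneg_left _ (by positivity)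
          exact Finset.prod_le_one hq0 hq1
      _ = T ^ (2 + κ) := mul_one _
      _ ≤ T ^ (2 + ε) := Real.rpow_le_rpow_of_exponent_le hT1 (by rw [hκdef]; linarith)
  · by_cases hRe : R.Nonempty
    · right
      obtain ⟨k, hk⟩ := hRe
      apply hνle
      refine hVq.trans ?_
      have h2 : ∏ i ∈ R, q i ≤ q k := RLq.prod_le_of_mem R q hq0 hq1 k hk
      calc T ^ (2 + κ) * ∏ i ∈ R, q i ≤ T ^ (2 + κ) * T ^ (-(11 / 200) : ℝ) :=
            mul_le_mul_of_nonneg_left (h2.trans (hqs k hk)) (by positivity)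
        _ = T ^ (2 + κ + -(11 / 200)) := (Real.rpow_add hT0 _ _).symm
        _ ≤ T ^ (2 - 1 / 20 : ℝ) := Real.rpow_le_rpow_of_exponent_le hT1 (by linarith)
    · left
      have hR0 : R = ∅ := Finset.not_nonempty_iff_eq_empty.1 hRe
      have hl0 : 0 < l := by omega
      set k0 : Fin l := ⟨0, hl0⟩ with hk0
      have hk0R : k0 ∉ R := by rw [hR0]; simp
      have hk0K : (Sum.inr k0 : Fin m ⊕ Fin l) ∈ K := by
        rw [hK, Finset.inr_mem_disjSum, hKr, Finset.mem_union]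
        exact Or.inl (Finset.mem_sdiff.2 ⟨Finset.mem_univ _, hk0R⟩)
      refine ⟨K.equivFin ⟨Sum.inr k0, hk0K⟩, Finset.mem_filter.2 ⟨Finset.mem_univ _, ?_⟩⟩
      rw [hJKmem]
      refine ⟨k0, hk0R, ?_⟩
      simp [he]
  · refine hgain.trans (le_of_eq ?_)
    rw [hJ]
    congr 1
    funext t
    rw [hprodK (fun x => ‖PB (aa x) (NN x) t‖)]
    simp only [hH]
    rw [mul_assoc, mul_assoc]
    congr 2
    congr 1
    · simp only [hQ]
      refine Finset.prod_congr rfl fun i hi => ?_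
      have h2 := (Finset.mem_sdiff.1 hi).2
      simp only [haa, hNN, Sum.elim_inr, if_neg h2]
      rw [(hsmk i h2).2.1 t]
    · refine Finset.prod_congr rfl fun i hi => ?_
      simp only [haa, hNN, Sum.elim_inr, if_pos (hIR hi)]

end Pool.Agent.Work.MP_a8fbd7_nt.OX.SQ
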