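import Mathlib
import Pool.Agent.Work.MP_a8fbd7_nt.OX.SQ.Stmts
import Pool.Agent.Work.MP_a8fbd7_nt.OX.ASM.I_Re
import Pool.Agent.Work.MP_a8fbd7_nt.OX.ASM.I_Tb
import Pool.Agent.Work.MP_56b8f5_nt.UC.I_G

/-!
# MP_a8fbd7_nt, block OX, part SQ: item Sm (smooth blocks).
-/

set_option autoImplicit false

open MeasureTheory Set Filter Topology

noncomputable section

namespace Pool.Agent.Work.MP_a8fbd7_nt.OX.SQ

open Pool.Agent.Work.MP_56b8f5_nt
open Pool.Agent.Work.MP_56b8f5_nt.UC (IsWt Bl Dp Om psi eta Sep)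
open Pool.Agent.Work.MP_a8fbd7_nt.OX
open Pool.Agent.Work.MP_a8fbd7_nt.OX.ASM

namespace Smq

/-- a constant is at most a positive power of `T` -/
lemma le_rpow {K ε T : ℝ} (hK : 1 ≤ K) (hε : 0 < ε) (hT : K ^ (1 / ε) ≤ T) : K ≤ T ^ ε := by
  have hK0 : 0 ≤ K := by linarith
  have h := Real.rpow_le_rpow (by positivity) hT hε.le
  rwa [← Real.rpow_mul hK0, one_div, inv_mul_cancel₀ hε.ne', Real.rpow_one] at h

/-- the smooth block is a block -/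
lemma blk {N : ℝ} (hN : 0 < N) : IsBlk (fun n => ((psi ((n : ℝ) / N) : ℝ) : ℂ)) N := by
  constructor
  · intro n
    rw [Complex.norm_real, Real.norm_eq_abs]
    exact Tb_aux.abs_psi_le _
  · intro n hn
    have h0 : psi ((n : ℝ) / N) ≠ 0 := by
      intro h
      apply hn
      rw [h]
      simp
    obtain ⟨h1, h2⟩ := UC.psi_supp h0
    rw [le_div_iff₀ hN] at h1
    rw [div_le_iff₀ hN] at h2
    exact ⟨by linarith, h2⟩

/-- the value of the smooth block -/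
lemma val {N : ℝ} (hN : 0 < N) (t : ℝ) :
    PB (fun n => ((psi ((n : ℝ) / N) : ℝ) : ℂ)) N t = Bl psi N t := by
  unfold PB Dp Bl
  symm
  apply tsum_eq_sum
  intro n hn
  rw [Finset.mem_Icc, not_and_or, not_le, not_le] at hn
  have h0 : psi ((n : ℝ) / N) = 0 := by
    rcases hn with hn | hn
    · have : n = 0 := by omega
      subst this
      rw [Nat.cast_zero, zero_div]
      exact Tb_aux.psi_zero
    · by_contra h
      have h2 := (UC.psi_supp h).2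
      rw [div_le_iff₀ hN] at h2
      have h3 : n ≤ ⌊2 * N⌋₊ := Nat.le_floor h2
      omega
  rw [h0]
  simp

/-- the pointwise bound for `N > T'` -/
lemma pt {C N T' t : ℝ} (hC : 1 ≤ C) (hT' : 1 ≤ T') (hN : 0 < N) (h1 : T' ≤ t) (h2 : t ≤ 2 * T')
    (h : ‖Bl psi N t‖ ≤ C * (N / (1 + t ^ 2) + Real.sqrt (1 + |t|))) :
    ‖Bl psi N t‖ ^ 12 ≤ C ^ 12 * 2 ^ 24 * (N ^ 12 / T' ^ 24 + T' ^ 6) := by
  have hT0 : 0 < T' := by linarith
  have ht0 : 0 < t := by linarith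
  have h3 : N / (1 + t ^ 2) ≤ N / T' ^ 2 := by
    apply div_le_div_of_nonneg_left hN.le (by positivity)
    nlinarith
  have h4 : Real.sqrt (1 + |t|) ≤ 2 * Real.sqrt T' := by
    rw [abs_of_pos ht0]
    have : Real.sqrt (1 + t) ≤ Real.sqrt (2 ^ 2 * T') := Real.sqrt_le_sqrt (by linarith)
    rwa [Real.sqrt_mul (by norm_num), Real.sqrt_sq (by norm_num)] at this
  have h5 : ‖Bl psi N t‖ ≤ C * (N / T' ^ 2 + 2 * Real.sqrt T') := by
    refine h.trans ?_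
    apply mul_le_mul_of_nonneg_left _ (by linarith)
    linarith
  have hs : 0 ≤ Real.sqrt T' := Real.sqrt_nonneg _
  have hs2 : Real.sqrt T' ^ 2 = T' := Real.sq_sqrt hT0.le
  set x := N / T' ^ 2 with hx
  have hx0 : 0 ≤ x := by positivity
  have h6 : ‖Bl psi N t‖ ^ 12 ≤ (C * (x + 2 * Real.sqrt T')) ^ 12 :=
    pow_le_pow_left₀ (norm_nonneg _) h5 12
  refine h6.trans ?_
  rw [mul_pow, mul_assoc]
  apply mul_le_mul_of_nonneg_left _ (by positivity)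
  have h7 : x + 2 * Real.sqrt T' ≤ 2 * max x (2 * Real.sqrt T') := by
    have := le_max_left x (2 * Real.sqrt T')
    have := le_max_right x (2 * Real.sqrt T')
    linarith
  have h8 : (x + 2 * Real.sqrt T') ^ 12 ≤ (2 * max x (2 * Real.sqrt T')) ^ 12 :=
    pow_le_pow_left₀ (by positivity) h7 12
  refine h8.trans ?_
  rw [mul_pow]
  have hx12 : x ^ 12 = N ^ 12 / T' ^ 24 := by
    rw [hx, div_pow, ← pow_mul]
  have hs12 : (2 * Real.sqrt T') ^ 12 = 2 ^ 12 * T' ^ 6 := by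
    rw [mul_pow]
    congr 1
    rw [show (12 : ℕ) = 2 * 6 by norm_num, pow_mul, hs2]
  have h9 : (max x (2 * Real.sqrt T')) ^ 12 ≤ x ^ 12 + (2 * Real.sqrt T') ^ 12 := by
    rcases le_total x (2 * Real.sqrt T') with h | h
    · rw [max_eq_right h]
      have : 0 ≤ x ^ 12 := by positivity
      linarith
    · rw [max_eq_left h]
      have : 0 ≤ (2 * Real.sqrt T') ^ 12 := by positivity
      linarith
  rw [hx12, hs12] at h9
  have hA : 0 ≤ N ^ 12 / T' ^ 24 := by positivity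
  have hB : 0 ≤ T' ^ 6 := by positivity
  have h10 : (2 : ℝ) ^ 12 * max x (2 * Real.sqrt T') ^ 12 ≤ 2 ^ 12 * (N ^ 12 / T' ^ 24 + 2 ^ 12 * T' ^ 6) :=
    mul_le_mul_of_nonneg_left h9 (by norm_num)
  refine h10.trans ?_
  nlinarith

/-- the sizes in the second case -/
lemma size {T T' N h ε : ℝ} (hT : 1 ≤ T) (hT' : 1 ≤ T') (hN : 0 < N) (hh : 1 ≤ h) (hε1 : ε ≤ 1)
    (h1 : T ^ (1 / 10 : ℝ) ≤ T') (h2 : T' ≤ T ^ (h + ε / 4)) (h3 : N ≤ T ^ (7 / 10 : ℝ)) (h4 : T' ≤ N) :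
    T' * (N ^ 12 / T' ^ 24 + T' ^ 6) ≤ 2 * T ^ (2 * h) * N ^ 6 := by
  have hT0 : 0 < T := by linarith
  have hT'0 : 0 < T' := by linarith
  have a1 : N ^ 6 ≤ T ^ (42 / 10 : ℝ) := by
    have := pow_le_pow_left₀ hN.le h3 6
    rw [← Real.rpow_natCast (T ^ (7 / 10 : ℝ)) 6, ← Real.rpow_mul hT0.le] at this
    norm_num at this
    norm_num
    exact this
  have a2 : T ^ (23 / 10 : ℝ) ≤ T' ^ 23 := by
    have := pow_le_pow_left₀ (by positivity) h1 23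
    rw [← Real.rpow_natCast (T ^ (1 / 10 : ℝ)) 23, ← Real.rpow_mul hT0.le] at this
    norm_num at this
    norm_num
    exact this
  have a3 : T ^ (42 / 10 : ℝ) ≤ T ^ (2 * h) * T ^ (23 / 10 : ℝ) := by
    rw [← Real.rpow_add hT0]
    exact Real.rpow_le_rpow_of_exponent_le hT (by linarith)
  have a4 : N ^ 6 ≤ T ^ (2 * h) * T' ^ 23 :=
    a1.trans (a3.trans (mul_le_mul_of_nonneg_left a2 (by positivity)))
  have a5 : T' * (N ^ 12 / T' ^ 24) ≤ T ^ (2 * h) * N ^ 6 := by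
    have e : T' * (N ^ 12 / T' ^ 24) = N ^ 6 * N ^ 6 / T' ^ 23 := by
      field_simp
    rw [e, div_le_iff₀ (by positivity)]
    have := mul_le_mul_of_nonneg_right a4 (show 0 ≤ N ^ 6 by positivity)
    nlinarith
  have a6 : T' ≤ T ^ (2 * h) := h2.trans (Real.rpow_le_rpow_of_exponent_le hT (by linarith))
  have a7 : T' * T' ^ 6 ≤ T ^ (2 * h) * N ^ 6 :=
    mul_le_mul a6 (pow_le_pow_left₀ hT'0.le h4 6) (by positivity) (by positivity)
  nlinarith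

end Smq

/-- ITEM Sm -/
theorem iSm (hTw : Pool.Agent.Work.MP_56b8f5_nt.UC.StTw) (hKp : Pool.Agent.Work.MP_56b8f5_nt.UC.StKp) : StSm := by
  intro ε hε hε1
  obtain ⟨δ, hδ, hδ1, hTw'⟩ := hTw
  obtain ⟨C1, hC1, hT1⟩ := hTw' psi Re_aux.wt_psi
  obtain ⟨C2, hC2, hK⟩ := hKp psi Re_aux.wt_psi
  set K : ℝ := C1 + 4 * (C2 ^ 12 * 2 ^ 24) with hKd
  have hC2' : (1 : ℝ) ≤ C2 ^ 12 := one_le_pow₀ hC2
  have hK1 : 1 ≤ K := by rw [hKd]; nlinarith
  have hε2 : 0 < ε / 2 := by linarith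
  refine ⟨K ^ (1 / (ε / 2)), Real.one_le_rpow hK1 (by positivity), ?_⟩
  intro T T' N h hT hh hh2 h1 h2 h3 h4
  have hTK : K ≤ T ^ (ε / 2) := Smq.le_rpow hK1 hε2 hT
  have hT1' : 1 ≤ T := le_trans (Real.one_le_rpow hK1 (by positivity)) hT
  have hT0 : 0 < T := by linarith
  have hT'1 : 1 ≤ T' := le_trans (Real.one_le_rpow hT1' (by norm_num)) h1
  have hN1 : 1 ≤ N := le_trans (Real.one_le_rpow hT1' (by norm_num)) h3
  have hN0 : 0 < N := by linarith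
  refine ⟨Smq.blk hN0, Smq.val hN0, ?_⟩
  intro W hW hWT
  have e : ∑ t ∈ W, ‖PB (fun n => ((psi ((n : ℝ) / N) : ℝ) : ℂ)) N t‖ ^ 12 = ∑ t ∈ W, ‖Bl psi N t‖ ^ 12 := by
    apply Finset.sum_congr rfl
    intro t _
    rw [Smq.val hN0]
  rw [e]
  have hC1K : C1 ≤ T ^ (ε / 2) := by
    refine le_trans ?_ hTK
    rw [hKd]
    nlinarith
  have hC2K : 4 * (C2 ^ 12 * 2 ^ 24) ≤ T ^ (ε / 2) := by
    refine le_trans ?_ hTK
    rw [hKd]
    linarith
  rcases le_total N T' with hNT | hNT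
  · have b1 := hT1 T' N W hT'1 hN1 hNT hW (fun t ht => ⟨(hWT t ht).1, by linarith [(hWT t ht).2]⟩)
    refine b1.trans ?_
    apply mul_le_mul_of_nonneg_right _ (by positivity)
    have b2 : T' ^ (2 - δ) ≤ T ^ (2 * h + ε / 2) := by
      have b3 := Real.rpow_le_rpow (by linarith) h2 (show 0 ≤ 2 - δ by linarith)
      refine b3.trans ?_
      rw [← Real.rpow_mul hT0.le]
      apply Real.rpow_le_rpow_of_exponent_le hT1'
      nlinarith
    have b4 : C1 * T' ^ (2 - δ) ≤ T ^ (ε / 2) * T ^ (2 * h + ε / 2) :=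
      mul_le_mul hC1K b2 (by positivity) (by positivity)
    refine b4.trans ?_
    rw [← Real.rpow_add hT0]
    apply Real.rpow_le_rpow_of_exponent_le hT1'
    linarith
  · have c1 : (W.card : ℝ) ≤ 2 * T' := UC.G_aux.card_le hW (T0 := T') hT'1
      (fun t ht => ⟨(hWT t ht).1, by linarith [(hWT t ht).2]⟩)
    have c2 : ∑ t ∈ W, ‖Bl psi N t‖ ^ 12 ≤ ∑ _t ∈ W, C2 ^ 12 * 2 ^ 24 * (N ^ 12 / T' ^ 24 + T' ^ 6) := by
      apply Finset.sum_le_sum
      intro t ht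
      exact Smq.pt hC2 hT'1 hN0 (hWT t ht).1 (hWT t ht).2 (hK N t hN0)
    refine c2.trans ?_
    rw [Finset.sum_const, nsmul_eq_mul]
    have c3 := Smq.size hT1' hT'1 hN0 hh hε1 h1 h2 h4 hNT
    have hA : 0 ≤ N ^ 12 / T' ^ 24 + T' ^ 6 := by positivity
    have c4 : (W.card : ℝ) * (C2 ^ 12 * 2 ^ 24 * (N ^ 12 / T' ^ 24 + T' ^ 6)) ≤
        2 * T' * (C2 ^ 12 * 2 ^ 24 * (N ^ 12 / T' ^ 24 + T' ^ 6)) :=
      mul_le_mul_of_nonneg_right c1 (by positivity)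
    refine c4.trans ?_
    have c5 : 2 * T' * (C2 ^ 12 * 2 ^ 24 * (N ^ 12 / T' ^ 24 + T' ^ 6)) =
        2 * (C2 ^ 12 * 2 ^ 24) * (T' * (N ^ 12 / T' ^ 24 + T' ^ 6)) := by ring
    rw [c5]
    have c6 : 2 * (C2 ^ 12 * 2 ^ 24) * (T' * (N ^ 12 / T' ^ 24 + T' ^ 6)) ≤
        2 * (C2 ^ 12 * 2 ^ 24) * (2 * T ^ (2 * h) * N ^ 6) :=
      mul_le_mul_of_nonneg_left c3 (by positivity)
    refine c6.trans ?_
    have c7 : 2 * (C2 ^ 12 * 2 ^ 24) * (2 * T ^ (2 * h) * N ^ 6) =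
        4 * (C2 ^ 12 * 2 ^ 24) * T ^ (2 * h) * N ^ 6 := by ring
    rw [c7]
    apply mul_le_mul_of_nonneg_right _ (by positivity)
    have c8 : 4 * (C2 ^ 12 * 2 ^ 24) * T ^ (2 * h) ≤ T ^ (ε / 2) * T ^ (2 * h) :=
      mul_le_mul_of_nonneg_right hC2K (by positivity)
    refine c8.trans ?_
    rw [← Real.rpow_add hT0]
    apply Real.rpow_le_rpow_of_exponent_le hT1'
    linarith

end Pool.Agent.Work.MP_a8fbd7_nt.OX.SQ
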