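import Mathlib
import Pool.Agent.Work.MP_a8fbd7_nt.OX.SQ.Stmts
import Pool.Agent.Work.MP_a8fbd7_nt.OX.ASM.I_Sq

/-!
MP_a8fbd7_nt, OX/SQ, item Sq: square factors and prime powers in windows of relative length `1/T'`, `T' ≤ T^(32/25)`.
-/

set_option autoImplicit false

open Set Filter Topology

noncomputable section

namespace Pool.Agent.Work.MP_a8fbd7_nt.OX.SQ

open Pool.Agent.Work.MP_56b8f5_nt.UC (IsWt)
open Pool.Agent.Work.MP_a8fbd7_nt.OX
open Pool.Agent.Work.MP_a8fbd7_nt.OX.ASM
open Pool.Agent.Work.MP_a8fbd7_nt.OX.ID (Rough)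

open Pool.Agent.Work.MP_a8fbd7_nt.OX.ASM.Sq_aux in
open Classical in
theorem iSq : StSq := by
  intro w hw hw0 η κ1 hη hη' hκ hκ'
  obtain ⟨Cw, hCw, hWb, hwin⟩ := Win.window w hw
  have hCw0 : 0 < Cw := by linarith
  set D : ℝ := 4 * (1 + Cw) with hD
  have hD8 : 8 ≤ D := by linarith
  have hD0 : 0 < D := by linarith
  set K1 : ℝ := 2 * Cw ^ 2 * (4 / η ^ 2) + Cw * 83 with hK1
  set K2 : ℝ := 6 * Cw * (4 * Cw ^ 2 + 1) * 73 with hK2
  have hK1p : 0 < K1 := by positivity
  have hK2p : 0 < K2 := by positivity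
  refine ⟨max (max D (4 ^ (1 / η))) (max K1 K2), by
    refine le_trans ?_ ((le_max_left _ _).trans (le_max_left _ _))
    linarith, ?_⟩
  intro T T' x hT hT' hTT hx1 hx2
  have hTD : D ≤ T := ((le_max_left _ _).trans (le_max_left _ _)).trans hT
  have hTE : (4 : ℝ) ^ (1 / η) ≤ T := ((le_max_right _ _).trans (le_max_left _ _)).trans hT
  have hT8 : 8 ≤ T := hD8.trans hTD
  have hT0 : 0 < T := by linarith
  have hT1 : 1 ≤ T := by linarith
  have hx0 : 0 < x := lt_of_lt_of_le (by positivity) hx1
  have hT'0 : 0 < T' := by linarith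
  have hl1 : 1 ≤ Real.log T := by
    rw [Real.le_log_iff_exp_le hT0]
    have := Real.exp_one_lt_d9
    linarith
  have hl0 : 0 < Real.log T := by linarith
  -- the window
  obtain ⟨x1, hxa, hxb, hn⟩ := hwin x T' hx0 hT'
  have hx10 : 0 < x1 := lt_of_lt_of_le (by positivity) hxa
  set h : ℝ := Cw * (x / T') with hh
  have hG1 : (1 : ℝ) ≤ T ^ (18 / 25 : ℝ) := Real.one_le_rpow hT1 (by norm_num)
  have hG0 : 0 < T ^ (18 / 25 : ℝ) := by linarith
  have hTTx : T ^ (18 / 25 : ℝ) * T' ≤ x := by
    calc T ^ (18 / 25 : ℝ) * T' ≤ T ^ (18 / 25 : ℝ) * T ^ (32 / 25 : ℝ) := by gcongr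
      _ = T ^ 2 := by
        rw [← Real.rpow_add hT0, ← Real.rpow_natCast T 2]
        norm_num
      _ ≤ x := hx1
  have hxT : T ^ (18 / 25 : ℝ) ≤ x / T' := by
    rw [le_div_iff₀ hT'0]
    exact hTTx
  have hhT : T ^ (18 / 25 : ℝ) ≤ h := by
    calc T ^ (18 / 25 : ℝ) ≤ x / T' := hxT
      _ = 1 * (x / T') := (one_mul _).symm
      _ ≤ h := by rw [hh]; gcongr
  have hh0 : 0 < h := by linarith
  have hend : x1 + h ≤ D * T ^ 2 := by
    have h1 : x / T' ≤ x := div_le_self hx0.le hT'
    have h2 : h ≤ Cw * x := by rw [hh]; gcongr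
    have h3 : x1 + h ≤ (1 + Cw) * x := by linarith
    calc x1 + h ≤ (1 + Cw) * x := h3
      _ ≤ (1 + Cw) * (4 * T ^ 2) := by gcongr
      _ = D * T ^ 2 := by rw [hD]; ring
  have hx1T : T ≤ x1 := by
    refine le_trans ?_ hxa
    rw [le_div_iff₀ hCw0]
    have : Cw ≤ T := by linarith
    calc T * Cw ≤ T * T := by gcongr
      _ = T ^ 2 := by ring
      _ ≤ x := hx1
  set y : ℕ := zz η T with hy
  set z : ℕ := zz (1 / 2 - κ1) T with hz
  have hzle : (z : ℝ) ≤ T ^ (1 / 2 : ℝ) := by
    have h1 : (z : ℝ) ≤ T ^ (1 / 2 - κ1) := Nat.floor_le (by positivity)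
    refine h1.trans (Real.rpow_le_rpow_of_exponent_le hT1 (by linarith))
  have hTη : (4 : ℝ) ≤ T ^ η := by
    have h1 := Real.rpow_le_rpow (by positivity) hTE hη.le
    rwa [← Real.rpow_mul (by norm_num), one_div, inv_mul_cancel₀ hη.ne', Real.rpow_one] at h1
  have hyge : T ^ η / 2 ≤ (y : ℝ) := by
    have := Nat.lt_floor_add_one (T ^ η)
    rw [hy, zz]
    linarith
  have hy1 : 1 ≤ y := by
    have : (1 : ℝ) ≤ y := by linarith
    exact_mod_cast this
  have hTx : T' / x * h = Cw := by
    rw [hh]
    field_simp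
  constructor
  · -- square factors
    set P : ℕ → Prop := fun n => ∃ p : ℕ, p.Prime ∧ y < p ∧ p ≤ z ∧ p ^ 2 ∣ n with hP
    have hSW := Win.SW_abs_le w (fun n => if P n then (1 : ℝ) else 0) x T' x1 h Cw hx10.le hWb hn
    have hsum : ∑ n ∈ Win.Wn x1 h, |(if P n then (1 : ℝ) else 0)| ≤ h * (2 / T ^ η) + T ^ (1 / 2 : ℝ) := by
      have e1 : ∑ n ∈ Win.Wn x1 h, |(if P n then (1 : ℝ) else 0)| = (((Win.Wn x1 h).filter P).card : ℝ) := by
        rw [Finset.card_filter, Nat.cast_sum]
        refine Finset.sum_congr rfl fun n _ => ?_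
        split_ifs <;> simp
      rw [e1]
      have hsub : (Win.Wn x1 h).filter P ⊆ (Finset.Ioc y z).biUnion
          fun p => (Win.Wn x1 h).filter fun n => p ^ 2 ∣ n := by
        intro n hn'
        rw [Finset.mem_filter] at hn'
        obtain ⟨hn1, p, hp, hyp, hpz, hpn⟩ := hn'
        rw [Finset.mem_biUnion]
        exact ⟨p, Finset.mem_Ioc.2 ⟨hyp, hpz⟩, Finset.mem_filter.2 ⟨hn1, hpn⟩⟩
      have h1 : (((Win.Wn x1 h).filter P).card : ℝ) ≤
          ∑ p ∈ Finset.Ioc y z, (((Win.Wn x1 h).filter fun n => p ^ 2 ∣ n).card : ℝ) := by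
        exact_mod_cast (Finset.card_le_card hsub).trans Finset.card_biUnion_le
      refine h1.trans ?_
      rcases le_or_gt y z with hyz | hyz
      · calc ∑ p ∈ Finset.Ioc y z, (((Win.Wn x1 h).filter fun n => p ^ 2 ∣ n).card : ℝ)
            ≤ ∑ p ∈ Finset.Ioc y z, (h * (1 / (p : ℝ) ^ 2) + 1) := by
              refine Finset.sum_le_sum fun p hp => ?_
              rw [Finset.mem_Ioc] at hp
              have h2 := count_mult x1 h hx10.le hh0.le (p ^ 2) (Nat.one_le_pow _ _ (by omega))
              push_cast at h2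
              rw [mul_one_div]
              exact h2
          _ = h * ∑ p ∈ Finset.Ioc y z, 1 / (p : ℝ) ^ 2 + ((z : ℝ) - y) := by
              rw [Finset.sum_add_distrib, Finset.mul_sum, Finset.sum_const, Nat.card_Ioc, nsmul_eq_mul, mul_one,
                Nat.cast_sub hyz]
          _ ≤ h * (2 / T ^ η) + T ^ (1 / 2 : ℝ) := by
              have h2 := sum_sq y hy1 z hyz
              have hz0 : (0 : ℝ) < z := by exact_mod_cast (by omega : 0 < z)
              have h3 : (1 : ℝ) / y ≤ 2 / T ^ η := by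
                rw [div_le_div_iff₀ (by positivity) (by positivity)]
                linarith
              have h4 : (0 : ℝ) ≤ 1 / z := by positivity
              have h5 : ∑ m ∈ Finset.Ioc y z, (1 : ℝ) / (m : ℝ) ^ 2 ≤ 2 / T ^ η := by linarith
              have hy0 : (0 : ℝ) ≤ y := Nat.cast_nonneg y
              gcongr
              linarith
      · rw [Finset.Ioc_eq_empty (by omega), Finset.sum_empty]
        positivity
    have h1 : SW w (fun n => if P n then (1 : ℝ) else 0) x T' ≤ Cw * (h * (2 / T ^ η) + T ^ (1 / 2 : ℝ)) :=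
      (le_abs_self _).trans (hSW.trans (by gcongr))
    have hT'x : T' / x ≤ 1 / T ^ (18 / 25 : ℝ) := by
      rw [div_le_div_iff₀ hx0 hG0, one_mul, mul_comm]
      exact hTTx
    have hK : T' / x * SW w (fun n => if P n then (1 : ℝ) else 0) x T' ≤ K1 / Real.log T ^ 2 := by
      calc T' / x * SW w (fun n => if P n then (1 : ℝ) else 0) x T'
          ≤ T' / x * (Cw * (h * (2 / T ^ η) + T ^ (1 / 2 : ℝ))) := by gcongr
        _ = (T' / x * h) * (Cw * (2 / T ^ η)) + T' / x * (Cw * T ^ (1 / 2 : ℝ)) := by ring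
        _ ≤ Cw * (Cw * (2 / T ^ η)) + 1 / T ^ (18 / 25 : ℝ) * (Cw * T ^ (1 / 2 : ℝ)) := by
            rw [hTx]
            gcongr
        _ = 2 * Cw ^ 2 * (1 / T ^ η) + Cw * (1 / T ^ (11 / 50 : ℝ)) := by
            have e : 1 / T ^ (18 / 25 : ℝ) * T ^ (1 / 2 : ℝ) = 1 / T ^ (11 / 50 : ℝ) := by
              have e2 : T ^ (1 / 2 : ℝ) * T ^ (11 / 50 : ℝ) = T ^ (18 / 25 : ℝ) := by
                rw [← Real.rpow_add hT0]
                norm_num
              rw [one_div_mul_eq_div, div_eq_div_iff hG0.ne' (by positivity), e2, one_mul]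
            rw [← e]
            ring
        _ ≤ 2 * Cw ^ 2 * (4 / η ^ 2 / Real.log T ^ 2) + Cw * (83 / Real.log T ^ 2) := by
            have h2 := log_sq_le η hη T hT1
            have h3 := log_sq_le (11 / 50) (by norm_num) T hT1
            have h4 : 1 / T ^ η ≤ 4 / η ^ 2 / Real.log T ^ 2 := by
              rw [div_le_div_iff₀ (by positivity) (by positivity)]
              linarith
            have h5 : 1 / T ^ (11 / 50 : ℝ) ≤ 83 / Real.log T ^ 2 := by
              rw [div_le_div_iff₀ (by positivity) (by positivity)]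
              have h6 : 0 < T ^ (11 / 50 : ℝ) := by positivity
              norm_num at h3
              linarith
            gcongr
        _ = K1 / Real.log T ^ 2 := by
            rw [hK1]
            ring
    refine hK.trans ?_
    gcongr
    exact (le_max_left _ _).trans (le_max_right _ _)
  · -- prime powers
    rw [← mul_sub, Win.SW_sub w _ _ x T' x1 h hx10.le hn]
    set c : ℕ → ℝ := fun n => pr n - (if Rough z n then ArithmeticFunction.vonMangoldt n / Real.log n else 0) with hc
    have hSW := Win.SW_abs_le w c x T' x1 h Cw hx10.le hWb hn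
    set Q : ℕ → Prop := fun n => ∃ m ∈ Finset.Icc 2 ⌊6 * Real.log T⌋₊, ∃ r : ℕ, r ^ m = n with hQ
    have hcn : ∀ n ∈ Win.Wn x1 h, |c n| ≤ if Q n then 1 else 0 := by
      intro n hnW
      rw [Win.mem_Wn hx10.le] at hnW
      have hnT : T < n := lt_of_le_of_lt hx1T hnW.1
      have hn8 : (8 : ℝ) < n := by linarith
      have hn2 : 2 ≤ n := by
        have : (2 : ℝ) ≤ n := by linarith
        exact_mod_cast this
      have hzn : z < n := by
        have h1 : (z : ℝ) ≤ T := by
          refine hzle.trans ?_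
          calc T ^ (1 / 2 : ℝ) ≤ T ^ (1 : ℝ) := Real.rpow_le_rpow_of_exponent_le hT1 (by norm_num)
            _ = T := Real.rpow_one T
        have h2 : (z : ℝ) < n := by linarith
        exact_mod_cast h2
      have hlogn : 0 < Real.log n := Real.log_pos (by linarith)
      by_cases hpn : n.Prime
      · -- primes
        have hR : Rough z n := by
          intro p hp hpd
          rw [(Nat.prime_dvd_prime_iff_eq hp hpn).1 hpd]
          exact hzn
        have : c n = 0 := by
          rw [hc]
          simp only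
          rw [pr, if_pos hpn, if_pos hR, ArithmeticFunction.vonMangoldt_apply_prime hpn, div_self hlogn.ne', sub_self]
        rw [this, abs_zero]
        split_ifs <;> norm_num
      · by_cases hpp : IsPrimePow n
        · have hQn : Q n := by
            obtain ⟨p, k, hp, hk, hpk⟩ := hpp
            have hp' : p.Prime := hp.nat_prime
            refine ⟨k, ?_, p, hpk⟩
            rw [Finset.mem_Icc]
            constructor
            · by_contra hk2
              have hk1 : k = 1 := by omega
              rw [hk1, pow_one] at hpk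
              exact hpn (hpk ▸ hp')
            · apply Nat.le_floor
              have h1 : (2 : ℝ) ^ k ≤ D * T ^ 2 := by
                calc (2 : ℝ) ^ k ≤ (p : ℝ) ^ k := by
                      have : (2 : ℝ) ≤ p := by exact_mod_cast hp'.two_le
                      gcongr
                  _ = n := by exact_mod_cast hpk
                  _ ≤ D * T ^ 2 := hnW.2.trans hend
              have h2 := Real.log_le_log (by positivity) h1
              rw [Real.log_pow, Real.log_mul hD0.ne' (by positivity), Real.log_pow] at h2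
              have h3 : Real.log D ≤ Real.log T := Real.log_le_log hD0 hTD
              have h4 := Real.log_two_gt_d9
              push_cast at h2
              have h5 : (k : ℝ) * (1 / 2) ≤ k * Real.log 2 := by
                gcongr
                linarith
              linarith
          rw [if_pos hQn]
          have h0 : pr n = 0 := by rw [pr, if_neg hpn]
          have h1 : 0 ≤ ArithmeticFunction.vonMangoldt n / Real.log n :=
            div_nonneg ArithmeticFunction.vonMangoldt_nonneg hlogn.le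
          have h2 : ArithmeticFunction.vonMangoldt n / Real.log n ≤ 1 := by
            rw [div_le_one hlogn]
            exact ArithmeticFunction.vonMangoldt_le_log
          rw [hc]
          simp only
          rw [h0, zero_sub, abs_neg]
          split_ifs
          · rw [abs_of_nonneg h1]
            exact h2
          · norm_num
        · have hL : ArithmeticFunction.vonMangoldt n = 0 := ArithmeticFunction.vonMangoldt_eq_zero_iff.2 hpp
          have : c n = 0 := by
            rw [hc]
            simp only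
            rw [pr, if_neg hpn, hL, zero_div, ite_self, sub_self]
          rw [this, abs_zero]
          split_ifs <;> norm_num
    have hx11 : 1 ≤ x1 := by linarith
    have hsum : ∑ n ∈ Win.Wn x1 h, |c n| ≤ 6 * Real.log T * (h / Real.sqrt x1 + 1) := by
      refine (Finset.sum_le_sum hcn).trans ?_
      have e1 : ∑ n ∈ Win.Wn x1 h, (if Q n then (1 : ℝ) else 0) = (((Win.Wn x1 h).filter Q).card : ℝ) := by
        rw [Finset.card_filter, Nat.cast_sum]
        refine Finset.sum_congr rfl fun n _ => ?_
        split_ifs <;> simp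
      rw [e1]
      have hsub : (Win.Wn x1 h).filter Q ⊆ (Finset.Icc 2 ⌊6 * Real.log T⌋₊).biUnion
          fun m => (Win.Wn x1 h).filter fun n => ∃ r : ℕ, r ^ m = n := by
        intro n hn'
        rw [Finset.mem_filter] at hn'
        obtain ⟨hn1, m, hm, hr⟩ := hn'
        rw [Finset.mem_biUnion]
        exact ⟨m, hm, Finset.mem_filter.2 ⟨hn1, hr⟩⟩
      have h1 : (((Win.Wn x1 h).filter Q).card : ℝ) ≤ ∑ m ∈ Finset.Icc 2 ⌊6 * Real.log T⌋₊,
          (((Win.Wn x1 h).filter fun n => ∃ r : ℕ, r ^ m = n).card : ℝ) := by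
        exact_mod_cast (Finset.card_le_card hsub).trans Finset.card_biUnion_le
      refine h1.trans ?_
      have hs0 : 0 < Real.sqrt x1 := Real.sqrt_pos.2 (by linarith)
      calc ∑ m ∈ Finset.Icc 2 ⌊6 * Real.log T⌋₊, (((Win.Wn x1 h).filter fun n => ∃ r : ℕ, r ^ m = n).card : ℝ)
          ≤ ∑ m ∈ Finset.Icc 2 ⌊6 * Real.log T⌋₊, (h / Real.sqrt x1 + 1) := by
            refine Finset.sum_le_sum fun m hm => ?_
            exact count_pow x1 h hx11 hh0.le m (Finset.mem_Icc.1 hm).1
        _ = ((Finset.Icc 2 ⌊6 * Real.log T⌋₊).card : ℝ) * (h / Real.sqrt x1 + 1) := by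
            rw [Finset.sum_const, nsmul_eq_mul]
        _ ≤ 6 * Real.log T * (h / Real.sqrt x1 + 1) := by
            have h2 : ((Finset.Icc 2 ⌊6 * Real.log T⌋₊).card : ℝ) ≤ 6 * Real.log T := by
              rw [Nat.card_Icc]
              have h3 : (⌊6 * Real.log T⌋₊ : ℝ) ≤ 6 * Real.log T := Nat.floor_le (by linarith)
              refine le_trans ?_ h3
              exact_mod_cast (by omega : ⌊6 * Real.log T⌋₊ + 1 - 2 ≤ ⌊6 * Real.log T⌋₊)
            gcongr
    have hsq : T / Cw ≤ Real.sqrt x1 := by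
      apply Real.le_sqrt_of_sq_le
      rw [div_pow, div_le_iff₀ (by positivity)]
      have h1 : x ≤ x1 * Cw := by
        rwa [div_le_iff₀ hCw0] at hxa
      calc T ^ 2 ≤ x := hx1
        _ ≤ x1 * Cw := h1
        _ ≤ x1 * Cw ^ 2 := by
          gcongr
          exact le_self_pow₀ hCw (by norm_num)
    have hfin : |SW w c x T'| ≤ Cw * (6 * Real.log T * (h / Real.sqrt x1 + 1)) := hSW.trans (by gcongr)
    have hgoal : |T' / x * SW w c x T'| ≤ K2 / Real.log T ^ 2 := by
      rw [abs_mul, abs_of_nonneg (by positivity : 0 ≤ T' / x)]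
      have hs0 : 0 < Real.sqrt x1 := Real.sqrt_pos.2 (by linarith)
      have h1 : h / Real.sqrt x1 ≤ h * Cw / T := by
        rw [div_le_div_iff₀ hs0 hT0]
        rw [div_le_iff₀ hCw0] at hsq
        calc h * T ≤ h * (Real.sqrt x1 * Cw) := by gcongr
          _ = h * Cw * Real.sqrt x1 := by ring
      have h3 : Real.log T ^ 3 ≤ 73 * T ^ (18 / 25 : ℝ) := by
        have h4 := Real.log_le_rpow_div hT0.le (show (0 : ℝ) < 6 / 25 by norm_num)
        have h5 : Real.log T ^ 3 ≤ (T ^ (6 / 25 : ℝ) / (6 / 25)) ^ 3 := by gcongr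
        refine h5.trans ?_
        have e : (T ^ (6 / 25 : ℝ)) ^ 3 = T ^ (18 / 25 : ℝ) := by
          rw [← Real.rpow_natCast (T ^ (6 / 25 : ℝ)), ← Real.rpow_mul hT0.le]
          norm_num
        rw [div_pow, e, div_le_iff₀ (by norm_num)]
        nlinarith
      have hT'x : T' / x ≤ 1 / T ^ (18 / 25 : ℝ) := by
        rw [div_le_div_iff₀ hx0 hG0, one_mul, mul_comm]
        exact hTTx
      have hTG : 1 / T ≤ 1 / T ^ (18 / 25 : ℝ) := by
        apply one_div_le_one_div_of_le hG0
        calc T ^ (18 / 25 : ℝ) ≤ T ^ (1 : ℝ) := Real.rpow_le_rpow_of_exponent_le hT1 (by norm_num)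
          _ = T := Real.rpow_one T
      calc T' / x * |SW w c x T'| ≤ T' / x * (Cw * (6 * Real.log T * (h * Cw / T + 1))) := by
            refine mul_le_mul_of_nonneg_left (hfin.trans ?_) (by positivity)
            gcongr
        _ = 6 * Cw * Real.log T * ((T' / x * h) * Cw / T + T' / x) := by ring
        _ = 6 * Cw * Real.log T * (Cw * Cw * (1 / T) + T' / x) := by
            rw [hTx]
            ring
        _ ≤ 6 * Cw * Real.log T * (Cw * Cw * (1 / T ^ (18 / 25 : ℝ)) + 1 / T ^ (18 / 25 : ℝ)) := by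
            gcongr
        _ = 6 * Cw * (Cw ^ 2 + 1) * (Real.log T / T ^ (18 / 25 : ℝ)) := by ring
        _ ≤ 6 * Cw * (4 * Cw ^ 2 + 1) * (73 / Real.log T ^ 2) := by
            have h6 : Real.log T / T ^ (18 / 25 : ℝ) ≤ 73 / Real.log T ^ 2 := by
              rw [div_le_div_iff₀ hG0 (by positivity)]
              calc Real.log T * Real.log T ^ 2 = Real.log T ^ 3 := by ring
                _ ≤ 73 * T ^ (18 / 25 : ℝ) := h3
            have h7 : 0 ≤ Real.log T / T ^ (18 / 25 : ℝ) := by positivity
            have h8 := sq_nonneg Cw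
            gcongr
            linarith
        _ = K2 / Real.log T ^ 2 := by
            rw [hK2]
            ring
    refine hgoal.trans ?_
    gcongr
    exact (le_max_right _ _).trans (le_max_right _ _)

end Pool.Agent.Work.MP_a8fbd7_nt.OX.SQ
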