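import Mathlib
import Pool.Agent.Work.MP_a8fbd7_nt.OX.SQ.Stmts

/-!
MP_a8fbd7_nt, block OX, part SQ: item Ta (small `b` and small `w`; real arithmetic).
-/

set_option autoImplicit false

open MeasureTheory Set Filter Topology

noncomputable section

namespace Pool.Agent.Work.MP_a8fbd7_nt.OX.SQ

open Pool.Agent.Work.MP_a8fbd7_nt.OX
open Pool.Agent.Work.MP_a8fbd7_nt.OX.CELL (LVp GMh JTh)

namespace Taq

/-- the large value inequalities are monotone in the tolerance -/
theorem LVp_mono {h l g tau s s' : ℝ} {Q : ℕ} (H : LVp h l g tau s Q) (hs : s ≤ s') : LVp h l g tau s' Q where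
  mv := by have := H.mv; linarith
  hx := by have := H.hx; linarith
  gm := by
    intro q t h1 h2 h3 h4
    have := H.gm q t h1 h2 h3 (by linarith)
    linarith
  jj := by
    intro t h0 h1 h2
    have := H.jj t h0 h1 (by linarith)
    linarith

/-- the data are monotone in the tolerance -/
theorem CD_mono {h r b w tau W s s' : ℝ} {Q : ℕ} (H : CD h r b w tau W s Q) (hs : s ≤ s') :
    CD h r b w tau W s' Q where
  t0 := H.t0
  t1 := by have := H.t1; linarith
  Wt := by have := H.Wt; linarith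
  triv := by have := H.triv; linarith
  lv := fun k h1 h2 => LVp_mono (H.lv k h1 h2) hs
  co := fun j hj => by have := H.co j hj; linarith

/-- powers of a block -/
theorem CD_pow {h r b w tau W s : ℝ} {Q : ℕ} (H : CD h r b w tau W s Q) (m : ℕ) (hm : 1 ≤ m) :
    CD h r (m * b) (m * w) tau W s Q where
  t0 := H.t0
  t1 := H.t1
  Wt := H.Wt
  triv := H.triv
  lv := fun k h1 h2 => by
    have h3 := H.lv (k * m) (Nat.mul_pos h1 hm) (by push_cast; linarith [mul_assoc (k : ℝ) m b])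
    push_cast at h3
    rw [mul_assoc, mul_assoc] at h3
    exact h3
  co := fun j hj => by
    have h3 := H.co (j * m) (by push_cast; linarith [mul_assoc (j : ℝ) m b])
    push_cast at h3
    rw [mul_assoc, mul_assoc] at h3
    exact h3

/-- a multiple of `b` just above `x` -/
theorem exists_mul {b x : ℝ} (hb : 0 < b) (hx : 0 < x) : ∃ k : ℕ, 1 ≤ k ∧ x ≤ k * b ∧ (k : ℝ) * b ≤ x + b := by
  refine ⟨⌈x / b⌉₊, ?_, ?_, ?_⟩
  · exact Nat.one_le_iff_ne_zero.mpr (Nat.ceil_pos.mpr (by positivity)).ne'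
  · have h := Nat.le_ceil (x / b)
    have h2 := mul_le_mul_of_nonneg_right h hb.le
    have h3 : x / b * b = x := by field_simp
    linarith
  · have h := (Nat.ceil_lt_add_one (show (0:ℝ) ≤ x / b by positivity)).le
    have h2 := mul_le_mul_of_nonneg_right h hb.le
    have h3 : x / b * b = x := by field_simp
    nlinarith

/-- small gain -/
theorem small_w {h r b w tau W s v0 : ℝ} {Q : ℕ} (hh : h ≤ 127 / 100) (hv0 : 0 < v0) (hs : s ≤ v0 / 1000)
    (_hs1 : s ≤ 1 / 1000) (hb : 1 / 50 ≤ b) (hb2 : b ≤ 99 / 200) (hw : v0 * b ≤ w) (hw2 : w < b / 50)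
    (hW : 1999 / 1000 * w ≤ (W + s) * b) (H : CD h r b w tau W s Q) : False := by
  have hb0 : 0 < b := by linarith
  obtain ⟨k, hk1, hk2, hk3⟩ : ∃ k : ℕ, 1 ≤ k ∧ 33 / 50 ≤ k * b ∧ (k : ℝ) * b ≤ 99 / 100 := by
    by_cases hc : 33 / 100 ≤ b
    · refine ⟨2, by norm_num, ?_, ?_⟩ <;> push_cast <;> linarith
    · push Not at hc
      obtain ⟨k, h1, h2, h3⟩ := exists_mul hb0 (show (0 : ℝ) < 33 / 50 by norm_num)
      exact ⟨k, h1, h2, by linarith⟩
  obtain ⟨v, hv⟩ : ∃ v : ℝ, w = v * b := ⟨w / b, by field_simp⟩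
  subst hv
  have hv1 : v0 ≤ v := le_of_mul_le_mul_right hw hb0
  have hv2 : v ≤ 1 / 50 := by
    refine le_of_mul_le_mul_right ?_ hb0
    linarith
  have hW1 : 1999 / 1000 * v ≤ W + s := by
    refine le_of_mul_le_mul_right ?_ hb0
    linarith
  have hx := (H.lv k hk1 (by linarith)).hx
  have hWt := H.Wt
  have e1 : (k : ℝ) * (v * b) ≤ 99 / 100 * v := by nlinarith
  have e2 : h + 6 * ((k : ℝ) * (v * b)) - 2 * (k * b) ≤ -1 / 20 + 99 / 25 * v := by
    have : 0 ≤ ((k : ℝ) * b - 33 / 50) * (2 - 6 * v) := mul_nonneg (by linarith) (by linarith)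
    nlinarith
  rcases max_cases (2 * ((k : ℝ) * (v * b))) (h + 6 * ((k : ℝ) * (v * b)) - 2 * (k * b)) with ⟨h, _⟩ | ⟨h, _⟩
  · rw [h] at hx
    linarith
  · rw [h] at hx
    linarith

end Taq

open Taq in
/-- item Ta -/
theorem iTa : StTa := by
  intro h r _ hh2 ⟨s0, hs0, Q, hTab⟩ v0 hv0
  refine ⟨min s0 (min (v0 / 1000) (1 / 1000)), lt_min hs0 (lt_min (by positivity) (by norm_num)), Q, ?_⟩
  intro b w tau W hb hb2 hw hw2 hc hCD
  set s := min s0 (min (v0 / 1000) (1 / 1000)) with hs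
  have hs1 : s ≤ s0 := min_le_left _ _
  have hs2 : s ≤ v0 / 1000 := (min_le_right _ _).trans (min_le_left _ _)
  have hs3 : s ≤ 1 / 1000 := (min_le_right _ _).trans (min_le_right _ _)
  -- the statement for blocks which are not short
  have key : ∀ b w : ℝ, 1 / 50 ≤ b → b ≤ 99 / 200 → v0 * b ≤ w → w ≤ b / 2 →
      (2 * w ≤ (W + s) * b ∨ (b ≤ 41 / 100 ∧ 1999 / 1000 * w ≤ (W + s) * b)) → CD h r b w tau W s Q → False := by
    intro b w hb hb2 hw hw2 hc hCD
    have hb0 : 0 < b := by linarith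
    have hle : (W + s) * b ≤ (W + s0) * b := mul_le_mul_of_nonneg_right (by linarith) hb0.le
    by_cases hw3 : b / 50 ≤ w
    · refine hTab b w tau W hb hb2 hw3 hw2 ?_ (CD_mono hCD hs1)
      rcases hc with h1 | ⟨h1, h2⟩
      · left; linarith
      · right; exact ⟨h1, by linarith⟩
    · push Not at hw3
      have hw0 : 0 ≤ w := le_trans (by positivity) hw
      refine small_w hh2 hv0 hs2 hs3 hb hb2 hw hw3 ?_ hCD
      rcases hc with h1 | ⟨_, h2⟩
      · linarith
      · exact h2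
  by_cases hb3 : 1 / 50 ≤ b
  · exact key b w hb3 hb2 hw hw2 hc hCD
  · push Not at hb3
    obtain ⟨m, hm1, hm2, hm3⟩ := exists_mul hb (show (0 : ℝ) < 1 / 50 by norm_num)
    have hm0 : (0 : ℝ) ≤ m := Nat.cast_nonneg m
    refine key (m * b) (m * w) hm2 (by linarith) ?_ ?_ ?_ (CD_pow hCD m hm1)
    · nlinarith [mul_le_mul_of_nonneg_left hw hm0]
    · nlinarith [mul_le_mul_of_nonneg_left hw2 hm0]
    · rcases hc with h1 | ⟨_, h2⟩
      · left
        nlinarith [mul_le_mul_of_nonneg_left h1 hm0]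
      · right
        refine ⟨by linarith, ?_⟩
        nlinarith [mul_le_mul_of_nonneg_left h2 hm0]

end Pool.Agent.Work.MP_a8fbd7_nt.OX.SQ
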