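import Mathlib
import Pool.Agent.Work.MP_a8fbd7_nt.OX.SQ.Defs

/-!
MP_a8fbd7_nt, block OX, part SQ: the tables.  A checker for certificate trees (integer arithmetic, `decide +kernel`) and its
soundness.  All quantities are scaled: `B = 10^6 b`, `V = 10^6 w/b`, `T = 10^12 tau`; `s = 10^(-7)`.
Author: helper46.
-/

set_option autoImplicit false

namespace Pool.Agent.Work.MP_a8fbd7_nt.OX.SQ.TabC

open Pool.Agent.Work.MP_a8fbd7_nt.OX.CELL (LVp GMh JTh)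

/-- certificate trees: `B`, `V` halve the rectangle, the other constructors are leaves (first argument: lower bound used) -/
inductive Tr : Type
  | B (l r : Tr)
  | V (l r : Tr)
  | H (c : ℕ)
  | M (c k : ℕ)
  | X (c k : ℕ)
  | G (c k q t : ℕ)
  | W (c : ℕ)

/-- `(p - q) > a/m - b/m + 10^6` -/
def bc (m p q a b : ℕ) : Bool := Nat.blt (m * (q + 1000000) + a) (m * p + b)

/-- mean value -/
def cM (H p q b0 b1 v1 k : ℕ) : Bool :=
  Nat.ble 1 k && Nat.ble (k * b1) 2000000 && Nat.ble v1 500000 && bc 1 p q (2 * (k * (b1 * v1))) 0 &&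
    bc 1 p q (H * 1000000 + 2 * (k * (b0 * v1))) (k * b0 * 1000000)

/-- Huxley -/
def cX (H p q b0 b1 v1 k : ℕ) : Bool :=
  Nat.ble 1 k && Nat.ble (k * b1) 2000000 && bc 1 p q (2 * (k * (b1 * v1))) 0 &&
    cond (Nat.ble (3 * v1) 1000000) (bc 1 p q (H * 1000000 + 6 * (k * (b0 * v1))) (2 * (k * b0 * 1000000)))
      (bc 1 p q (H * 1000000 + 6 * (k * (b1 * v1))) (2 * (k * b1 * 1000000)))

/-- Guth-Maynard: the pieces, `G = k b1 v1`, `L = k b0 10^6`, `t` and `Y` scaled by `10^12` -/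
def cG8 (p q G L t Y n : ℕ) : Bool :=
  bc 1 p q (2 * G + Y) 0 && bc 3 p q (4 * t + 12 * G + 3 * Y) (6 * L) && bc 2 p q (t + 8 * G + 2 * Y) (2 * L) &&
    bc 3 p q (3 * t + 16 * G + 3 * Y) (6 * L) && bc 5 p q (5 * t + 28 * G + 5 * Y) (10 * L) &&
    bc 2 p q (3 * t + 14 * G + 2 * Y) (6 * L) && bc (n + 1) p q (t + 6 * n * G + (n + 1) * Y) (n * L) &&
    bc (n + 1) p q (n * t + 6 * n * G + (n + 1) * Y) (2 * n * L)

/-- Guth-Maynard -/
def cG (H p q b0 b1 v1 k n t : ℕ) : Bool :=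
  Nat.ble 1 k && Nat.ble 1 n && Nat.ble n 10 && Nat.ble (k * b1) 2000000 && Nat.ble (k * b1) (t * 20000) &&
    Nat.ble (t * 20000 + 1) (2 * (k * b0)) &&
    cG8 p q (k * (b1 * v1)) (k * b0 * 1000000) (t * 20000 * 1000000) ((H - t * 20000) * 1000000) n

/-- the checker; `tw`: use of the twelfth moment, `lo`: lower bounds -/
noncomputable def chk (H : ℕ) (tw : Bool) (lo : ℕ → ℕ → ℕ → ℕ → ℕ → ℕ × ℕ) (t : Tr) : ℕ → ℕ → ℕ → ℕ → Bool :=
  Tr.rec (motive := fun _ => ℕ → ℕ → ℕ → ℕ → Bool)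
    (fun _ _ f g b0 b1 v0 v1 => f b0 ((b0 + b1) / 2) v0 v1 && g ((b0 + b1) / 2) b1 v0 v1)
    (fun _ _ f g b0 b1 v0 v1 => f b0 b1 v0 ((v0 + v1) / 2) && g b0 b1 ((v0 + v1) / 2) v1)
    (fun c b0 b1 v0 v1 => bc 1 (lo c b0 b1 v0 v1).1 (lo c b0 b1 v0 v1).2 (H * 1000000) 0)
    (fun c k b0 b1 v0 v1 => cM H (lo c b0 b1 v0 v1).1 (lo c b0 b1 v0 v1).2 b0 b1 v1 k)
    (fun c k b0 b1 v0 v1 => cX H (lo c b0 b1 v0 v1).1 (lo c b0 b1 v0 v1).2 b0 b1 v1 k)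
    (fun c k n t b0 b1 v0 v1 => cG H (lo c b0 b1 v0 v1).1 (lo c b0 b1 v0 v1).2 b0 b1 v1 k n t)
    (fun c b0 b1 v0 v1 => tw && Nat.ble v1 500000 &&
      bc 1 (lo c b0 b1 v0 v1).1 (lo c b0 b1 v0 v1).2 (2 * (H * 1000000) + 12 * (b0 * v1)) (6 * (b0 * 1000000)))
    t

/-- the scaled upper bounds for `T` -/
structure Up (H : ℕ) (tw : Bool) (B V T : ℝ) : Prop where
  V0 : 0 ≤ V
  B0 : 0 ≤ B
  Th : T ≤ H * 1000000 + 100000
  mv : ∀ k : ℕ, 1 ≤ k → k * B ≤ 2000000 → T ≤ 2 * (k * (B * V)) + max 0 (H * 1000000 - k * B * 1000000) + 100000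
  hx : ∀ k : ℕ, 1 ≤ k → k * B ≤ 2000000 →
    T ≤ max (2 * (k * (B * V))) (H * 1000000 + 6 * (k * (B * V)) - 2 * (k * B * 1000000)) + 100000
  gm : ∀ (k n : ℕ) (t : ℝ), 1 ≤ k → k * B ≤ 2000000 → 1 ≤ n → n ≤ 10 → k * B ≤ t → t + 1 ≤ 2 * (k * B) →
    ∀ g l u : ℝ, g = k * (B * V) → l = k * B * 1000000 → u = t * 1000000 →
    T ≤ max 0 (H * 1000000 - u) + max (2 * g) (max (4 * u / 3 - 2 * l + 4 * g) (max (u / 2 - l + 4 * g)
    (max (u - 2 * l + 16 * g / 3) (max (u - 2 * l + 28 * g / 5) (max (3 * u / 2 - 3 * l + 7 * g)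
      (max ((n : ℝ) / (n + 1) * (u / n - l + 6 * g)) ((n : ℝ) / (n + 1) * (u - 2 * l + 6 * g)))))))) + 100000
  tw : tw = true → T ≤ 12 * (B * V) - 6 * (B * 1000000) + 2 * (H * 1000000) + 100000

theorem bc_sound {m p q a b : ℕ} {T : ℝ} (h : bc m p q a b = true) (hL : (p : ℝ) - q ≤ T + 300000)
    (hP : (m : ℝ) * T ≤ a - b + m * 100000) (hm : 1 ≤ m) : False := by
  unfold bc at h
  have h1 : m * (q + 1000000) + a < m * p + b := by
    rw [Nat.blt_eq] at h; exact h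
  have h2 : (m : ℝ) * (q + 1000000) + a < m * p + b := by exact_mod_cast h1
  have hm' : (1 : ℝ) ≤ m := by exact_mod_cast hm
  have h3 : (m : ℝ) * (p - q) ≤ m * (T + 300000) := mul_le_mul_of_nonneg_left hL (by linarith)
  nlinarith

theorem ble_iff {a b : ℕ} : Nat.ble a b = true ↔ a ≤ b := by rw [Nat.ble_eq]

/-- products -/
theorem prod_le {k : ℕ} {B V b1 v1 : ℝ} (hB : 0 ≤ B) (hV : 0 ≤ V) (h1 : B ≤ b1) (h2 : V ≤ v1) :
    (k : ℝ) * (B * V) ≤ k * (b1 * v1) := by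
  have : B * V ≤ b1 * v1 := mul_le_mul h1 h2 hV (hB.trans h1)
  exact mul_le_mul_of_nonneg_left this (Nat.cast_nonneg k)

theorem H_sound {H p q : ℕ} {tw : Bool} {B V T : ℝ} (hU : Up H tw B V T) (hL : (p : ℝ) - q ≤ T + 300000)
    (h : bc 1 p q (H * 1000000) 0 = true) : False := by
  refine bc_sound h hL ?_ le_rfl
  have := hU.Th
  push_cast
  linarith

theorem M_sound {H p q k : ℕ} {tw : Bool} {B V T : ℝ} {b0 b1 v1 : ℕ} (hU : Up H tw B V T) (hL : (p : ℝ) - q ≤ T + 300000)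
    (hb0 : (b0 : ℝ) ≤ B) (hb1 : B ≤ b1) (hv1 : V ≤ v1)
    (h : cM H p q b0 b1 v1 k = true) : False := by
  unfold cM at h
  simp only [Bool.and_eq_true] at h
  obtain ⟨⟨⟨⟨h1, h2⟩, h3⟩, h4⟩, h5⟩ := h
  rw [ble_iff] at h1 h2 h3
  have k0 : (0 : ℝ) ≤ k := Nat.cast_nonneg k
  have h2' : (k : ℝ) * b1 ≤ 2000000 := by exact_mod_cast h2
  have h3' : (v1 : ℝ) ≤ 500000 := by exact_mod_cast h3
  have hkB : (k : ℝ) * B ≤ 2000000 := (mul_le_mul_of_nonneg_left hb1 k0).trans h2'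
  have hg := prod_le (k := k) hU.B0 hU.V0 hb1 hv1
  rcases le_total (H * 1000000 - (k : ℝ) * B * 1000000) 0 with hc | hc
  · have hm := hU.mv k h1 hkB
    rw [max_eq_left hc] at hm
    refine bc_sound h4 hL ?_ le_rfl
    push_cast
    linarith
  · have hm := hU.mv k h1 hkB
    rw [max_eq_right hc] at hm
    refine bc_sound h5 hL ?_ le_rfl
    push_cast
    -- `2 k B V - k B 10^6 ≤ 2 k b0 v1 - k b0 10^6`
    have e1 : (k : ℝ) * (B * V) ≤ k * (B * v1) :=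
      mul_le_mul_of_nonneg_left (mul_le_mul_of_nonneg_left hv1 hU.B0) k0
    have e2 : (k : ℝ) * ((B - b0) * (1000000 - 2 * v1)) ≥ 0 :=
      mul_nonneg k0 (mul_nonneg (by linarith) (by linarith))
    nlinarith

theorem X_sound {H p q k : ℕ} {tw : Bool} {B V T : ℝ} {b0 b1 v1 : ℕ} (hU : Up H tw B V T) (hL : (p : ℝ) - q ≤ T + 300000)
    (hb0 : (b0 : ℝ) ≤ B) (hb1 : B ≤ b1) (hv1 : V ≤ v1)
    (h : cX H p q b0 b1 v1 k = true) : False := by
  unfold cX at h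
  simp only [Bool.and_eq_true] at h
  obtain ⟨⟨⟨h1, h2⟩, h4⟩, h5⟩ := h
  rw [ble_iff] at h1 h2
  have k0 : (0 : ℝ) ≤ k := Nat.cast_nonneg k
  have h2' : (k : ℝ) * b1 ≤ 2000000 := by exact_mod_cast h2
  have hkB : (k : ℝ) * B ≤ 2000000 := (mul_le_mul_of_nonneg_left hb1 k0).trans h2'
  have hg := prod_le (k := k) hU.B0 hU.V0 hb1 hv1
  have hm := hU.hx k h1 hkB
  rcases le_total (H * 1000000 + 6 * ((k : ℝ) * (B * V)) - 2 * (k * B * 1000000)) (2 * (k * (B * V))) with hc | hc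
  · rw [max_eq_left hc] at hm
    refine bc_sound h4 hL ?_ le_rfl
    push_cast
    linarith
  · rw [max_eq_right hc] at hm
    have e1 : (k : ℝ) * (B * V) ≤ k * (B * v1) :=
      mul_le_mul_of_nonneg_left (mul_le_mul_of_nonneg_left hv1 hU.B0) k0
    cases hb : Nat.ble (3 * v1) 1000000 with
    | true =>
      rw [hb, cond_true] at h5
      rw [ble_iff] at hb
      have hb' : 3 * (v1 : ℝ) ≤ 1000000 := by exact_mod_cast hb
      refine bc_sound h5 hL ?_ le_rfl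
      push_cast
      have e2 : (k : ℝ) * ((B - b0) * (1000000 - 3 * v1)) ≥ 0 :=
        mul_nonneg k0 (mul_nonneg (by linarith) (by linarith))
      nlinarith
    | false =>
      rw [hb, cond_false] at h5
      have hb' : 1000000 ≤ 3 * (v1 : ℝ) := by
        have : ¬ (3 * v1 ≤ 1000000) := by
          intro hh
          rw [ble_iff.mpr hh] at hb
          exact Bool.noConfusion hb
        exact_mod_cast (not_le.mp this).le
      refine bc_sound h5 hL ?_ le_rfl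
      push_cast
      have e2 : (k : ℝ) * ((b1 - B) * (3 * v1 - 1000000)) ≥ 0 :=
        mul_nonneg k0 (mul_nonneg (by linarith) (by linarith))
      nlinarith

theorem G8_sound {p q G L t Y n : ℕ} {T g l u y : ℝ} (hn : 1 ≤ n) (hL : (p : ℝ) - q ≤ T + 300000)
    (cG : g ≤ G) (cL : (L : ℝ) ≤ l) (ct : u = t) (cY : y = Y)
    (hm : T ≤ y + max (2 * g) (max (4 * u / 3 - 2 * l + 4 * g) (max (u / 2 - l + 4 * g)
    (max (u - 2 * l + 16 * g / 3) (max (u - 2 * l + 28 * g / 5) (max (3 * u / 2 - 3 * l + 7 * g)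
      (max ((n : ℝ) / (n + 1) * (u / n - l + 6 * g)) ((n : ℝ) / (n + 1) * (u - 2 * l + 6 * g)))))))) + 100000)
    (h7 : cG8 p q G L t Y n = true) : False := by
  have n0 : (0 : ℝ) < n := by exact_mod_cast hn
  rw [ct, cY] at hm
  unfold cG8 at h7
  simp only [Bool.and_eq_true] at h7
  obtain ⟨⟨⟨⟨⟨⟨⟨c1, c2⟩, c3⟩, c4⟩, c5⟩, c6⟩, c7⟩, c8⟩ := h7
  have hm1 : T - Y - 100000 ≤ max (2 * g) (max (4 * (t : ℝ) / 3 - 2 * l + 4 * g) (max ((t : ℝ) / 2 - l + 4 * g)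
    (max ((t : ℝ) - 2 * l + 16 * g / 3) (max ((t : ℝ) - 2 * l + 28 * g / 5) (max (3 * (t : ℝ) / 2 - 3 * l + 7 * g)
      (max ((n : ℝ) / (n + 1) * ((t : ℝ) / n - l + 6 * g)) ((n : ℝ) / (n + 1) * ((t : ℝ) - 2 * l + 6 * g)))))))) := by
    linarith
  rcases le_max_iff.mp hm1 with hc | hm
  · refine bc_sound c1 hL ?_ (by norm_num)
    push_cast; linarith
  rcases le_max_iff.mp hm with hc | hm
  · refine bc_sound c2 hL ?_ (by norm_num)
    push_cast; linarith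
  rcases le_max_iff.mp hm with hc | hm
  · refine bc_sound c3 hL ?_ (by norm_num)
    push_cast; linarith
  rcases le_max_iff.mp hm with hc | hm
  · refine bc_sound c4 hL ?_ (by norm_num)
    push_cast; linarith
  rcases le_max_iff.mp hm with hc | hm
  · refine bc_sound c5 hL ?_ (by norm_num)
    push_cast; linarith
  rcases le_max_iff.mp hm with hc | hm
  · refine bc_sound c6 hL ?_ (by norm_num)
    push_cast; linarith
  rcases le_max_iff.mp hm with hc | hc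
  · refine bc_sound c7 hL ?_ (by omega)
    have e : ((n : ℝ) + 1) * ((n : ℝ) / (n + 1) * ((t : ℝ) / n - l + 6 * g)) = t - n * l + 6 * n * g := by
      field_simp
    have h9 := mul_le_mul_of_nonneg_left hc (show (0 : ℝ) ≤ (n : ℝ) + 1 by positivity)
    rw [e] at h9
    have e1 : (n : ℝ) * L ≤ n * l := mul_le_mul_of_nonneg_left cL n0.le
    have e2 : (n : ℝ) * g ≤ n * G := mul_le_mul_of_nonneg_left cG n0.le
    push_cast
    nlinarith
  · refine bc_sound c8 hL ?_ (by omega)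
    have e : ((n : ℝ) + 1) * ((n : ℝ) / (n + 1) * ((t : ℝ) - 2 * l + 6 * g)) = n * t - 2 * n * l + 6 * n * g := by
      field_simp
    have h9 := mul_le_mul_of_nonneg_left hc (show (0 : ℝ) ≤ (n : ℝ) + 1 by positivity)
    rw [e] at h9
    have e1 : (n : ℝ) * L ≤ n * l := mul_le_mul_of_nonneg_left cL n0.le
    have e2 : (n : ℝ) * g ≤ n * G := mul_le_mul_of_nonneg_left cG n0.le
    push_cast
    nlinarith

theorem Y_eq (H t : ℕ) : max 0 ((H : ℝ) * 1000000 - (t : ℝ) * 20000 * 1000000) = (((H - t * 20000) * 1000000 : ℕ) : ℝ) := by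
  rcases le_total (t * 20000) H with hc | hc
  · have hc' : (t : ℝ) * 20000 ≤ H := by exact_mod_cast hc
    rw [Nat.cast_mul, Nat.cast_sub hc, max_eq_right (by nlinarith)]
    push_cast
    ring
  · have hc' : (H : ℝ) ≤ (t : ℝ) * 20000 := by exact_mod_cast hc
    rw [Nat.sub_eq_zero_of_le hc, max_eq_left (by nlinarith)]
    simp

theorem G_sound {H p q k n t : ℕ} {tw : Bool} {B V T : ℝ} {b0 b1 v1 : ℕ} (hU : Up H tw B V T)
    (hL : (p : ℝ) - q ≤ T + 300000) (hb0 : (b0 : ℝ) ≤ B) (hb1 : B ≤ b1) (hv1 : V ≤ v1)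
    (h : cG H p q b0 b1 v1 k n t = true) : False := by
  unfold cG at h
  simp only [Bool.and_eq_true] at h
  obtain ⟨⟨⟨⟨⟨⟨h1, h2⟩, h3⟩, h4⟩, h5⟩, h6⟩, h7⟩ := h
  rw [ble_iff] at h1 h2 h3 h4 h5 h6
  have k0 : (0 : ℝ) ≤ k := Nat.cast_nonneg k
  have h4' : (k : ℝ) * b1 ≤ 2000000 := by exact_mod_cast h4
  have h5' : (k : ℝ) * b1 ≤ (t : ℝ) * 20000 := by exact_mod_cast h5
  have h6' : (t : ℝ) * 20000 + 1 ≤ 2 * (k * b0) := by exact_mod_cast h6
  have hkB : (k : ℝ) * B ≤ k * b1 := mul_le_mul_of_nonneg_left hb1 k0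
  have hkB0 : (k : ℝ) * b0 ≤ k * B := mul_le_mul_of_nonneg_left hb0 k0
  have hg := prod_le (k := k) hU.B0 hU.V0 hb1 hv1
  have hm := hU.gm k n ((t : ℝ) * 20000) h1 (hkB.trans h4') h2 h3 (hkB.trans h5') (by linarith)
    _ _ _ rfl rfl rfl
  refine G8_sound h2 hL ?_ ?_ ?_ (Y_eq H t) hm h7
  · push_cast; exact hg
  · push_cast; nlinarith
  · push_cast; ring

theorem W_sound {H p q : ℕ} {tw : Bool} {B V T : ℝ} {b0 v1 : ℕ} (hU : Up H tw B V T) (hL : (p : ℝ) - q ≤ T + 300000)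
    (hb0 : (b0 : ℝ) ≤ B) (hv1 : V ≤ v1) (htw : tw = true) (h3 : v1 ≤ 500000)
    (h : bc 1 p q (2 * (H * 1000000) + 12 * (b0 * v1)) (6 * (b0 * 1000000)) = true) : False := by
  refine bc_sound h hL ?_ le_rfl
  have hm := hU.tw htw
  have h3' : (v1 : ℝ) ≤ 500000 := by exact_mod_cast h3
  have e1 : B * V ≤ B * v1 := mul_le_mul_of_nonneg_left hv1 hU.B0
  have e2 : (B - b0) * (1000000 - 2 * (v1 : ℝ)) ≥ 0 := mul_nonneg (by linarith) (by linarith)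
  push_cast
  nlinarith

/-- **soundness** -/
theorem sound {H : ℕ} {tw : Bool} {lo : ℕ → ℕ → ℕ → ℕ → ℕ → ℕ × ℕ} {B V T : ℝ} (hU : Up H tw B V T)
    (hlo : ∀ c b0 b1 v0 v1 : ℕ, (b0 : ℝ) ≤ B → B ≤ b1 → (v0 : ℝ) ≤ V → V ≤ v1 →
      ((lo c b0 b1 v0 v1).1 : ℝ) - (lo c b0 b1 v0 v1).2 ≤ T + 300000) (t : Tr) :
    ∀ b0 b1 v0 v1 : ℕ, (b0 : ℝ) ≤ B → B ≤ b1 → (v0 : ℝ) ≤ V → V ≤ v1 → chk H tw lo t b0 b1 v0 v1 = true → False := by
  induction t with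
  | B l r ihl ihr =>
    intro b0 b1 v0 v1 h1 h2 h3 h4 h
    have h' : (chk H tw lo l b0 ((b0 + b1) / 2) v0 v1 && chk H tw lo r ((b0 + b1) / 2) b1 v0 v1) = true := h
    rw [Bool.and_eq_true] at h'
    rcases le_total B (((b0 + b1) / 2 : ℕ) : ℝ) with hc | hc
    · exact ihl _ _ _ _ h1 hc h3 h4 h'.1
    · exact ihr _ _ _ _ hc h2 h3 h4 h'.2
  | V l r ihl ihr =>
    intro b0 b1 v0 v1 h1 h2 h3 h4 h
    have h' : (chk H tw lo l b0 b1 v0 ((v0 + v1) / 2) && chk H tw lo r b0 b1 ((v0 + v1) / 2) v1) = true := h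
    rw [Bool.and_eq_true] at h'
    rcases le_total V (((v0 + v1) / 2 : ℕ) : ℝ) with hc | hc
    · exact ihl _ _ _ _ h1 h2 h3 hc h'.1
    · exact ihr _ _ _ _ h1 h2 hc h4 h'.2
  | H c =>
    intro b0 b1 v0 v1 h1 h2 h3 h4 h
    exact H_sound hU (hlo c b0 b1 v0 v1 h1 h2 h3 h4) h
  | M c k =>
    intro b0 b1 v0 v1 h1 h2 h3 h4 h
    exact M_sound hU (hlo c b0 b1 v0 v1 h1 h2 h3 h4) h1 h2 h4 h
  | X c k =>
    intro b0 b1 v0 v1 h1 h2 h3 h4 h
    exact X_sound hU (hlo c b0 b1 v0 v1 h1 h2 h3 h4) h1 h2 h4 h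
  | G c k n t =>
    intro b0 b1 v0 v1 h1 h2 h3 h4 h
    exact G_sound hU (hlo c b0 b1 v0 v1 h1 h2 h3 h4) h1 h2 h4 h
  | W c =>
    intro b0 b1 v0 v1 h1 h2 h3 h4 h
    have h' : (tw && Nat.ble v1 500000 && bc 1 (lo c b0 b1 v0 v1).1 (lo c b0 b1 v0 v1).2
      (2 * (H * 1000000) + 12 * (b0 * v1)) (6 * (b0 * 1000000))) = true := h
    simp only [Bool.and_eq_true] at h'
    obtain ⟨⟨h5, h6⟩, h7⟩ := h'
    rw [ble_iff] at h6
    exact W_sound hU (hlo c b0 b1 v0 v1 h1 h2 h3 h4) h1 h4 h5 h6 h7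

end Pool.Agent.Work.MP_a8fbd7_nt.OX.SQ.TabC
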