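import Mathlib
import Pool.Agent.Work.MP_a8fbd7_nt.OX.SQ.TabC

/-!
MP_a8fbd7_nt, block OX, part SQ: the tables; lower bounds and the reduction of the tables to certificates.
Author: helper46.
-/

set_option autoImplicit false

namespace Pool.Agent.Work.MP_a8fbd7_nt.OX.SQ.TabC

open Pool.Agent.Work.MP_a8fbd7_nt.OX.CELL (LVp GMh JTh)

/-- maximum -/
def mx (x y : ℕ) : ℕ := cond (Nat.ble x y) y x

/-- the lower bound from the inequality `co`: `c = 10^12 (2 r + 2 W)`, `j b`, gain `v` -/
def loC (H j b0 x g : ℕ) : ℕ × ℕ := (x, 2 * g + mx ((H + 1000000) * 1000000 - j * b0 * 1000000) 2000000000000)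

/-- lower bounds, tables A, B, J: `C = 10^6 c` -/
def loA (H R C c b0 b1 v0 v1 : ℕ) : ℕ × ℕ :=
  cond (Nat.beq c 0) (C * v0, 0)
    (cond (Nat.beq c 1) (R * 1000000 + 2 * (C * v0), H * 1000000)
      (cond (Nat.ble 3 c && Nat.ble ((c - 2) * b1) 2000000)
        (cond (Nat.ble ((c - 2) * b1) C) (loC H (c - 2) b0 (2 * (R * 1000000) + 2 * (C * v0)) ((c - 2) * (b1 * v0)))
          (loC H (c - 2) b0 (2 * (R * 1000000) + 2 * (C * v1)) ((c - 2) * (b1 * v1))))
        (0, 0)))

/-- scaled lower bound for `W`, table R; `E = 10^6 (h/2 + 1/40)` -/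
def wR (E b1 v0 : ℕ) : ℕ := 2 * (v0 * 1000000) + (500000 - v0) * (E - b1)

/-- lower bounds, table R -/
def loR (H R E c b0 b1 v0 v1 : ℕ) : ℕ × ℕ :=
  cond (Nat.ble b1 E && Nat.ble v0 500000)
  (cond (Nat.beq c 0) (wR E b1 v0, 0)
    (cond (Nat.beq c 1) (R * 1000000 + 2 * wR E b1 v0, H * 1000000)
      (cond (Nat.ble 3 c && Nat.ble ((c - 2) * b1) 2000000)
        (loC H (c - 2) b0 (2 * (R * 1000000) + 2 * wR E b1 v0) ((c - 2) * (b1 * v1)))
        (0, 0)))) (0, 0)

/-- the scaled inequalities which give lower bounds for `T` -/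
structure Lw (H R : ℕ) (B V T W : ℝ) : Prop where
  V0 : 0 ≤ V
  B0 : 0 ≤ B
  T0 : 0 ≤ T
  Wt : W ≤ T + 100000
  triv : R * 1000000 + 2 * W ≤ T + H * 1000000 + 100000
  co : ∀ j : ℕ, j * B ≤ 2000000 → 2 * (R * 1000000) + 2 * W - 2 * (j * (B * V)) ≤
    T + max ((H + 1000000) * 1000000 - j * B * 1000000) 2000000000000 + 100000

theorem mx_le {a b : ℕ} {x : ℝ} (h : x ≤ a) : max x (b : ℝ) ≤ ((mx a b : ℕ) : ℝ) := by
  unfold mx
  cases hb : Nat.ble a b with
  | true =>
    rw [ble_iff] at hb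
    have : (a : ℝ) ≤ b := by exact_mod_cast hb
    rw [cond_true]
    exact max_le (h.trans this) le_rfl
  | false =>
    have hb' : b ≤ a := by
      have : ¬ (a ≤ b) := fun hh => by
        rw [ble_iff.mpr hh] at hb; exact Bool.noConfusion hb
      exact (not_le.mp this).le
    have : (b : ℝ) ≤ a := by exact_mod_cast hb'
    rw [cond_false]
    exact max_le h this

theorem co_aux {H j b0 : ℕ} {B : ℝ} (h : (b0 : ℝ) ≤ B) :
    max (((H : ℝ) + 1000000) * 1000000 - j * B * 1000000) 2000000000000 ≤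
      ((mx ((H + 1000000) * 1000000 - j * b0 * 1000000) 2000000000000 : ℕ) : ℝ) := by
  have e : (2000000000000 : ℝ) = ((2000000000000 : ℕ) : ℝ) := by norm_num
  rw [e]
  apply mx_le
  have h1 : ((((H + 1000000) * 1000000 - j * b0 * 1000000 : ℕ)) : ℝ) ≥
      (((H + 1000000) * 1000000 : ℕ) : ℝ) - ((j * b0 * 1000000 : ℕ) : ℝ) := by
    rcases le_total (j * b0 * 1000000) ((H + 1000000) * 1000000) with hc | hc
    · rw [Nat.cast_sub hc]
    · have hc' : (((H + 1000000) * 1000000 : ℕ) : ℝ) ≤ ((j * b0 * 1000000 : ℕ) : ℝ) := by exact_mod_cast hc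
      have := Nat.cast_nonneg (α := ℝ) ((H + 1000000) * 1000000 - j * b0 * 1000000)
      linarith
  push_cast at h1
  have h2 : (j : ℝ) * b0 ≤ j * B := mul_le_mul_of_nonneg_left h (Nat.cast_nonneg j)
  push_cast
  linarith

/-- the third kind of lower bounds -/
theorem loC_sound {H R : ℕ} {B V T W : ℝ} (hW : Lw H R B V T W) {j b0 x g : ℕ} (hb0 : (b0 : ℝ) ≤ B)
    (hj : j * B ≤ 2000000) (hx : (x : ℝ) - 2 * g ≤ 2 * (R * 1000000) + 2 * W - 2 * (j * (B * V)) + 200000) :
    ((loC H j b0 x g).1 : ℝ) - (loC H j b0 x g).2 ≤ T + 300000 := by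
  have h1 := hW.co j hj
  have h2 := co_aux (H := H) (j := j) hb0
  unfold loC
  simp only
  push_cast
  generalize ((mx ((H + 1000000) * 1000000 - j * b0 * 1000000) 2000000000000 : ℕ) : ℝ) = M at h2 ⊢
  linarith

theorem zero_sound {H R : ℕ} {B V T W : ℝ} (hW : Lw H R B V T W) :
    (((0, 0) : ℕ × ℕ).1 : ℝ) - ((0, 0) : ℕ × ℕ).2 ≤ T + 300000 := by
  have := hW.T0
  simp only [Nat.cast_zero]
  linarith

theorem loA_sound {H R C : ℕ} {B V T W : ℝ} (hW : Lw H R B V T W) (hC : C * V ≤ W + 100000) (c b0 b1 v0 v1 : ℕ)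
    (h1 : (b0 : ℝ) ≤ B) (h2 : B ≤ b1) (h3 : (v0 : ℝ) ≤ V) (h4 : V ≤ v1) :
    ((loA H R C c b0 b1 v0 v1).1 : ℝ) - (loA H R C c b0 b1 v0 v1).2 ≤ T + 300000 := by
  have hCv : (C : ℝ) * v0 ≤ C * V := mul_le_mul_of_nonneg_left h3 (Nat.cast_nonneg C)
  unfold loA
  cases e0 : Nat.beq c 0 with
  | true =>
    rw [cond_true]
    have := hW.Wt
    simp only
    push_cast
    linarith
  | false =>
  rw [cond_false]
  cases e1 : Nat.beq c 1 with
  | true =>
    rw [cond_true]
    have := hW.triv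
    simp only
    push_cast
    linarith
  | false =>
  rw [cond_false]
  cases e2 : (Nat.ble 3 c && Nat.ble ((c - 2) * b1) 2000000) with
  | false =>
    rw [cond_false]
    exact zero_sound hW
  | true =>
  rw [cond_true]
  rw [Bool.and_eq_true, ble_iff, ble_iff] at e2
  generalize c - 2 = j at e2 ⊢
  have hj0 : (0 : ℝ) ≤ j := Nat.cast_nonneg j
  have e3 : (j : ℝ) * b1 ≤ 2000000 := by exact_mod_cast e2.2
  have hjB : (j : ℝ) * B ≤ j * b1 := mul_le_mul_of_nonneg_left h2 hj0
  cases e4 : Nat.ble (j * b1) C with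
  | true =>
    rw [cond_true]
    rw [ble_iff] at e4
    have e5 : (j : ℝ) * b1 ≤ C := by exact_mod_cast e4
    apply loC_sound hW h1 (hjB.trans e3)
    push_cast
    have a1 : 0 ≤ (V - v0) * (C - j * b1) := mul_nonneg (by linarith) (by linarith)
    have a2 : (j : ℝ) * B * V ≤ j * b1 * V := mul_le_mul_of_nonneg_right hjB hW.V0
    nlinarith
  | false =>
    rw [cond_false]
    have e5 : (C : ℝ) ≤ j * b1 := by
      have : ¬ (j * b1 ≤ C) := fun hh => by
        rw [ble_iff.mpr hh] at e4; exact Bool.noConfusion e4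
      exact_mod_cast (not_le.mp this).le
    apply loC_sound hW h1 (hjB.trans e3)
    push_cast
    have a1 : 0 ≤ (v1 - V) * (j * b1 - C) := mul_nonneg (by linarith) (by linarith)
    have a2 : (j : ℝ) * B * V ≤ j * b1 * V := mul_le_mul_of_nonneg_right hjB hW.V0
    nlinarith

theorem wR_sound {E b1 v0 : ℕ} {B V W : ℝ} (hC : 2 * (V * 1000000) + (500000 - V) * (E - B) ≤ W + 100000)
    (h2 : B ≤ b1) (h3 : (v0 : ℝ) ≤ V) (hV : V ≤ 500000) (hE : (E : ℝ) ≤ 2000000) (hB : 0 ≤ B) (hb : b1 ≤ E) (hv : v0 ≤ 500000) :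
    ((wR E b1 v0 : ℕ) : ℝ) ≤ W + 100000 := by
  unfold wR
  push_cast [Nat.cast_sub hv, Nat.cast_sub hb]
  have hb' : (b1 : ℝ) ≤ E := by exact_mod_cast hb
  have a1 : 0 ≤ (500000 - V) * (b1 - B) := mul_nonneg (by linarith) (by linarith)
  have a2 : 0 ≤ (V - v0) * (2000000 - (E - b1)) := mul_nonneg (by linarith) (by linarith [Nat.cast_nonneg (α := ℝ) b1])
  nlinarith

theorem loR_sound {H R E : ℕ} {B V T W : ℝ} (hW : Lw H R B V T W) (hC : 2 * (V * 1000000) + (500000 - V) * (E - B) ≤ W + 100000)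
    (hV : V ≤ 500000) (hE : (E : ℝ) ≤ 2000000) (c b0 b1 v0 v1 : ℕ)
    (h1 : (b0 : ℝ) ≤ B) (h2 : B ≤ b1) (h3 : (v0 : ℝ) ≤ V) (h4 : V ≤ v1) :
    ((loR H R E c b0 b1 v0 v1).1 : ℝ) - (loR H R E c b0 b1 v0 v1).2 ≤ T + 300000 := by
  unfold loR
  cases e : (Nat.ble b1 E && Nat.ble v0 500000) with
  | false =>
    rw [cond_false]
    exact zero_sound hW
  | true =>
  rw [cond_true]
  rw [Bool.and_eq_true, ble_iff, ble_iff] at e
  have hwR := wR_sound hC h2 h3 hV hE hW.B0 e.1 e.2
  generalize wR E b1 v0 = X at hwR ⊢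
  cases e0 : Nat.beq c 0 with
  | true =>
    rw [cond_true]
    have := hW.Wt
    simp only
    push_cast
    linarith
  | false =>
  rw [cond_false]
  cases e1 : Nat.beq c 1 with
  | true =>
    rw [cond_true]
    have := hW.triv
    simp only
    push_cast
    linarith
  | false =>
  rw [cond_false]
  cases e2 : (Nat.ble 3 c && Nat.ble ((c - 2) * b1) 2000000) with
  | false =>
    rw [cond_false]
    exact zero_sound hW
  | true =>
  rw [cond_true]
  rw [Bool.and_eq_true, ble_iff, ble_iff] at e2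
  generalize c - 2 = j at e2 ⊢
  have hj0 : (0 : ℝ) ≤ j := Nat.cast_nonneg j
  have e3 : (j : ℝ) * b1 ≤ 2000000 := by exact_mod_cast e2.2
  have hjB : (j : ℝ) * B ≤ j * b1 := mul_le_mul_of_nonneg_left h2 hj0
  apply loC_sound hW h1 (hjB.trans e3)
  push_cast
  have := prod_le (k := j) hW.B0 hW.V0 h2 h4
  linarith

/-- from `CD` to the scaled inequalities -/
theorem lw_of {h r b w tau W : ℝ} {H R : ℕ} (hH : (H : ℝ) = 1000000 * h) (hR : (R : ℝ) = 1000000 * r) (hb : 0 < b) (hw : 0 ≤ w)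
    (hCD : CD h r b w tau W (1 / 10000000) 10) :
    Lw H R (1000000 * b) (1000000 * (w / b)) (1000000000000 * tau) (1000000000000 * W) := by
  have hBV : (1000000 * b) * (1000000 * (w / b)) = 1000000000000 * w := by
    field_simp
    ring
  refine ⟨by positivity, by positivity, ?_, ?_, ?_, ?_⟩
  · have := hCD.t0
    linarith
  · have := hCD.Wt
    linarith
  · have := hCD.triv
    rw [hH, hR]
    linarith
  · intro j hj
    have h1 := hCD.co j (by linarith)
    rw [hBV, hH, hR]
    have e : max ((1000000 * h + 1000000) * 1000000 - (j : ℝ) * (1000000 * b) * 1000000) 2000000000000 =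
        1000000000000 * max (h + 1 - j * b) 2 := by
      rw [mul_max_of_nonneg _ _ (by norm_num)]
      congr 1
      · ring
      · norm_num
    rw [e]
    nlinarith

theorem up_of {h r b w tau W : ℝ} {H : ℕ} {tw : Bool} (hH : (H : ℝ) = 1000000 * h) (hb : 0 < b) (hw : 0 ≤ w)
    (hCD : CD h r b w tau W (1 / 10000000) 10) (htw : tw = true → tau ≤ 12 * w - 6 * b + 2 * h + 1 / 10000000) :
    Up H tw (1000000 * b) (1000000 * (w / b)) (1000000000000 * tau) := by
  have hBV : (1000000 * b) * (1000000 * (w / b)) = 1000000000000 * w := by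
    field_simp
    ring
  have hs : (0 : ℝ) ≤ 1000000000000 := by norm_num
  refine ⟨by positivity, by positivity, ?_, ?_, ?_, ?_, ?_⟩
  · have := hCD.t1
    rw [hH]
    linarith
  · intro k hk hkB
    have h1 := (hCD.lv k hk (by linarith)).mv
    rw [hBV, hH]
    have e : max 0 (1000000 * h * 1000000 - (k : ℝ) * (1000000 * b) * 1000000) = 1000000000000 * max 0 (h - k * b) := by
      rw [mul_max_of_nonneg _ _ hs]
      congr 1
      · ring
      · ring
    rw [e]
    nlinarith
  · intro k hk hkB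
    have h1 := (hCD.lv k hk (by linarith)).hx
    rw [hBV, hH]
    have e : max (2 * ((k : ℝ) * (1000000000000 * w)))
        (1000000 * h * 1000000 + 6 * (k * (1000000000000 * w)) - 2 * (k * (1000000 * b) * 1000000)) =
        1000000000000 * max (2 * (k * w)) (h + 6 * (k * w) - 2 * (k * b)) := by
      rw [mul_max_of_nonneg _ _ hs]
      congr 1
      · ring
      · ring
    rw [e]
    nlinarith
  · intro k n t hk hkB hn hn10 hkt ht2 g l u hg hl hu
    have h1 := (hCD.lv k hk (by linarith)).gm n (t / 1000000) hn hn10 (by linarith) (by linarith)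
    rw [hBV] at hg
    have hg' : g = 1000000000000 * (k * w) := by rw [hg]; ring
    have hl' : l = 1000000000000 * (k * b) := by rw [hl]; ring
    have hu' : u = 1000000000000 * (t / 1000000) := by rw [hu]; ring
    generalize (k : ℝ) * w = g' at h1 hg'
    generalize (k : ℝ) * b = l' at h1 hl'
    generalize t / 1000000 = u' at h1 hu'
    have e : max 0 ((H : ℝ) * 1000000 - u) + max (2 * g) (max (4 * u / 3 - 2 * l + 4 * g) (max (u / 2 - l + 4 * g)
      (max (u - 2 * l + 16 * g / 3) (max (u - 2 * l + 28 * g / 5) (max (3 * u / 2 - 3 * l + 7 * g)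
      (max ((n : ℝ) / (n + 1) * (u / n - l + 6 * g)) ((n : ℝ) / (n + 1) * (u - 2 * l + 6 * g)))))))) =
        1000000000000 * GMh h n l' g' u' := by
      unfold GMh
      rw [mul_add (1000000000000 : ℝ), mul_max_of_nonneg _ _ hs, mul_max_of_nonneg _ _ hs, mul_max_of_nonneg _ _ hs, mul_max_of_nonneg _ _ hs,
        mul_max_of_nonneg _ _ hs, mul_max_of_nonneg _ _ hs, mul_max_of_nonneg _ _ hs, mul_max_of_nonneg _ _ hs, hH, hg', hl', hu']
      congr 1
      · congr 1
        · ring
        · ring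
      · congr 1
        · ring
        congr 1
        · ring
        congr 1
        · ring
        congr 1
        · ring
        congr 1
        · ring
        congr 1
        · ring
        congr 1
        · ring
        · ring
    rw [e]
    nlinarith
  · intro h1
    have h2 := htw h1
    rw [hBV, hH]
    linarith

/-- **table A from two certificates** -/
theorem tabA0_of {h r : ℝ} (H R : ℕ) (hH : (H : ℝ) = 1000000 * h) (hR : (R : ℝ) = 1000000 * r) (t1 t2 : Tr)
    (h1 : chk H false (loA H R 1999000) t1 20000 410000 20000 500000 = true)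
    (h2 : chk H false (loA H R 2000000) t2 410000 495000 20000 500000 = true) : TabA0 h r := by
  refine ⟨1 / 10000000, by norm_num, 10, ?_⟩
  intro b w tau W hb1 hb2 hw1 hw2 hWs hCD
  have hb : 0 < b := by linarith
  have hw : 0 ≤ w := by linarith
  have hL := lw_of hH hR hb hw hCD
  have hU := up_of (tw := false) hH hb hw hCD (by intro h; exact absurd h (by decide))
  have hv : w / b * b = w := by field_simp
  have v1 : 1 / 50 ≤ w / b := by rw [le_div_iff₀ hb]; linarith
  have v2 : w / b ≤ 1 / 2 := by rw [div_le_iff₀ hb]; linarith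
  rcases le_or_gt b (41 / 100) with hc | hc
  · have hW : 1999 / 1000 * (w / b) ≤ W + 1 / 10000000 := by
      have h3 : 1999 / 1000 * w ≤ (W + 1 / 10000000) * b := by
        rcases hWs with h4 | h4
        · linarith
        · exact h4.2
      rw [← mul_div_assoc, div_le_iff₀ hb]
      exact h3
    refine sound hU (loA_sound hL (C := 1999000) (by push_cast; linarith)) t1 _ _ _ _ ?_ ?_ ?_ ?_ h1 <;> push_cast <;> linarith
  · have hW : 2 * (w / b) ≤ W + 1 / 10000000 := by
      have h3 : 2 * w ≤ (W + 1 / 10000000) * b := by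
        rcases hWs with h4 | h4
        · exact h4
        · exact absurd h4.1 (by linarith)
      rw [← mul_div_assoc, div_le_iff₀ hb]
      exact h3
    refine sound hU (loA_sound hL (C := 2000000) (by push_cast; linarith)) t2 _ _ _ _ ?_ ?_ ?_ ?_ h2 <;> push_cast <;> linarith

/-- **table B from a certificate** -/
theorem tabB_of {h r : ℝ} (H R : ℕ) (hH : (H : ℝ) = 1000000 * h) (hR : (R : ℝ) = 1000000 * r) (t1 : Tr)
    (h1 : chk H false (loA H R 2000000) t1 495000 505000 70000 500000 = true) : TabB h r := by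
  refine ⟨1 / 10000000, by norm_num, 10, ?_⟩
  intro b w tau W hb1 hb2 hw1 hw2 hWs hCD
  have hb : 0 < b := by linarith
  have hw : 0 ≤ w := by linarith
  have hL := lw_of hH hR hb hw hCD
  have hU := up_of (tw := false) hH hb hw hCD (by intro h; exact absurd h (by decide))
  have v1 : 7 / 100 ≤ w / b := by rw [le_div_iff₀ hb]; linarith
  have v2 : w / b ≤ 1 / 2 := by rw [div_le_iff₀ hb]; linarith
  have hW : 2 * (w / b) ≤ W + 1 / 10000000 := by
    rw [← mul_div_assoc, div_le_iff₀ hb]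
    exact hWs
  refine sound hU (loA_sound hL (C := 2000000) (by push_cast; linarith)) t1 _ _ _ _ ?_ ?_ ?_ ?_ h1 <;> push_cast <;> linarith

/-- **table J from a certificate** -/
theorem tabJ_of {h r : ℝ} (H R b1 : ℕ) (hH : (H : ℝ) = 1000000 * h) (hR : (R : ℝ) = 1000000 * r) (t1 : Tr)
    (hb1 : 1000000 * (h / 2 + 3 / 100) ≤ b1)
    (h1 : chk H true (loA H R 2000000) t1 500000 b1 0 500000 = true) : TabJ h r := by
  refine ⟨1 / 10000000, by norm_num, 10, ?_⟩
  intro b w tau W hb1 hb2 hw1 hw2 hWs htw hCD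
  have hb : 0 < b := by linarith
  have hw : 0 ≤ w := hw1
  have hL := lw_of hH hR hb hw hCD
  have hU := up_of (tw := true) hH hb hw hCD (by intro _; exact htw)
  have v1 : 0 ≤ w / b := by positivity
  have v2 : w / b ≤ 1 / 2 := by rw [div_le_iff₀ hb]; linarith
  have hW : 2 * (w / b) ≤ W + 1 / 10000000 := by
    rw [← mul_div_assoc, div_le_iff₀ hb]
    exact hWs
  refine sound hU (loA_sound hL (C := 2000000) (by push_cast; linarith)) t1 _ _ _ _ ?_ ?_ ?_ ?_ h1 <;> push_cast <;> linarith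

/-- **table R from a certificate** -/
theorem tabR_of {h r : ℝ} (H R E b1 : ℕ) (hH : (H : ℝ) = 1000000 * h) (hR : (R : ℝ) = 1000000 * r)
    (hE : (E : ℝ) = 1000000 * (h / 2 + 1 / 40)) (hE2 : (E : ℝ) ≤ 2000000) (t1 : Tr)
    (hb1 : 1000000 * (h / 2 - 1 / 40) ≤ b1)
    (h1 : chk H false (loR H R E) t1 500000 b1 20000 500000 = true) : TabR h r := by
  refine ⟨1 / 10000000, by norm_num, 10, ?_⟩
  intro b w tau W hb1 hb2 hw1 hw2 hWs hCD
  have hb : 0 < b := by linarith
  have hw : 0 ≤ w := by linarith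
  have hL := lw_of hH hR hb hw hCD
  have hU := up_of (tw := false) hH hb hw hCD (by intro h; exact absurd h (by decide))
  have v1 : 1 / 50 ≤ w / b := by rw [le_div_iff₀ hb]; linarith
  have v2 : w / b ≤ 1 / 2 := by rw [div_le_iff₀ hb]; linarith
  have hW : 2 * (w / b) + (1 / 2 - w / b) * (h / 2 + 1 / 40 - b) ≤ W + 1 / 10000000 := by
    have e : 2 * (w / b) + (1 / 2 - w / b) * (h / 2 + 1 / 40 - b) = (2 * w + (b / 2 - w) * (h / 2 + 1 / 40 - b)) / b := by
      field_simp
    rw [e, div_le_iff₀ hb]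
    exact hWs
  have hC : 2 * ((1000000 * (w / b)) * 1000000) + (500000 - 1000000 * (w / b)) * (E - 1000000 * b) ≤
      1000000000000 * W + 100000 := by
    rw [hE]
    have e : 2 * ((1000000 * (w / b)) * 1000000) + (500000 - 1000000 * (w / b)) * (1000000 * (h / 2 + 1 / 40) - 1000000 * b) =
        1000000000000 * (2 * (w / b) + (1 / 2 - w / b) * (h / 2 + 1 / 40 - b)) := by ring
    rw [e]
    linarith
  refine sound hU (loR_sound hL (E := E) hC (by linarith) hE2) t1 _ _ _ _ ?_ ?_ ?_ ?_ h1 <;> push_cast <;> linarith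

end Pool.Agent.Work.MP_a8fbd7_nt.OX.SQ.TabC
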