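import Mathlib
import Pool.Agent.Work.MP_a8fbd7_nt.OX.SQ.TabD

/-!
MP_a8fbd7_nt, block OX, part SQ: the tables for `(h, r) = (5 / 4, 973 / 1000)` (certificates, computer generated).
Author: helper46.
-/

set_option autoImplicit false

namespace Pool.Agent.Work.MP_a8fbd7_nt.OX.SQ.TabC

open Tr

/-- certificate -/
noncomputable def tr_a1 : Tr :=
  B (B (B (B (V (B (V (B (V (B (V (B (V (B (V (X 0 33) (X 0 34)) (V (X 0 32) (X 0 33))) (B (V (X 0 34) (X 15 35)) (V (X 0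
  33) (X 14 33)))) (V (V (X 0 31) (X 0 32)) (V (X 0 32) (X 14 32)))) (B (V (X 15 36) (X 15 36)) (V (X 14 33) (X 14 34))))
  (V (V (B (V (X 0 29) (X 0 29)) (V (X 0 27) (X 0 28))) (B (V (X 0 30) (X 13 30)) (V (X 0 28) (X 13 28)))) (V (X 13 31) (X
  13 31)))) (B (V (X 15 39) (X 15 41)) (V (X 13 34) (X 13 35)))) (V (V (B (V (B (V (X 0 26) (X 0 26)) (V (X 0 24) (X 0
  25))) (B (V (X 0 26) (X 12 27)) (V (X 0 25) (X 11 25)))) (V (B (V (X 0 23) (X 0 23)) (V (X 0 22) (X 0 22))) (B (V (X 0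
  24) (X 11 24)) (V (X 0 23) (X 11 23))))) (B (V (X 12 27) (X 12 28)) (V (X 11 25) (X 11 25)))) (V (X 12 30) (X 12 31))))
  (B (V (B (V (X 15 43) (X 15 46)) (V (X 13 37) (X 13 40))) (B (V (X 15 51) (M 14 55)) (V (X 13 44) (M 13 47)))) (V (V (X
  12 33) (X 12 36)) (V (X 12 40) (B (M 12 42) (M 11 38)))))) (V (V (B (V (B (V (B (V (X 0 21) (X 0 21)) (V (X 0 20) (X 0
  20))) (B (V (X 0 22) (X 10 22)) (V (X 0 21) (X 10 21)))) (V (B (V (X 0 19) (X 0 19)) (V (X 0 18) (X 0 19))) (B (V (X 0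
  20) (X 10 20)) (V (X 0 19) (X 9 19))))) (B (V (X 10 22) (X 10 23)) (V (X 9 20) (X 9 21)))) (V (B (V (B (V (X 0 18) (X 0
  18)) (V (X 0 17) (X 0 17))) (B (V (X 0 18) (X 9 18)) (V (X 0 17) (X 9 18)))) (V (V (X 0 16) (X 0 17)) (V (X 0 17) (X 8
  17)))) (B (V (X 9 19) (X 9 19)) (V (X 8 18) (X 8 18))))) (B (V (X 10 24) (X 10 25)) (V (X 9 21) (X 9 22)))) (V (B (V (X
  10 27) (X 10 29)) (V (X 9 23) (X 9 24))) (B (V (X 10 32) (M 10 35)) (V (X 9 27) (M 8 29)))))) (B (V (B (V (B (V (M 14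
  50) (M 14 44)) (M 13 50)) (M 14 49)) (V (V (M 11 40) (M 11 35)) (M 11 36))) (B (V (M 1 4) (H 1)) (V (M 1 3) (H 1)))) (V
  (V (B (V (M 10 32) (M 10 28)) (V (M 8 27) (M 8 24))) (B (M 10 29) (M 8 24))) (V (M 1 3) (H 1))))) (V (V (V (B (V (B (V
  (B (V (X 0 15) (X 0 16)) (V (X 0 14) (X 0 15))) (B (V (X 0 16) (X 8 16)) (V (X 0 15) (X 8 15)))) (V (B (V (B (V (X 0 13)
  (X 0 13)) (X 0 13)) (X 0 14)) (V (B (X 0 13) (X 0 12)) (X 0 13))) (B (V (X 0 14) (X 7 14)) (V (X 0 13) (X 7 13))))) (B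
  (V (X 8 16) (X 8 17)) (V (X 7 14) (X 7 15)))) (V (B (V (B (V (X 0 12) (X 0 12)) (V (B (V (X 0 11) (X 0 11)) (X 0 11)) (X
  0 12))) (B (V (X 0 12) (X 7 13)) (V (X 0 12) (X 7 12)))) (V (B (V (X 0 11) (X 0 11)) (V (B (V (X 0 10) (X 0 10)) (X 0
  10)) (X 0 11))) (B (V (X 0 11) (X 6 11)) (V (X 0 11) (X 6 11))))) (B (V (X 7 13) (X 7 13)) (V (X 6 12) (X 6 12))))) (B
  (V (B (X 8 18) (X 7 16)) (X 8 19)) (V (B (X 7 14) (X 6 13)) (X 7 15)))) (V (B (V (X 8 20) (X 8 21)) (V (X 7 16) (X 7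
  17))) (B (V (B (X 8 23) (X 7 20)) (B (M 8 25) (M 7 22))) (V (X 6 19) (M 6 20))))) (V (V (B (V (M 7 24) (M 7 22)) (V (M 6
  19) (M 6 17))) (B (M 7 22) (M 6 17))) (V (M 1 2) (H 1))))) (V (V (B (V (B (V (B (V (B (V (X 0 10) (X 0 10)) (V (B (V (X
  0 10) (X 0 10)) (X 0 9)) (X 0 10))) (B (V (X 0 10) (X 6 10)) (V (X 0 10) (X 6 10)))) (V (B (V (X 0 9) (X 0 9)) (V (B (X
  0 9) (V (X 0 9) (X 0 9))) (X 0 9))) (B (V (X 0 10) (X 6 10)) (V (X 0 9) (X 6 9))))) (B (V (X 6 11) (X 6 11)) (V (X 6 10)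
  (X 6 10)))) (V (B (V (B (V (B (V (X 0 9) (X 0 9)) (X 0 8)) (X 0 9)) (V (X 0 8) (X 0 8))) (B (V (X 0 9) (X 6 9)) (V (X 0
  9) (X 5 9)))) (V (V (B (X 0 8) (V (X 0 8) (X 0 8))) (X 0 8)) (V (X 0 8) (X 5 8)))) (B (V (X 5 9) (X 5 9)) (V (X 5 9) (X
  5 9))))) (B (V (X 6 12) (X 6 12)) (V (X 5 10) (X 5 10)))) (V (V (B (V (B (V (B (V (X 0 7) (X 0 8)) (X 0 7)) (B (X 0 8)
  (X 0 7))) (V (B (X 0 7) (V (X 0 7) (X 0 7))) (X 0 7))) (B (V (X 0 8) (X 5 8)) (V (X 0 7) (X 5 7)))) (V (B (V (B (V (X 0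
  7) (X 0 7)) (V (X 0 7) (X 0 7))) (X 0 7)) (V (X 0 6) (X 0 6))) (B (V (X 0 7) (X 5 7)) (V (X 0 7) (X 5 7))))) (B (V (X 5
  8) (X 5 8)) (V (X 5 7) (X 5 7)))) (V (B (X 5 9) (X 5 8)) (X 5 9)))) (B (V (B (V (X 6 13) (X 6 14)) (V (X 5 11) (X 5
  12))) (B (V (X 6 15) (M 6 17)) (V (X 5 13) (M 5 14)))) (V (V (X 5 10) (X 5 10)) (V (B (X 5 11) (X 4 10)) (B (M 5 12) (M
  4 11)))))) (V (B (V (B (V (M 6 15) (M 5 14)) (V (M 5 13) (M 5 11))) (B (M 5 14) (M 5 11))) (V (V (B (M 5 11) (M 4 10))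
  (M 4 11)) (M 4 11))) (B (V (M 1 1) (H 1)) (V (M 1 1) (H 1)))))) (V (V (B (V (B (V (B (V (B (V (B (X 0 6) (V (X 0 6) (X 0
  6))) (X 0 6)) (V (B (V (X 0 6) (X 0 6)) (V (X 0 6) (X 0 6))) (X 0 6))) (B (V (X 0 6) (X 0 6)) (V (X 0 6) (X 4 6)))) (V
  (B (V (B (V (X 0 6) (X 0 6)) (X 0 5)) (B (V (X 0 6) (X 0 6)) (V (X 0 5) (X 0 5)))) (V (X 0 5) (X 0 5))) (B (V (X 0 6) (X
  4 6)) (V (X 0 5) (X 4 6))))) (B (V (B (V (X 5 6) (X 5 6)) (X 4 6)) (X 4 7)) (V (X 4 6) (X 4 6)))) (V (B (V (B (V (B (X 0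
  5) (V (X 0 5) (X 0 5))) (X 0 5)) (V (B (V (X 0 5) (X 0 5)) (V (X 0 5) (X 0 5))) (X 0 5))) (B (V (X 0 5) (X 4 5)) (V (X 0
  5) (X 4 5)))) (V (B (V (B (V (X 0 5) (X 0 5)) (V (X 0 5) (X 0 5))) (B (V (X 0 5) (X 0 5)) (V (X 0 5) (X 0 5)))) (V (B (V
  (X 0 5) (X 0 5)) (V (X 0 4) (X 0 5))) (B (V (X 0 5) (X 0 5)) (V (X 0 5) (X 0 5))))) (B (V (X 0 5) (X 4 5)) (V (B (X 0 5)
  (V (X 0 5) (X 0 5))) (X 4 5))))) (B (V (X 4 5) (X 4 6)) (V (X 4 5) (X 4 5))))) (B (V (B (X 4 7) (X 4 6)) (X 4 7)) (V (B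
  (X 4 6) (V (X 4 5) (X 4 5))) (X 4 6)))) (V (V (B (V (B (V (X 0 4) (B (V (X 0 4) (X 0 4)) (X 0 4))) (V (B (V (X 0 4) (X 0
  4)) (V (X 0 4) (X 0 4))) (X 0 4))) (B (V (B (V (X 0 5) (X 0 5)) (X 0 4)) (B (X 4 5) (X 4 4))) (V (X 0 4) (X 0 4)))) (V
  (B (V (B (V (X 0 4) (X 0 4)) (V (X 0 4) (X 0 4))) (B (V (X 0 4) (X 0 4)) (V (X 0 4) (X 0 4)))) (V (B (V (X 0 4) (X 0 4))
  (V (B (V (X 0 4) (X 0 4)) (V (X 0 4) (X 0 4))) (X 0 4))) (B (V (X 0 4) (X 0 4)) (V (X 0 4) (X 0 4))))) (B (V (X 0 4) (X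
  0 4)) (V (B (V (X 0 4) (X 0 4)) (V (X 0 4) (X 0 4))) (B (X 0 4) (V (X 0 4) (X 0 4))))))) (B (V (B (V (X 4 5) (X 4 5)) (X
  4 4)) (X 4 5)) (V (B (V (X 4 4) (X 4 4)) (V (X 4 4) (X 4 4))) (X 4 4)))) (V (B (V (X 4 5) (X 4 5)) (V (X 4 4) (X 4 4)))
  (B (X 4 5) (V (X 4 5) (X 4 5)))))) (B (V (B (V (X 4 8) (X 4 8)) (V (X 4 7) (X 4 7))) (B (V (X 4 9) (B (M 4 10) (M 4 9)))
  (V (X 4 8) (M 4 8)))) (V (V (B (X 4 6) (X 3 5)) (B (X 4 6) (X 3 5))) (V (B (V (X 4 6) (X 4 6)) (X 3 6)) (B (M 3 7) (M 3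
  6)))))) (V (B (V (B (V (M 4 9) (M 4 8)) (V (M 4 8) (M 4 7))) (B (M 4 8) (M 4 7))) (V (V (B (M 3 7) (M 3 6)) (M 3 6)) (V
  (M 3 5) (M 1 4)))) (B (V (M 1 1) (H 1)) (V (M 1 1) (H 1)))))) (V (V (B (V (B (V (B (V (B (V (B (V (B (V (X 0 4) (X 0 4))
  (X 0 3)) (B (V (X 0 4) (X 0 4)) (V (X 0 3) (X 0 3)))) (X 0 3)) (B (V (B (X 0 4) (V (X 0 4) (X 0 4))) (X 0 4)) (V (X 0 3)
  (B (V (X 0 3) (X 0 3)) (X 0 3))))) (V (X 0 3) (X 0 3))) (B (V (B (V (X 0 4) (X 0 4)) (V (B (X 0 4) (X 0 3)) (X 0 4))) (B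
  (V (X 0 4) (X 0 4)) (V (X 0 4) (X 0 4)))) (V (X 0 3) (B (V (X 0 3) (X 0 3)) (X 0 3))))) (V (B (V (B (V (X 0 3) (X 0 3))
  (V (X 0 3) (X 0 3))) (X 0 3)) (V (B (V (X 0 3) (X 0 3)) (V (X 0 3) (X 0 3))) (B (X 0 3) (V (X 0 3) (X 0 3))))) (B (V (X
  0 3) (X 0 3)) (V (X 0 3) (X 3 3))))) (B (V (B (V (B (V (X 4 4) (X 4 4)) (V (X 4 4) (X 4 4))) (X 4 4)) (V (B (V (B (X 3
  4) (X 3 3)) (X 3 4)) (X 3 3)) (X 3 4))) (B (X 4 4) (V (X 3 4) (X 3 4)))) (V (X 3 3) (X 3 3)))) (V (B (V (B (V (B (V (X 0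
  3) (X 0 3)) (V (X 0 3) (X 0 3))) (B (V (X 0 3) (X 0 3)) (V (X 0 3) (X 0 3)))) (V (B (V (B (X 0 3) (V (X 0 3) (X 0 3)))
  (X 0 3)) (V (B (V (X 0 3) (X 0 3)) (V (X 0 3) (X 0 3))) (B (X 0 3) (V (X 0 3) (X 0 3))))) (B (V (X 0 3) (X 0 3)) (V (X 0
  3) (X 0 3))))) (B (V (B (X 0 3) (V (X 0 3) (X 3 3))) (X 3 3)) (V (B (V (X 0 3) (X 3 3)) (V (X 0 3) (X 3 3))) (X 3 3))))
  (V (B (V (B (V (B (V (X 0 3) (X 0 3)) (V (X 0 3) (X 0 3))) (B (V (X 0 3) (X 0 3)) (V (X 0 3) (X 0 3)))) (V (B (V (X 0 3)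
  (X 0 3)) (V (X 0 3) (X 0 3))) (B (V (X 0 3) (X 0 3)) (V (X 0 3) (X 0 3))))) (B (V (B (X 0 3) (V (X 0 3) (X 0 3))) (X 0
  3)) (V (B (V (X 0 3) (X 0 3)) (V (X 0 3) (X 0 3))) (B (X 0 3) (V (X 0 3) (X 0 3)))))) (V (B (V (B (V (X 0 3) (X 0 3)) (V
  (B (V (X 0 3) (X 0 3)) (V (X 0 3) (X 0 3))) (X 0 3))) (B (V (X 0 3) (X 0 3)) (V (X 0 3) (X 0 3)))) (V (B (V (B (V (X 0
  3) (X 0 3)) (V (X 0 3) (X 0 3))) (B (V (X 0 3) (X 0 3)) (V (X 0 3) (X 0 3)))) (V (B (V (X 0 3) (X 0 3)) (V (X 0 3) (X 0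
  3))) (B (V (X 0 3) (X 0 3)) (V (X 0 3) (X 0 3))))) (B (V (B (X 0 3) (V (X 0 3) (X 0 3))) (X 0 3)) (V (B (V (X 0 3) (X 0
  3)) (V (X 0 3) (X 0 3))) (B (V (X 0 3) (X 0 3)) (V (X 0 3) (X 0 3))))))) (B (V (B (V (X 0 3) (X 0 3)) (V (X 0 3) (X 0
  3))) (B (V (X 0 3) (X 0 3)) (V (X 0 3) (X 0 3)))) (V (B (V (X 0 3) (X 0 3)) (V (B (X 0 3) (V (X 0 3) (X 0 3))) (X 0 3)))
  (B (V (X 0 3) (X 0 3)) (V (X 0 3) (X 0 3))))))) (B (V (B (V (X 0 3) (X 3 3)) (V (X 0 3) (X 3 3))) (X 3 3)) (V (B (V (B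
  (V (X 0 3) (X 0 3)) (V (X 0 3) (X 0 3))) (B (X 0 3) (V (X 0 3) (X 3 3)))) (V (B (V (X 0 3) (X 0 3)) (V (X 0 3) (X 0 3)))
  (B (V (X 0 3) (X 3 3)) (V (X 0 3) (X 3 3))))) (B (V (X 3 3) (X 3 3)) (V (X 3 3) (X 3 3))))))) (B (V (X 3 3) (X 3 3)) (V
  (B (V (X 3 3) (X 3 3)) (V (X 3 3) (X 3 3))) (X 3 3))))) (B (V (B (V (X 3 4) (X 3 4)) (V (X 3 4) (X 3 4))) (B (X 3 4) (X
  3 4))) (V (X 3 3) (B (V (X 3 3) (X 3 3)) (X 3 3))))) (V (B (V (B (V (B (V (B (V (B (V (B (V (X 0 3) (X 0 3)) (V (X 0 3)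
  (X 0 3))) (B (V (X 0 3) (X 0 3)) (V (X 0 3) (X 0 3)))) (V (B (V (X 0 3) (X 0 3)) (V (B (X 0 3) (V (X 0 3) (X 0 3))) (X 0
  3))) (B (V (X 0 3) (X 0 3)) (V (X 0 3) (X 0 3))))) (B (V (B (V (X 0 3) (X 0 3)) (V (X 0 3) (X 0 3))) (B (V (X 0 3) (X 0
  3)) (V (X 0 3) (X 0 3)))) (V (B (V (X 0 3) (X 0 3)) (V (X 0 3) (X 0 3))) (B (V (X 0 3) (X 0 3)) (V (X 0 3) (X 0 3))))))
  (V (B (V (B (V (B (V (X 0 3) (X 0 3)) (V (X 0 3) (X 0 3))) (B (V (X 0 3) (X 0 3)) (V (X 0 3) (X 0 3)))) (V (B (V (X 0 3)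
  (X 0 3)) (V (X 0 3) (X 0 3))) (B (V (X 0 3) (X 0 3)) (V (X 0 3) (X 0 3))))) (B (V (B (X 0 3) (V (X 0 3) (X 0 3))) (B (X
  0 3) (V (X 0 3) (X 0 3)))) (V (B (V (X 0 3) (X 0 3)) (V (X 0 3) (X 0 3))) (B (V (X 0 3) (X 0 3)) (V (X 0 3) (X 0 3))))))
  (V (B (V (B (V (X 0 3) (X 0 3)) (V (X 0 2) (X 0 3))) (B (V (X 0 3) (X 0 3)) (V (X 0 3) (X 0 3)))) (V (X 0 2) (B (V (X 0
  2) (X 0 2)) (X 0 2)))) (B (V (B (V (X 0 3) (X 0 3)) (V (X 0 3) (X 0 3))) (B (V (X 0 3) (X 0 3)) (V (X 0 3) (X 0 3)))) (V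
  (B (V (X 0 3) (X 0 3)) (X 0 2)) (B (V (X 0 3) (X 0 3)) (V (X 0 2) (X 0 3))))))) (B (V (B (V (X 0 3) (X 0 3)) (V (B (V (X
  0 3) (X 0 3)) (V (X 0 3) (X 0 3))) (B (X 0 3) (V (X 0 3) (X 0 3))))) (B (V (X 0 3) (X 0 3)) (V (B (X 0 3) (V (X 0 3) (X
  0 3))) (X 0 3)))) (V (B (V (B (V (X 0 3) (X 0 3)) (V (X 0 3) (X 0 3))) (B (V (X 0 3) (X 0 3)) (V (X 0 3) (X 0 3)))) (V
  (B (V (X 0 3) (X 0 3)) (V (X 0 3) (X 0 3))) (B (V (X 0 3) (X 0 3)) (V (X 0 3) (X 0 3))))) (B (V (B (V (X 0 3) (X 0 3))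
  (V (X 0 3) (X 0 3))) (B (V (X 0 3) (X 0 3)) (V (X 0 3) (X 0 3)))) (V (B (V (X 0 3) (X 0 3)) (V (X 0 3) (X 0 3))) (B (V
  (X 0 3) (X 0 3)) (V (X 0 3) (X 0 3))))))))) (B (V (B (V (B (V (X 0 3) (X 0 3)) (V (X 0 3) (X 0 3))) (B (V (X 0 3) (X 0
  3)) (V (X 0 3) (X 0 3)))) (V (B (V (X 0 3) (X 0 3)) (V (X 0 3) (X 0 3))) (B (V (X 0 3) (X 0 3)) (V (X 0 3) (X 0 3)))))
  (B (V (B (X 0 3) (V (X 0 3) (X 0 3))) (B (X 0 3) (V (X 0 3) (X 0 3)))) (V (B (V (X 0 3) (X 0 3)) (V (X 0 3) (X 0 3))) (B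
  (V (X 0 3) (X 0 3)) (V (X 0 3) (X 0 3)))))) (V (B (V (B (V (X 0 3) (X 0 3)) (V (X 0 3) (X 0 3))) (B (V (X 0 3) (X 0 3))
  (V (X 0 3) (X 0 3)))) (V (B (V (B (V (X 0 3) (X 0 3)) (V (X 0 3) (X 0 3))) (B (X 0 3) (V (X 0 3) (X 0 3)))) (V (B (V (X
  0 3) (X 0 3)) (V (X 0 3) (X 0 3))) (B (V (X 0 3) (X 0 3)) (V (X 0 3) (X 0 3))))) (B (V (B (X 0 3) (V (X 0 3) (X 0 3)))
  (B (X 0 3) (V (X 0 3) (X 0 3)))) (V (B (V (X 0 3) (X 0 3)) (V (X 0 3) (X 0 3))) (B (V (X 0 3) (X 0 3)) (V (X 0 3) (X 0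
  3))))))) (B (V (B (V (X 0 3) (X 0 3)) (V (X 0 3) (X 0 3))) (B (V (X 0 3) (X 0 3)) (V (X 0 3) (X 0 3)))) (V (B (V (X 0 3)
  (X 0 3)) (V (B (V (X 0 3) (X 0 3)) (V (X 0 3) (X 0 3))) (B (V (X 0 3) (X 0 3)) (V (X 0 3) (X 0 3))))) (B (V (X 0 3) (X 0
  3)) (V (B (X 0 3) (V (X 0 3) (X 0 3))) (B (X 0 3) (V (X 0 3) (X 0 3)))))))))) (V (B (V (B (V (X 0 2) (B (V (X 0 2) (X 0
  2)) (X 0 2))) (X 0 2)) (B (V (B (V (X 0 2) (B (V (X 0 2) (X 0 3)) (X 0 2))) (X 0 2)) (B (V (B (V (X 0 3) (X 0 3)) (V (X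
  0 2) (X 0 2))) (B (V (X 0 3) (X 0 3)) (V (X 0 3) (X 0 3)))) (V (X 0 2) (X 0 2)))) (X 0 2))) (X 0 2)) (B (V (B (V (B (V
  (B (V (X 0 3) (X 0 3)) (V (X 0 3) (X 0 3))) (B (V (X 0 3) (X 0 3)) (V (X 0 3) (X 0 3)))) (V (V (X 0 2) (B (X 0 3) (X 0
  2))) (V (X 0 3) (X 0 3)))) (B (V (B (V (X 0 3) (X 0 3)) (V (X 0 3) (X 0 3))) (B (V (X 0 3) (X 0 3)) (V (X 0 3) (X 0
  3)))) (V (V (X 0 3) (X 0 3)) (V (X 0 3) (X 0 3))))) (V (X 0 2) (V (X 0 2) (B (V (X 0 2) (B (V (X 0 2) (X 0 2)) (X 0 2)))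
  (X 0 2))))) (B (V (B (V (B (V (X 0 3) (X 0 3)) (V (X 0 3) (X 0 3))) (B (V (X 0 3) (X 0 3)) (V (X 0 3) (X 0 3)))) (V (V
  (X 0 3) (X 0 3)) (V (X 0 3) (X 0 3)))) (B (V (B (V (X 0 3) (X 0 3)) (V (X 0 3) (X 0 3))) (B (V (X 0 3) (X 0 3)) (V (X 0
  3) (X 0 3)))) (V (V (X 0 3) (X 0 3)) (V (X 0 3) (X 0 3))))) (V (V (B (V (B (V (X 0 3) (X 0 3)) (X 0 2)) (B (V (X 0 3) (X
  0 3)) (X 0 2))) (X 0 2)) (B (V (B (V (X 0 3) (X 0 3)) (V (X 0 2) (X 0 2))) (B (V (X 0 3) (X 0 3)) (V (X 0 3) (X 0 3))))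
  (X 0 2))) (V (B (V (B (X 0 3) (V (X 0 3) (X 0 3))) (B (X 0 3) (V (X 0 3) (X 0 3)))) (V (X 0 2) (B (V (X 0 2) (X 0 2)) (X
  0 2)))) (B (V (B (X 0 3) (V (X 0 3) (X 0 3))) (B (X 0 3) (V (X 0 3) (X 0 3)))) (V (B (V (X 0 3) (X 0 3)) (X 0 2)) (B (V
  (X 0 3) (X 0 3)) (X 0 2)))))))) (V (X 0 2) (V (X 0 2) (X 0 2)))))) (B (V (B (V (B (V (X 0 3) (X 0 3)) (V (B (V (X 0 3)
  (X 0 3)) (V (X 0 3) (X 0 3))) (B (V (X 0 3) (X 0 3)) (V (X 0 3) (X 0 3))))) (B (V (X 0 3) (X 3 3)) (V (B (X 0 3) (V (X 0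
  3) (X 3 3))) (X 3 3)))) (V (B (V (B (V (X 0 3) (X 0 3)) (V (X 0 3) (X 0 3))) (B (V (X 0 3) (X 0 3)) (V (X 0 3) (X 0
  3)))) (V (B (V (X 0 3) (X 0 3)) (V (B (X 0 3) (V (X 0 3) (X 0 3))) (X 0 3))) (B (V (X 0 3) (X 0 3)) (V (X 0 3) (X 0
  3))))) (B (V (B (V (X 0 3) (X 0 3)) (V (X 0 3) (X 0 3))) (X 3 3)) (V (B (V (X 0 3) (X 0 3)) (V (X 0 3) (X 0 3))) (B (V
  (X 3 3) (X 3 3)) (V (X 3 3) (X 3 3))))))) (B (V (X 3 3) (X 3 3)) (V (B (V (X 3 3) (X 3 3)) (V (X 3 3) (X 3 3))) (X 3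
  3)))) (V (B (V (B (V (B (V (B (V (X 0 3) (X 0 3)) (V (X 0 3) (X 0 3))) (B (V (X 0 3) (X 0 3)) (V (X 0 3) (X 0 3)))) (V
  (V (X 0 3) (X 0 3)) (V (X 0 3) (X 0 3)))) (B (V (B (V (X 0 3) (X 0 3)) (V (X 0 3) (X 0 3))) (B (V (X 0 3) (X 0 3)) (V (X
  0 3) (X 0 3)))) (V (V (X 0 3) (X 0 3)) (V (X 0 3) (X 0 3))))) (V (V (B (V (B (X 0 3) (V (X 0 3) (X 0 3))) (B (X 0 3) (V
  (X 0 3) (X 0 3)))) (V (B (V (X 0 3) (X 0 3)) (V (X 0 2) (X 0 2))) (B (V (X 0 3) (X 0 3)) (V (X 0 3) (X 0 3))))) (B (V (B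
  (X 0 3) (V (X 0 3) (X 0 3))) (B (X 0 3) (V (X 0 3) (X 0 3)))) (V (B (V (X 0 3) (X 0 3)) (V (X 0 3) (X 0 3))) (B (V (X 0
  3) (X 0 3)) (V (X 0 3) (X 0 3)))))) (V (B (V (B (X 0 3) (V (X 0 3) (X 0 3))) (B (X 0 3) (V (X 0 3) (X 0 3)))) (V (B (V
  (X 0 3) (X 0 3)) (V (X 0 3) (X 0 3))) (B (V (X 0 3) (X 0 3)) (V (X 0 3) (X 0 3))))) (B (V (B (X 0 3) (V (X 0 3) (X 0
  3))) (B (X 0 3) (V (X 0 3) (X 0 3)))) (V (B (V (X 0 3) (X 0 3)) (V (X 0 3) (X 0 3))) (B (V (X 0 3) (X 0 3)) (V (X 0 3)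
  (X 0 3)))))))) (B (V (B (V (B (V (X 0 3) (X 0 3)) (V (X 0 3) (X 0 3))) (B (X 0 3) (V (X 0 3) (X 3 3)))) (V (V (X 0 3) (X
  0 3)) (V (X 0 3) (X 0 3)))) (B (V (X 3 3) (X 3 3)) (V (X 3 3) (X 3 3)))) (V (V (B (V (B (X 0 3) (V (X 0 3) (X 0 3))) (B
  (X 0 3) (V (X 0 3) (X 0 3)))) (V (B (V (X 0 3) (X 0 3)) (V (X 0 3) (X 0 3))) (B (V (X 0 3) (X 0 3)) (V (X 0 3) (X 0
  3))))) (B (V (X 0 3) (X 0 3)) (V (B (V (X 0 3) (X 0 3)) (V (X 0 3) (X 0 3))) (B (V (X 0 3) (X 3 3)) (V (X 0 3) (X 3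
  3)))))) (V (B (V (X 3 3) (X 3 3)) (V (B (X 3 3) (V (X 3 3) (X 3 3))) (X 3 3))) (X 3 3))))) (V (V (B (V (X 0 2) (B (V (X
  0 2) (B (V (X 0 2) (B (V (X 0 2) (X 0 2)) (X 0 2))) (X 0 2))) (X 0 2))) (X 0 2)) (B (V (B (V (B (V (B (V (X 0 2) (X 0
  3)) (X 0 2)) (B (V (X 0 3) (X 0 3)) (X 0 2))) (X 0 2)) (B (V (B (V (X 0 3) (X 0 3)) (V (X 0 2) (X 0 2))) (B (V (X 0 3)
  (X 0 3)) (V (X 0 3) (X 0 3)))) (X 0 2))) (X 0 2)) (B (V (B (V (B (V (X 0 3) (X 0 3)) (V (X 0 3) (X 0 3))) (B (V (X 0 3)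
  (X 0 3)) (V (X 0 3) (X 0 3)))) (V (X 0 2) (B (V (X 0 2) (X 0 2)) (X 0 2)))) (B (V (B (V (X 0 3) (X 0 3)) (V (X 0 3) (X 0
  3))) (B (V (X 0 3) (X 0 3)) (V (X 0 3) (X 0 3)))) (V (B (V (X 0 3) (X 0 3)) (X 0 2)) (B (V (X 0 3) (X 0 3)) (X 0 2)))))
  (X 0 2))) (X 0 2))) (V (B (V (B (V (B (V (B (X 0 3) (V (X 0 3) (X 0 3))) (B (X 0 3) (V (X 0 3) (X 0 3)))) (V (B (V (X 0
  3) (X 0 3)) (V (X 0 2) (X 0 2))) (B (V (X 0 3) (X 0 3)) (V (B (X 0 3) (X 0 2)) (B (X 0 3) (X 0 2)))))) (B (V (B (X 0 3)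
  (V (X 0 3) (X 0 3))) (B (X 0 3) (V (X 0 3) (X 0 3)))) (V (B (V (X 0 3) (X 0 3)) (V (B (X 0 3) (X 0 2)) (B (X 0 3) (V (X
  0 2) (X 0 3))))) (B (V (X 0 3) (X 0 3)) (V (B (X 0 3) (V (X 0 3) (X 0 3))) (B (X 0 3) (V (X 0 3) (X 0 3)))))))) (V (X 0
  2) (B (V (X 0 2) (B (V (X 0 2) (X 0 2)) (X 0 2))) (X 0 2)))) (B (V (B (V (B (X 0 3) (V (X 0 3) (X 0 3))) (B (X 0 3) (V
  (X 0 3) (X 0 3)))) (V (B (V (X 0 3) (X 0 3)) (V (B (X 0 3) (V (X 0 3) (X 0 3))) (B (X 0 3) (V (X 0 3) (X 0 3))))) (B (V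
  (X 0 3) (X 0 3)) (V (B (X 0 3) (V (X 0 3) (X 0 3))) (B (X 0 3) (V (X 0 3) (X 0 3))))))) (B (V (B (X 0 3) (V (X 0 3) (X 0
  3))) (B (X 0 3) (V (X 0 3) (X 3 3)))) (V (B (V (X 0 3) (X 0 3)) (V (B (X 0 3) (V (X 0 3) (X 0 3))) (B (X 0 3) (V (X 0 3)
  (X 0 3))))) (B (V (X 0 3) (X 3 3)) (V (B (X 0 3) (V (X 0 3) (X 0 3))) (X 3 3)))))) (V (B (V (B (V (B (V (X 0 2) (X 0 3))
  (X 0 2)) (B (V (X 0 3) (X 0 3)) (X 0 2))) (X 0 2)) (B (V (B (V (X 0 3) (X 0 3)) (X 0 2)) (B (V (X 0 3) (X 0 3)) (V (X 0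
  2) (B (X 0 3) (X 0 2))))) (X 0 2))) (X 0 2)) (B (V (B (V (B (V (X 0 3) (X 0 3)) (V (B (X 0 3) (X 0 2)) (B (X 0 3) (X 0
  2)))) (B (V (X 0 3) (X 0 3)) (V (B (X 0 3) (V (X 0 2) (X 0 3))) (B (X 0 3) (V (X 0 3) (X 0 3)))))) (V (X 0 2) (B (V (X 0
  2) (X 0 2)) (X 0 2)))) (B (V (B (V (X 0 3) (X 0 3)) (V (B (X 0 3) (V (X 0 3) (X 0 3))) (B (X 0 3) (V (X 0 3) (X 0 3)))))
  (B (V (X 3 3) (X 3 3)) (V (X 3 3) (X 3 3)))) (V (B (V (X 0 2) (B (V (X 0 2) (X 0 3)) (X 0 2))) (X 0 2)) (B (V (B (V (X 3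
  3) (X 3 3)) (X 3 2)) (X 3 3)) (X 0 2))))) (X 0 2))))) (X 0 2)) (B (V (B (V (B (V (X 3 3) (X 3 3)) (V (B (X 3 3) (V (X 3
  3) (X 3 3))) (X 3 3))) (X 3 3)) (V (B (V (B (V (X 3 3) (X 3 3)) (V (B (V (X 3 3) (X 3 3)) (X 3 2)) (X 3 3))) (X 3 3)) (V
  (X 3 2) (X 3 2))) (B (V (X 3 3) (X 3 3)) (V (X 3 3) (X 3 3))))) (B (V (X 3 3) (X 3 3)) (V (X 3 3) (X 3 3)))) (V (X 0 2)
  (B (V (X 3 2) (X 3 2)) (X 3 2))))))) (B (V (B (V (X 3 3) (X 3 3)) (V (V (X 3 3) (X 3 3)) (X 3 3))) (X 3 3)) (V (V (B (V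
  (X 3 3) (X 3 3)) (V (B (X 3 3) (X 3 2)) (X 3 3))) (X 3 3)) (V (X 3 3) (X 3 3))))))) (V (V (X 0 2) (X 0 2)) (V (B (V (X 0
  2) (X 0 2)) (X 0 2)) (B (V (B (V (X 3 2) (X 3 2)) (X 3 2)) (B (V (X 3 2) (X 3 2)) (X 3 2))) (X 3 2))))) (B (V (B (V (X 3
  3) (X 3 3)) (V (B (V (X 3 3) (X 3 3)) (V (X 3 3) (X 3 3))) (X 3 3))) (X 3 3)) (V (V (B (V (B (X 3 3) (X 3 2)) (X 3 3))
  (X 3 2)) (B (V (X 3 3) (X 3 3)) (X 3 2))) (V (X 3 3) (X 3 3))))) (V (V (B (V (B (V (X 0 2) (X 0 2)) (V (X 0 2) (X 0 2)))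
  (X 0 2)) (V (B (V (X 0 2) (X 0 2)) (V (X 0 2) (X 0 2))) (B (V (X 0 2) (X 0 2)) (V (X 0 2) (X 0 2))))) (B (V (X 0 2) (X 0
  2)) (V (X 0 2) (X 0 2)))) (V (B (X 3 2) (V (X 3 2) (X 3 2))) (X 3 2)))) (B (V (B (V (X 3 3) (X 3 3)) (V (X 3 3) (X 3
  3))) (X 3 3)) (V (V (B (V (X 3 2) (X 3 2)) (X 3 2)) (B (V (X 3 2) (X 3 3)) (X 3 2))) (V (B (X 3 3) (X 3 2)) (B (X 3 3)
  (V (X 3 2) (X 3 2)))))))) (B (V (B (V (B (V (X 3 4) (X 3 4)) (X 3 4)) (B (X 3 5) (X 3 4))) (V (B (X 3 4) (X 3 3)) (X 3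
  4))) (B (V (B (X 3 5) (M 3 5)) (B (V (M 3 5) (M 3 5)) (M 3 5))) (V (X 3 4) (B (V (M 3 4) (M 3 4)) (M 3 4))))) (V (B (V
  (X 3 3) (X 3 3)) (V (V (X 3 3) (X 3 3)) (V (X 3 3) (X 3 3)))) (B (V (B (V (X 3 3) (M 3 4)) (V (X 3 3) (X 3 3))) (B (M 3
  4) (V (V (X 3 3) (X 3 3)) (V (M 3 4) (M 3 3))))) (V (X 3 3) (V (X 3 3) (B (M 3 3) (M 3 3)))))))) (V (B (V (B (V (M 3 5)
  (M 3 5)) (V (M 3 4) (M 3 4))) (B (M 3 5) (M 3 4))) (V (B (V (B (M 3 4) (V (M 3 3) (M 3 3))) (B (M 3 4) (M 3 3))) (V (V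
  (M 3 3) (M 1 3)) (M 1 3))) (B (V (M 1 3) (M 1 2)) (M 1 3)))) (B (V (M 1 1) (H 1)) (V (M 1 1) (H 1)))))

/-- certificate -/
noncomputable def tr_c1 : Tr :=
  V (V (V (V (B (V (B (V (B (V (X 0 2) (X 0 2)) (V (B (V (X 0 2) (X 0 2)) (V (X 0 2) (X 0 2))) (X 0 2))) (B (V (X 0 2) (X
  0 2)) (V (X 0 2) (X 0 2)))) (V (B (V (B (V (X 0 2) (X 0 2)) (V (X 0 2) (X 0 2))) (B (V (X 0 2) (X 0 2)) (V (X 0 2) (X 0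
  2)))) (V (B (V (X 0 2) (X 0 2)) (V (X 0 2) (X 0 2))) (B (V (X 0 2) (X 0 2)) (V (X 0 2) (X 0 2))))) (B (V (B (X 0 2) (V
  (X 0 2) (X 0 2))) (X 0 2)) (V (B (V (X 0 2) (X 0 2)) (V (X 0 2) (X 0 2))) (B (V (X 0 2) (X 0 2)) (V (X 0 2) (X 0
  2))))))) (B (V (B (V (X 0 2) (X 0 2)) (V (X 0 2) (X 0 2))) (B (X 0 2) (V (X 0 2) (X 0 2)))) (V (B (V (X 0 2) (X 0 2)) (V
  (B (X 0 2) (V (X 0 2) (X 0 2))) (X 0 2))) (B (V (X 0 2) (X 0 2)) (V (X 0 2) (X 0 2)))))) (V (B (V (B (V (B (V (B (X 0 2)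
  (V (X 0 2) (X 0 2))) (X 0 2)) (V (B (V (X 0 2) (X 0 2)) (V (X 0 2) (X 0 2))) (B (X 0 2) (V (X 0 2) (X 0 2))))) (B (V (X
  0 2) (X 0 2)) (V (X 0 2) (X 0 2)))) (V (B (V (B (V (X 0 2) (X 0 2)) (V (X 0 2) (X 0 2))) (B (V (X 0 2) (X 0 2)) (V (X 0
  2) (X 0 2)))) (V (B (V (X 0 2) (X 0 2)) (V (X 0 2) (X 0 2))) (B (V (X 0 2) (X 0 2)) (V (X 0 2) (X 0 2))))) (B (V (B (V
  (X 0 2) (X 0 2)) (V (X 0 2) (X 0 2))) (B (X 0 2) (V (X 0 2) (X 0 2)))) (V (B (V (X 0 2) (X 0 2)) (V (X 0 2) (X 0 2))) (B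
  (V (X 0 2) (X 0 2)) (V (X 0 2) (X 0 2))))))) (B (V (B (V (X 0 2) (X 0 2)) (V (X 0 2) (X 0 2))) (B (V (X 0 2) (X 0 2)) (V
  (X 0 2) (X 0 2)))) (V (B (V (B (X 0 2) (V (X 0 2) (X 0 2))) (X 0 2)) (V (B (V (X 0 2) (X 0 2)) (V (X 0 2) (X 0 2))) (B
  (V (X 0 2) (X 0 2)) (V (X 0 2) (X 0 2))))) (B (V (X 0 2) (X 0 2)) (V (B (X 0 2) (V (X 0 2) (X 0 2))) (B (X 0 2) (V (X 0
  2) (X 0 2)))))))) (V (B (V (B (V (B (V (X 0 2) (X 0 2)) (V (B (V (X 0 2) (X 0 2)) (V (X 0 2) (X 0 2))) (B (X 0 2) (V (X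
  0 2) (X 0 2))))) (B (V (X 0 2) (X 0 2)) (V (X 0 2) (X 0 2)))) (V (B (V (B (V (X 0 2) (X 0 2)) (V (X 0 2) (X 0 2))) (B (V
  (X 0 2) (X 0 2)) (V (X 0 2) (X 0 2)))) (V (B (V (X 0 2) (X 0 2)) (V (X 0 2) (X 0 2))) (B (V (X 0 2) (X 0 2)) (V (X 0 2)
  (X 0 2))))) (B (V (B (V (X 0 2) (X 0 2)) (V (X 0 2) (X 0 2))) (B (V (X 0 2) (X 0 2)) (V (X 0 2) (X 0 2)))) (V (B (V (X 0
  2) (X 0 2)) (V (X 0 2) (X 0 2))) (B (V (X 0 2) (X 0 2)) (V (X 0 2) (X 0 2))))))) (B (V (B (V (X 0 2) (X 0 2)) (V (X 0 2)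
  (X 0 2))) (B (V (X 0 2) (X 0 2)) (V (X 0 2) (X 0 2)))) (V (B (V (B (X 0 2) (V (X 0 2) (X 0 2))) (B (X 0 2) (V (X 0 2) (X
  0 2)))) (V (B (V (X 0 2) (X 0 2)) (V (X 0 2) (X 0 2))) (B (V (X 0 2) (X 0 2)) (V (X 0 2) (X 0 2))))) (B (V (X 0 2) (X 0
  2)) (V (B (V (X 0 2) (X 0 2)) (V (X 0 2) (X 0 2))) (B (V (X 0 2) (X 0 2)) (V (X 0 2) (X 0 2)))))))) (V (B (V (B (V (B (V
  (X 0 2) (X 0 2)) (V (X 0 2) (X 0 2))) (B (V (X 0 2) (X 0 2)) (V (X 0 2) (X 0 2)))) (V (B (V (X 0 2) (X 0 2)) (V (B (V (X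
  0 2) (X 0 2)) (V (X 0 2) (X 0 2))) (B (V (X 0 2) (X 0 2)) (V (X 0 2) (X 0 2))))) (B (V (X 0 2) (X 0 2)) (V (B (X 0 2) (V
  (X 0 2) (X 0 2))) (B (X 0 2) (V (X 0 2) (X 0 2))))))) (B (V (B (V (X 0 2) (X 0 2)) (V (X 0 2) (X 0 2))) (B (V (X 0 2) (X
  0 2)) (V (X 0 2) (X 0 2)))) (V (B (V (X 0 2) (X 0 2)) (V (B (X 0 2) (V (X 0 2) (X 0 2))) (X 0 2))) (B (V (X 0 2) (X 0
  2)) (V (X 0 2) (X 0 2)))))) (V (B (V (B (V (B (V (X 0 2) (X 0 2)) (V (X 0 2) (X 0 2))) (B (V (X 0 2) (X 0 2)) (V (X 0 2)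
  (X 0 2)))) (V (B (V (X 0 2) (X 0 2)) (V (X 0 2) (X 0 2))) (B (V (X 0 2) (X 0 2)) (V (X 0 2) (X 0 2))))) (B (V (B (V (X 0
  2) (X 0 2)) (V (X 0 2) (X 0 2))) (B (V (X 0 2) (X 0 2)) (V (X 0 2) (X 0 2)))) (V (B (V (X 0 2) (X 0 2)) (V (X 0 2) (X 0
  2))) (B (V (X 0 2) (X 0 2)) (V (X 0 2) (X 0 2)))))) (V (B (V (B (V (X 0 2) (X 0 2)) (V (X 0 2) (X 0 2))) (B (V (X 0 2)
  (X 0 2)) (V (X 0 2) (X 0 2)))) (V (B (V (B (X 0 2) (V (X 0 2) (X 0 2))) (B (X 0 2) (V (X 0 2) (X 0 2)))) (V (B (V (X 0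
  2) (X 0 2)) (V (X 0 2) (X 0 2))) (B (V (X 0 2) (X 0 2)) (V (X 0 2) (X 0 2))))) (B (V (X 0 2) (X 0 2)) (V (B (V (X 0 2)
  (X 0 2)) (V (X 0 2) (X 0 2))) (B (V (X 0 2) (X 0 2)) (V (X 0 2) (X 0 2))))))) (B (V (B (V (X 0 2) (X 0 2)) (V (X 0 2) (X
  0 2))) (B (V (X 0 2) (X 0 2)) (V (X 0 2) (X 0 2)))) (V (B (V (X 0 2) (X 0 2)) (V (B (V (X 0 2) (X 0 2)) (V (X 0 2) (X 0
  2))) (B (V (X 0 2) (X 0 2)) (V (X 0 2) (X 0 2))))) (B (V (X 0 2) (X 0 2)) (V (B (V (X 0 2) (X 0 2)) (V (X 0 2) (X 0 2)))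
  (B (V (X 0 2) (X 0 2)) (V (X 0 2) (X 0 2))))))))) (B (V (B (V (B (V (X 0 2) (X 0 2)) (V (X 0 2) (X 0 2))) (B (V (X 0 2)
  (X 0 2)) (V (X 0 2) (X 0 2)))) (V (B (V (X 0 2) (X 0 2)) (V (X 0 2) (X 0 2))) (B (V (X 0 2) (X 0 2)) (V (X 0 2) (X 0
  2))))) (B (V (B (V (X 0 2) (X 0 2)) (V (X 0 2) (X 0 2))) (B (V (X 0 2) (X 0 2)) (V (X 0 2) (X 0 2)))) (V (B (V (X 0 2)
  (X 0 2)) (V (X 0 2) (X 0 2))) (B (V (X 0 2) (X 0 2)) (V (X 0 2) (X 0 2)))))) (V (B (V (B (V (X 0 2) (X 0 2)) (V (X 0 2)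
  (X 0 2))) (B (V (X 0 2) (X 0 2)) (V (X 0 2) (X 0 2)))) (V (B (V (X 0 2) (X 0 2)) (V (B (X 0 2) (V (X 0 2) (X 0 2))) (B
  (X 0 2) (V (X 0 2) (X 0 2))))) (B (V (X 0 2) (X 0 2)) (V (B (X 0 2) (V (X 0 2) (X 0 2))) (B (X 0 2) (V (X 0 2) (X 0
  2))))))) (B (V (B (V (X 0 2) (X 0 2)) (V (X 0 2) (X 0 2))) (B (V (X 0 2) (X 0 2)) (V (X 0 2) (X 0 2)))) (V (B (V (X 0 2)
  (X 0 2)) (V (B (X 0 2) (V (X 0 2) (X 0 2))) (B (X 0 2) (V (X 0 2) (X 0 2))))) (B (V (X 0 2) (X 0 2)) (V (X 0 2) (X 0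
  2))))))))) (B (V (B (V (B (V (X 0 2) (X 0 2)) (V (X 0 2) (X 0 2))) (B (V (X 0 2) (X 0 2)) (V (X 0 2) (X 0 2)))) (V (B (V
  (X 0 2) (X 0 2)) (V (X 0 2) (X 0 2))) (B (V (X 0 2) (X 0 2)) (V (X 0 2) (X 0 2))))) (B (V (B (V (X 0 2) (X 0 2)) (V (X 0
  2) (X 0 2))) (B (V (X 0 2) (X 0 2)) (V (X 0 2) (X 0 2)))) (V (B (V (X 0 2) (X 0 2)) (V (X 0 2) (X 0 2))) (B (V (X 0 2)
  (X 0 2)) (V (X 0 2) (X 0 2)))))) (V (B (V (B (V (B (V (X 0 2) (X 0 2)) (V (X 0 2) (X 0 2))) (B (X 0 2) (V (X 0 2) (X 0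
  2)))) (V (B (V (X 0 2) (X 0 2)) (V (X 0 2) (X 0 2))) (B (V (X 0 2) (X 0 2)) (V (X 0 2) (X 0 2))))) (B (V (B (X 0 2) (V
  (X 0 2) (X 0 2))) (B (X 0 2) (V (X 0 2) (X 0 2)))) (V (B (V (X 0 2) (X 0 2)) (V (X 0 2) (X 0 2))) (B (V (X 0 2) (X 0 2))
  (V (X 0 2) (X 0 2)))))) (V (B (V (B (V (X 0 2) (X 0 2)) (V (X 0 2) (X 0 2))) (B (V (X 0 2) (X 0 2)) (V (X 0 2) (X 0
  2)))) (V (B (V (X 0 2) (X 0 2)) (V (X 0 2) (X 0 2))) (B (V (X 0 2) (X 0 2)) (V (X 0 2) (X 0 2))))) (B (V (B (V (X 0 2)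
  (X 0 2)) (V (X 0 2) (X 0 2))) (B (V (X 0 2) (X 0 2)) (V (X 0 2) (X 0 2)))) (V (B (V (X 0 2) (X 0 2)) (V (X 0 2) (X 0
  2))) (B (V (X 0 2) (X 0 2)) (V (X 0 2) (X 0 2))))))) (B (V (B (V (X 0 2) (X 0 2)) (V (B (V (X 0 2) (X 0 2)) (V (X 0 2)
  (X 0 2))) (B (V (X 0 2) (X 0 2)) (V (X 0 2) (X 0 2))))) (B (V (X 0 2) (X 0 2)) (V (B (V (X 0 2) (X 0 2)) (V (X 0 2) (X 0
  2))) (B (V (X 0 2) (X 0 2)) (V (X 0 2) (X 0 2)))))) (V (B (V (B (V (X 0 2) (X 0 2)) (V (X 0 2) (X 0 2))) (B (V (X 0 2)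
  (X 0 2)) (V (X 0 2) (X 0 2)))) (V (B (V (X 0 2) (X 0 2)) (V (X 0 2) (X 0 2))) (B (V (X 0 2) (X 0 2)) (V (X 0 2) (X 0
  2))))) (B (V (B (V (X 0 2) (X 0 2)) (V (X 0 2) (X 0 2))) (B (V (X 0 2) (X 0 2)) (V (X 0 2) (X 0 2)))) (V (B (V (X 0 2)
  (X 0 2)) (V (X 0 2) (X 0 2))) (B (V (X 0 2) (X 0 2)) (V (X 0 2) (X 0 2))))))))))) (B (V (B (V (B (V (X 0 2) (X 0 2)) (V
  (X 0 2) (X 0 2))) (B (V (X 0 2) (X 0 2)) (V (X 0 2) (X 0 2)))) (V (B (V (X 0 2) (X 0 2)) (V (B (X 0 2) (V (X 0 2) (X 0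
  2))) (B (X 0 2) (V (X 0 2) (X 0 2))))) (B (V (X 0 2) (X 0 2)) (V (X 0 2) (X 0 2))))) (B (V (B (V (X 0 2) (X 0 2)) (V (X
  0 2) (X 0 2))) (B (V (X 0 2) (X 0 2)) (V (X 0 2) (X 0 2)))) (V (B (V (X 0 2) (X 0 2)) (V (X 0 2) (X 0 2))) (B (V (X 0 2)
  (X 0 2)) (V (X 0 2) (X 0 2)))))) (V (B (V (B (V (B (V (X 0 2) (X 0 2)) (V (X 0 2) (X 0 2))) (B (V (X 0 2) (X 0 2)) (V (X
  0 2) (X 0 2)))) (V (B (V (X 0 2) (X 0 2)) (V (X 0 2) (X 0 2))) (B (V (X 0 2) (X 0 2)) (V (X 0 2) (X 0 2))))) (B (V (B (V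
  (X 0 2) (X 0 2)) (V (X 0 2) (X 0 2))) (B (V (X 0 2) (X 0 2)) (V (X 0 2) (X 0 2)))) (V (B (V (X 0 2) (X 0 2)) (V (X 0 2)
  (X 0 2))) (B (V (X 0 2) (X 0 2)) (V (X 0 2) (X 0 2)))))) (V (B (V (B (V (X 0 2) (X 0 2)) (V (B (V (X 0 2) (X 0 2)) (V (X
  0 2) (X 0 2))) (B (X 0 2) (V (X 0 2) (X 0 2))))) (B (V (X 0 2) (X 0 2)) (V (B (X 0 2) (V (X 0 2) (X 0 2))) (B (X 0 2) (V
  (X 0 2) (X 0 2)))))) (V (B (V (B (V (X 0 2) (X 0 2)) (V (X 0 2) (X 0 2))) (B (V (X 0 2) (X 0 2)) (V (X 0 2) (X 0 2))))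
  (V (B (V (X 0 2) (X 0 2)) (V (X 0 2) (X 0 2))) (B (V (X 0 2) (X 0 2)) (V (X 0 2) (X 0 2))))) (B (V (B (V (X 0 2) (X 0
  2)) (V (X 0 2) (X 0 2))) (B (V (X 0 2) (X 0 2)) (V (X 0 2) (X 0 2)))) (V (B (V (X 0 2) (X 0 2)) (V (X 0 2) (X 0 2))) (B
  (V (X 0 2) (X 0 2)) (V (X 0 2) (X 0 2))))))) (B (V (B (V (X 0 2) (X 0 2)) (V (B (X 0 2) (V (X 0 2) (X 0 2))) (B (X 0 2)
  (V (X 0 2) (X 0 2))))) (B (V (X 0 2) (X 0 2)) (V (X 0 2) (X 0 2)))) (V (B (V (B (V (X 0 2) (X 0 2)) (V (X 0 2) (X 0 2)))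
  (B (V (X 0 2) (X 0 2)) (V (X 0 2) (X 0 2)))) (V (B (V (X 0 2) (X 0 2)) (V (X 0 2) (X 0 2))) (B (V (X 0 2) (X 0 2)) (V (X
  0 2) (X 0 2))))) (B (V (B (V (X 0 2) (X 0 2)) (V (X 0 2) (X 0 2))) (B (V (X 0 2) (X 0 2)) (V (X 0 2) (X 0 2)))) (V (B (V
  (X 0 2) (X 0 2)) (V (X 0 2) (X 0 2))) (B (V (X 0 2) (X 0 2)) (V (X 0 2) (X 0 2))))))))) (B (V (B (V (B (V (X 0 2) (X 0
  2)) (V (X 0 2) (X 0 2))) (B (X 0 2) (V (X 0 2) (X 0 2)))) (V (B (V (X 0 2) (X 0 2)) (V (X 0 2) (X 0 2))) (B (V (X 0 2)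
  (X 0 2)) (V (X 0 2) (X 0 2))))) (B (V (B (X 0 2) (V (X 0 2) (X 0 2))) (B (X 0 2) (V (X 0 2) (X 0 2)))) (V (B (V (X 0 2)
  (X 0 2)) (V (X 0 2) (X 0 2))) (B (V (X 0 2) (X 0 2)) (V (X 0 2) (X 0 2)))))) (V (B (V (B (V (X 0 2) (X 0 2)) (V (X 0 2)
  (X 0 2))) (B (V (X 0 2) (X 0 2)) (V (X 0 2) (X 0 2)))) (V (B (V (B (V (X 0 2) (X 0 2)) (V (X 0 2) (X 0 2))) (B (V (X 0
  2) (X 0 2)) (V (X 0 2) (X 0 2)))) (V (B (V (X 0 2) (X 0 2)) (V (X 0 2) (X 0 2))) (B (V (X 0 2) (X 0 2)) (V (X 0 2) (X 0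
  2))))) (B (V (B (V (X 0 2) (X 0 2)) (V (X 0 2) (X 0 2))) (B (V (X 0 2) (X 0 2)) (V (X 0 2) (X 0 2)))) (V (B (V (X 0 2)
  (X 0 2)) (V (X 0 2) (X 0 2))) (B (V (X 0 2) (X 0 2)) (V (X 0 2) (X 0 2))))))) (B (V (B (V (X 0 2) (X 0 2)) (V (X 0 2) (X
  0 2))) (B (V (X 0 2) (X 0 2)) (V (X 0 2) (X 0 2)))) (V (B (V (B (X 0 2) (V (X 0 2) (X 0 2))) (B (X 0 2) (V (X 0 2) (X 0
  2)))) (V (B (V (X 0 2) (X 0 2)) (V (X 0 2) (X 0 2))) (B (V (X 0 2) (X 0 2)) (V (X 0 2) (X 0 2))))) (B (V (B (X 0 2) (V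
  (X 0 2) (X 0 2))) (B (X 0 2) (V (X 0 2) (X 0 2)))) (V (B (V (X 0 2) (X 0 2)) (V (X 0 2) (X 0 2))) (B (V (X 0 2) (X 0 2))
  (V (X 0 2) (X 0 2))))))))))))) (B (V (B (V (B (V (X 0 2) (X 0 2)) (V (X 0 2) (X 0 2))) (B (V (X 0 2) (X 0 2)) (V (X 0 2)
  (X 0 2)))) (V (B (V (X 0 2) (X 0 2)) (V (X 0 2) (X 0 2))) (B (V (X 0 2) (X 0 2)) (V (X 0 2) (X 0 2))))) (B (V (B (X 0 2)
  (V (X 0 2) (X 0 2))) (B (X 0 2) (V (X 0 2) (X 0 2)))) (V (B (V (X 0 2) (X 0 2)) (V (X 0 2) (X 0 2))) (B (V (X 0 2) (X 0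
  2)) (V (X 0 2) (X 0 2)))))) (V (B (V (B (V (B (V (X 0 2) (X 0 2)) (V (X 0 2) (X 0 2))) (B (V (X 0 2) (X 0 2)) (V (X 0 2)
  (X 0 2)))) (V (B (V (X 0 2) (X 0 2)) (V (X 0 2) (X 0 2))) (B (V (X 0 2) (X 0 2)) (V (X 0 2) (X 0 2))))) (B (V (B (X 0 2)
  (V (X 0 2) (X 0 2))) (B (X 0 2) (V (X 0 2) (X 0 2)))) (V (B (V (X 0 2) (X 0 2)) (V (X 0 2) (X 0 2))) (B (V (X 0 2) (X 0
  2)) (V (X 0 2) (X 0 2)))))) (V (B (V (B (V (B (X 0 2) (V (X 0 2) (X 0 2))) (X 0 2)) (V (B (V (X 0 2) (X 0 2)) (V (X 0 2)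
  (X 0 2))) (B (V (X 0 2) (X 0 2)) (V (X 0 2) (X 0 2))))) (B (V (X 0 2) (X 0 2)) (V (B (V (X 0 2) (X 0 2)) (V (X 0 2) (X 0
  2))) (B (V (X 0 2) (X 0 2)) (V (X 0 2) (X 0 2)))))) (V (B (V (B (V (X 0 2) (X 0 2)) (V (X 0 2) (X 0 2))) (B (V (X 0 2)
  (X 0 2)) (V (X 0 2) (X 0 2)))) (V (B (V (B (X 0 2) (V (X 0 2) (X 0 2))) (B (X 0 2) (V (X 0 2) (X 0 2)))) (V (B (V (X 0
  2) (X 0 2)) (V (X 0 2) (X 0 2))) (B (V (X 0 2) (X 0 2)) (V (X 0 2) (X 0 2))))) (B (V (B (X 0 2) (V (X 0 2) (X 0 2))) (B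
  (X 0 2) (V (X 0 2) (X 0 2)))) (V (B (V (X 0 2) (X 0 2)) (V (X 0 2) (X 0 2))) (B (V (X 0 2) (X 0 2)) (V (X 0 2) (X 0
  2))))))) (B (V (B (V (X 0 2) (X 0 2)) (V (X 0 2) (X 0 2))) (B (V (X 0 2) (X 0 2)) (V (X 0 2) (X 0 2)))) (V (B (V (X 0 2)
  (X 0 2)) (V (B (V (X 0 2) (X 0 2)) (V (X 0 2) (X 0 2))) (B (V (X 0 2) (X 0 2)) (V (X 0 2) (X 0 2))))) (B (V (X 0 2) (X 0
  2)) (V (B (V (X 0 2) (X 0 2)) (V (X 0 2) (X 0 2))) (B (V (X 0 2) (X 0 2)) (V (X 0 2) (X 0 2))))))))) (B (V (B (V (X 0 2)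
  (X 0 2)) (V (B (V (X 0 2) (X 0 2)) (V (X 0 2) (X 0 2))) (B (X 0 2) (V (X 0 2) (X 0 2))))) (B (V (X 0 2) (X 0 2)) (V (B
  (X 0 2) (V (X 0 2) (X 0 2))) (B (X 0 2) (V (X 0 2) (X 0 2)))))) (V (B (V (B (V (X 0 2) (X 0 2)) (V (X 0 2) (X 0 2))) (B
  (V (X 0 2) (X 0 2)) (V (X 0 2) (X 0 2)))) (V (B (V (X 0 2) (X 0 2)) (V (B (V (X 0 2) (X 0 2)) (V (X 0 2) (X 0 2))) (B (V
  (X 0 2) (X 0 2)) (V (X 0 2) (X 0 2))))) (B (V (X 0 2) (X 0 2)) (V (B (V (X 0 2) (X 0 2)) (V (X 0 2) (X 0 2))) (B (V (X 0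
  2) (X 0 2)) (V (X 0 2) (X 0 2))))))) (B (V (B (V (X 0 2) (X 0 2)) (V (X 0 2) (X 0 2))) (B (V (X 0 2) (X 0 2)) (V (X 0 2)
  (X 0 2)))) (V (B (V (X 0 2) (X 0 2)) (V (B (V (X 0 2) (X 0 2)) (V (X 0 2) (X 0 2))) (B (X 0 2) (V (X 0 2) (X 0 2))))) (B
  (V (X 0 2) (X 0 2)) (V (B (X 0 2) (V (X 0 2) (X 0 2))) (B (X 0 2) (V (X 0 2) (X 0 2))))))))))) (B (V (B (V (B (X 0 2) (V
  (X 0 2) (X 0 2))) (X 0 2)) (V (B (V (X 0 2) (X 0 2)) (V (X 0 2) (X 0 2))) (B (V (X 0 2) (X 0 2)) (V (X 0 2) (X 0 2)))))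
  (B (V (X 0 2) (X 0 2)) (V (B (V (X 0 2) (X 0 2)) (V (X 0 2) (X 0 2))) (B (V (X 0 2) (X 0 2)) (V (X 0 2) (X 0 2)))))) (V
  (B (V (B (V (X 0 2) (X 0 2)) (V (B (X 0 2) (V (X 0 2) (X 0 2))) (B (X 0 2) (V (X 0 2) (X 0 2))))) (B (V (X 0 2) (X 0 2))
  (V (B (X 0 2) (V (X 0 2) (X 0 2))) (X 0 2)))) (V (B (V (B (V (X 0 2) (X 0 2)) (V (X 0 2) (X 0 2))) (B (V (X 0 2) (X 0
  2)) (V (X 0 2) (X 0 2)))) (V (B (V (X 0 2) (X 0 2)) (V (B (X 0 2) (V (X 0 2) (X 0 2))) (B (X 0 2) (V (X 0 2) (X 0 2)))))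
  (B (V (X 0 2) (X 0 2)) (V (B (X 0 2) (V (X 0 2) (X 0 2))) (B (X 0 2) (V (X 0 2) (X 0 2))))))) (B (V (B (V (X 0 2) (X 0
  2)) (V (X 0 2) (X 0 2))) (B (V (X 0 2) (X 0 2)) (V (X 0 2) (X 0 2)))) (V (B (V (X 0 2) (X 0 2)) (V (B (X 0 2) (V (X 0 2)
  (X 0 2))) (B (X 0 2) (V (X 0 2) (X 0 2))))) (B (V (X 0 2) (X 0 2)) (V (B (X 0 2) (V (X 0 2) (X 0 2))) (B (X 0 2) (V (X 0
  2) (X 0 2))))))))) (B (V (B (V (X 0 2) (X 0 2)) (V (X 0 2) (X 0 2))) (B (V (X 0 2) (X 0 2)) (V (X 0 2) (X 0 2)))) (V (B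
  (V (B (V (X 0 2) (X 0 2)) (V (X 0 2) (X 0 2))) (B (V (X 0 2) (X 0 2)) (V (X 0 2) (X 0 2)))) (V (B (V (X 0 2) (X 0 2)) (V
  (B (X 0 2) (V (X 0 2) (X 0 2))) (X 0 2))) (B (V (X 0 2) (X 0 2)) (V (X 0 2) (X 0 2))))) (B (V (B (V (X 0 2) (X 0 2)) (V
  (X 0 2) (X 0 2))) (B (V (X 0 2) (X 0 2)) (V (X 0 2) (X 0 2)))) (V (B (V (X 0 2) (X 0 2)) (V (X 0 2) (X 0 2))) (B (V (X 0
  2) (X 0 2)) (V (X 0 2) (X 0 2))))))))))))) (B (V (B (V (X 3 2) (X 3 2)) (V (B (X 3 2) (V (X 3 2) (X 3 2))) (X 3 2))) (X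
  3 2)) (V (B (V (B (V (X 0 2) (X 3 2)) (V (B (V (X 0 2) (X 3 2)) (V (X 0 2) (X 3 2))) (X 3 2))) (B (X 3 2) (V (X 3 2) (X
  3 2)))) (V (B (V (B (V (X 0 2) (X 3 2)) (V (B (X 0 2) (V (X 0 2) (X 0 2))) (B (X 0 2) (V (X 0 2) (X 3 2))))) (B (V (X 3
  2) (X 3 2)) (V (X 3 2) (X 3 2)))) (V (B (V (B (V (X 0 2) (X 0 2)) (V (X 0 2) (X 0 2))) (B (V (X 0 2) (X 3 2)) (V (X 0 2)
  (X 0 2)))) (V (B (V (B (V (X 0 2) (X 0 2)) (V (X 0 2) (X 0 2))) (B (V (X 0 2) (X 0 2)) (V (X 0 2) (X 0 2)))) (V (B (V (X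
  0 2) (X 0 2)) (V (X 0 2) (X 0 2))) (B (V (X 0 2) (X 0 2)) (V (X 0 2) (X 0 2))))) (B (V (B (X 0 2) (V (X 0 2) (X 0 2)))
  (B (X 0 2) (V (X 0 2) (X 3 2)))) (V (B (V (X 0 2) (X 0 2)) (V (X 0 2) (X 0 2))) (B (V (X 0 2) (X 0 2)) (V (X 0 2) (X 0
  2))))))) (B (V (B (X 3 2) (V (X 3 2) (X 3 2))) (X 3 2)) (V (B (V (X 3 2) (X 3 2)) (V (B (V (X 3 2) (X 3 2)) (V (X 3 2)
  (X 3 2))) (X 3 2))) (B (X 3 2) (V (X 3 2) (X 3 2))))))) (B (V (X 3 2) (X 3 2)) (V (B (V (X 3 2) (X 3 2)) (V (X 3 2) (X 3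
  2))) (X 3 2))))) (B (V (X 3 2) (X 3 2)) (V (B (X 3 2) (V (X 3 2) (X 3 2))) (X 3 2)))))) (V (B (V (X 3 2) (X 3 2)) (V (B
  (X 3 2) (V (X 3 2) (X 3 2))) (X 3 2))) (B (V (X 3 2) (X 3 2)) (V (X 3 2) (X 3 2))))) (V (V (B (V (X 3 2) (B (V (X 3 2)
  (X 3 2)) (X 3 2))) (X 3 2)) (B (V (B (M 3 3) (V (X 3 2) (X 3 2))) (B (M 3 3) (V (B (X 3 2) (X 3 2)) (B (M 3 3) (V (X 3
  2) (X 3 2)))))) (V (X 3 2) (B (V (X 3 2) (X 3 2)) (X 3 2))))) (V (B (V (B (M 3 3) (V (M 3 3) (M 3 3))) (B (M 3 3) (V (M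
  3 3) (M 3 3)))) (V (B (V (B (V (X 3 2) (X 3 2)) (X 3 2)) (B (V (B (M 3 3) (X 3 2)) (B (M 3 3) (G 3 2 5 54))) (V (X 3 2)
  (G 3 2 5 55)))) (V (X 3 2) (B (G 3 2 5 57) (X 3 2)))) (B (V (B (V (B (M 3 3) (G 3 2 5 54)) (M 3 3)) (V (G 3 2 5 56) (B
  (G 3 2 5 55) (G 3 2 5 55)))) (B (V (M 3 3) (M 3 3)) (V (B (G 3 2 5 55) (G 3 2 5 55)) (B (G 3 2 5 55) (G 3 2 6 55))))) (V
  (B (G 3 2 5 57) (G 3 2 6 57)) (B (V (G 3 2 6 56) (G 3 2 5 57)) (G 3 2 5 58)))))) (B (V (B (M 3 3) (V (M 3 3) (M 3 3)))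
  (B (M 3 3) (V (M 3 3) (M 1 3)))) (V (B (V (B (V (M 3 3) (M 3 3)) (V (B (G 3 2 6 55) (G 3 2 5 56)) (B (G 3 2 5 56) (G 3 2
  6 56)))) (B (V (M 3 3) (M 1 3)) (V (B (V (M 3 3) (M 1 3)) (G 1 2 6 56)) (B (V (M 1 3) (M 1 3)) (G 1 2 6 56))))) (V (B (V
  (G 3 2 5 57) (G 1 2 6 57)) (G 1 2 6 58)) (B (V (G 1 2 6 57) (G 1 2 6 57)) (G 1 2 6 58)))) (B (V (B (M 1 3) (V (B (M 1 3)
  (G 1 2 6 56)) (M 1 3))) (B (M 1 3) (V (M 1 3) (M 1 3)))) (V (B (V (B (G 1 2 5 57) (G 1 2 7 56)) (B (G 1 2 6 57) (G 1 2 7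
  56))) (V (G 1 2 6 58) (G 1 2 6 58))) (B (V (B (G 1 2 6 57) (G 1 2 6 57)) (B (M 1 3) (G 1 2 6 57))) (V (B (G 1 2 7 57) (G
  1 2 7 57)) (B (G 1 2 6 58) (G 1 2 7 57))))))))))) (V (V (V (B (V (M 1 3) (M 1 3)) (V (B (V (M 1 3) (M 1 3)) (V (B (V (B
  (M 1 3) (V (M 1 3) (M 1 3))) (M 1 3)) (V (B (G 1 2 6 58) (G 1 2 6 58)) (B (V (G 1 2 7 57) (G 1 2 6 58)) (G 1 2 5 59))))
  (B (V (M 1 3) (M 1 3)) (V (B (V (M 1 3) (M 1 3)) (V (G 1 2 6 58) (G 1 2 6 58))) (B (M 1 3) (V (M 1 2) (M 1 2))))))) (B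
  (V (M 1 3) (M 1 3)) (V (B (M 1 3) (V (M 1 2) (M 1 2))) (M 1 2))))) (B (M 1 3) (V (B (M 1 3) (M 1 2)) (M 1 2)))) (V (B (M
  1 3) (M 1 2)) (M 1 2))) (V (M 1 1) (H 1)))

/-- certificate -/
noncomputable def tr_b1 : Tr :=
  V (V (V (V (V (V (X 3 2) (X 3 2)) (V (X 3 2) (X 3 2))) (V (X 3 2) (X 3 2))) (V (X 3 2) (X 3 2))) (V (V (V (X 3 2) (X 3
  2)) (V (G 3 2 5 59) (V (G 3 2 6 57) (G 1 2 6 58)))) (V (V (V (G 1 2 6 58) (G 1 2 7 58)) (V (G 1 2 6 59) (V (G 1 2 7 58)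
  (G 1 2 7 58)))) (V (V (V (G 1 2 6 59) (G 1 2 6 59)) (V (B (G 1 2 7 58) (G 1 2 7 58)) (B (G 1 2 6 59) (M 1 2)))) (V (V (M
  1 2) (M 1 2)) (M 1 2)))))) (V (V (V (V (M 1 2) (M 1 2)) (M 1 2)) (M 1 2)) (H 1))

/-- certificate -/
noncomputable def tr_j1 : Tr :=
  V (V (V (W 0) (V (W 0) (B (V (W 3) (W 3)) (W 3)))) (V (V (B (V (B (X 3 2) (W 3)) (B (X 3 2) (W 3))) (W 3)) (B (V (B (X 3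
  2) (W 3)) (X 3 2)) (W 3))) (V (B (V (X 3 2) (B (V (X 3 2) (X 1 2)) (X 1 2))) (V (W 1) (B (V (W 1) (W 1)) (W 1)))) (B (V
  (B (V (B (G 1 2 5 60) (X 1 2)) (B (G 1 2 6 60) (G 1 2 7 60))) (V (X 1 2) (X 1 2))) (B (V (B (G 1 2 6 60) (G 1 2 6 61))
  (B (V (G 1 2 6 60) (G 1 2 6 60)) (G 1 2 6 62))) (V (B (G 1 2 9 60) (X 1 2)) (B (G 1 2 7 62) (G 1 2 9 62))))) (V (B (X 1
  2) (W 1)) (B (V (M 1 2) (M 1 2)) (W 1))))))) (V (V (V (B (V (B (V (B (V (B (G 1 2 7 58) (G 1 2 8 58)) (B (G 1 2 6 59) (G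
  1 2 7 59))) (V (G 1 2 6 61) (G 1 2 7 61))) (B (V (B (G 1 2 6 59) (G 1 2 7 59)) (B (G 1 2 6 60) (G 1 2 6 60))) (V (G 1 2
  6 62) (M 1 2)))) (V (B (V (M 1 2) (M 1 2)) (M 1 2)) (M 1 2))) (B (V (B (V (B (V (M 1 2) (M 1 2)) (M 1 2)) (M 1 2)) (M 1
  2)) (M 1 2)) (M 1 2))) (V (M 1 2) (M 1 2))) (B (V (M 1 2) (M 1 2)) (M 1 2))) (V (M 1 2) (M 1 2))) (V (M 1 1) (H 1)))

/-- certificate -/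
noncomputable def tr_r1 : Tr :=
  V (V (V (V (B (V (X 0 2) (X 3 2)) (V (B (V (X 0 2) (X 0 2)) (V (B (X 0 2) (V (X 0 2) (X 0 2))) (B (X 0 2) (V (X 0 2) (X
  0 2))))) (B (V (X 3 2) (X 3 2)) (V (B (V (X 0 2) (X 3 2)) (V (X 0 2) (B (X 0 2) (V (X 0 2) (X 0 2))))) (B (V (X 3 2) (X
  3 2)) (V (B (X 3 2) (V (X 3 2) (X 3 2))) (B (X 3 2) (V (X 3 2) (X 3 2))))))))) (B (V (X 3 2) (X 3 2)) (V (B (V (X 3 2)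
  (X 3 2)) (V (B (V (X 3 2) (X 3 2)) (V (B (X 3 2) (V (X 3 2) (X 3 2))) (B (X 3 2) (V (X 3 2) (X 3 2))))) (B (X 3 2) (V (B
  (X 3 2) (V (X 3 2) (X 3 2))) (X 3 2))))) (B (V (X 3 2) (X 3 2)) (V (B (X 3 2) (V (X 3 2) (X 3 2))) (B (X 3 2) (V (X 3 2)
  (X 3 2)))))))) (V (B (V (X 3 2) (X 3 2)) (V (B (X 3 2) (V (B (X 3 2) (V (X 3 2) (X 3 2))) (B (X 3 2) (V (X 3 2) (X 3
  2))))) (B (X 3 2) (V (B (X 3 2) (V (X 3 2) (X 3 2))) (B (X 3 2) (V (X 3 2) (X 3 2))))))) (B (X 3 2) (V (B (X 3 2) (V (X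
  3 2) (X 3 2))) (B (X 3 2) (V (X 3 2) (X 3 2))))))) (V (V (B (X 3 2) (V (B (X 3 2) (V (X 3 2) (X 3 2))) (B (X 3 2) (V (X
  3 2) (X 3 2))))) (B (X 3 2) (V (B (X 3 2) (V (X 3 2) (X 3 2))) (X 1 2)))) (V (B (V (X 1 2) (X 1 2)) (V (X 1 2) (X 1 2)))
  (B (V (B (G 1 2 6 59) (X 1 2)) (B (V (M 1 2) (M 1 2)) (M 1 2))) (V (X 1 2) (M 1 2)))))) (V (V (V (B (V (M 1 2) (M 1 2))
  (V (M 1 2) (M 1 2))) (M 1 2)) (M 1 2)) (H 1))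

theorem ck_a1 : chk 1250000 false (loA 1250000 973000 1999000) tr_a1 20000 410000 20000 500000 = true := by decide +kernel

theorem ck_c1 : chk 1250000 false (loA 1250000 973000 2000000) tr_c1 410000 495000 20000 500000 = true := by decide +kernel

theorem ck_b1 : chk 1250000 false (loA 1250000 973000 2000000) tr_b1 495000 505000 70000 500000 = true := by decide +kernel

theorem ck_j1 : chk 1250000 true (loA 1250000 973000 2000000) tr_j1 500000 655000 0 500000 = true := by decide +kernel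

theorem ck_r1 : chk 1250000 false (loR 1250000 973000 650000) tr_r1 500000 600000 20000 500000 = true := by decide +kernel

end Pool.Agent.Work.MP_a8fbd7_nt.OX.SQ.TabC

namespace Pool.Agent.Work.MP_a8fbd7_nt.OX.SQ

theorem tabA0_1 : TabA0 (5 / 4) (973 / 1000) :=
  TabC.tabA0_of 1250000 973000 (by norm_num) (by norm_num) _ _ TabC.ck_a1 TabC.ck_c1

theorem tabB_1 : TabB (5 / 4) (973 / 1000) :=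
  TabC.tabB_of 1250000 973000 (by norm_num) (by norm_num) _ TabC.ck_b1

theorem tabJ_1 : TabJ (5 / 4) (973 / 1000) :=
  TabC.tabJ_of 1250000 973000 655000 (by norm_num) (by norm_num) _ (by norm_num) TabC.ck_j1

theorem tabR_1 : TabR (5 / 4) (973 / 1000) :=
  TabC.tabR_of 1250000 973000 650000 600000 (by norm_num) (by norm_num) (by norm_num) (by norm_num) _ (by norm_num) TabC.ck_r1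

end Pool.Agent.Work.MP_a8fbd7_nt.OX.SQ
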