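import Pool.Agent.Work.MP_a8fbd7_nt.OX.ASM.All
import Pool.Agent.Work.MP_a8fbd7_nt.OX.LV.All
import Pool.Agent.Work.MP_a8fbd7_nt.ZF.All
import Pool.Agent.Work.MP_56b8f5_nt.UT.All
import Pool.Agent.Work.MP_56b8f5_nt.EM.All
import Pool.Agent.Work.MP_56b8f5_nt.UC.I_Tw
import Pool.Agent.Work.MP_a8fbd7_nt.OX.SQ.Final
import Pool.Agent.Work.MP_a8fbd7_nt.OX.SQ.I_Eq
import Pool.Agent.Work.MP_a8fbd7_nt.OX.SQ.I_Mq
import Pool.Agent.Work.MP_a8fbd7_nt.OX.SQ.I_Cl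
import Pool.Agent.Work.MP_a8fbd7_nt.OX.SQ.I_Ta
import Pool.Agent.Work.MP_a8fbd7_nt.OX.SQ.I_LA
import Pool.Agent.Work.MP_a8fbd7_nt.OX.SQ.I_LB
import Pool.Agent.Work.MP_a8fbd7_nt.OX.SQ.I_Nz
import Pool.Agent.Work.MP_a8fbd7_nt.OX.SQ.I_Pw
import Pool.Agent.Work.MP_a8fbd7_nt.OX.SQ.I_NB
import Pool.Agent.Work.MP_a8fbd7_nt.OX.SQ.I_CB
import Pool.Agent.Work.MP_a8fbd7_nt.OX.SQ.I_CA
import Pool.Agent.Work.MP_a8fbd7_nt.OX.SQ.I_Sm
import Pool.Agent.Work.MP_a8fbd7_nt.OX.SQ.I_F4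
import Pool.Agent.Work.MP_a8fbd7_nt.OX.SQ.I_BB
import Pool.Agent.Work.MP_a8fbd7_nt.OX.SQ.I_RL
import Pool.Agent.Work.MP_a8fbd7_nt.OX.SQ.I_AA
import Pool.Agent.Work.MP_a8fbd7_nt.OX.SQ.I_Dr
import Pool.Agent.Work.MP_a8fbd7_nt.OX.SQ.I_Sq
import Pool.Agent.Work.MP_a8fbd7_nt.OX.SQ.I_Li
import Pool.Agent.Work.MP_a8fbd7_nt.OX.SQ.I_Mn
import Pool.Agent.Work.MP_a8fbd7_nt.OX.SQ.I_Co
import Pool.Agent.Work.MP_a8fbd7_nt.OX.SQ.Tab1
import Pool.Agent.Work.MP_a8fbd7_nt.OX.SQ.Tab2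

/-!
# MP_a8fbd7_nt, block OX, part SQ: everything together.  Captain helper50.

`core` : the core statement for an admissible pair `(h, r)`; `main` : the final theorem.
-/

set_option autoImplicit false

namespace Pool.Agent.Work.MP_a8fbd7_nt.OX.SQ

open Pool.Agent.Work.MP_a8fbd7_nt.OX

theorem all_Tw : Pool.Agent.Work.MP_56b8f5_nt.UC.StTw :=
  Pool.Agent.Work.MP_56b8f5_nt.UC.iTw Pool.Agent.Work.MP_56b8f5_nt.UT.all_MC
    Pool.Agent.Work.MP_56b8f5_nt.EM.all_Z Pool.Agent.Work.MP_56b8f5_nt.EM.all_Pc Uc.u_Mel Uc.u_S2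

theorem all_Cl : StCl := iCl lv_Mv lv_Hx lv_G lv_J lv_Pf (iMq lv_Pf iEq)

theorem all_CA : StCA := iCA all_Cl

theorem all_CB : StCB := iCB all_Cl (iNB (iNz Pool.Agent.Work.MP_a8fbd7_nt.ZF.all_HM) iPw)

theorem all_RL : StRLq := iRL ASM.all_Rp (iSm all_Tw Uc.u_Kp)

theorem all_F4 : StF4 := iF4 (ASM.iF1 Uc.u_Mel) ASM.iF2 Uc.u_Mel

theorem all_Li : StLi := iLi ASM.iEx iDr iSq

theorem all_Mnq : StMnq := iMn all_Li ASM.iSh ASM.all_Rg ASM.iV1 ASM.iSv ASM.all_SE ASM.all_PN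

theorem core (h r : ℝ) (hA : Adm h r) : Core (2 - h) (r + 1 / 1000) := by
  have h1 := hA.h1
  have h2 := hA.h2
  have hr : 9 / 10 ≤ r := hA.r1
  have cB : StCellB h r := all_CB h r h1 h2 hr (iLB h r hA)
  have cA : StCellA h r := all_CA h r h1 h2 hr (iLA h r hA)
  have bB : StBB h r := iBB h r h1 h2 cB all_F4 ASM.iPd ASM.all_Rg ASM.all_Sa
  have bA : StAA h r := iAA h r h1 h2 cA (all_RL h h1 h2) all_F4 ASM.iPd ASM.all_Rg ASM.iTb Uc.u_Kp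
  exact iCo ASM.iWt h r h1 h2 (by linarith) (all_Mnq h r h1 h2 (by linarith) bB bA)

theorem adm1 : Adm (5 / 4) (973 / 1000) where
  h1 := by norm_num
  h2 := by norm_num
  r1 := by norm_num
  r2 := by norm_num
  A := iTa _ _ (by norm_num) (by norm_num) tabA0_1
  B := tabB_1
  J := tabJ_1
  R := tabR_1

theorem adm2 : Adm (127 / 100) (988 / 1000) where
  h1 := by norm_num
  h2 := by norm_num
  r1 := by norm_num
  r2 := by norm_num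
  A := iTa _ _ (by norm_num) (by norm_num) tabA0_2
  B := tabB_2
  J := tabJ_2
  R := tabR_2

theorem main : Fin1 (3 / 4) (39 / 40) ∧ Fin1 (73 / 100) (99 / 100) :=
  final (core _ _ adm1) (core _ _ adm2)

end Pool.Agent.Work.MP_a8fbd7_nt.OX.SQ
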