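import Pool.Agent.Work.MP_a8fbd7_nt.OX.ASM.All
import Pool.Agent.Work.MP_a8fbd7_nt.OX.CELL.All
import Pool.Agent.Work.MP_a8fbd7_nt.OX.LV.All
import Pool.Agent.Work.MP_a8fbd7_nt.OX.FIN.Diag
import Pool.Agent.Work.MP_a8fbd7_nt.OX.SQ.All
import Pool.Agent.Work.MP_a8fbd7_nt.ZF.All

/-!
# MP_a8fbd7_nt: Oppermann intervals, almost all integers (DRAFT of a results file)

Both asymptotic formulas of the question hold outside a set of integers with at most
`N ^ (39 / 200)` elements up to `N`.  Outside larger, but still sparse, sets of integers the primes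
are moreover asymptotically equidistributed near the end points of the two intervals, down to the
scales `n ^ (3 / 4)` and `n ^ (73 / 100)`.  The statement uses no definition of ours.
-/

namespace Pool.Agent.Work.MP_a8fbd7_nt.OX.SQ.DraftConj

open Filter
open Pool.Agent.Work.MP_a8fbd7_nt.OX
open scoped Topology

/-- (1) There is a set `E` of natural numbers, with at most `N ^ (39 / 200)` elements in `[1, N]`
for every `N`, such that, as `n` tends to infinity outside `E`, the number of primes in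
`[n ^ 2 - n, n ^ 2]` and the number of primes in `[n ^ 2, n ^ 2 + n]` are both asymptotically
equivalent to `n / (2 log n)`.

(2) For `(θ, ψ) = (3 / 4, 39 / 40)` and for `(θ, ψ) = (73 / 100, 99 / 100)` there is a set `E` of
natural numbers, with at most `N ^ ψ` elements in `[1, N]` for every `N`, such that, as `n` tends
to infinity outside `E`, uniformly for real `y` with `n ^ θ ≤ y ≤ n` and for `c = n ^ 2 - n`,
`n ^ 2`, `n ^ 2 + n`, the number of primes in `(c, c + y]` and the number of primes in `(c - y, c]`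
are both `(1 + o(1)) y / (2 log n)`. -/
theorem result :
    (∃ E : Set ℕ, (∀ N : ℕ, ((E ∩ Set.Icc 1 N).ncard : ℝ) ≤ (N : ℝ) ^ (39 / 200 : ℝ)) ∧
      Asymptotics.IsEquivalent (atTop ⊓ 𝓟 Eᶜ)
        (fun n : ℕ => (((Finset.Icc (n ^ 2 - n) (n ^ 2)).filter Nat.Prime).card : ℝ))
        (fun n : ℕ => (n : ℝ) / (2 * Real.log (n : ℝ))) ∧
      Asymptotics.IsEquivalent (atTop ⊓ 𝓟 Eᶜ)
        (fun n : ℕ => (((Finset.Icc (n ^ 2) (n ^ 2 + n)).filter Nat.Prime).card : ℝ))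
        (fun n : ℕ => (n : ℝ) / (2 * Real.log (n : ℝ)))) ∧
    ∀ θ ψ : ℝ, (θ = 3 / 4 ∧ ψ = 39 / 40) ∨ (θ = 73 / 100 ∧ ψ = 99 / 100) →
      ∃ E : Set ℕ, (∀ N : ℕ, ((E ∩ Set.Icc 1 N).ncard : ℝ) ≤ (N : ℝ) ^ ψ) ∧
        ∀ ε : ℝ, 0 < ε → ∃ n₀ : ℕ, ∀ n : ℕ, n₀ ≤ n → n ∉ E → ∀ y : ℝ, (n : ℝ) ^ θ ≤ y → y ≤ n →
          ∀ c : ℕ, (c = n ^ 2 - n ∨ c = n ^ 2 ∨ c = n ^ 2 + n) →
            |(Set.ncard {p : ℕ | p.Prime ∧ (c : ℝ) < p ∧ (p : ℝ) ≤ c + y} : ℝ) /
                (y / (2 * Real.log n)) - 1| < ε ∧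
            |(Set.ncard {p : ℕ | p.Prime ∧ (c : ℝ) - y < p ∧ (p : ℝ) ≤ c} : ℝ) /
                (y / (2 * Real.log n)) - 1| < ε := by
  refine ⟨FIN.final_equiv_of_core r1 (39 / 200) (by unfold r1; norm_num)
    (ASM.core (CELL.cellA lv_Pf lv_Mv lv_Hx lv_G lv_J)
      (CELL.cellB lv_Pf lv_Mv lv_Hx lv_G lv_J
        Pool.Agent.Work.MP_a8fbd7_nt.ZF.all_HM)), ?_⟩
  rintro θ ψ (⟨h1, h2⟩ | ⟨h1, h2⟩)
  · rw [h1, h2]
    exact SQ.main.1
  · rw [h1, h2]
    exact SQ.main.2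

end Pool.Agent.Work.MP_a8fbd7_nt.OX.SQ.DraftConj
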