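import Mathlib
import Pool.Agent.Work.MP_a8fbd7_nt.OX.SQ.Final
import Pool.Agent.Work.MP_a8fbd7_nt.OX.FIN.Diag

/-!
# MP_a8fbd7_nt, block OX, part SQ: the case `θ = 1` of the family, from the core statement of the block FIN.

`core_one` : `FIN.Core r → Core 1 r` for `0 ≤ r`.
-/

set_option autoImplicit false

open Filter Topology

namespace Pool.Agent.Work.MP_a8fbd7_nt.OX.SQ

namespace Oneq

theorem pc_nat (a b : ℕ) : pc a b = (((Finset.Ioc a b).filter Nat.Prime).card : ℝ) := by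
  unfold pc
  congr 2
  ext p
  simp only [Nat.floor_natCast, Finset.mem_filter, Finset.mem_Icc, Finset.mem_Ioc, Nat.cast_lt]
  constructor
  · rintro ⟨⟨h1, h2⟩, h3, h4⟩
    exact ⟨⟨h4, h2⟩, h3⟩
  · rintro ⟨⟨h1, h2⟩, h3⟩
    exact ⟨⟨h3.one_lt.le, h2⟩, h3, h1⟩

theorem not_prime_sq (n : ℕ) : ¬ (n ^ 2).Prime := by
  rw [pow_two]
  rcases Nat.lt_or_ge n 2 with h | h
  · interval_cases n <;> decide
  · exact Nat.not_prime_mul (by omega) (by omega)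

theorem not_prime_lo (n : ℕ) (hn : 3 ≤ n) : ¬ (n ^ 2 - n).Prime := by
  have : n ^ 2 - n = n * (n - 1) := by
    rw [Nat.mul_sub, pow_two, mul_one]
  rw [this]
  exact Nat.not_prime_mul (by omega) (by omega)

theorem cB_eq (n : ℕ) : (((Finset.Ioc (n ^ 2) (n ^ 2 + n)).filter Nat.Prime).card : ℝ) = FIN.cB n := by
  unfold FIN.cB
  congr 2
  ext p
  simp only [Finset.mem_filter, Finset.mem_Ioc, Finset.mem_Icc]
  constructor
  · rintro ⟨⟨h1, h2⟩, h3⟩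
    exact ⟨⟨h1.le, h2⟩, h3⟩
  · rintro ⟨⟨h1, h2⟩, h3⟩
    refine ⟨⟨lt_of_le_of_ne h1 ?_, h2⟩, h3⟩
    rintro rfl
    exact not_prime_sq n h3

theorem cA_eq (n : ℕ) (hn : 3 ≤ n) :
    (((Finset.Ioc (n ^ 2 - n) (n ^ 2)).filter Nat.Prime).card : ℝ) = FIN.cA n := by
  unfold FIN.cA
  congr 2
  ext p
  simp only [Finset.mem_filter, Finset.mem_Ioc, Finset.mem_Icc]
  constructor
  · rintro ⟨⟨h1, h2⟩, h3⟩
    exact ⟨⟨h1.le, h2⟩, h3⟩
  · rintro ⟨⟨h1, h2⟩, h3⟩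
    refine ⟨⟨lt_of_le_of_ne h1 ?_, h2⟩, h3⟩
    rintro rfl
    exact not_prime_lo n hn h3

/-- the left neighbour: `(n² - 2n, n² - n]` is `[m², m² + m]`, `m = n - 1` -/
theorem cB_left (m : ℕ) (hm : 1 ≤ m) :
    (((Finset.Ioc ((m + 1) ^ 2 - (m + 1) - (m + 1)) ((m + 1) ^ 2 - (m + 1))).filter Nat.Prime).card : ℝ) = FIN.cB m := by
  unfold FIN.cB
  have h1 : (m + 1) ^ 2 - (m + 1) = m ^ 2 + m := by
    have : (m + 1) ^ 2 = (m ^ 2 + m) + (m + 1) := by ring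
    omega
  have hm2 : m ≤ m ^ 2 := by nlinarith
  rw [h1]
  congr 2
  ext p
  simp only [Finset.mem_filter, Finset.mem_Ioc, Finset.mem_Icc]
  have : m ^ 2 + m - (m + 1) = m ^ 2 - 1 := by omega
  rw [this]
  constructor
  · rintro ⟨⟨h2, h3⟩, h4⟩
    exact ⟨⟨by omega, h3⟩, h4⟩
  · rintro ⟨⟨h2, h3⟩, h4⟩
    refine ⟨⟨by omega, h3⟩, h4⟩

/-- the right neighbour: `(n² + n, n² + 2n]`, `m = n + 1` -/
theorem cA_right (n : ℕ) (hn : 2 ≤ n) :
    (((Finset.Ioc (n ^ 2 + n) (n ^ 2 + n + n)).filter Nat.Prime).card : ℝ) = FIN.cA (n + 1) := by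
  rw [← cA_eq (n + 1) (by omega)]
  have h1 : (n + 1) ^ 2 - (n + 1) = n ^ 2 + n := by
    have : (n + 1) ^ 2 = (n ^ 2 + n) + (n + 1) := by ring
    omega
  have h2 : (n + 1) ^ 2 = n ^ 2 + n + n + 1 := by ring
  rw [h1, h2]
  congr 2
  ext p
  simp only [Finset.mem_filter, Finset.mem_Ioc]
  constructor
  · rintro ⟨⟨h3, h4⟩, h5⟩
    exact ⟨⟨h3, by omega⟩, h5⟩
  · rintro ⟨⟨h3, h4⟩, h5⟩
    refine ⟨⟨h3, ?_⟩, h5⟩
    rcases Nat.lt_or_ge p (n ^ 2 + n + n + 1) with h6 | h6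
    · omega
    · exfalso
      have : p = n ^ 2 + n + n + 1 := by omega
      rw [← h2] at this
      rw [this] at h5
      exact not_prime_sq _ h5

/-- the weight `2 log n/n` -/
noncomputable def g (n : ℕ) : ℝ := 2 * Real.log n / n

theorem g_ratio (m : ℕ) (hm : 3 ≤ m) : ∃ ρ : ℝ, g (m + 1) = ρ * g m ∧ 1 - 1 / m ≤ ρ ∧ ρ ≤ 1 + 1 / m := by
  have hm0 : (3 : ℝ) ≤ m := by exact_mod_cast hm
  have hl : 1 ≤ Real.log m := by
    have h1 : Real.log (Real.exp 1) ≤ Real.log m := Real.log_le_log (Real.exp_pos _) (by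
      have := Real.exp_one_lt_d9; linarith)
    rwa [Real.log_exp] at h1
  have hl1 : Real.log m ≤ Real.log (m + 1 : ℝ) := Real.log_le_log (by linarith) (by linarith)
  have hl2 : Real.log (m + 1 : ℝ) ≤ Real.log m + 1 / m := by
    have h1 : Real.log ((m + 1 : ℝ) / m) ≤ (m + 1 : ℝ) / m - 1 := Real.log_le_sub_one_of_pos (by positivity)
    rw [Real.log_div (by linarith) (by linarith)] at h1
    have h2 : (m + 1 : ℝ) / m - 1 = 1 / m := by field_simp; ring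
    linarith
  refine ⟨(Real.log (m + 1 : ℝ) / Real.log m) * (m / (m + 1)), ?_, ?_, ?_⟩
  · unfold g
    push_cast
    field_simp
  · have h1 : 1 ≤ Real.log (m + 1 : ℝ) / Real.log m := by rw [le_div_iff₀ (by linarith)]; linarith
    have h2 : 1 - 1 / (m : ℝ) ≤ m / (m + 1) := by
      rw [le_div_iff₀ (by linarith)]
      have : (1 - 1 / (m : ℝ)) * (m + 1) = m - 1 / m := by field_simp; ring
      rw [this]
      have : (0 : ℝ) < 1 / m := by positivity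
      linarith
    have h3 : (0 : ℝ) ≤ m / (m + 1) := by positivity
    calc 1 - 1 / (m : ℝ) ≤ m / (m + 1) := h2
      _ = 1 * (m / (m + 1)) := by ring
      _ ≤ _ := mul_le_mul_of_nonneg_right h1 h3
  · have h1 : Real.log (m + 1 : ℝ) / Real.log m ≤ 1 + 1 / m := by
      rw [div_le_iff₀ (by linarith)]
      have : (0 : ℝ) < 1 / m := by positivity
      nlinarith
    have h2 : (m : ℝ) / (m + 1) ≤ 1 := by rw [div_le_one (by linarith)]; linarith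
    have h3 : 0 ≤ Real.log (m + 1 : ℝ) / Real.log m := div_nonneg (by linarith) (by linarith)
    calc (Real.log (m + 1 : ℝ) / Real.log m) * (m / (m + 1)) ≤ (Real.log (m + 1 : ℝ) / Real.log m) * 1 :=
          mul_le_mul_of_nonneg_left h2 h3
      _ = _ := by ring
      _ ≤ _ := h1

/-- transfer of the relative error -/
theorem transfer (ρ z δ : ℝ) (hδ : 0 < δ) (hδ1 : δ ≤ 1) (h1 : |ρ - 1| ≤ δ / 4) (h : |z - 1| ≤ δ / 2) :
    |ρ * z - 1| ≤ δ := by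
  have e : ρ * z - 1 = (ρ - 1) * (z - 1) + (ρ - 1) + (z - 1) := by ring
  rw [e]
  have h2 : |(ρ - 1) * (z - 1)| ≤ δ / 4 * (δ / 2) := by
    rw [abs_mul]
    exact mul_le_mul h1 h (abs_nonneg _) (by linarith)
  calc |(ρ - 1) * (z - 1) + (ρ - 1) + (z - 1)| ≤ |(ρ - 1) * (z - 1) + (ρ - 1)| + |z - 1| := abs_add_le _ _
    _ ≤ |(ρ - 1) * (z - 1)| + |ρ - 1| + |z - 1| := by linarith [abs_add_le ((ρ - 1) * (z - 1)) (ρ - 1)]
    _ ≤ δ / 4 * (δ / 2) + δ / 4 + δ / 2 := by linarith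
    _ ≤ δ := by nlinarith

/-- `n` is bad for the block FIN -/
def B0 (δ : ℝ) (n : ℕ) : Prop := δ < |2 * FIN.cA n * Real.log n / n - 1| ∨ δ < |2 * FIN.cB n * Real.log n / n - 1|

theorem bad_one (δ : ℝ) (hδ : 0 < δ) (hδ1 : δ ≤ 1) (n : ℕ) (hn : 8 ≤ n) (hnδ : 16 / δ ≤ n) (h : Bad 1 δ n) :
    B0 (δ / 2) (n - 1) ∨ B0 (δ / 2) n ∨ B0 (δ / 2) (n + 1) := by
  by_contra hcon
  unfold B0 at hcon
  push Not at hcon
  obtain ⟨⟨ha1, hb1⟩, ⟨ha2, hb2⟩, ha3, hb3⟩ := hcon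
  obtain ⟨m, rfl⟩ : ∃ m, n = m + 1 := ⟨n - 1, by omega⟩
  simp only [Nat.add_sub_cancel] at ha1 hb1
  have hm : 7 ≤ m := by omega
  have hmr : (7 : ℝ) ≤ m := by exact_mod_cast hm
  have hmδ : 8 / δ ≤ m := by
    have h1 : 16 / δ ≤ (m : ℝ) + 1 := by exact_mod_cast hnδ
    have h2 : 16 / δ = 2 * (8 / δ) := by ring
    have h3 : (1 : ℝ) ≤ m := by linarith
    have h4 : 8 ≤ 8 / δ := by rw [le_div_iff₀ hδ]; nlinarith
    linarith
  have hinv : 1 / (m : ℝ) ≤ δ / 8 := by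
    rw [div_le_iff₀ (by linarith)]
    rw [div_le_iff₀ hδ] at hmδ
    nlinarith
  have hG : ∀ (k : ℕ) (x : ℝ), 2 * x * Real.log k / k = g k * x := fun k x => by unfold g; ring
  rw [hG] at ha1 hb1 ha2 hb2 ha3 hb3
  -- ratios
  obtain ⟨ρ, hρ, hρ1, hρ2⟩ := g_ratio m (by omega)
  obtain ⟨ρ', hρ', hρ1', hρ2'⟩ := g_ratio (m + 1) (by omega)
  have hinv' : 1 / ((m + 1 : ℕ) : ℝ) ≤ 1 / (m : ℝ) := by
    push_cast
    exact one_div_le_one_div_of_le (by linarith) (by linarith)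
  have habs : |ρ - 1| ≤ δ / 4 := by rw [abs_le]; constructor <;> linarith
  have hρ'0 : 1 / 2 ≤ ρ' := by linarith
  have habs' : |1 / ρ' - 1| ≤ δ / 4 := by
    have e : 1 / ρ' - 1 = (1 - ρ') / ρ' := by field_simp
    rw [e, abs_div, abs_of_pos (show 0 < ρ' by linarith), div_le_iff₀ (by linarith), abs_le]
    constructor <;> nlinarith
  -- the three values
  obtain ⟨y, hy1, hy2, c, hc, hbad⟩ := h
  rw [Real.rpow_one] at hy1
  have hy : y = ((m + 1 : ℕ) : ℝ) := le_antisymm hy2 hy1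
  subst hy
  have hG2 : ∀ x : ℝ, 2 * Real.log ((m + 1 : ℕ) : ℝ) / ((m + 1 : ℕ) : ℝ) * x = g (m + 1) * x := fun x => rfl
  rw [hG2, hG2] at hbad
  have key1 : |g (m + 1) * FIN.cB m - 1| ≤ δ := by
    rw [hρ, mul_assoc]
    exact transfer ρ _ δ hδ hδ1 habs hb1
  have key2 : |g (m + 1) * FIN.cA (m + 1 + 1) - 1| ≤ δ := by
    have e : g (m + 1) = 1 / ρ' * g (m + 1 + 1) := by rw [hρ']; field_simp
    rw [e, mul_assoc]
    exact transfer _ _ δ hδ hδ1 habs' ha3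
  have hle : m + 1 ≤ (m + 1) ^ 2 := by nlinarith
  have hle2 : m + 1 ≤ (m + 1) ^ 2 - (m + 1) := by
    have : (m + 1) ^ 2 = (m ^ 2 + m) + (m + 1) := by ring
    have : m + 1 ≤ m ^ 2 + m := by nlinarith
    omega
  rcases hc with rfl | rfl | rfl
  · -- c = n² - n
    have e1 : (((m + 1 : ℕ) : ℝ)) ^ 2 - ((m + 1 : ℕ) : ℝ) = (((m + 1) ^ 2 - (m + 1) : ℕ) : ℝ) := by
      rw [Nat.cast_sub hle]; push_cast; ring
    have e2 : (((m + 1 : ℕ) : ℝ)) ^ 2 - ((m + 1 : ℕ) : ℝ) + ((m + 1 : ℕ) : ℝ) = (((m + 1) ^ 2 : ℕ) : ℝ) := by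
      push_cast; ring
    have e3 : (((m + 1 : ℕ) : ℝ)) ^ 2 - ((m + 1 : ℕ) : ℝ) - ((m + 1 : ℕ) : ℝ) =
        (((m + 1) ^ 2 - (m + 1) - (m + 1) : ℕ) : ℝ) := by
      rw [e1, ← Nat.cast_sub hle2]
    rcases hbad with hbad | hbad
    · rw [e2, e1, pc_nat, cA_eq _ (by omega)] at hbad
      linarith
    · rw [e3, e1, pc_nat, cB_left _ (by omega)] at hbad
      linarith
  · have e1 : (((m + 1 : ℕ) : ℝ)) ^ 2 = (((m + 1) ^ 2 : ℕ) : ℝ) := by push_cast; ring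
    have e2 : (((m + 1 : ℕ) : ℝ)) ^ 2 + ((m + 1 : ℕ) : ℝ) = (((m + 1) ^ 2 + (m + 1) : ℕ) : ℝ) := by push_cast; ring
    have e3 : (((m + 1 : ℕ) : ℝ)) ^ 2 - ((m + 1 : ℕ) : ℝ) = (((m + 1) ^ 2 - (m + 1) : ℕ) : ℝ) := by
      rw [Nat.cast_sub hle]; push_cast; ring
    rcases hbad with hbad | hbad
    · rw [e2, e1, pc_nat, cB_eq] at hbad
      linarith
    · rw [e3, e1, pc_nat, cA_eq _ (by omega)] at hbad
      linarith
  · have e1 : (((m + 1 : ℕ) : ℝ)) ^ 2 + ((m + 1 : ℕ) : ℝ) = (((m + 1) ^ 2 + (m + 1) : ℕ) : ℝ) := by push_cast; ring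
    have e2 : (((m + 1 : ℕ) : ℝ)) ^ 2 + ((m + 1 : ℕ) : ℝ) + ((m + 1 : ℕ) : ℝ) =
        (((m + 1) ^ 2 + (m + 1) + (m + 1) : ℕ) : ℝ) := by push_cast; ring
    have e3 : (((m + 1 : ℕ) : ℝ)) ^ 2 + ((m + 1 : ℕ) : ℝ) - ((m + 1 : ℕ) : ℝ) = (((m + 1) ^ 2 : ℕ) : ℝ) := by
      push_cast; ring
    rcases hbad with hbad | hbad
    · rw [e2, e1, pc_nat, cA_right _ (by omega)] at hbad
      linarith
    · rw [e3, e1, pc_nat, cB_eq] at hbad
      linarith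

end Oneq

open Oneq in
open Classical in
theorem core_one (r : ℝ) (hr : 0 ≤ r) (h : FIN.Core r) : Core 1 r := by
  intro δ hδ
  set δ' : ℝ := min δ 1 with hδ'
  have h0 : 0 < δ' := lt_min hδ one_pos
  have h1 : δ' ≤ 1 := min_le_right _ _
  obtain ⟨C, hC⟩ := h (δ' / 2) (by positivity)
  have hC1 : ∀ N : ℕ, 1 ≤ N → ((((Finset.Icc 1 N).filter (B0 (δ' / 2))).card : ℕ) : ℝ) ≤ C * (N : ℝ) ^ r := by
    intro N hN
    refine le_trans (le_of_eq ?_) (hC N hN)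
    congr 1
    rw [← Set.ncard_coe_finset]
    congr 1
    ext n
    simp only [Finset.coe_filter, Finset.mem_Icc, Set.mem_ofPred_eq, B0]
    tauto
  have hC0 : 0 ≤ C := by
    have := hC1 1 le_rfl
    rw [Nat.cast_one, Real.one_rpow, mul_one] at this
    exact le_trans (Nat.cast_nonneg _) this
  obtain ⟨M, hM⟩ : ∃ M : ℕ, 16 / δ' ≤ M := exists_nat_ge _
  refine ⟨(M + 8) + 3 * (C * 2 ^ r), fun N hN => ?_⟩
  have hN1 : (1 : ℝ) ≤ N := by exact_mod_cast hN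
  have hNr : 1 ≤ (N : ℝ) ^ r := Real.one_le_rpow hN1 hr
  have hsub : (Finset.Icc 1 N).filter (Bad 1 δ) ⊆ Finset.range (M + 8) ∪
      (((Finset.Icc 1 (N + 1)).filter (B0 (δ' / 2))).image (fun n => n + 1) ∪
      (((Finset.Icc 1 (N + 1)).filter (B0 (δ' / 2))) ∪
      ((Finset.Icc 1 (N + 1)).filter (B0 (δ' / 2))).image (fun n => n - 1))) := by
    intro n hn
    simp only [Finset.mem_filter, Finset.mem_Icc] at hn
    obtain ⟨⟨hn1, hn2⟩, y, hy1, hy2, c, hc, hb⟩ := hn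
    simp only [Finset.mem_union, Finset.mem_range, Finset.mem_image, Finset.mem_filter, Finset.mem_Icc]
    rcases Nat.lt_or_ge n (M + 8) with h2 | h2
    · left; exact h2
    · right
      have hb' : Bad 1 δ' n := by
        refine ⟨y, hy1, hy2, c, hc, ?_⟩
        exact hb.imp (fun h' => lt_of_le_of_lt (min_le_left _ _) h') (fun h' => lt_of_le_of_lt (min_le_left _ _) h')
      have h3 : 16 / δ' ≤ n := hM.trans (by exact_mod_cast (by omega : M ≤ n))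
      rcases bad_one δ' h0 h1 n (by omega) h3 hb' with h4 | h4 | h4
      · left
        exact ⟨n - 1, ⟨⟨by omega, by omega⟩, h4⟩, by omega⟩
      · right; left
        exact ⟨⟨hn1, by omega⟩, h4⟩
      · right; right
        exact ⟨n + 1, ⟨⟨by omega, by omega⟩, h4⟩, by omega⟩
  have hX := hC1 (N + 1) (by omega)
  set X := (Finset.Icc 1 (N + 1)).filter (B0 (δ' / 2)) with hXd
  have hcard : ((Finset.Icc 1 N).filter (Bad 1 δ)).card ≤ (M + 8) + 3 * X.card := by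
    refine (Finset.card_le_card hsub).trans ?_
    refine (Finset.card_union_le _ _).trans ?_
    have a1 := Finset.card_union_le (X.image (fun n => n + 1)) (X ∪ X.image (fun n => n - 1))
    have a2 := Finset.card_union_le X (X.image (fun n => n - 1))
    have a3 := Finset.card_image_le (s := X) (f := fun n => n + 1)
    have a4 := Finset.card_image_le (s := X) (f := fun n => n - 1)
    rw [Finset.card_range]
    omega
  have hXb : (X.card : ℝ) ≤ C * 2 ^ r * (N : ℝ) ^ r := by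
    refine hX.trans ?_
    rw [mul_assoc, ← Real.mul_rpow (by norm_num) (by linarith)]
    refine mul_le_mul_of_nonneg_left ?_ hC0
    refine Real.rpow_le_rpow (by positivity) ?_ hr
    push_cast
    linarith
  have hcard' : ((((Finset.Icc 1 N).filter (Bad 1 δ)).card : ℕ) : ℝ) ≤ (M + 8) + 3 * X.card := by exact_mod_cast hcard
  have hM0 : (0 : ℝ) ≤ M + 8 := by positivity
  calc ((((Finset.Icc 1 N).filter (Bad 1 δ)).card : ℕ) : ℝ) ≤ (M + 8) + 3 * X.card := hcard'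
    _ ≤ (M + 8) * (N : ℝ) ^ r + 3 * (C * 2 ^ r * (N : ℝ) ^ r) := by
        have := mul_le_mul_of_nonneg_left hNr hM0
        linarith
    _ = _ := by ring

theorem fin_one (r ψ : ℝ) (hr0 : 0 ≤ r) (hr : r < ψ) (h : FIN.Core r) : Fin1 1 ψ := fin1 1 r ψ hr (core_one r hr0 h)

end Pool.Agent.Work.MP_a8fbd7_nt.OX.SQ
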