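import Pool.Agent.Work.MP_a8fbd7_nt.OX.SQ.All
import Pool.Agent.Work.MP_a8fbd7_nt.OX.SQ.One
import Pool.Agent.Work.MP_a8fbd7_nt.OX.CELL.All

/-!
# MP_a8fbd7_nt: Oppermann intervals and shorter intervals at their end points, almost all integers (DRAFT of a results file)

The statement uses no definition of ours.
-/

set_option autoImplicit false

namespace Pool.Agent.Work.MP_a8fbd7_nt.OX.SQ.DraftFamily

open Pool.Agent.Work.MP_a8fbd7_nt.OX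

/-- For each of the three pairs `(θ, ψ) = (1, 39 / 200)`, `(3 / 4, 39 / 40)` and `(73 / 100, 99 / 100)` there is a set `E` of natural
numbers, with at most `N ^ ψ` elements in `[1, N]` for every `N`, such that, as `n` tends to infinity outside `E`, uniformly for real
`y` with `n ^ θ ≤ y ≤ n` and for `c = n ^ 2 - n`, `n ^ 2`, `n ^ 2 + n`, the number of primes in `(c, c + y]` and the number of primes
in `(c - y, c]` are both `(1 + o(1)) y / (2 log n)`. -/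
theorem result : ∀ θ ψ : ℝ, (θ = 1 ∧ ψ = 39 / 200) ∨ (θ = 3 / 4 ∧ ψ = 39 / 40) ∨ (θ = 73 / 100 ∧ ψ = 99 / 100) →
    ∃ E : Set ℕ, (∀ N : ℕ, ((E ∩ Set.Icc 1 N).ncard : ℝ) ≤ (N : ℝ) ^ ψ) ∧
      ∀ ε : ℝ, 0 < ε → ∃ n₀ : ℕ, ∀ n : ℕ, n₀ ≤ n → n ∉ E → ∀ y : ℝ, (n : ℝ) ^ θ ≤ y → y ≤ n →
        ∀ c : ℕ, (c = n ^ 2 - n ∨ c = n ^ 2 ∨ c = n ^ 2 + n) →
          |(Set.ncard {p : ℕ | p.Prime ∧ (c : ℝ) < p ∧ (p : ℝ) ≤ c + y} : ℝ) / (y / (2 * Real.log n)) - 1| < ε ∧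
          |(Set.ncard {p : ℕ | p.Prime ∧ (c : ℝ) - y < p ∧ (p : ℝ) ≤ c} : ℝ) / (y / (2 * Real.log n)) - 1| < ε := by
  intro θ ψ h
  rcases h with ⟨h1, h2⟩ | ⟨h1, h2⟩ | ⟨h1, h2⟩
  · rw [h1, h2]
    exact fin_one r1 (39 / 200) (by unfold r1; norm_num) (by unfold r1; norm_num)
      (ASM.core (CELL.cellA lv_Pf lv_Mv lv_Hx lv_G lv_J)
        (CELL.cellB lv_Pf lv_Mv lv_Hx lv_G lv_J Pool.Agent.Work.MP_a8fbd7_nt.ZF.all_HM))
  · rw [h1, h2]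
    exact main.1
  · rw [h1, h2]
    exact main.2

end Pool.Agent.Work.MP_a8fbd7_nt.OX.SQ.DraftFamily
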