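import Mathlib
import Pool.Agent.Work.MP_a8fbd7_nt.OX.CELL.Cls
import Pool.Agent.Work.MP_a8fbd7_nt.OX.SQ.Stmts

/-!
# MP_a8fbd7_nt, block OX, part SQ, item Cl: the data of a class.
Author: helper54 (model: `OX/CELL/Cls.lean` by helper63).
-/

set_option autoImplicit false

open MeasureTheory Set Filter Topology

noncomputable section

namespace Pool.Agent.Work.MP_a8fbd7_nt.OX.SQ

open Pool.Agent.Work.MP_56b8f5_nt.UC (Sep Dp)
open Pool.Agent.Work.MP_a8fbd7_nt.OX
open Pool.Agent.Work.MP_a8fbd7_nt.OX.CELL (LVp GMh JTh pick lv_block thr expo disc_vol PB_cont pw)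

namespace Clq

/-- `LVp` is monotone in `h`, up to the tolerance -/
theorem LVp_mono {h h' l g τ s1 s : ℝ} {Q : ℕ} (hh : h ≤ h') (hs1 : s1 ≤ s) (hd : s1 + (h' - h) ≤ s)
    (H : LVp h' l g τ s1 Q) : LVp h l g τ s Q := by
  refine ⟨?_, ?_, ?_, ?_⟩
  · have h1 := H.mv
    have h2 : max 0 (h' - l) ≤ max 0 (h - l) + (h' - h) := by
      apply max_le
      · have := le_max_left 0 (h - l); linarith
      · have := le_max_right 0 (h - l); linarith
    linarith
  · have h1 := H.hx
    have h2 : max (2 * g) (h' + 6 * g - 2 * l) ≤ max (2 * g) (h + 6 * g - 2 * l) + (h' - h) := by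
      apply max_le
      · have := le_max_left (2 * g) (h + 6 * g - 2 * l); linarith
      · have := le_max_right (2 * g) (h + 6 * g - 2 * l); linarith
    linarith
  · intro q t hq hqQ ht1 ht2
    have h1 := H.gm q t hq hqQ ht1 (by linarith)
    unfold GMh at h1 ⊢
    have h2 : max 0 (h' - t) ≤ max 0 (h - t) + (h' - h) := by
      apply max_le
      · have := le_max_left 0 (h - t); linarith
      · have := le_max_right 0 (h - t); linarith
    linarith
  · intro t ht0 ht1 hg
    have h1 := H.jj t ht0 (by linarith) (by linarith)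
    unfold JTh at h1 ⊢
    have h2 : max 0 (h' - t) ≤ max 0 (h - t) + (h' - h) := by
      apply max_le
      · have := le_max_left 0 (h - t); linarith
      · have := le_max_right 0 (h - t); linarith
    linarith

theorem GS_cont' {S : Finset ℝ} (hS : ∀ x ∈ S, 0 < x) (c : ℝ → ℂ) : Continuous (fun t => GS S c t) := by
  unfold GS
  apply continuous_finsetSum
  intro x hx
  have hx0 : (x : ℂ) ≠ 0 := by exact_mod_cast (hS x hx).ne'
  apply Continuous.mul continuous_const
  apply Continuous.const_cpow _ (Or.inl hx0)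
  fun_prop

theorem GS_le' {S : Finset ℝ} (hS : ∀ x ∈ S, 0 < x) {c : ℝ → ℂ} (hc : ∀ x, ‖c x‖ ≤ 1) (t : ℝ) : ‖GS S c t‖ ≤ S.card := by
  unfold GS
  refine (norm_sum_le _ _).trans ?_
  rw [← nsmul_one, ← Finset.sum_const]
  apply Finset.sum_le_sum
  intro x hx
  rw [norm_mul, Complex.norm_cpow_eq_rpow_re_of_pos (hS x hx)]
  simp
  exact hc x

/-- the twelfth moment on a class -/
theorem tw {T T' h τ b w s N : ℝ} {a : ℕ → ℂ} {R : Finset ℝ} (hT : 1 < T) (hN : N = T ^ b) (hR : Sep R)
    (hRT : ∀ t ∈ R, T' ≤ t ∧ t ≤ 2 * T') (hτ : T ^ τ = R.card) (hV : ∀ t ∈ R, T ^ (b - w) ≤ ‖PB a N t‖)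
    (hM : M12 a N T' (T ^ (2 * h + s))) : τ ≤ 12 * w - 6 * b + 2 * h + s := by
  have hT0 : 0 < T := by linarith
  have h1 := hM R hR hRT
  have h2 : (R.card : ℝ) * (T ^ (b - w)) ^ 12 ≤ ∑ t ∈ R, ‖PB a N t‖ ^ 12 := by
    rw [← nsmul_eq_mul]
    apply Finset.card_nsmul_le_sum
    intro t ht
    exact pow_le_pow_left₀ (by positivity) (hV t ht) 12
  have h3 : T ^ (τ + 12 * (b - w)) ≤ T ^ (2 * h + s + 6 * b) := by
    calc T ^ (τ + 12 * (b - w)) = (R.card : ℝ) * (T ^ (b - w)) ^ 12 := by
          rw [Real.rpow_add hT0, hτ, pw hT0.le]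
          congr 2
          push_cast
          ring
      _ ≤ ∑ t ∈ R, ‖PB a N t‖ ^ 12 := h2
      _ ≤ T ^ (2 * h + s) * N ^ 6 := h1
      _ = T ^ (2 * h + s + 6 * b) := by
          rw [hN, pw hT0.le, ← Real.rpow_add hT0]
          congr 1
          push_cast
          ring
  have h4 := (Real.rpow_le_rpow_left_iff hT).mp h3
  linarith

end Clq

open Clq in
/-- **ITEM Cl: the data of a class** -/
theorem iCl (hMv : StMv) (hHx : StHx) (hG : StG) (hJ : StJ) (hPf : StPf) (hMq : StMq) : StCl := by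
  intro s η Q hs hs1 hη
  obtain ⟨C1, hC1, hpick⟩ := pick (s / 8) η (by positivity) (by linarith) hη
  obtain ⟨C2, hC2, hcoll⟩ := hMq (s / 8) η (by positivity) (by linarith) hη
  obtain ⟨C4, hC4, hlv⟩ := lv_block hMv hHx hG hJ hPf (s / 8) η Q (by positivity) hη
  obtain ⟨C5, hC5, hthr⟩ := thr 2 (s / 8) (by positivity)
  refine ⟨max (max C1 C2) (max C4 C5), le_max_of_le_left (le_max_of_le_left hC1), ?_⟩
  intro T T' h r θ m J a N b S c E hT hh1 hh2 hT'1 hT' ha hN hb hsum hS hS1 hSr hc hM hθ hE hEs hint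
  have t1 : C1 ≤ T := (le_max_left _ _).trans ((le_max_left _ _).trans hT)
  have t2 : C2 ≤ T := (le_max_right _ _).trans ((le_max_left _ _).trans hT)
  have t4 : C4 ≤ T := (le_max_left _ _).trans ((le_max_right _ _).trans hT)
  have t5 : C5 ≤ T := (le_max_right _ _).trans ((le_max_right _ _).trans hT)
  have hT2 : 2 ≤ T := hC5.trans t5
  have hT0 : 0 < T := by linarith
  have hT1 : 1 ≤ T := by linarith
  have h2T := hthr T t5
  have hJ0 : (0 : ℝ) < S.card := by exact_mod_cast hS1
  have hSpos : ∀ x ∈ S, 0 < x := fun x hx => lt_of_lt_of_le (by positivity) (hS x hx).1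
  have hGc : Continuous (fun t => ‖GS S c t‖) := (GS_cont' hSpos c).norm
  obtain ⟨w, E', hE', hE'E, hw0, hlev, hprod, hint'⟩ := hpick T t1 T' S.card θ m a N b (fun t => ‖GS S c t‖) E hT'1
    (hT'.trans (Real.rpow_le_rpow_of_exponent_le hT1 (by linarith))) ha hN hb hsum hGc (fun t => norm_nonneg _)
    (fun t => GS_le' hSpos hc t) hJ0 hθ hE hEs hint
  set W : ℝ := ∑ i, w i + θ - ∑ i, b i with hW
  set X : ℝ := W - s / 4 with hX
  -- the integral of `G`
  have hGint : S.card * T ^ X ≤ ∫ t in E', ‖GS S c t‖ := by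
    have h1 : ∫ t in E', ‖GS S c t‖ * ∏ i, ‖PB (a i) (N i) t‖ ≤ T ^ (∑ i, b i - ∑ i, w i + s / 8) * ∫ t in E', ‖GS S c t‖ := by
      rw [← integral_const_mul]
      apply setIntegral_mono_on
      · apply Continuous.continuousOn _ |>.integrableOn_compact hE'
        exact hGc.mul (continuous_finsetProd _ fun i _ => (PB_cont (a i) (N i)).norm)
      · exact (hGc.continuousOn.integrableOn_compact hE').const_mul _
      · exact hE'.measurableSet
      · intro t ht
        rw [mul_comm]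
        exact mul_le_mul_of_nonneg_right (hprod t ht) (norm_nonneg _)
    have h2 : T ^ (∑ i, b i - ∑ i, w i + s / 8) * (S.card * T ^ X) ≤
        T ^ (∑ i, b i - ∑ i, w i + s / 8) * ∫ t in E', ‖GS S c t‖ := by
      refine le_trans (le_of_eq ?_) (hint'.trans h1)
      have : T ^ (θ - s / 8) = T ^ (∑ i, b i - ∑ i, w i + s / 8) * T ^ X := by
        rw [← Real.rpow_add hT0]; congr 1; rw [hX, hW]; ring
      rw [this]; ring
    exact le_of_mul_le_mul_left h2 (by positivity)
  -- the volume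
  obtain ⟨R, hR1, hR2, hR3⟩ := disc_vol E' hE'
  have hvol0 : ∫ t in E', ‖GS S c t‖ ≤ S.card * (volume E').toReal := by
    calc ∫ t in E', ‖GS S c t‖ ≤ ∫ _ in E', (S.card : ℝ) := by
          apply setIntegral_mono_on (hGc.continuousOn.integrableOn_compact hE')
            (integrableOn_const hE'.measure_lt_top.ne) hE'.measurableSet
          intro t _
          exact GS_le' hSpos hc t
      _ = S.card * (volume E').toReal := by
          rw [setIntegral_const, smul_eq_mul, mul_comm]; rfl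
  have hXR : T ^ X ≤ 2 * R.card := by
    have h1 : S.card * T ^ X ≤ S.card * (2 * R.card) :=
      hGint.trans (hvol0.trans (mul_le_mul_of_nonneg_left hR3 hJ0.le))
    exact le_of_mul_le_mul_left h1 hJ0
  have hRpos : 0 < R.card := by
    have h1 : 0 < T ^ X := by positivity
    have h2 : (0 : ℝ) < R.card := by linarith
    exact_mod_cast h2
  have hRr : (0 : ℝ) < R.card := by exact_mod_cast hRpos
  set τ : ℝ := Real.logb T R.card with hτ
  have hTτ : T ^ τ = R.card := Real.rpow_logb hT0 (by linarith) hRr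
  have hτ0 : 0 ≤ τ := Real.logb_nonneg (by linarith) (by exact_mod_cast hRpos)
  have hWτ : X ≤ τ + s / 8 := by
    apply expo (K := 2) (T := T) (by linarith) _ h2T
    rw [hTτ]
    exact hXR
  have hRsub : ∀ t ∈ R, T' ≤ t ∧ t ≤ 2 * T' := fun t ht => hEs (hE'E (hR1 t ht))
  have hRT : (R.card : ℝ) ≤ 1 + 2 * (T' / 2) / 1 := by
    apply Pool.Agent.Work.MP_a8fbd7_nt.OX.card_le_of_sep R (fun t => t) 1 (3 / 2 * T') (T' / 2) one_pos (by linarith)
    · intro p hp q hq hpq
      exact hR2 p hp q hq hpq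
    · intro p hp
      have := hRsub p hp
      rw [abs_le]
      constructor <;> linarith [this.1, this.2]
  have hτ1 : τ ≤ h + s / 128 + s / 8 := by
    apply expo (K := 2) (T := T) (by linarith) _ h2T
    rw [hTτ]
    calc (R.card : ℝ) ≤ 1 + 2 * (T' / 2) / 1 := hRT
      _ ≤ 2 * T' := by linarith
      _ ≤ 2 * T ^ (h + s / 128) := by linarith
  have hRne : R.Nonempty := Finset.card_pos.mp hRpos
  obtain ⟨t0, ht0⟩ := hRne
  have hT'' : T' ≤ T ^ (h + s / 8 / 16) := by
    refine hT'.trans (Real.rpow_le_rpow_of_exponent_le hT1 (by linarith))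
  have hEvol : (volume E').toReal ≤ 2 * T ^ τ := by rw [hTτ]; exact hR3
  obtain ⟨hm1, hm2⟩ := hcoll T T' h r S c E' X τ t2 hh1 hh2 hT'1 hT'' hS hS1 hSr hc hE' (hE'E.trans hEs) hEvol hGint
  refine ⟨w, τ, W, rfl, ⟨t0, hE'E (hR1 t0 ht0), fun i => (hlev t0 (hR1 t0 ht0) i).1⟩, ?_, ?_⟩
  · refine ⟨hw0, hτ0, by linarith, by linarith, by linarith, ?_⟩
    intro i
    refine ⟨hτ0, by linarith, by linarith, by linarith, ?_, ?_⟩
    · intro k hk hkb
      have h1 := hlv T t4 (a i) (N i) (b i) (w i) (h + s / 128) T' τ R (hN i) (hb i) (ha i) (by positivity) (by linarith) hR2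
        (by
          intro t ht
          have := hRsub t ht
          exact ⟨this.1, by linarith [this.2]⟩)
        (fun t ht => (hlev t (hR1 t ht) i).1) hTτ.le k hk hkb
      exact LVp_mono (by linarith) (by linarith) (by linarith) h1
    · intro j hj
      have h1 := hm2 (a i) (N i) (b i) (w i) (ha i) (hN i) (hb i) (fun t ht => (hlev t ht i).1) j hj
      linarith
  · intro i hi
    have h1 := tw (by linarith) (hN i) hR2 hRsub hTτ (fun t ht => (hlev t (hR1 t ht) i).1) (hM i hi)
    linarith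

end Pool.Agent.Work.MP_a8fbd7_nt.OX.SQ
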