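import Mathlib
import Pool.Agent.Work.MP_a8fbd7_nt.OX.SQ.Stmts
import Pool.Agent.Work.MP_a8fbd7_nt.OX.ASM.I_F4

set_option autoImplicit false

open MeasureTheory Set Filter Topology

noncomputable section

namespace Pool.Agent.Work.MP_a8fbd7_nt.OX.SQ

open Pool.Agent.Work.MP_56b8f5_nt.UC (IsWt Bl Dp Om psi eta Sep)
open Pool.Agent.Work.MP_a8fbd7_nt.OX
open Pool.Agent.Work.MP_a8fbd7_nt.OX.ASM
open Pool.Agent.Work.MP_a8fbd7_nt.OX.CELL (LVp GMh JTh)
open Pool.Agent.Work.MP_a8fbd7_nt.OX.ID (Rough roughOne pb rg)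

namespace F4q

/-! half line estimate for windows `T ≥ 1` and the resonance item with a window `V` -/


/-- half line estimate -/
lemma half (K P : ℝ → ℝ) (hP : Continuous P) (hP0 : ∀ t, 0 ≤ P t) (P0 C2 CA T T0 T1 ε : ℝ) (A : ℕ)
    (hPb : ∀ t, P t ≤ P0) (hT : 1 ≤ T) (hT0 : 1 ≤ T0) (hT0T : T0 ≤ T) (hT1 : 1 ≤ T1) (hε : 0 < ε)
    (hA : 2 ≤ ε * ((A : ℝ) - 1)) (hA2 : 2 ≤ A) (hC2 : 0 ≤ C2) (hCA : 0 ≤ CA)
    (hK1 : ∀ t, 0 ≤ t → K t ≤ C2 * (t / T1)) (hK2 : ∀ t, K t ≤ 2 * C2)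
    (hK3 : ∀ t, 0 < t → K t ≤ 2 * CA * (T / t) ^ A) (_hK0 : ∀ t, 0 ≤ K t)
    (hint : Integrable fun t => K t * P t) :
    ∫ t in Ioi (0 : ℝ), K t * P t ≤ P0 * (C2 * (T0 ^ 2 / T1) + 2 * CA / T) + 2 * C2 * ∫ t in T0..(T ^ (1 + ε)), P t := by
  have hTpos : 0 < T := by linarith
  have hT0' : 0 < T0 := by linarith
  have hT1' : 0 < T1 := by linarith
  have hP00 : 0 ≤ P0 := (hP0 0).trans (hPb 0)
  set R := T ^ (1 + ε) with hR
  have hTR : T ≤ R := by
    rw [hR]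
    calc T = T ^ (1 : ℝ) := (Real.rpow_one T).symm
      _ ≤ T ^ (1 + ε) := Real.rpow_le_rpow_of_exponent_le (by linarith) (by linarith)
  have hRpos : 0 < R := by linarith
  have hI : ∀ s : Set ℝ, IntegrableOn (fun t => K t * P t) s := fun s => hint.integrableOn
  have hII : ∀ a b : ℝ, IntervalIntegrable (fun t => K t * P t) volume a b := fun a b => hint.intervalIntegrable
  rw [← intervalIntegral.integral_interval_add_Ioi (hI (Ioi 0)) (hI (Ioi T0)),
    ← intervalIntegral.integral_interval_add_Ioi (hI (Ioi T0)) (hI (Ioi R))]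
  have e1 : ∫ t in (0 : ℝ)..T0, K t * P t ≤ P0 * (C2 * (T0 ^ 2 / T1)) := by
    have : ∫ t in (0 : ℝ)..T0, K t * P t ≤ ∫ t in (0 : ℝ)..T0, C2 * (T0 / T1) * P0 := by
      refine intervalIntegral.integral_mono_on hT0'.le (hII _ _) intervalIntegrable_const ?_
      intro t ht
      have h3 : K t ≤ C2 * (T0 / T1) := (hK1 t ht.1).trans (by
        have : t / T1 ≤ T0 / T1 := div_le_div_of_nonneg_right ht.2 hT1'.le
        exact mul_le_mul_of_nonneg_left this hC2)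
      exact mul_le_mul h3 (hPb t) (hP0 t) (by positivity)
    refine this.trans (le_of_eq ?_)
    rw [intervalIntegral.integral_const, smul_eq_mul]
    ring
  have e2 : ∫ t in T0..R, K t * P t ≤ 2 * C2 * ∫ t in T0..R, P t := by
    rw [← intervalIntegral.integral_const_mul]
    refine intervalIntegral.integral_mono_on (by linarith) (hII _ _) ((hP.intervalIntegrable _ _).const_mul _) ?_
    intro t _
    exact mul_le_mul_of_nonneg_right (hK2 t) (hP0 t)
  have e3 : ∫ t in Ioi R, K t * P t ≤ P0 * (2 * CA / T) := by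
    have hA1 : (-(A : ℝ)) < -1 := by
      have : (2 : ℝ) ≤ A := by exact_mod_cast hA2
      linarith
    have hb : ∫ t in Ioi R, K t * P t ≤ ∫ t in Ioi R, (2 * CA * T ^ A * P0) * t ^ (-(A : ℝ)) := by
      refine setIntegral_mono_on (hI _) ((integrableOn_Ioi_rpow_of_lt hA1 hRpos).const_mul _) measurableSet_Ioi ?_
      intro t ht
      have ht0 : 0 < t := lt_trans hRpos ht
      have h5 : (T / t) ^ A = T ^ A * t ^ (-(A : ℝ)) := by
        rw [div_pow, Real.rpow_neg ht0.le, Real.rpow_natCast]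
        rfl
      calc K t * P t ≤ (2 * CA * (T / t) ^ A) * P0 :=
            mul_le_mul (hK3 t ht0) (hPb t) (hP0 t) (by positivity)
        _ = _ := by rw [h5]; ring
    refine hb.trans ?_
    rw [integral_const_mul, integral_Ioi_rpow_of_lt hA1 hRpos]
    have hA3 : (2 : ℝ) ≤ A := by exact_mod_cast hA2
    have h6 : -R ^ (-(A : ℝ) + 1) / (-(A : ℝ) + 1) ≤ R ^ (-(A : ℝ) + 1) := by
      have h7 : -R ^ (-(A : ℝ) + 1) / (-(A : ℝ) + 1) = R ^ (-(A : ℝ) + 1) / ((A : ℝ) - 1) := by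
        rw [show (-(A : ℝ) + 1) = -((A : ℝ) - 1) by ring, neg_div_neg_eq]
      rw [h7]
      refine div_le_self (by positivity) (by linarith)
    have h8 : T ^ A * R ^ (-(A : ℝ) + 1) ≤ 1 / T := by
      rw [hR, ← Real.rpow_natCast T A, ← Real.rpow_mul hTpos.le, ← Real.rpow_add hTpos, one_div,
        ← Real.rpow_neg_one]
      refine Real.rpow_le_rpow_of_exponent_le (by linarith) ?_
      nlinarith
    calc 2 * CA * T ^ A * P0 * (-R ^ (-(A : ℝ) + 1) / (-(A : ℝ) + 1))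
        ≤ 2 * CA * T ^ A * P0 * R ^ (-(A : ℝ) + 1) := mul_le_mul_of_nonneg_left h6 (by positivity)
      _ = P0 * (2 * CA) * (T ^ A * R ^ (-(A : ℝ) + 1)) := by ring
      _ ≤ P0 * (2 * CA) * (1 / T) := mul_le_mul_of_nonneg_left h8 (by positivity)
      _ = _ := by ring
  linarith [e1, e2, e3]

/-- arithmetic of the main step -/
lemma arith (n δ T V T0 T1 M C2 CA I1 I2 J : ℝ) (hn : 0 ≤ n) (hT : 0 < T) (hV : 0 < V) (hTV : T / 2 ≤ V)
    (hT1 : 0 < T1) (hC2 : 1 ≤ C2) (hCA : 1 ≤ CA) (hM : 0 ≤ M) (hδ : 0 ≤ δ)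
    (hCδ : 16 * (C2 + CA) * M * (T0 ^ 2 / T1 + 1 / T) ≤ δ) (hmain : n * δ ≤ 1 / (2 * Real.pi * T ^ 2) * J)
    (h3v : J ≤ 2 * (n * (M * T ^ 2) * (C2 * (T0 ^ 2 / T1) + 2 * CA / V)) + 2 * C2 * (I1 + I2)) :
    n * (δ * T ^ 2) ≤ C2 * (I1 + I2) := by
  have hpi3 : 3 < Real.pi := Real.pi_gt_three
  set X := T0 ^ 2 / T1 with hX
  have hX0 : 0 ≤ X := by positivity
  have hTi : 0 < 1 / T := by positivity
  have h2 : 0 < 2 * Real.pi * T ^ 2 := by positivity
  have h1 : n * δ * (2 * Real.pi * T ^ 2) ≤ J := by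
    calc n * δ * (2 * Real.pi * T ^ 2) ≤ 1 / (2 * Real.pi * T ^ 2) * J * (2 * Real.pi * T ^ 2) :=
        mul_le_mul_of_nonneg_right hmain h2.le
      _ = _ := by field_simp
  have hVi : 2 * CA / V ≤ 4 * CA * (1 / T) := by
    have e : 4 * CA * (1 / T) = 4 * CA / T := by ring
    rw [e, div_le_div_iff₀ hV hT]
    have := mul_le_mul_of_nonneg_left hTV (by linarith : (0 : ℝ) ≤ 4 * CA)
    linarith
  have h6 : C2 * X + 2 * CA / V ≤ 4 * (C2 + CA) * (X + 1 / T) := by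
    have q1 : 0 ≤ (3 * C2 + 4 * CA) * X := mul_nonneg (by linarith) hX0
    have q2 : 0 ≤ 4 * C2 * (1 / T) := mul_nonneg (by linarith) hTi.le
    linarith
  have h4 : M * (C2 * X + 2 * CA / V) ≤ δ / 4 := by
    have h7 : M * (C2 * X + 2 * CA / V) ≤ M * (4 * (C2 + CA) * (X + 1 / T)) := mul_le_mul_of_nonneg_left h6 hM
    linarith
  have h9 : n * (M * T ^ 2) * (C2 * X + 2 * CA / V) ≤ n * T ^ 2 * (δ / 4) := by
    calc n * (M * T ^ 2) * (C2 * X + 2 * CA / V) = n * T ^ 2 * (M * (C2 * X + 2 * CA / V)) := by ring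
      _ ≤ _ := mul_le_mul_of_nonneg_left h4 (by positivity)
  have h11 : 0 ≤ n * (δ * T ^ 2) := by positivity
  have h10 : n * (δ * T ^ 2) * 6 ≤ n * δ * (2 * Real.pi * T ^ 2) := by
    have := mul_le_mul_of_nonneg_left hpi3.le h11
    linarith
  linarith

lemma pick1 (X C2 I1 I2 : ℝ) (hC2 : 1 ≤ C2) (h : I2 ≤ I1) (hX : X ≤ C2 * (I1 + I2)) : X ≤ 2 * C2 * I1 := by
  have := mul_le_mul_of_nonneg_left h (by linarith : (0 : ℝ) ≤ C2)
  linarith

lemma pick2 (X C2 I1 I2 : ℝ) (hC2 : 1 ≤ C2) (h : I1 ≤ I2) (hX : X ≤ C2 * (I1 + I2)) : X ≤ 2 * C2 * I2 := by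
  have := mul_le_mul_of_nonneg_left h (by linarith : (0 : ℝ) ≤ C2)
  linarith

end F4q

open ASM.F4_aux in
theorem iF4 (hF1 : ASM.StF1) (hF2 : ASM.StF2) (hMel : Pool.Agent.Work.MP_56b8f5_nt.UC.StMel) : StF4 := by
  intro w hw ε hε hε1
  obtain ⟨C2, hC21, hOb, hOl, hOc⟩ := hF2 w hw
  obtain ⟨hcont, hdec, -⟩ := hMel w hw
  set A : ℕ := ⌈2 / ε⌉₊ + 1 with hA
  obtain ⟨CA, hCA1, hCA⟩ := hdec A
  have hA2 : 2 / ε ≤ (A : ℝ) - 1 := by
    rw [hA]; push_cast
    have := Nat.le_ceil (2 / ε)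
    linarith
  have hA3 : 2 ≤ ε * ((A : ℝ) - 1) := by
    rw [div_le_iff₀ hε] at hA2
    linarith
  have hA4 : 2 ≤ A := by
    have h1 : (2 : ℝ) ≤ 2 / ε := by
      rw [le_div_iff₀ hε]; linarith
    have h2 : (2 : ℝ) ≤ (A : ℝ) := by linarith
    exact_mod_cast h2
  refine ⟨16 * (C2 + CA), by linarith, ?_⟩
  intro T V T0 T1 M δ Y c S g0 hT hTV hVT hT0 hT0T2 hT1 hT1T2 hM hδ hc hcM hCδ hSx hg0 hres
  have hTpos : 0 < T := by linarith
  have hVpos : 0 < V := by linarith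
  have hV1 : 1 ≤ V := by linarith
  have hT0V : T0 ≤ V := by linarith
  have hT1V : T1 ≤ V := by linarith
  have hT0p : 0 < T0 := by linarith
  have hT1p : 0 < T1 := by linarith
  have hTR : V ≤ V ^ (1 + ε) := by
    calc V = V ^ (1 : ℝ) := (Real.rpow_one V).symm
      _ ≤ V ^ (1 + ε) := Real.rpow_le_rpow_of_exponent_le (by linarith) (by linarith)
  have hR2 : V ^ (1 + ε) ≤ T ^ 2 := by
    calc V ^ (1 + ε) ≤ (T ^ (3 / 2 : ℝ)) ^ (1 + ε) := Real.rpow_le_rpow hVpos.le hVT (by linarith)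
      _ = T ^ ((3 / 2 : ℝ) * (1 + ε)) := (Real.rpow_mul hTpos.le _ _).symm
      _ ≤ T ^ (2 : ℝ) := Real.rpow_le_rpow_of_exponent_le (by linarith) (by linarith)
      _ = T ^ 2 := by norm_cast
  have hSpos : ∀ x ∈ S, 0 < x := fun x hx => lt_of_lt_of_le (by positivity) (hSx x hx)
  set F : ℝ → ℂ := fun t => Dp Y (fun n => (c n : ℂ)) t with hF
  set K : ℝ → ℂ := fun t => Om w (t / V) - Om w (t / T1) with hK
  set g : ℝ → ℂ := fun x => if T ^ 2 ≤ x then g0 x * ((T ^ 2 / x : ℝ) : ℂ) else 0 with hg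
  set g' : ℝ → ℂ := fun x => if T ^ 2 ≤ x then (starRingEnd ℂ) (g0 x) * ((T ^ 2 / x : ℝ) : ℂ) else 0 with hg'
  have hgS : ∀ x ∈ S, g x = g0 x * ((T ^ 2 / x : ℝ) : ℂ) := fun x hx => by
    simp only [hg]; rw [if_pos (hSx x hx)]
  have hg'S : ∀ x ∈ S, g' x = (starRingEnd ℂ) (g x) := fun x hx => by
    rw [hgS x hx]; simp only [hg']; rw [if_pos (hSx x hx), map_mul, Complex.conj_ofReal]
  have hgb : ∀ x ∈ S, ‖g x‖ ≤ 1 := fun x hx => by
    rw [hgS x hx, norm_mul, Complex.norm_real, Real.norm_of_nonneg (by have := hSpos x hx; positivity)]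
    have h1 : T ^ 2 / x ≤ 1 := by
      rw [div_le_one (hSpos x hx)]; exact hSx x hx
    have h2 : 0 ≤ T ^ 2 / x := by have := hSpos x hx; positivity
    calc ‖g0 x‖ * (T ^ 2 / x) ≤ 1 * 1 := mul_le_mul (hg0 x) h1 h2 (by norm_num)
      _ = 1 := by norm_num
  have hg'b : ∀ x ∈ S, ‖g' x‖ ≤ 1 := fun x hx => by
    rw [hg'S x hx, Complex.norm_conj]; exact hgb x hx
  have hq1 : ∀ x : ℝ, T ^ 2 ≤ x → ‖((T ^ 2 / x : ℝ) : ℂ)‖ ≤ 1 := fun x hx => by
    have hx0 : 0 < x := lt_of_lt_of_le (by positivity) hx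
    rw [Complex.norm_real, Real.norm_of_nonneg (by positivity), div_le_one hx0]
    exact hx
  have hgall : ∀ x, ‖g x‖ ≤ 1 := fun x => by
    simp only [hg]
    split_ifs with hx
    · rw [norm_mul]
      calc ‖g0 x‖ * ‖((T ^ 2 / x : ℝ) : ℂ)‖ ≤ 1 * 1 := mul_le_mul (hg0 x) (hq1 x hx) (norm_nonneg _) (by norm_num)
        _ = 1 := by norm_num
    · simp
  have hg'all : ∀ x, ‖g' x‖ ≤ 1 := fun x => by
    simp only [hg']
    split_ifs with hx
    · rw [norm_mul, Complex.norm_conj]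
      calc ‖g0 x‖ * ‖((T ^ 2 / x : ℝ) : ℂ)‖ ≤ 1 * 1 := mul_le_mul (hg0 x) (hq1 x hx) (norm_nonneg _) (by norm_num)
        _ = 1 := by norm_num
    · simp
  -- the identity
  have hid : ∀ x ∈ S, Integrable (fun t : ℝ => K t * F t * (g x * (x : ℂ) ^ (t * Complex.I))) ∧
      g0 x * ((DD w c x V T1 : ℝ) : ℂ) = ((1 / (2 * Real.pi * T ^ 2) : ℝ) : ℂ) *
        ∫ t : ℝ, K t * F t * (g x * (x : ℂ) ^ (t * Complex.I)) := by
    intro x hx
    have hx0 := hSpos x hx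
    obtain ⟨i1, f1⟩ := hF1 w hw c Y x V hc hx0 hVpos
    obtain ⟨i2, f2⟩ := hF1 w hw c Y x T1 hc hx0 hT1p
    have e1 : (fun t : ℝ => K t * F t * (g x * (x : ℂ) ^ (t * Complex.I))) = fun t : ℝ =>
        g x * (Om w (t / V) * (x : ℂ) ^ (t * Complex.I) * Dp Y (fun n => (c n : ℂ)) t) -
        g x * (Om w (t / T1) * (x : ℂ) ^ (t * Complex.I) * Dp Y (fun n => (c n : ℂ)) t) := by
      funext t
      simp only [hK, hF]
      ring
    refine ⟨?_, ?_⟩
    · rw [e1]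
      exact (i1.const_mul _).sub (i2.const_mul _)
    · rw [e1, integral_sub (i1.const_mul _) (i2.const_mul _), integral_const_mul, integral_const_mul]
      unfold DD
      push_cast
      rw [f1, f2, hgS x hx]
      generalize (∫ t : ℝ, Om w (t / V) * (x : ℂ) ^ (t * Complex.I) * Dp Y (fun n => (c n : ℂ)) t) = J1
      generalize (∫ t : ℝ, Om w (t / T1) * (x : ℂ) ^ (t * Complex.I) * Dp Y (fun n => (c n : ℂ)) t) = J2
      push_cast
      have hx0' : (x : ℂ) ≠ 0 := by exact_mod_cast hx0.ne'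
      have hT' : (T : ℂ) ≠ 0 := by exact_mod_cast hTpos.ne'
      have hT1' : (T1 : ℂ) ≠ 0 := by exact_mod_cast hT1p.ne'
      have hV' : (V : ℂ) ≠ 0 := by exact_mod_cast hVpos.ne'
      have hpi : (Real.pi : ℂ) ≠ 0 := by exact_mod_cast Real.pi_ne_zero
      field_simp
  have hsum : ∑ x ∈ S, g0 x * ((DD w c x V T1 : ℝ) : ℂ) = ((1 / (2 * Real.pi * T ^ 2) : ℝ) : ℂ) *
      ∫ t : ℝ, K t * F t * GS S g t := by
    rw [Finset.sum_congr rfl (fun x hx => (hid x hx).2), ← Finset.mul_sum,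
      ← integral_finsetSum S (fun x hx => (hid x hx).1)]
    congr 2
    funext t
    unfold GS
    rw [Finset.mul_sum]
  have hintK : Integrable (fun t : ℝ => K t * F t * GS S g t) := by
    have : (fun t : ℝ => K t * F t * GS S g t) =
        fun t : ℝ => ∑ x ∈ S, K t * F t * (g x * (x : ℂ) ^ (t * Complex.I)) := by
      funext t
      unfold GS
      rw [Finset.mul_sum]
    rw [this]
    exact integrable_finsetSum S (fun x hx => (hid x hx).1)
  -- bound functions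
  set Kn : ℝ → ℝ := fun t => ‖K t‖ with hKn
  set P : ℝ → ℝ := fun t => ‖GS S g t‖ * ‖F t‖ with hP
  set P' : ℝ → ℝ := fun t => ‖GS S g' t‖ * ‖F t‖ with hP'
  have hPc : Continuous P := (cont_GS S g hSpos).norm.mul (cont_Dp Y _).norm
  have hP'c : Continuous P' := (cont_GS S g' hSpos).norm.mul (cont_Dp Y _).norm
  have hP0 : ∀ t, 0 ≤ P t := fun t => by positivity
  have hP'0 : ∀ t, 0 ≤ P' t := fun t => by positivity
  have hFb : ∀ t, ‖F t‖ ≤ M * T ^ 2 := fun t => (norm_Dp_le Y c t).trans hcM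
  have hPb : ∀ t, P t ≤ S.card * (M * T ^ 2) := fun t =>
    mul_le_mul (norm_GS_le S g hSpos hgb t) (hFb t) (norm_nonneg _) (by positivity)
  have hP'b : ∀ t, P' t ≤ S.card * (M * T ^ 2) := fun t =>
    mul_le_mul (norm_GS_le S g' hSpos hg'b t) (hFb t) (norm_nonneg _) (by positivity)
  have hintn : Integrable (fun t => Kn t * P t) := by
    have := hintK.norm
    refine this.congr (Eventually.of_forall ?_)
    intro t
    simp only [hKn, hP, norm_mul]
    ring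
  have hintn' : Integrable (fun t => Kn (-t) * P' t) := by
    have := hintn.comp_neg
    refine this.congr (Eventually.of_forall ?_)
    intro t
    simp only [hP, hP']
    rw [norm_GS_neg S g g' hSpos hg'S t]
    simp only [hF]
    rw [norm_Dp_neg Y c t]
  have hKd : ∀ t, Kn t ≤ C2 * (|t| / T1) := by
    intro t
    simp only [hKn, hK]
    refine (hOl _ _).trans ?_
    refine mul_le_mul_of_nonneg_left ?_ (by linarith)
    have h1 : t / V - t / T1 = -(t * (1 / T1 - 1 / V)) := by ring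
    rw [h1, abs_neg, abs_mul]
    have h2 : 1 / V ≤ 1 / T1 := one_div_le_one_div_of_le hT1p hT1V
    have h3 : 0 < 1 / V := by positivity
    rw [abs_of_nonneg (by linarith : 0 ≤ 1 / T1 - 1 / V)]
    calc |t| * (1 / T1 - 1 / V) ≤ |t| * (1 / T1) := mul_le_mul_of_nonneg_left (by linarith) (abs_nonneg t)
      _ = |t| / T1 := by ring
  have hK2 : ∀ t, Kn t ≤ 2 * C2 := by
    intro t
    simp only [hKn, hK]
    refine (norm_sub_le _ _).trans ?_
    have := hOb (t / V)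
    have := hOb (t / T1)
    linarith
  have hdec1 : ∀ (a t : ℝ), 0 < a → a ≤ V → t ≠ 0 → ‖Om w (t / a)‖ ≤ CA * (V / |t|) ^ A := by
    intro a t ha haT ht
    refine (hCA _).trans ?_
    have ht' : 0 < |t| := abs_pos.mpr ht
    rw [abs_div, abs_of_pos ha, div_eq_mul_inv]
    refine mul_le_mul_of_nonneg_left ?_ (by linarith)
    rw [← inv_pow]
    refine pow_le_pow_left₀ (by positivity) ?_ A
    rw [inv_le_comm₀ (by positivity) (by positivity), inv_div]
    have : |t| / V ≤ |t| / a := div_le_div_of_nonneg_left ht'.le ha haT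
    linarith
  have hK3 : ∀ t, t ≠ 0 → Kn t ≤ 2 * CA * (V / |t|) ^ A := by
    intro t ht
    simp only [hKn, hK]
    refine (norm_sub_le _ _).trans ?_
    have h1 := hdec1 V t hVpos le_rfl ht
    have h2 := hdec1 T1 t hT1p hT1V ht
    linarith
  have hplus := F4q.half Kn P hPc hP0 (S.card * (M * T ^ 2)) C2 CA V T0 T1 ε A hPb hV1 hT0 hT0V hT1 hε hA3 hA4
    (by linarith) (by linarith) (fun t ht => by have := hKd t; rwa [abs_of_nonneg ht] at this) hK2
    (fun t ht => by have := hK3 t ht.ne'; rwa [abs_of_pos ht] at this) (fun t => norm_nonneg _) hintn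
  have hminus := F4q.half (fun t => Kn (-t)) P' hP'c hP'0 (S.card * (M * T ^ 2)) C2 CA V T0 T1 ε A hP'b hV1 hT0 hT0V
    hT1 hε hA3 hA4 (by linarith) (by linarith)
    (fun t ht => by have := hKd (-t); rwa [abs_neg, abs_of_nonneg ht] at this) (fun t => hK2 (-t))
    (fun t ht => by have := hK3 (-t) (neg_ne_zero.mpr ht.ne'); rwa [abs_neg, abs_of_pos ht] at this)
    (fun t => norm_nonneg _) hintn'
  have htot : ∫ t : ℝ, Kn t * P t = (∫ t in Ioi (0 : ℝ), Kn t * P t) + ∫ t in Ioi (0 : ℝ), Kn (-t) * P' t := by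
    rw [← intervalIntegral.integral_Iic_add_Ioi (hintn.integrableOn (s := Iic 0)) (hintn.integrableOn (s := Ioi 0)),
      add_comm]
    congr 1
    have : ∫ t in Ioi (0 : ℝ), Kn (-t) * P' t = ∫ t in Ioi (0 : ℝ), (fun s => Kn s * P s) (-t) := by
      refine setIntegral_congr_fun measurableSet_Ioi ?_
      intro t _
      simp only [hP, hP']
      rw [norm_GS_neg S g g' hSpos hg'S t]
      simp only [hF]
      rw [norm_Dp_neg Y c t]
    have h9 := integral_comp_neg_Ioi (0 : ℝ) (fun s => Kn s * P s)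
    rw [neg_zero] at h9
    rw [this]
    exact h9.symm
  have hmain : S.card * δ ≤ 1 / (2 * Real.pi * T ^ 2) * ∫ t : ℝ, Kn t * P t := by
    refine hres.trans ?_
    rw [hsum, norm_mul, Complex.norm_real, Real.norm_of_nonneg (by positivity)]
    refine mul_le_mul_of_nonneg_left ?_ (by positivity)
    refine (norm_integral_le_integral_norm _).trans (le_of_eq ?_)
    refine integral_congr_ae (Eventually.of_forall ?_)
    intro t
    simp only [hKn, hP, norm_mul]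
    ring
  set I1 := ∫ t in T0..(V ^ (1 + ε)), P t with hI1
  set I2 := ∫ t in T0..(V ^ (1 + ε)), P' t with hI2
  -- combine
  have hcomb : S.card * (δ * T ^ 2) ≤ C2 * (I1 + I2) := by
    have h3v : ∫ t : ℝ, Kn t * P t ≤
        2 * (S.card * (M * T ^ 2) * (C2 * (T0 ^ 2 / T1) + 2 * CA / V)) + 2 * C2 * (I1 + I2) := by
      rw [htot]; linarith only [hplus, hminus]
    exact F4q.arith S.card δ T V T0 T1 M C2 CA I1 I2 _ (Nat.cast_nonneg _) hTpos hVpos hTV hT1p hC21 hCA1 hM hδ.le hCδ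
      hmain h3v
  have hlogT : 0 < Real.log T := Real.log_pos (by linarith)
  have hfin : ∀ (G : ℝ → ℂ), (∀ x ∈ S, ‖G x‖ ≤ 1) → S.card * (δ * T ^ 2) ≤ 2 * C2 * ∫ t in T0..(V ^ (1 + ε)), ‖GS S G t‖ * ‖F t‖ →
      ∃ T' : ℝ, T0 ≤ T' ∧ T' ≤ V ^ (1 + ε) ∧ S.card * (δ * T ^ 2) ≤
        16 * (C2 + CA) * Real.log T * ∫ t in T'..(2 * T'), ‖GS S G t‖ * ‖Dp Y (fun n => (c n : ℂ)) t‖ := by
    intro G hG hGI
    obtain ⟨T', h1, h2, h3⟩ := dyadic (fun t => ‖GS S G t‖ * ‖F t‖)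
      ((cont_GS S G hSpos).norm.mul (cont_Dp Y _).norm) (fun t => by positivity) T T0 (V ^ (1 + ε)) hT hT0
      (by linarith) hR2
    refine ⟨T', h1, h2, hGI.trans ?_⟩
    have h4 : 0 ≤ ∫ t in T'..(2 * T'), ‖GS S G t‖ * ‖F t‖ :=
      intervalIntegral.integral_nonneg (by linarith) (fun t _ => by positivity)
    calc 2 * C2 * ∫ t in T0..(V ^ (1 + ε)), ‖GS S G t‖ * ‖F t‖
        ≤ 2 * C2 * (4 * Real.log T * ∫ t in T'..(2 * T'), ‖GS S G t‖ * ‖F t‖) :=
          mul_le_mul_of_nonneg_left h3 (by linarith)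
      _ = 8 * C2 * (Real.log T * ∫ t in T'..(2 * T'), ‖GS S G t‖ * ‖F t‖) := by ring
      _ ≤ 16 * (C2 + CA) * (Real.log T * ∫ t in T'..(2 * T'), ‖GS S G t‖ * ‖F t‖) :=
          mul_le_mul_of_nonneg_right (by linarith) (by positivity)
      _ = _ := by ring
  rcases le_total I2 I1 with h | h
  · obtain ⟨T', h1, h2, h3⟩ := hfin g hgb (F4q.pick1 _ _ _ _ hC21 h hcomb)
    exact ⟨T', g, h1, h2, hgall, h3⟩
  · obtain ⟨T', h1, h2, h3⟩ := hfin g' hg'b (F4q.pick2 _ _ _ _ hC21 h hcomb)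
    exact ⟨T', g', h1, h2, hg'all, h3⟩

end Pool.Agent.Work.MP_a8fbd7_nt.OX.SQ
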