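import Mathlib
import Pool.Agent.Work.MP_a8fbd7_nt.OX.SQ.TabD

/-!
MP_a8fbd7_nt, block OX, part SQ: the tables for `(h, r) = (127 / 100, 988 / 1000)` (certificates, computer generated).
Author: helper46.
-/

set_option autoImplicit false

namespace Pool.Agent.Work.MP_a8fbd7_nt.OX.SQ.TabC

open Tr

/-- certificate -/
noncomputable def tr_a2 : Tr :=
  B (B (B (B (V (B (V (B (V (B (V (B (V (B (V (X 16 34) (X 16 34)) (V (X 15 33) (X 15 33))) (X 16 35)) (V (V (X 15 32) (X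
  15 32)) (X 15 33))) (X 16 38)) (V (V (B (V (X 14 29) (X 14 30)) (V (X 13 28) (X 13 28))) (X 14 31)) (X 14 33))) (B (V (X
  16 39) (X 16 40)) (V (X 14 34) (X 14 35)))) (V (V (B (V (B (V (X 13 26) (X 13 26)) (V (X 12 25) (X 12 25))) (X 13 27))
  (V (B (V (X 12 23) (X 12 24)) (V (X 11 22) (X 11 22))) (X 12 24))) (B (X 13 29) (X 12 26))) (V (X 13 30) (X 13 31)))) (B
  (V (B (V (X 16 43) (X 16 46)) (V (X 14 37) (X 14 40))) (B (V (X 16 51) (M 15 55)) (V (X 14 44) (M 14 47)))) (V (V (X 13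
  33) (X 12 36)) (V (X 12 40) (M 12 43))))) (V (V (B (V (B (V (B (V (X 11 21) (X 11 21)) (V (X 10 20) (X 10 20))) (X 11
  22)) (V (B (V (X 10 19) (X 10 20)) (V (X 10 19) (X 10 19))) (X 10 20))) (B (X 11 24) (X 10 22))) (V (B (V (B (V (X 10
  18) (X 9 18)) (V (X 9 17) (X 9 17))) (X 9 19)) (V (V (X 9 17) (X 9 17)) (X 9 17))) (X 9 20))) (B (V (X 11 24) (X 11 25))
  (V (X 9 20) (X 9 21)))) (V (B (V (X 11 27) (X 10 29)) (V (X 9 22) (X 9 24))) (B (V (X 10 32) (M 10 35)) (V (X 9 27) (M 9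
  29)))))) (B (V (B (V (B (V (M 15 51) (M 15 45)) (M 14 51)) (M 15 51)) (V (V (M 12 40) (M 12 36)) (M 12 37))) (B (V (M 1
  14) (H 1)) (V (M 12 10) (H 1)))) (V (V (B (V (M 10 32) (M 10 29)) (V (M 9 27) (M 9 23))) (B (M 10 29) (M 9 24))) (V (M 1
  9) (H 1))))) (V (V (V (B (V (B (V (B (V (X 9 16) (X 9 16)) (V (X 8 15) (X 8 15))) (X 9 16)) (V (B (V (X 8 14) (X 8 14))
  (V (X 8 13) (X 7 13))) (X 8 14))) (B (X 8 17) (X 8 15))) (V (B (V (B (V (X 7 12) (X 7 12)) (V (X 7 12) (X 7 12))) (X 7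
  13)) (V (B (V (X 7 11) (X 7 11)) (V (X 7 11) (X 7 11))) (X 7 12))) (B (X 7 14) (X 7 12)))) (B (V (X 8 18) (X 8 19)) (V
  (X 7 14) (X 7 15)))) (V (B (V (X 8 20) (X 8 21)) (V (X 7 15) (X 7 17))) (B (V (X 8 24) (B (M 8 25) (M 7 22))) (V (X 7
  19) (M 7 20))))) (V (V (B (V (M 8 24) (M 8 21)) (V (M 7 19) (M 7 17))) (B (M 8 23) (M 6 18))) (V (M 1 7) (H 1))))) (V (V
  (B (V (B (V (B (V (B (V (X 6 10) (X 6 10)) (V (X 6 10) (X 6 10))) (X 6 11)) (V (B (V (X 6 9) (X 6 9)) (V (X 6 9) (X 6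
  9))) (X 6 10))) (X 6 11)) (V (B (V (B (V (X 6 9) (X 6 9)) (V (X 6 8) (X 6 9))) (X 6 9)) (V (V (X 6 8) (X 6 8)) (X 6 8)))
  (B (X 6 10) (X 5 9)))) (B (V (X 6 12) (X 6 12)) (V (X 6 10) (X 6 10)))) (V (V (B (V (B (V (X 5 8) (X 5 8)) (V (X 5 7) (X
  5 7))) (X 5 8)) (V (B (V (B (X 5 7) (V (X 5 7) (X 5 7))) (X 5 7)) (V (B (V (X 5 6) (X 5 6)) (X 5 6)) (X 5 7))) (X 5 7)))
  (B (X 5 8) (V (X 5 7) (X 5 7)))) (V (X 5 9) (X 5 9)))) (B (V (B (V (X 6 13) (X 6 14)) (V (X 6 11) (X 5 12))) (B (V (X 6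
  15) (M 6 16)) (V (X 5 13) (M 5 14)))) (V (V (X 5 10) (X 5 10)) (V (B (X 5 11) (X 5 10)) (B (M 5 12) (M 5 11)))))) (V (B
  (V (B (V (M 6 15) (M 6 14)) (V (M 5 13) (M 5 12))) (B (M 6 14) (M 5 12))) (V (V (M 5 12) (M 5 11)) (M 5 11))) (B (V (M 1
  4) (H 1)) (V (M 1 3) (H 1)))))) (V (V (B (V (B (V (B (V (B (V (X 5 6) (X 5 6)) (V (B (V (X 5 6) (X 5 6)) (V (X 5 6) (X 5
  6))) (X 5 6))) (X 5 6)) (V (B (V (B (V (X 5 6) (X 5 6)) (V (X 4 5) (X 4 5))) (X 5 6)) (V (X 4 5) (X 4 5))) (X 5 6))) (B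
  (V (X 5 6) (X 5 7)) (X 4 6))) (V (B (V (B (V (X 4 5) (X 4 5)) (V (X 4 5) (X 4 5))) (X 4 5)) (V (B (V (B (X 4 5) (V (X 4
  5) (X 4 5))) (X 4 5)) (V (B (V (X 4 5) (X 4 5)) (V (X 4 5) (X 4 5))) (X 4 5))) (X 4 5))) (B (V (X 4 5) (X 4 5)) (X 4
  5)))) (B (V (X 5 7) (X 5 7)) (V (X 4 6) (X 4 6)))) (V (V (B (V (B (V (B (V (X 4 4) (X 4 4)) (X 4 4)) (X 4 5)) (V (B (X 4
  4) (V (X 4 4) (X 4 4))) (X 4 4))) (B (X 4 5) (X 4 4))) (V (B (V (B (V (X 4 4) (X 4 4)) (V (X 0 4) (X 4 4))) (X 4 4)) (V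
  (B (V (X 0 4) (X 4 4)) (V (B (V (X 0 4) (X 4 4)) (V (X 0 4) (X 4 4))) (X 4 4))) (X 4 4))) (B (X 4 4) (V (X 4 4) (X 4
  4))))) (B (V (X 4 5) (X 4 5)) (V (X 4 4) (X 4 4)))) (V (B (X 4 5) (V (X 4 4) (X 4 4))) (X 4 5)))) (B (V (B (V (X 4 8) (X
  4 8)) (V (X 4 6) (X 4 7))) (B (V (X 4 9) (B (M 4 10) (M 4 9))) (V (X 4 8) (M 4 8)))) (V (V (B (X 4 6) (X 4 5)) (B (X 4
  6) (X 4 5))) (V (B (X 4 7) (X 3 6)) (B (M 4 7) (V (M 3 6) (M 3 6))))))) (V (B (V (B (V (M 4 9) (M 4 8)) (V (M 4 8) (M 4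
  7))) (B (M 4 9) (M 4 7))) (V (V (B (M 4 7) (M 3 6)) (B (M 3 6) (M 3 5))) (V (M 3 6) (M 3 4)))) (B (V (M 1 3) (H 1)) (V
  (M 1 2) (H 1)))))) (V (V (B (V (B (V (B (V (B (V (B (V (B (V (X 0 4) (X 4 4)) (V (X 0 4) (X 4 4))) (X 4 4)) (V (X 0 3)
  (B (X 4 4) (X 4 3)))) (B (V (X 4 4) (X 4 4)) (V (X 4 4) (X 4 4)))) (V (X 0 3) (X 4 3))) (B (V (X 4 4) (X 4 4)) (V (X 4
  3) (X 4 4)))) (V (B (V (B (V (X 0 3) (X 4 3)) (V (X 0 3) (X 0 3))) (X 4 3)) (V (B (V (X 0 3) (X 0 3)) (V (X 0 3) (X 0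
  3))) (X 4 3))) (B (X 4 3) (V (X 3 3) (X 3 3))))) (B (V (X 4 4) (X 4 4)) (V (X 4 3) (X 3 4)))) (V (B (V (B (V (B (V (X 0
  3) (X 3 3)) (V (X 3 3) (X 3 3))) (X 3 3)) (V (B (V (X 3 3) (X 3 3)) (V (X 3 3) (X 3 3))) (X 3 3))) (X 3 3)) (V (B (V (B
  (V (X 3 3) (X 3 3)) (V (X 3 3) (X 3 3))) (X 3 3)) (V (B (V (X 3 3) (X 3 3)) (V (B (V (X 3 3) (X 3 3)) (V (X 3 3) (X 3
  3))) (X 3 3))) (X 3 3))) (X 3 3))) (B (X 3 3) (V (X 3 3) (X 3 3))))) (B (V (B (X 4 4) (V (X 3 4) (X 3 4))) (X 3 4)) (V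
  (X 3 3) (B (X 3 4) (X 3 3))))) (V (B (V (B (V (B (V (B (V (B (V (X 3 3) (X 3 3)) (V (X 3 3) (X 3 3))) (X 3 3)) (V (B (V
  (X 3 3) (X 3 3)) (V (X 3 3) (X 3 3))) (X 3 3))) (B (X 3 3) (V (X 3 3) (X 3 3)))) (V (B (V (B (V (B (X 3 3) (V (X 3 3) (X
  3 3))) (X 3 3)) (V (V (X 3 2) (X 3 2)) (X 3 3))) (X 3 3)) (V (X 3 2) (V (X 3 2) (X 3 2)))) (B (V (X 3 3) (X 3 3)) (V (X
  3 3) (X 3 3))))) (B (V (X 3 3) (X 3 3)) (V (X 3 3) (X 3 3)))) (V (V (X 3 2) (X 3 2)) (V (B (X 3 3) (X 3 2)) (X 3 3))))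
  (B (V (X 3 3) (X 3 3)) (V (V (X 3 3) (X 3 3)) (X 3 3)))) (V (V (B (V (B (V (X 3 2) (X 3 2)) (V (X 3 2) (X 3 2))) (X 3
  2)) (V (B (V (X 3 2) (X 3 2)) (V (X 0 2) (X 3 2))) (X 3 2))) (X 3 2)) (V (X 3 2) (X 3 2)))) (B (V (B (X 3 3) (V (X 3 3)
  (X 3 3))) (X 3 3)) (V (V (B (X 3 3) (X 3 2)) (X 3 3)) (V (X 3 3) (X 3 3)))))) (B (V (B (V (B (X 3 5) (X 3 4)) (B (X 3 5)
  (X 3 4))) (V (X 3 4) (X 3 4))) (B (V (X 3 5) (B (V (M 3 5) (M 3 5)) (M 3 5))) (V (X 3 4) (B (M 3 5) (M 3 4))))) (V (B (V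
  (X 3 3) (X 3 3)) (V (X 3 3) (X 3 3))) (B (V (B (M 3 4) (V (X 3 3) (X 3 3))) (B (M 3 4) (V (M 3 4) (M 3 4)))) (V (X 3 3)
  (V (X 3 3) (M 3 3))))))) (V (B (V (B (V (M 3 5) (M 3 5)) (V (M 3 4) (M 3 4))) (B (M 3 5) (M 3 4))) (V (B (V (B (M 3 4)
  (V (M 3 3) (M 3 3))) (M 3 4)) (V (V (M 3 3) (M 3 3)) (M 3 3))) (B (V (M 3 3) (M 3 2)) (V (M 1 3) (M 1 2))))) (B (V (M 1
  2) (H 1)) (V (M 1 1) (H 1)))))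

/-- certificate -/
noncomputable def tr_c2 : Tr :=
  V (V (V (V (B (V (B (V (B (V (X 0 2) (X 3 2)) (V (B (V (X 0 2) (X 3 2)) (V (X 0 2) (X 3 2))) (X 3 2))) (X 3 2)) (V (B (V
  (B (V (X 0 2) (X 3 2)) (V (X 0 2) (X 3 2))) (X 3 2)) (V (B (V (X 0 2) (X 3 2)) (V (X 0 2) (X 0 2))) (B (X 3 2) (V (X 3
  2) (X 3 2))))) (B (V (X 3 2) (X 3 2)) (V (X 3 2) (X 3 2))))) (B (V (X 3 2) (X 3 2)) (V (X 3 2) (X 3 2)))) (V (B (V (B (V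
  (B (V (B (X 0 2) (V (X 0 2) (X 0 2))) (X 0 2)) (V (B (V (X 0 2) (X 0 2)) (V (X 0 2) (X 0 2))) (B (X 0 2) (V (X 0 2) (X 3
  2))))) (B (V (X 3 2) (X 3 2)) (V (X 3 2) (X 3 2)))) (V (B (V (B (V (X 0 2) (X 0 2)) (V (X 0 2) (X 0 2))) (B (V (X 0 2)
  (X 3 2)) (V (X 0 2) (X 3 2)))) (V (B (V (X 0 2) (X 0 2)) (V (X 0 2) (X 0 2))) (B (V (X 0 2) (X 3 2)) (V (X 0 2) (X 3
  2))))) (B (V (X 3 2) (X 3 2)) (V (B (X 3 2) (V (X 3 2) (X 3 2))) (X 3 2))))) (B (V (X 3 2) (X 3 2)) (V (X 3 2) (X 3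
  2)))) (V (B (V (B (V (B (V (X 0 2) (X 0 2)) (V (B (V (X 0 2) (X 0 2)) (V (X 0 2) (X 0 2))) (B (X 0 2) (V (X 0 2) (X 0
  2))))) (B (V (X 0 2) (X 0 2)) (V (X 0 2) (X 0 2)))) (V (B (V (B (V (X 0 2) (X 0 2)) (V (X 0 2) (X 0 2))) (B (V (X 0 2)
  (X 0 2)) (V (X 0 2) (X 0 2)))) (V (B (V (X 0 2) (X 0 2)) (V (X 0 2) (X 0 2))) (B (V (X 0 2) (X 0 2)) (V (X 0 2) (X 0
  2))))) (B (V (B (V (X 0 2) (X 0 2)) (V (X 0 2) (X 0 2))) (B (V (X 0 2) (X 3 2)) (V (X 0 2) (X 3 2)))) (V (B (V (X 0 2)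
  (X 0 2)) (V (X 0 2) (X 0 2))) (B (V (X 0 2) (X 3 2)) (V (X 0 2) (X 3 2))))))) (B (V (B (V (X 3 2) (X 3 2)) (V (X 3 2) (X
  3 2))) (X 3 2)) (V (B (V (X 3 2) (X 3 2)) (V (X 3 2) (X 3 2))) (X 3 2)))) (V (B (V (B (V (B (V (X 0 2) (X 0 2)) (V (X 0
  2) (X 0 2))) (B (V (X 0 2) (X 0 2)) (V (X 0 2) (X 0 2)))) (V (B (V (X 0 2) (X 0 2)) (V (B (V (X 0 2) (X 0 2)) (V (X 0 2)
  (X 0 2))) (B (V (X 0 2) (X 0 2)) (V (X 0 2) (X 0 2))))) (B (V (X 0 2) (X 0 2)) (V (B (X 0 2) (V (X 0 2) (X 0 2))) (B (X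
  0 2) (V (X 0 2) (X 0 2))))))) (B (V (B (V (X 0 2) (X 0 2)) (V (X 0 2) (X 0 2))) (B (V (X 0 2) (X 0 2)) (V (X 0 2) (X 0
  2)))) (V (B (V (X 0 2) (X 0 2)) (V (B (X 0 2) (V (X 0 2) (X 0 2))) (X 0 2))) (B (V (X 0 2) (X 0 2)) (V (X 0 2) (X 0
  2)))))) (V (B (V (B (V (B (V (X 0 2) (X 0 2)) (V (X 0 2) (X 0 2))) (B (V (X 0 2) (X 0 2)) (V (X 0 2) (X 0 2)))) (V (B (V
  (X 0 2) (X 0 2)) (V (X 0 2) (X 0 2))) (B (V (X 0 2) (X 0 2)) (V (X 0 2) (X 0 2))))) (B (V (B (V (X 0 2) (X 0 2)) (V (X 0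
  2) (X 0 2))) (B (V (X 0 2) (X 0 2)) (V (X 0 2) (X 0 2)))) (V (B (V (X 0 2) (X 0 2)) (V (X 0 2) (X 0 2))) (B (V (X 0 2)
  (X 0 2)) (V (X 0 2) (X 0 2)))))) (V (B (V (B (V (X 0 2) (X 0 2)) (V (X 0 2) (X 0 2))) (B (V (X 0 2) (X 0 2)) (V (X 0 2)
  (X 0 2)))) (V (B (V (B (X 0 2) (V (X 0 2) (X 0 2))) (B (X 0 2) (V (X 0 2) (X 0 2)))) (V (B (V (X 0 2) (X 0 2)) (V (X 0
  2) (X 0 2))) (B (V (X 0 2) (X 0 2)) (V (X 0 2) (X 0 2))))) (B (V (X 0 2) (X 0 2)) (V (B (V (X 0 2) (X 0 2)) (V (X 0 2)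
  (X 0 2))) (B (V (X 0 2) (X 0 2)) (V (X 0 2) (X 0 2))))))) (B (V (B (V (X 0 2) (X 0 2)) (V (X 0 2) (X 0 2))) (B (V (X 0
  2) (X 0 2)) (V (X 0 2) (X 0 2)))) (V (B (V (X 0 2) (X 0 2)) (V (B (V (X 0 2) (X 0 2)) (V (X 0 2) (X 0 2))) (B (V (X 0 2)
  (X 0 2)) (V (X 0 2) (X 0 2))))) (B (V (X 0 2) (X 0 2)) (V (B (V (X 0 2) (X 0 2)) (V (X 0 2) (X 0 2))) (B (V (X 0 2) (X 0
  2)) (V (X 0 2) (X 0 2))))))))) (B (V (B (V (B (V (X 0 2) (X 0 2)) (V (X 0 2) (X 0 2))) (B (V (X 0 2) (X 0 2)) (V (X 0 2)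
  (X 0 2)))) (V (B (V (X 0 2) (X 0 2)) (V (X 0 2) (X 0 2))) (B (V (X 0 2) (X 0 2)) (V (X 0 2) (X 0 2))))) (B (V (B (V (X 0
  2) (X 0 2)) (V (X 0 2) (X 0 2))) (B (V (X 0 2) (X 0 2)) (V (X 0 2) (X 0 2)))) (V (B (V (X 0 2) (X 0 2)) (V (X 0 2) (X 0
  2))) (B (V (X 0 2) (X 0 2)) (V (X 0 2) (X 0 2)))))) (V (B (V (B (V (X 0 2) (X 0 2)) (V (X 0 2) (X 0 2))) (B (V (X 0 2)
  (X 0 2)) (V (X 0 2) (X 0 2)))) (V (B (V (X 0 2) (X 0 2)) (V (B (X 0 2) (V (X 0 2) (X 0 2))) (B (X 0 2) (V (X 0 2) (X 0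
  2))))) (B (V (X 0 2) (X 0 2)) (V (B (X 0 2) (V (X 0 2) (X 0 2))) (B (X 0 2) (V (X 0 2) (X 0 2))))))) (B (V (B (V (X 0 2)
  (X 0 2)) (V (X 0 2) (X 0 2))) (B (V (X 0 2) (X 0 2)) (V (X 0 2) (X 0 2)))) (V (B (V (X 0 2) (X 0 2)) (V (B (X 0 2) (V (X
  0 2) (X 0 2))) (B (X 0 2) (V (X 0 2) (X 0 2))))) (B (V (X 0 2) (X 0 2)) (V (X 0 2) (X 0 2))))))))) (B (V (B (V (B (V (X
  3 2) (X 3 2)) (V (X 3 2) (X 3 2))) (X 3 2)) (V (B (V (X 3 2) (X 3 2)) (V (X 3 2) (X 3 2))) (X 3 2))) (B (V (X 3 2) (X 3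
  2)) (V (X 3 2) (X 3 2)))) (V (B (V (B (V (X 3 2) (X 3 2)) (V (B (X 3 2) (V (X 3 2) (X 3 2))) (X 3 2))) (B (X 3 2) (V (X
  3 2) (X 3 2)))) (V (B (V (B (V (X 3 2) (X 3 2)) (V (X 3 2) (X 3 2))) (X 3 2)) (V (B (V (X 3 2) (X 3 2)) (V (X 0 2) (X 3
  2))) (X 3 2))) (B (V (X 3 2) (X 3 2)) (V (X 3 2) (X 3 2))))) (B (V (X 3 2) (X 3 2)) (V (X 3 2) (X 3 2))))))) (B (V (B (V
  (X 3 2) (X 3 2)) (V (X 3 2) (X 3 2))) (X 3 2)) (V (B (V (X 3 2) (X 3 2)) (V (X 3 2) (X 3 2))) (X 3 2))))) (B (V (X 3 2)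
  (X 3 2)) (V (B (V (X 3 2) (X 3 2)) (V (X 3 2) (X 3 2))) (X 3 2))))) (B (V (X 3 2) (X 3 2)) (V (B (X 3 2) (V (X 3 2) (X 3
  2))) (X 3 2)))) (V (B (X 3 2) (V (X 3 2) (X 3 2))) (B (V (X 3 2) (X 3 2)) (X 3 2)))) (V (V (B (V (X 3 2) (B (M 3 3) (X 3
  2))) (X 3 2)) (B (V (B (M 3 3) (V (X 3 2) (X 3 2))) (M 3 3)) (V (X 3 2) (B (V (X 3 2) (X 3 2)) (X 3 2))))) (V (B (V (M 3
  3) (M 3 3)) (V (B (V (B (X 3 2) (X 3 2)) (B (M 3 3) (G 3 2 5 55))) (V (X 3 2) (X 3 2))) (B (V (B (M 3 3) (V (M 3 3) (M 3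
  3))) (M 3 3)) (V (B (G 3 2 5 56) (G 3 2 6 56)) (B (G 3 2 5 57) (G 3 2 6 57)))))) (B (V (M 3 3) (M 3 3)) (V (B (V (M 3 3)
  (M 3 3)) (V (B (V (G 3 2 6 56) (G 3 2 6 56)) (G 3 2 6 58)) (B (V (G 3 2 6 57) (G 3 2 6 57)) (V (G 3 2 6 57) (G 3 2 6
  58))))) (B (V (M 3 3) (M 3 3)) (V (B (V (B (M 3 3) (G 3 2 7 56)) (B (M 3 3) (G 3 2 6 57))) (V (G 3 2 6 58) (B (G 3 2 6
  58) (G 3 2 6 58)))) (B (V (B (M 3 3) (V (M 3 3) (M 3 3))) (B (M 3 3) (V (M 3 3) (M 3 3)))) (V (B (G 3 2 6 58) (G 3 2 6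
  59)) (B (V (G 3 2 6 58) (B (G 3 2 6 58) (G 3 2 6 58))) (V (G 3 2 6 59) (G 3 2 6 59)))))))))))) (V (V (V (B (V (M 3 3) (M
  3 3)) (V (B (V (M 3 3) (M 3 3)) (V (B (V (B (M 3 3) (V (M 3 3) (M 3 3))) (B (M 3 3) (V (M 3 3) (M 3 3)))) (V (B (V (B (G
  3 2 6 58) (G 3 2 6 58)) (B (V (M 3 3) (M 3 3)) (V (G 3 2 6 58) (G 3 2 6 58)))) (V (B (G 3 2 5 59) (G 3 2 6 59)) (B (G 3
  2 6 59) (G 1 2 6 59)))) (B (V (B (V (M 3 3) (M 3 3)) (V (B (G 3 2 6 58) (G 1 2 6 58)) (B (G 1 2 6 58) (G 1 2 6 58)))) (B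
  (V (M 1 3) (M 1 3)) (V (B (G 1 2 6 58) (G 1 2 5 59)) (B (M 1 3) (G 1 2 5 59))))) (V (B (V (G 1 2 6 59) (G 1 2 6 59)) (V
  (G 1 2 6 59) (G 1 2 6 59))) (B (V (B (G 1 2 5 59) (G 1 2 6 59)) (B (G 1 2 5 59) (G 1 2 6 59))) (V (G 1 2 6 59) (G 1 2 6
  59))))))) (B (V (B (M 3 3) (V (M 1 3) (M 1 3))) (M 1 3)) (V (B (V (B (M 1 3) (V (B (M 1 3) (V (M 1 3) (M 1 3))) (M 1
  3))) (B (M 1 3) (V (M 1 3) (M 1 3)))) (V (B (V (B (G 1 2 6 59) (G 1 2 6 59)) (B (V (G 1 2 5 59) (M 1 3)) (G 1 2 6 59)))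
  (V (B (G 1 2 6 59) (G 1 2 6 59)) (B (G 1 2 6 59) (G 1 2 6 59)))) (B (V (B (V (M 1 3) (M 1 3)) (V (G 1 2 6 59) (G 1 2 6
  59))) (B (M 1 3) (V (G 1 2 6 59) (B (M 1 3) (G 1 2 6 59))))) (V (B (G 1 2 6 59) (G 1 2 6 59)) (B (V (G 1 2 6 59) (G 1 2
  6 59)) (G 1 2 6 59)))))) (B (V (M 1 3) (M 1 3)) (V (B (V (B (M 1 3) (V (M 1 3) (M 1 3))) (B (M 1 3) (V (M 1 3) (M 1
  3)))) (V (B (V (G 1 2 6 59) (B (G 1 2 6 59) (G 1 2 6 59))) (V (G 1 2 6 59) (G 1 2 6 59))) (B (V (B (M 1 3) (G 1 2 6 59))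
  (B (M 1 3) (G 1 2 6 59))) (V (B (G 1 2 6 59) (G 1 2 6 59)) (B (G 1 2 6 59) (G 1 2 6 59)))))) (B (V (M 1 3) (M 1 3)) (V
  (B (V (M 1 3) (M 1 3)) (V (B (G 1 2 6 59) (G 1 2 6 59)) (B (V (M 1 3) (M 1 3)) (G 1 2 6 59)))) (B (V (M 1 3) (M 1 3)) (V
  (B (V (M 1 3) (M 1 3)) (V (G 1 2 6 59) (G 1 2 6 59))) (B (M 1 3) (V (M 1 3) (M 1 3))))))))))))) (B (V (M 1 3) (M 1 3))
  (V (B (V (M 1 3) (M 1 3)) (V (B (V (M 1 3) (M 1 3)) (V (B (M 1 3) (V (B (M 1 3) (V (B (M 1 3) (V (M 1 3) (M 1 3))) (M 1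
  3))) (B (M 1 3) (V (M 1 3) (M 1 3))))) (B (M 1 3) (V (M 1 3) (M 1 3))))) (B (M 1 3) (V (B (M 1 3) (V (M 1 3) (M 1 3)))
  (M 1 3))))) (B (M 1 3) (V (B (M 1 3) (V (M 1 2) (M 1 2))) (M 1 3))))))) (B (M 1 3) (V (B (M 1 3) (V (B (M 1 3) (M 1 2))
  (M 1 2))) (B (M 1 3) (M 1 2))))) (V (B (M 1 3) (V (M 1 2) (M 1 2))) (M 1 2))) (V (M 1 1) (H 1)))

/-- certificate -/
noncomputable def tr_b2 : Tr :=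
  V (V (V (V (V (X 3 2) (X 3 2)) (X 3 2)) (V (X 3 2) (X 3 2))) (V (V (X 3 2) (V (X 3 2) (G 3 2 6 59))) (V (V (V (G 3 2 6
  58) (G 3 2 6 59)) (V (V (G 3 2 6 59) (G 3 2 6 59)) (V (B (G 3 2 7 58) (G 3 2 6 59)) (B (G 3 2 6 59) (G 3 2 6 60))))) (V
  (V (V (B (V (G 1 2 6 59) (G 1 2 6 59)) (G 1 2 6 60)) (B (V (G 1 2 6 59) (B (G 1 2 6 59) (G 1 2 6 59))) (V (G 1 2 6 60)
  (G 1 2 6 60)))) (V (B (V (B (G 1 2 6 59) (G 1 2 6 59)) (B (V (G 1 2 6 59) (G 1 2 6 59)) (G 1 2 5 60))) (V (B (G 1 2 5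
  60) (G 1 2 7 59)) (B (G 1 2 6 60) (G 1 2 6 60)))) (B (V (B (V (G 1 2 6 59) (G 1 2 6 59)) (V (G 1 2 6 59) (G 1 2 6 59)))
  (B (V (B (G 1 2 6 59) (G 1 2 6 59)) (B (G 1 2 6 59) (G 1 2 6 59))) (V (G 1 2 5 60) (G 1 2 5 60)))) (V (B (G 1 2 6 60) (G
  1 2 6 60)) (B (V (G 1 2 5 60) (G 1 2 6 60)) (G 1 2 6 60)))))) (V (V (B (V (B (V (B (G 1 2 6 59) (G 1 2 6 59)) (B (V (G 1
  2 6 59) (G 1 2 6 59)) (G 1 2 6 59))) (V (B (G 1 2 6 59) (G 1 2 5 60)) (B (G 1 2 6 59) (G 1 2 5 60)))) (B (V (B (V (B (G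
  1 2 6 59) (G 1 2 6 59)) (B (G 1 2 6 59) (G 1 2 6 59))) (V (G 1 2 6 59) (G 1 2 6 59))) (B (V (B (G 1 2 6 59) (G 1 2 6
  59)) (B (V (G 1 2 6 59) (G 1 2 6 59)) (G 1 2 6 59))) (V (B (G 1 2 6 59) (G 1 2 6 59)) (B (G 1 2 6 59) (G 1 2 6 59)))))
  (V (B (V (G 1 2 6 59) (G 1 2 6 59)) (G 1 2 5 60)) (B (V (G 1 2 6 59) (G 1 2 5 60)) (V (G 1 2 5 60) (G 1 2 5 60)))))) (V
  (B (V (G 1 2 6 60) (B (G 1 2 5 60) (G 1 2 6 60))) (V (G 1 2 6 60) (G 1 2 6 60))) (B (V (B (G 1 2 5 60) (G 1 2 6 60)) (B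
  (G 1 2 6 60) (G 1 2 6 60))) (V (G 1 2 6 60) (B (G 1 2 6 60) (G 1 2 6 60)))))) (B (V (B (V (B (V (B (V (G 1 2 6 59) (G 1
  2 6 59)) (V (G 1 2 6 59) (G 1 2 6 59))) (B (V (B (M 1 3) (G 1 2 6 59)) (M 1 3)) (V (G 1 2 6 59) (G 1 2 6 59)))) (V (B (G
  1 2 6 59) (G 1 2 6 59)) (B (V (G 1 2 6 59) (G 1 2 6 59)) (G 1 2 6 59)))) (B (V (B (V (M 1 3) (M 1 3)) (V (B (G 1 2 6 59)
  (G 1 2 6 59)) (B (M 1 3) (G 1 2 6 59)))) (B (M 1 3) (V (B (M 1 3) (G 1 2 6 59)) (B (M 1 3) (V (M 1 3) (M 1 3)))))) (V (B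
  (V (G 1 2 6 59) (B (G 1 2 6 59) (G 1 2 6 59))) (V (G 1 2 6 59) (G 1 2 6 59))) (B (V (B (G 1 2 6 59) (G 1 2 6 59)) (B (G
  1 2 6 59) (G 1 2 6 59))) (V (G 1 2 6 59) (B (G 1 2 6 59) (G 1 2 6 59))))))) (V (B (V (B (G 1 2 6 59) (G 1 2 6 59)) (B (G
  1 2 6 59) (G 1 2 6 59))) (V (G 1 2 5 60) (G 1 2 5 60))) (B (V (B (G 1 2 6 59) (G 1 2 5 60)) (B (V (G 1 2 6 59) (G 1 2 6
  59)) (G 1 2 5 60))) (V (B (G 1 2 5 60) (G 1 2 5 60)) (B (G 1 2 5 60) (G 1 2 5 60)))))) (B (V (B (V (B (M 1 3) (V (M 1 3)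
  (M 1 3))) (M 1 3)) (V (B (V (B (V (G 1 2 6 59) (M 1 3)) (G 1 2 6 59)) (B (V (M 1 3) (M 1 3)) (V (G 1 2 6 59) (G 1 2 6
  59)))) (V (B (G 1 2 6 59) (G 1 2 6 59)) (B (G 1 2 6 59) (G 1 2 6 59)))) (B (V (B (M 1 3) (V (G 1 2 6 59) (M 1 3))) (B (M
  1 3) (V (M 1 3) (M 1 3)))) (V (B (V (G 1 2 6 59) (G 1 2 6 59)) (G 1 2 6 59)) (B (V (G 1 2 6 59) (B (G 1 2 6 59) (G 1 2 6
  59))) (V (G 1 2 6 59) (G 1 2 6 59))))))) (B (V (M 1 3) (M 1 3)) (V (B (V (M 1 3) (M 1 3)) (V (B (V (B (M 1 3) (M 1 2))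
  (M 1 2)) (V (M 1 2) (M 1 2))) (M 1 2))) (B (V (M 1 3) (M 1 2)) (M 1 2))))) (V (B (V (B (V (G 1 2 6 59) (B (G 1 2 6 59)
  (G 1 2 6 59))) (V (G 1 2 5 60) (G 1 2 5 60))) (B (V (B (G 1 2 6 59) (G 1 2 6 59)) (B (G 1 2 6 59) (M 1 2))) (V (B (G 1 2
  6 59) (M 1 2)) (M 1 2)))) (V (B (G 1 2 5 60) (G 1 2 5 60)) (M 1 2))) (B (V (B (V (M 1 2) (M 1 2)) (M 1 2)) (M 1 2)) (M 1
  2))))) (V (B (V (B (V (G 1 2 5 60) (G 1 2 5 60)) (G 1 2 6 60)) (B (V (G 1 2 5 60) (B (G 1 2 5 60) (M 1 2))) (V (G 1 2 6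
  60) (M 1 2)))) (V (B (G 1 2 6 60) (G 1 2 6 60)) (M 1 2))) (B (V (B (V (M 1 2) (M 1 2)) (M 1 2)) (M 1 2)) (M 1 2))))) (V
  (B (V (B (V (B (M 1 3) (V (M 1 2) (M 1 2))) (M 1 2)) (V (M 1 2) (M 1 2))) (M 1 2)) (V (M 1 2) (M 1 2))) (M 1 2))))))) (V
  (V (V (V (V (M 1 2) (M 1 2)) (M 1 2)) (M 1 2)) (M 1 2)) (H 1))

/-- certificate -/
noncomputable def tr_j2 : Tr :=
  V (V (V (W 0) (B (V (W 3) (B (V (W 3) (W 3)) (W 3))) (W 3))) (V (B (V (B (X 3 2) (W 3)) (B (X 3 2) (V (W 3) (X 3 2))))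
  (V (W 3) (W 3))) (B (V (B (V (X 3 2) (B (V (X 3 2) (X 3 2)) (X 3 2))) (V (X 3 2) (X 3 2))) (B (V (B (V (G 3 2 5 60) (G 3
  2 6 60)) (V (X 3 2) (G 3 2 6 61))) (B (V (B (G 3 2 6 59) (G 3 2 7 59)) (B (V (G 3 2 6 59) (G 3 2 6 60)) (G 3 2 6 61)))
  (V (G 3 2 6 63) (B (G 3 2 6 62) (G 1 2 7 62))))) (V (V (X 3 2) (B (X 3 2) (X 1 2))) (V (B (G 1 2 7 63) (X 1 2)) (B (V (G
  1 2 8 62) (G 1 2 7 63)) (V (X 1 2) (G 1 2 9 63))))))) (V (V (W 3) (B (V (W 3) (X 1 2)) (W 1))) (V (B (X 1 2) (W 1)) (B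
  (V (X 1 2) (B (V (M 1 2) (M 1 2)) (M 1 2))) (V (W 1) (W 1)))))))) (V (V (B (V (B (V (B (V (B (V (B (G 3 2 6 59) (G 3 2 7
  59)) (B (G 3 2 6 60) (G 1 2 6 60))) (V (G 1 2 6 61) (G 1 2 6 61))) (B (V (B (V (G 1 2 5 60) (G 1 2 6 60)) (G 1 2 6 60))
  (B (V (G 1 2 6 60) (B (G 1 2 5 60) (G 1 2 7 59))) (V (G 1 2 6 60) (G 1 2 6 60)))) (V (B (G 1 2 6 61) (G 1 2 7 60)) (B (G
  1 2 6 61) (G 1 2 6 61))))) (V (B (V (G 1 2 7 61) (G 1 2 7 61)) (G 1 2 6 63)) (B (V (G 1 2 6 62) (B (G 1 2 7 61) (G 1 2 7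
  61))) (V (G 1 2 7 62) (G 1 2 6 63))))) (B (V (B (V (B (V (B (G 1 2 6 60) (G 1 2 6 60)) (B (G 1 2 6 60) (G 1 2 6 60))) (V
  (G 1 2 6 60) (B (G 1 2 6 60) (G 1 2 6 60)))) (B (V (B (V (G 1 2 6 60) (G 1 2 6 60)) (G 1 2 6 60)) (B (V (G 1 2 6 60) (B
  (G 1 2 5 60) (G 1 2 6 60))) (V (G 1 2 6 60) (G 1 2 6 60)))) (V (B (G 1 2 6 60) (G 1 2 6 60)) (B (V (G 1 2 6 60) (G 1 2 6
  60)) (G 1 2 5 61))))) (V (B (V (G 1 2 6 61) (G 1 2 6 61)) (G 1 2 6 62)) (B (V (G 1 2 6 61) (B (G 1 2 6 61) (G 1 2 6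
  61))) (V (G 1 2 6 61) (M 1 2))))) (B (V (B (V (B (V (B (G 1 2 6 60) (G 1 2 6 60)) (B (V (G 1 2 5 60) (G 1 2 5 60)) (G 1
  2 6 60))) (V (B (G 1 2 6 60) (G 1 2 6 60)) (B (G 1 2 6 60) (G 1 2 6 60)))) (B (V (B (V (G 1 2 6 60) (B (G 1 2 5 60) (G 1
  2 5 60))) (V (G 1 2 6 60) (G 1 2 6 60))) (B (V (B (G 1 2 5 60) (M 1 2)) (M 1 2)) (V (M 1 2) (M 1 2)))) (V (B (G 1 2 6
  60) (M 1 2)) (M 1 2)))) (V (B (V (G 1 2 6 60) (G 1 2 6 60)) (V (G 1 2 6 60) (M 1 2))) (B (V (M 1 2) (M 1 2)) (M 1 2))))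
  (B (V (B (V (M 1 2) (M 1 2)) (M 1 2)) (M 1 2)) (V (M 1 2) (M 1 2)))) (V (B (V (M 1 2) (M 1 2)) (M 1 2)) (M 1 2)))) (V (B
  (V (B (G 1 2 6 62) (G 1 2 6 62)) (B (V (M 1 2) (M 1 2)) (M 1 2))) (V (G 1 2 6 63) (M 1 2))) (B (V (M 1 2) (M 1 2)) (M 1
  2))))) (V (V (B (V (B (G 1 2 8 61) (G 1 2 10 61)) (B (G 1 2 7 62) (G 1 2 8 62))) (V (M 1 2) (M 1 2))) (B (V (B (G 1 2 8
  62) (M 1 2)) (M 1 2)) (M 1 2))) (V (M 1 2) (M 1 2)))) (B (V (B (V (B (V (M 1 2) (M 1 2)) (M 1 2)) (M 1 2)) (V (M 1 2) (M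
  1 2))) (M 1 2)) (V (M 1 2) (M 1 2)))) (V (V (B (V (M 1 2) (M 1 2)) (M 1 2)) (M 1 2)) (M 1 2))) (B (V (M 1 2) (M 1 2)) (V
  (M 1 2) (M 1 2)))) (V (M 1 1) (H 1)))

/-- certificate -/
noncomputable def tr_r2 : Tr :=
  V (V (V (V (B (V (X 3 2) (X 3 2)) (V (B (X 3 2) (V (X 3 2) (X 3 2))) (B (X 3 2) (V (X 3 2) (X 3 2))))) (B (X 3 2) (V (B
  (X 3 2) (V (X 3 2) (X 3 2))) (B (X 3 2) (V (X 3 2) (X 3 2)))))) (V (B (X 3 2) (V (B (X 3 2) (V (X 3 2) (X 3 2))) (B (X 3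
  2) (V (X 3 2) (X 3 2))))) (B (X 3 2) (V (B (X 3 2) (V (X 3 2) (X 3 2))) (X 3 2))))) (V (V (B (X 3 2) (V (X 3 2) (X 3
  2))) (B (X 3 2) (V (X 3 2) (X 3 2)))) (V (B (V (X 3 2) (B (X 3 2) (X 3 2))) (V (X 1 2) (X 1 2))) (B (V (B (V (X 3 2) (G
  1 2 7 58)) (G 1 2 6 63)) (B (V (G 1 2 6 60) (M 1 2)) (V (M 1 2) (M 1 2)))) (V (B (V (X 1 2) (M 1 2)) (X 1 2)) (B (M 1 2)
  (M 1 2))))))) (V (V (V (B (V (B (M 1 2) (M 1 2)) (M 1 2)) (V (M 1 2) (M 1 2))) (B (M 1 2) (M 1 2))) (V (M 1 2) (M 1 2)))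
  (V (M 1 1) (H 1)))

theorem ck_a2 : chk 1270000 false (loA 1270000 988000 1999000) tr_a2 20000 410000 20000 500000 = true := by decide +kernel

theorem ck_c2 : chk 1270000 false (loA 1270000 988000 2000000) tr_c2 410000 495000 20000 500000 = true := by decide +kernel

theorem ck_b2 : chk 1270000 false (loA 1270000 988000 2000000) tr_b2 495000 505000 70000 500000 = true := by decide +kernel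

theorem ck_j2 : chk 1270000 true (loA 1270000 988000 2000000) tr_j2 500000 665000 0 500000 = true := by decide +kernel

theorem ck_r2 : chk 1270000 false (loR 1270000 988000 660000) tr_r2 500000 610000 20000 500000 = true := by decide +kernel

end Pool.Agent.Work.MP_a8fbd7_nt.OX.SQ.TabC

namespace Pool.Agent.Work.MP_a8fbd7_nt.OX.SQ

theorem tabA0_2 : TabA0 (127 / 100) (988 / 1000) :=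
  TabC.tabA0_of 1270000 988000 (by norm_num) (by norm_num) _ _ TabC.ck_a2 TabC.ck_c2

theorem tabB_2 : TabB (127 / 100) (988 / 1000) :=
  TabC.tabB_of 1270000 988000 (by norm_num) (by norm_num) _ TabC.ck_b2

theorem tabJ_2 : TabJ (127 / 100) (988 / 1000) :=
  TabC.tabJ_of 1270000 988000 665000 (by norm_num) (by norm_num) _ (by norm_num) TabC.ck_j2

theorem tabR_2 : TabR (127 / 100) (988 / 1000) :=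
  TabC.tabR_of 1270000 988000 660000 610000 (by norm_num) (by norm_num) (by norm_num) (by norm_num) _ (by norm_num) TabC.ck_r2

end Pool.Agent.Work.MP_a8fbd7_nt.OX.SQ
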